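import Pool.Agent.MP_66a317_pr.Defs

section

open MeasureTheory Metric Set
open scoped NNReal ENNReal

namespace Pool.Agent.MP_66a317_pr

theorem vol_eq_slices (S : Set ℂ) (hS : MeasurableSet S) :
    volume S = ∫⁻ y : ℝ, volume {x : ℝ | (⟨x, y⟩ : ℂ) ∈ S} := by
  have h := Complex.volume_preserving_equiv_real_prod.symm
  rw [← h.measure_preimage hS.nullMeasurableSet, Measure.volume_eq_prod,
    Measure.prod_apply_symm (h.measurable hS)]
  rfl

theorem lens0 {ρ d : ℝ} (hρ : 0 ≤ ρ) (hd : 0 ≤ d) :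
    volume (ball (d : ℂ) ρ \ ball (0 : ℂ) ρ) ≤ ENNReal.ofReal (2 * ρ * d) := by
  rw [vol_eq_slices _ (measurableSet_ball.diff measurableSet_ball)]
  have key : ∀ y : ℝ, volume {x : ℝ | (⟨x, y⟩ : ℂ) ∈ ball (d : ℂ) ρ \ ball (0 : ℂ) ρ} ≤
      (Ioo (-ρ) ρ).indicator (fun _ => ENNReal.ofReal d) y := by
    intro y
    have hsub : {x : ℝ | (⟨x, y⟩ : ℂ) ∈ ball (d : ℂ) ρ \ ball (0 : ℂ) ρ} ⊆
        {x | (x - d) ^ 2 + y ^ 2 < ρ ^ 2 ∧ ρ ^ 2 ≤ x ^ 2 + y ^ 2} := by
      rintro x ⟨h1, h2⟩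
      rw [mem_ball, Complex.dist_eq] at h1 h2
      have e1 : ‖(⟨x, y⟩ : ℂ) - d‖ ^ 2 = (x - d) ^ 2 + y ^ 2 := by
        rw [Complex.sq_norm, Complex.normSq_apply]
        simp
        ring
      have e2 : ‖(⟨x, y⟩ : ℂ) - 0‖ ^ 2 = x ^ 2 + y ^ 2 := by
        rw [Complex.sq_norm, Complex.normSq_apply]
        simp
        ring
      refine ⟨?_, ?_⟩
      · rw [← e1]
        exact pow_lt_pow_left₀ h1 (norm_nonneg _) two_ne_zero
      · rw [← e2]
        exact pow_le_pow_left₀ hρ (not_lt.1 h2) 2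
    refine (measure_mono hsub).trans ?_
    by_cases hy : y ∈ Ioo (-ρ) ρ
    · rw [indicator_of_mem hy]
      have hq : 0 ≤ ρ ^ 2 - y ^ 2 := by nlinarith [hy.1, hy.2]
      set q := Real.sqrt (ρ ^ 2 - y ^ 2) with hqdef
      have hq0 : 0 ≤ q := Real.sqrt_nonneg _
      have hq2 : q ^ 2 = ρ ^ 2 - y ^ 2 := Real.sq_sqrt hq
      have : {x | (x - d) ^ 2 + y ^ 2 < ρ ^ 2 ∧ ρ ^ 2 ≤ x ^ 2 + y ^ 2} ⊆ Icc q (q + d) := by
        rintro x ⟨h1, h2⟩
        have h3 : |x - d| < q := abs_lt_of_sq_lt_sq (by linarith) hq0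
        have h4 : q ≤ |x| := by
          rw [← Real.sqrt_sq_eq_abs]
          exact Real.sqrt_le_sqrt (by linarith)
        rw [abs_lt] at h3
        constructor
        · rcases le_abs.1 h4 with h | h
          · exact h
          · linarith [h3.1]
        · linarith [h3.2]
      refine (measure_mono this).trans ?_
      rw [Real.volume_Icc]
      simp
    · rw [indicator_of_notMem hy]
      have : {x | (x - d) ^ 2 + y ^ 2 < ρ ^ 2 ∧ ρ ^ 2 ≤ x ^ 2 + y ^ 2} = ∅ := by
        ext x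
        simp only [mem_ofPred_eq, mem_empty_iff_false, iff_false, not_and]
        intro h1
        exfalso
        apply hy
        have : |y| < ρ := abs_lt_of_sq_lt_sq (by nlinarith [sq_nonneg (x - d)]) hρ
        exact abs_lt.1 this
      rw [this, measure_empty]
  refine (lintegral_mono key).trans ?_
  rw [lintegral_indicator measurableSet_Ioo, setLIntegral_const, Real.volume_Ioo,
    ← ENNReal.ofReal_mul hd]
  exact ENNReal.ofReal_le_ofReal (le_of_eq (by ring))

theorem lens {ρ : ℝ} (hρ : 0 ≤ ρ) (c c' : ℂ) :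
    volume (ball c' ρ \ ball c ρ) ≤ ENNReal.ofReal (2 * ρ * dist c' c) := by
  by_cases h : c' = c
  · simp [h]
  have hn : ‖c' - c‖ ≠ 0 := norm_ne_zero_iff.2 (sub_ne_zero.2 h)
  have hn' : ((‖c' - c‖ : ℝ) : ℂ) ≠ 0 := by exact_mod_cast hn
  let a : Circle := ⟨(‖c' - c‖ : ℂ) / (c' - c), by
    simp [Submonoid.unitSphere, hn]⟩
  have ha : (a : ℂ) * (c' - c) = ‖c' - c‖ := div_mul_cancel₀ _ (sub_ne_zero.2 h)
  have hf : MeasurePreserving (fun z : ℂ => rotation a (z - c)) :=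
    (rotation a).measurePreserving.comp (measurePreserving_sub_right volume c)
  have hsub : ball c' ρ \ ball c ρ ⊆
      (fun z : ℂ => rotation a (z - c)) ⁻¹' (ball ((‖c' - c‖ : ℝ) : ℂ) ρ \ ball (0 : ℂ) ρ) := by
    rintro z ⟨h1, h2⟩
    rw [mem_ball, Complex.dist_eq] at h1 h2
    constructor
    · change rotation a (z - c) ∈ _
      rw [mem_ball, Complex.dist_eq, rotation_apply, ← ha, ← mul_sub, norm_mul, Circle.norm_coe,
        one_mul]
      simpa using h1
    · change rotation a (z - c) ∉ _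
      rw [mem_ball, Complex.dist_eq, rotation_apply, sub_zero, norm_mul, Circle.norm_coe, one_mul]
      exact h2
  refine (measure_mono hsub).trans ?_
  rw [hf.measure_preimage (measurableSet_ball.diff measurableSet_ball).nullMeasurableSet,
    Complex.dist_eq]
  exact lens0 hρ (norm_nonneg _)

theorem vol_ball {ρ : ℝ} (hρ : 0 ≤ ρ) (c : ℂ) :
    volume (ball c ρ) = ENNReal.ofReal (Real.pi * ρ ^ 2) := by
  rw [Complex.volume_ball, ENNReal.ofReal_mul Real.pi_pos.le, ENNReal.ofReal_pow hρ, mul_comm]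
  congr 1
  rw [← NNReal.coe_real_pi, ENNReal.ofReal_coe_nnreal]

theorem chain_fin (S : Set ℝ) (z : ℝ → ℂ) (ρ Φ : ℝ → ℝ) (ρ0 : ℝ)
    (h1 : ∀ t ∈ S, 0 ≤ ρ t ∧ ρ t ≤ ρ0) (h2 : ∀ t ∈ S, 0 ≤ Φ t)
    (h3 : ∀ s ∈ S, ∀ t ∈ S, s < t → ρ t ≤ ρ s ∧ 2 * ρ t * dist (z t) (z s) ≤ Φ t - Φ s)
    (F : Finset ℝ) : (↑F ⊆ S) → ∀ hF : F.Nonempty,
      volume (⋃ t ∈ F, ball (z t) (ρ t)) ≤ ENNReal.ofReal (Real.pi * ρ0 ^ 2 + Φ (F.max' hF)) := by
  classical
  induction F using Finset.induction_on_max with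
  | empty => intro _ hF; simp at hF
  | insert a s hs ih =>
    intro hsub hF
    have haS : a ∈ S := hsub (by simp)
    have hmax : (insert a s).max' hF = a := by
      apply le_antisymm
      · apply Finset.max'_le
        intro y hy
        rcases Finset.mem_insert.1 hy with rfl | hy
        · exact le_rfl
        · exact (hs y hy).le
      · exact Finset.le_max' _ _ (by simp)
    rw [hmax]
    have hpi := Real.pi_pos
    rcases s.eq_empty_or_nonempty with rfl | hne
    · simp only [insert_empty_eq, Finset.mem_singleton, iUnion_iUnion_eq_left]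
      rw [vol_ball (h1 a haS).1]
      apply ENNReal.ofReal_le_ofReal
      have := h2 a haS
      have h4 : ρ a ^ 2 ≤ ρ0 ^ 2 := pow_le_pow_left₀ (h1 a haS).1 (h1 a haS).2 2
      nlinarith
    · have hsS : (↑s : Set ℝ) ⊆ S := fun y hy => hsub (by simp [Finset.mem_coe.1 hy])
      have hm := s.max'_mem hne
      have hmS := hsS hm
      obtain ⟨g1, g2⟩ := h3 _ hmS a haS (hs _ hm)
      have hcov : (⋃ t ∈ insert a s, ball (z t) (ρ t)) ⊆
          (⋃ t ∈ s, ball (z t) (ρ t)) ∪ (ball (z a) (ρ a) \ ball (z (s.max' hne)) (ρ a)) := by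
        intro x hx
        simp only [Finset.mem_insert, iUnion_iUnion_eq_or_left, mem_union] at hx
        rcases hx with hx | hx
        · by_cases hx2 : x ∈ ball (z (s.max' hne)) (ρ a)
          · left
            exact mem_biUnion (Finset.mem_coe.2 hm) (ball_subset_ball g1 hx2)
          · exact Or.inr ⟨hx, hx2⟩
        · exact Or.inl hx
      refine (measure_mono hcov).trans ((measure_union_le _ _).trans ?_)
      refine (add_le_add (ih hsS hne) (lens (h1 a haS).1 _ _)).trans ?_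
      rw [← ENNReal.ofReal_add (add_nonneg (by positivity) (h2 _ hmS))
        (mul_nonneg (mul_nonneg zero_le_two (h1 a haS).1) dist_nonneg)]
      exact ENNReal.ofReal_le_ofReal (by linarith)

theorem chain (S : Set ℝ) (hS : S.Countable) (z : ℝ → ℂ) (ρ Φ : ℝ → ℝ) (ρ0 B : ℝ)
    (h1 : ∀ t ∈ S, 0 ≤ ρ t ∧ ρ t ≤ ρ0) (h2 : ∀ t ∈ S, 0 ≤ Φ t ∧ Φ t ≤ B)
    (h3 : ∀ s ∈ S, ∀ t ∈ S, s < t → ρ t ≤ ρ s ∧ 2 * ρ t * dist (z t) (z s) ≤ Φ t - Φ s) :
    volume (⋃ t ∈ S, ball (z t) (ρ t)) ≤ ENNReal.ofReal (Real.pi * ρ0 ^ 2 + B) := by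
  classical
  have hc := hS.to_subtype
  have e : (⋃ t ∈ S, ball (z t) (ρ t)) = ⋃ F : Finset S, ⋃ t ∈ F, ball (z t) (ρ t) := by
    ext x
    simp only [mem_iUnion]
    constructor
    · rintro ⟨t, ht, hx⟩
      exact ⟨{⟨t, ht⟩}, ⟨t, ht⟩, by simp, hx⟩
    · rintro ⟨_, t, _, hx⟩
      exact ⟨t, t.2, hx⟩
  have hmono : Monotone fun F : Finset S => ⋃ t ∈ F, ball (z t) (ρ t) :=
    fun F G h x hx => by
      simp only [mem_iUnion] at hx ⊢
      obtain ⟨t, ht, hx⟩ := hx
      exact ⟨t, h ht, hx⟩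
  rw [e, hmono.directed_le.measure_iUnion]
  refine iSup_le fun F => ?_
  rcases F.eq_empty_or_nonempty with rfl | hne
  · simp
  have hsub : (↑(F.image Subtype.val) : Set ℝ) ⊆ S := by
    intro y hy
    obtain ⟨t, _, rfl⟩ := Finset.mem_image.1 (Finset.mem_coe.1 hy)
    exact t.2
  have h := chain_fin S z ρ Φ ρ0 h1 (fun t ht => (h2 t ht).1) h3 (F.image Subtype.val) hsub
    (hne.image _)
  rw [Finset.set_biUnion_finset_image] at h
  refine h.trans (ENNReal.ofReal_le_ofReal ?_)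
  have := (h2 _ (hsub (Finset.max'_mem _ (hne.image Subtype.val)))).2
  linarith

end Pool.Agent.MP_66a317_pr

end

section

open MeasureTheory Metric Set
open scoped NNReal ENNReal

namespace Pool.Agent.MP_66a317_pr

theorem dist_toNNReal_le (s t : ℝ) : dist s.toNNReal t.toNNReal ≤ |s - t| := by
  rw [NNReal.dist_eq, Real.coe_toNNReal', Real.coe_toNNReal']
  exact abs_max_sub_max_le_abs s t 0

theorem value_le_one (r w : ℝ) (A : ℂ) : value r w A ≤ 1 ∨ IsEmpty (Traj 0 w) := by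
  rcases isEmpty_or_nonempty (Traj 0 w) with h | h
  · exact Or.inr h
  · left
    obtain ⟨h0⟩ := h
    exact iSup_le fun μ => (iInf_le _ h0).trans prob_le_one

theorem value_le_one' (r : ℝ) {w : ℝ} (hw : 0 ≤ w) (A : ℂ) : value r w A ≤ 1 := by
  rcases value_le_one r w A with h | h
  · exact h
  · exact (h.false ⟨fun _ => 0, rfl, fun s t => by simp; positivity⟩).elim

theorem value_le {r r' w : ℝ} (A : ℂ) (hr : r < r') (hw : 0 ≤ w) (D : Set ℂ) (hD : MeasurableSet D)
    (hD0 : volume D ≠ 0) (hDt : volume D ≠ ⊤) (H : ℂ → ℝ → ℂ)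
    (hH : ∀ p ∈ D, H p 0 = 0 ∧ ∀ s t : ℝ, 0 ≤ s → 0 ≤ t → dist (H p s) (H p t) ≤ w * |s - t|)
    (hm : ∀ t, Measurable fun p => H p t) (B : ℝ≥0∞)
    (hB : ∀ σ : ℝ → ℂ, σ 0 = A → (∀ s t, dist (σ s) (σ t) ≤ |s - t|) →
      volume {p | p ∈ D ∧ ∃ q : ℚ, 0 ≤ (q : ℝ) ∧ dist (σ q) (H p q) < r'} ≤ B) :
    value r w A ≤ B / volume D := by
  refine iSup_le fun μ => ?_
  set I := ⨅ h : Traj 0 w, (μ : Measure (Traj A 1)) {σ | ∃ t : ℝ≥0, dist (σ.1 t) (h.1 t) ≤ r}
    with hI
  set E : Set (Traj A 1 × ℂ) :=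
    {x | x.2 ∈ D ∧ ∃ q : ℚ, 0 ≤ (q : ℝ) ∧ dist (x.1.1 (q : ℝ).toNNReal) (H x.2 q) < r'} with hE
  have hEm : MeasurableSet E := by
    refine (measurable_snd hD).inter ?_
    change MeasurableSet {x : Traj A 1 × ℂ |
      ∃ q : ℚ, 0 ≤ (q : ℝ) ∧ dist (x.1.1 (q : ℝ).toNNReal) (H x.2 q) < r'}
    rw [ofPred_exists]
    refine MeasurableSet.iUnion fun q => (MeasurableSet.const _).inter ?_
    refine measurableSet_lt (Measurable.dist ?_ ((hm q).comp measurable_snd)) measurable_const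
    exact (measurable_pi_apply _).comp (measurable_subtype_coe.comp measurable_fst)
  have h1 : ∀ p ∈ D, I ≤ (μ : Measure (Traj A 1)) ((fun σ => (σ, p)) ⁻¹' E) := by
    intro p hp
    obtain ⟨g0, g1⟩ := hH p hp
    let h : Traj 0 w := ⟨fun t => H p t, g0, fun s t => g1 s t s.2 t.2⟩
    refine (iInf_le _ h).trans (measure_mono ?_)
    rintro σ ⟨t, ht⟩
    have hδ : 0 < (r' - r) / (1 + w) := div_pos (by linarith) (by linarith)
    obtain ⟨q, hq1, hq2⟩ := exists_rat_btwn (show (t : ℝ) < t + (r' - r) / (1 + w) by linarith)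
    have hq0 : 0 ≤ (q : ℝ) := t.2.trans hq1.le
    refine ⟨hp, q, hq0, ?_⟩
    have a1 := σ.2.2 (q : ℝ).toNNReal t
    have a2 := g1 t q t.2 hq0
    rw [NNReal.dist_eq, Real.coe_toNNReal _ hq0, abs_of_pos (by linarith), one_mul] at a1
    rw [abs_sub_comm, abs_of_pos (by linarith)] at a2
    have a3 := dist_triangle4 (σ.1 (q : ℝ).toNNReal) (σ.1 t) (H p t) (H p q)
    have a4 : ((q : ℝ) - t) * (1 + w) < r' - r := (lt_div_iff₀ (by linarith)).1 (by linarith)
    change dist (σ.1 t) (H p t) ≤ r at ht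
    change dist (σ.1 (q : ℝ).toNNReal) (H p q) < r'
    linarith
  have h2 : I * volume D ≤ ((μ : Measure (Traj A 1)).prod volume) E := by
    rw [Measure.prod_apply_symm hEm, ← setLIntegral_const]
    refine (setLIntegral_mono' hD h1).trans (setLIntegral_le_lintegral _ _)
  have h3 : ((μ : Measure (Traj A 1)).prod volume) E ≤ B := by
    rw [Measure.prod_apply hEm]
    calc _ ≤ ∫⁻ _, B ∂(μ : Measure (Traj A 1)) := by
          refine lintegral_mono fun σ => ?_
          exact hB (fun t => σ.1 t.toNNReal) (by simpa using σ.2.1) fun s t =>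
            (σ.2.2 _ _).trans (by rw [one_mul]; exact dist_toNNReal_le s t)
      _ = B := by simp
  rw [ENNReal.le_div_iff_mul_le (Or.inl hD0) (Or.inl hDt)]
  exact h2.trans h3

theorem static_tube (σ : ℝ → ℂ) (hσ : ∀ s t, dist (σ s) (σ t) ≤ |s - t|) {r T : ℝ} (hr : 0 ≤ r) :
    volume {p : ℂ | ∃ q : ℚ, 0 ≤ (q : ℝ) ∧ (q : ℝ) ≤ T ∧ dist (σ q) p < r} ≤
      ENNReal.ofReal (Real.pi * r ^ 2 + 2 * r * T) := by
  have h := chain {t | t ∈ range ((↑) : ℚ → ℝ) ∧ 0 ≤ t ∧ t ≤ T}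
    ((countable_range _).mono fun t ht => ht.1) σ (fun _ => r) (fun t => 2 * r * t) r (2 * r * T)
    (fun _ _ => ⟨hr, le_rfl⟩)
    (fun t ht => ⟨by have := ht.2.1; positivity, by have := ht.2.2; gcongr⟩)
    (fun s _ t _ hst => ⟨le_rfl, by
      have := hσ t s
      rw [abs_of_pos (by linarith)] at this
      nlinarith⟩)
  refine le_trans (measure_mono ?_) h
  rintro p ⟨q, h0, h1, h2⟩
  exact mem_biUnion (x := (q : ℝ)) ⟨⟨q, rfl⟩, h0, h1⟩ (by rwa [mem_ball, dist_comm])

theorem expand_tube (σ : ℝ → ℂ) (hσ : ∀ s t, dist (σ s) (σ t) ≤ |s - t|) {r w T : ℝ} (hr : 0 ≤ r)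
    (hw : 0 ≤ w) (hT : 0 < T) :
    volume {p : ℂ | ‖p‖ ≤ w * T ∧ ∃ q : ℚ, T ≤ (q : ℝ) ∧ dist (σ q) ((((q : ℝ) / T : ℝ) : ℂ) * p) < r} ≤
      ENNReal.ofReal (Real.pi * r ^ 2 + 2 * r * (T * (1 + w) + r)) := by
  have h := chain {t | t ∈ range ((↑) : ℚ → ℝ) ∧ T ≤ t ∧ ‖σ t‖ ≤ w * t + r}
    ((countable_range _).mono fun t ht => ht.1) (fun t => ((T / t : ℝ) : ℂ) * σ t)
    (fun t => r * (T / t)) (fun t => 2 * r * (T * (1 + w) + r) * (1 - T / t)) r
    (2 * r * (T * (1 + w) + r))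
    (fun t ht => by
      have h1 := ht.2.1
      have h2 : T / t ≤ 1 := (div_le_one (by linarith)).2 h1
      have h3 : 0 ≤ T / t := div_nonneg hT.le (by linarith)
      exact ⟨by positivity, by nlinarith⟩)
    (fun t ht => by
      have h1 := ht.2.1
      have h2 : T / t ≤ 1 := (div_le_one (by linarith)).2 h1
      have h3 : 0 ≤ T / t := div_nonneg hT.le (by linarith)
      have h4 : 0 ≤ 2 * r * (T * (1 + w) + r) := by positivity
      exact ⟨mul_nonneg h4 (by linarith), by nlinarith⟩)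
    (fun s hs t ht hst => by
      have h1 := hs.2.1
      have hs0 : 0 < s := by linarith
      have ht0 : 0 < t := by linarith
      have h2 : T / t ≤ T / s := div_le_div_of_nonneg_left hT.le hs0 hst.le
      refine ⟨by gcongr, ?_⟩
      have h3 := hσ t s
      rw [abs_of_pos (by linarith), Complex.dist_eq] at h3
      have h4 := hs.2.2
      have h5 : dist (((T / t : ℝ) : ℂ) * σ t) (((T / s : ℝ) : ℂ) * σ s) ≤
          T / t * (t - s) + (T / s - T / t) * (w * s + r) := by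
        have e : ((T / t : ℝ) : ℂ) * σ t - ((T / s : ℝ) : ℂ) * σ s =
            ((T / t : ℝ) : ℂ) * (σ t - σ s) - ((T / s - T / t : ℝ) : ℂ) * σ s := by
          push_cast
          ring
        rw [Complex.dist_eq, e]
        refine (norm_sub_le _ _).trans ?_
        rw [norm_mul, norm_mul, Complex.norm_real, Complex.norm_real, Real.norm_eq_abs,
          Real.norm_eq_abs, abs_of_nonneg (by positivity), abs_of_nonneg (by linarith)]
        have : 0 ≤ T / s - T / t := by linarith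
        gcongr
      have h6 : T / t * (T / t * (t - s) + (T / s - T / t) * (w * s + r)) ≤
          (T * (1 + w) + r) * (T / s - T / t) := by
        have e1 : T / t * (t - s) = s * (T / s - T / t) := by field_simp
        have h7 : 0 ≤ T / s - T / t := by linarith
        have h8 : T / t * s ≤ T := by
          rw [div_mul_eq_mul_div, div_le_iff₀ ht0]
          nlinarith
        have h9 : T / t ≤ 1 := (div_le_one ht0).2 (by linarith)
        rw [e1]
        calc _ = (T / t * s * (1 + w) + T / t * r) * (T / s - T / t) := by ring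
          _ ≤ (T * (1 + w) + 1 * r) * (T / s - T / t) := by gcongr
          _ = _ := by ring
      have h10 : 0 ≤ T / t := by positivity
      calc 2 * (r * (T / t)) * dist (((T / t : ℝ) : ℂ) * σ t) (((T / s : ℝ) : ℂ) * σ s)
          ≤ 2 * (r * (T / t)) * (T / t * (t - s) + (T / s - T / t) * (w * s + r)) := by gcongr
        _ = 2 * r * (T / t * (T / t * (t - s) + (T / s - T / t) * (w * s + r))) := by ring
        _ ≤ 2 * r * ((T * (1 + w) + r) * (T / s - T / t)) := by gcongr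
        _ = _ := by ring)
  refine le_trans (measure_mono ?_) h
  rintro p ⟨hp, q, h0, h1⟩
  have hq : (0 : ℝ) < q := by linarith
  refine mem_biUnion (x := (q : ℝ)) ⟨⟨q, rfl⟩, h0, ?_⟩ ?_
  · have a1 := norm_le_norm_add_norm_sub' (σ q) ((((q : ℝ) / T : ℝ) : ℂ) * p)
    rw [← Complex.dist_eq, norm_mul, Complex.norm_real, Real.norm_eq_abs,
      abs_of_nonneg (by positivity)] at a1
    have a2 : (q : ℝ) / T * ‖p‖ ≤ w * q := by
      calc _ ≤ (q : ℝ) / T * (w * T) := by gcongr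
        _ = _ := by field_simp
    linarith
  · rw [mem_ball, Complex.dist_eq]
    have e : p - ((T / q : ℝ) : ℂ) * σ q =
        ((T / q : ℝ) : ℂ) * ((((q : ℝ) / T : ℝ) : ℂ) * p - σ q) := by
      have h1 : (T : ℂ) ≠ 0 := by exact_mod_cast hT.ne'
      have h2 : ((q : ℝ) : ℂ) ≠ 0 := by exact_mod_cast hq.ne'
      rw [Complex.ofReal_div, Complex.ofReal_div]
      field_simp
    rw [e, norm_mul, Complex.norm_real, Real.norm_eq_abs, abs_of_pos (by positivity),
      ← Complex.dist_eq, dist_comm, mul_comm r]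
    exact mul_lt_mul_of_pos_left h1 (by positivity)

/-- the hider picks a velocity uniformly in the disc of radius `w` -/
theorem value_le_velocity {r r' w : ℝ} (A : ℂ) (hr0 : 0 ≤ r) (hr : r < r') (hw : 0 < w)
    (hA : r' < ‖A‖) :
    value r w A ≤ ENNReal.ofReal
      ((Real.pi * r' ^ 2 + 2 * r' * ((‖A‖ - r') + r')) /
        (Real.pi * (w * ((‖A‖ - r') / (1 + w))) ^ 2)) := by
  set T := (‖A‖ - r') / (1 + w) with hT
  have hT0 : 0 < T := div_pos (by linarith) (by linarith)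
  have hpi := Real.pi_pos
  have hv := vol_ball (ρ := w * T) (by positivity) 0
  have h := value_le A hr hw.le (ball 0 (w * T)) measurableSet_ball
    (by rw [hv]; exact (ENNReal.ofReal_pos.2 (by positivity)).ne')
    (by rw [hv]; exact ENNReal.ofReal_ne_top) (fun p t => ((t / T : ℝ) : ℂ) * p)
    (fun p hp => ⟨by simp, fun s t _ _ => by
      rw [mem_ball_zero_iff] at hp
      rw [Complex.dist_eq, ← sub_mul, ← Complex.ofReal_sub, norm_mul, Complex.norm_real,
        Real.norm_eq_abs, ← sub_div, abs_div, abs_of_pos hT0]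
      calc _ ≤ |s - t| / T * (w * T) := by gcongr
        _ = _ := by field_simp⟩)
    (fun t => measurable_const.mul measurable_id)
    (ENNReal.ofReal (Real.pi * r' ^ 2 + 2 * r' * (T * (1 + w) + r')))
    (fun σ h0 hσ => by
      refine le_trans (measure_mono ?_) (expand_tube σ hσ (by linarith) hw.le hT0)
      rintro p ⟨hp, q, hq0, hq⟩
      rw [mem_ball_zero_iff] at hp
      refine ⟨hp.le, q, ?_, hq⟩
      have a1 := hσ 0 q
      rw [h0, zero_sub, abs_neg, abs_of_nonneg hq0] at a1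
      have a2 : ‖(((q : ℝ) / T : ℝ) : ℂ) * p‖ ≤ w * q := by
        rw [norm_mul, Complex.norm_real, Real.norm_eq_abs, abs_of_nonneg (by positivity)]
        calc _ ≤ (q : ℝ) / T * (w * T) := by gcongr
          _ = _ := by field_simp
      have a3 := dist_triangle4 A (σ q) ((((q : ℝ) / T : ℝ) : ℂ) * p) 0
      rw [dist_zero_right, dist_zero_right] at a3
      rw [hT, div_le_iff₀ (by linarith)]
      linarith)
  rw [hv, ← ENNReal.ofReal_div_of_pos (by positivity)] at h
  have e : T * (1 + w) = ‖A‖ - r' := by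
    rw [hT]
    field_simp
  rwa [e] at h

end Pool.Agent.MP_66a317_pr

end
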