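import Pool.Agent.Mg.F66a317.G186a0f
import Pool.Agent.Mg.F66a317.G5afe50

open MeasureTheory Metric Set
open scoped NNReal ENNReal

namespace Pool.Agent.MP_66a317_pr

theorem tele {x Δ : ℝ} (hx : 0 < x) (hΔ : 0 < Δ) (N : ℕ) :
    1 / x - 1 / (x + N * Δ) ≤ ∑ j ∈ Finset.range N, Δ / (x + j * Δ) ^ 2 := by
  induction N with
  | zero => simp
  | succ n ih =>
    rw [Finset.sum_range_succ]
    have h0 : 0 < x + n * Δ := by positivity
    have h1 : 1 / (x + n * Δ) - 1 / (x + ((n + 1 : ℕ) : ℝ) * Δ) ≤ Δ / (x + n * Δ) ^ 2 := by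
      push_cast
      have e : 1 / (x + n * Δ) - 1 / (x + ((n : ℝ) + 1) * Δ) =
          Δ / ((x + n * Δ) * (x + ((n : ℝ) + 1) * Δ)) := by
        field_simp
        ring
      rw [e]
      apply div_le_div_of_nonneg_left hΔ.le (by positivity)
      nlinarith
    linarith

theorem slow_lower (K : ℕ) (hK : 8 ≤ K) {A : ℂ} (hA : A ≠ 0) {r w u : ℝ} (hu : u * (K + 2) = 1)
    (hr : 0 < r) (hw : 0 < w) (hw1 : w ≤ u ^ 4 / 4) (hr1 : r < u ^ 6 / 4 * (w * ‖A‖)) :
    ENNReal.ofReal (1 - Real.exp (-((1 - 11 * u) * (2 * r / (Real.pi * w ^ 2 * ‖A‖))))) ≤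
      value r w A := by
  have hR : 0 < ‖A‖ := norm_pos_iff.2 hA
  have hpi := Real.pi_pos
  set R := ‖A‖ with hRdef
  set M : ℝ := K + 2 with hM
  have hM10 : 10 ≤ M := by
    have : (8 : ℝ) ≤ K := by exact_mod_cast hK
    linarith
  have hue : u = 1 / M := by field_simp; linarith
  have hu0 : 0 < u := by rw [hue]; positivity
  have hu1 : u ≤ 1 / 10 := by rw [hue]; exact one_div_le_one_div_of_le (by norm_num) hM10
  have hu4 : u ^ 4 ≤ u := by
    calc u ^ 4 = u * u ^ 3 := by ring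
      _ ≤ u * 1 ^ 3 := by gcongr; linarith
      _ = u := by ring
  have hu6 : u ^ 6 ≤ u := by
    calc u ^ 6 = u * u ^ 5 := by ring
      _ ≤ u * 1 ^ 5 := by gcongr; linarith
      _ = u := by ring
  have hu40 : 0 < u ^ 4 := by positivity
  have hwR : 0 < w * R := by positivity
  set Δ : ℝ := 2 * M ^ 3 * (w * R) with hΔ
  have hΔ0 : 0 < Δ := by positivity
  have eΔ : ((2 * (K + 2) ^ 3 * K + 2 * (2 * (K + 2) ^ 3) : ℕ) : ℝ) * (u * (w * R)) = Δ := by
    push_cast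
    rw [hΔ, ← hM]
    have : (K : ℝ) = M - 2 := by linarith
    rw [this]
    linear_combination (2 * M ^ 3 * (w * R)) * hu
  have eη : u ^ 4 / 2 * Δ = u * (w * R) := by
    rw [hΔ, hue]
    field_simp
  have hΔu : Δ ≤ u * R := by
    calc Δ = 2 * M ^ 3 * (w * R) := rfl
      _ ≤ 2 * M ^ 3 * (u ^ 4 / 2 * R) := by gcongr; linarith
      _ = u * R := by rw [hue]; field_simp
  set N := ⌊(M - 1) * R / Δ⌋₊ with hN
  have hN1 : N * Δ ≤ (M - 1) * R := by
    rw [← le_div_iff₀ hΔ0]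
    exact Nat.floor_le (div_nonneg (mul_nonneg (by linarith) hR.le) hΔ0.le)
  have hN2 : (M - 1) * R ≤ (N + 1) * Δ := by
    rw [← div_le_iff₀ hΔ0]
    exact (Nat.lt_floor_add_one _).le
  have h := value_ge hA (r := r) (w := w) (P := u * (w * R)) (η := u ^ 4 / 2)
    (a := 1 - u - u ^ 4 / 2) (g := u * (u * (w * R))) (ρm := 2 * M * (w * R))
    (2 * (K + 2) ^ 3 * K) (2 * (K + 2) ^ 3) N (fun j => w * (R + Δ + 3 * u * R + j * Δ)) hr hw.le
    (by positivity) (by positivity)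
    (by
      calc r < u ^ 6 / 4 * (w * R) := hr1
        _ = u ^ 4 / 4 * (u * (u * (w * R))) := by ring
        _ ≤ _ := by gcongr; linarith)
    (by positivity) (by nlinarith [mul_pos hu0 hwR]) (by linarith) (by positivity)
    (by
      push_cast
      rw [← hM]
      have : 2 * M * (w * R) / (2 * M ^ 3 * (u * (w * R))) = u := by
        rw [hue]
        field_simp
      rw [this]
      linarith)
    (fun j hj => by
      rw [eΔ, eη, ← hRdef]
      have a1 : (j : ℝ) + 1 ≤ N := by exact_mod_cast hj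
      have a2 : ((j : ℝ) + 1) * Δ ≤ N * Δ := by gcongr
      have a3 : 0 < u * (w * R) := by positivity
      have a4 : u ^ 6 / 4 * (w * R) ≤ u * (w * R) := by gcongr; linarith
      constructor
      · have : (1 - u - u ^ 4 / 2) * (u * (w * R)) ≤ 1 * (u * (w * R)) := by gcongr; linarith
        linarith
      · have : R + Δ + 3 * u * R + j * Δ ≤ 2 * M * R := by nlinarith
        calc _ ≤ w * (2 * M * R) := by gcongr
          _ = _ := by ring)
  refine le_trans (ENNReal.ofReal_le_ofReal ?_) h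
  refine sub_le_sub_left (Real.exp_le_exp.2 (neg_le_neg ?_)) _
  have hx0 : 0 < R + Δ + 3 * u * R := by positivity
  have t1 := tele hx0 hΔ0 N
  have t2 : (1 - 5 * u) / R ≤ 1 / (R + Δ + 3 * u * R) - 1 / (R + Δ + 3 * u * R + N * Δ) := by
    have b1 : 1 / (R + Δ + 3 * u * R + N * Δ) ≤ u / R := by
      rw [div_le_div_iff₀ (by positivity) hR]
      have : M * R ≤ R + Δ + 3 * u * R + N * Δ := by nlinarith [mul_pos hu0 hR]
      calc 1 * R = u * (M * R) := by rw [← mul_assoc, hu]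
        _ ≤ _ := by gcongr
    have b2 : (1 - 4 * u) / R ≤ 1 / (R + Δ + 3 * u * R) := by
      rw [div_le_div_iff₀ hR hx0]
      calc (1 - 4 * u) * (R + Δ + 3 * u * R) ≤ (1 - 4 * u) * (R + u * R + 3 * u * R) := by
            gcongr; linarith
        _ ≤ _ := by nlinarith [mul_pos (mul_pos hu0 hu0) hR]
    have e : (1 - 5 * u) / R = (1 - 4 * u) / R - u / R := by ring
    linarith
  have eV : ((2 * (K + 2) ^ 3 * K : ℕ) : ℝ) * (2 * r * ((1 - u - u ^ 4 / 2 - w) *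
      (u * (w * R) - 2 * (u * (u * (w * R)))))) =
      2 * r * ((1 - 2 * u) ^ 2 * (1 - u - u ^ 4 / 2 - w)) * Δ := by
    push_cast
    rw [hΔ, ← hM]
    have : (K : ℝ) = M - 2 := by linarith
    rw [this]
    linear_combination
      (2 * M ^ 3 * (w * R) * (2 * r) * (1 - u - u ^ 4 / 2 - w) * (1 - 2 * u)) * hu
  have hθ : 1 - 6 * u ≤ (1 - 2 * u) ^ 2 * (1 - u - u ^ 4 / 2 - w) := by
    have : (1 - 2 * u) ^ 2 * (1 - 2 * u) ≤ (1 - 2 * u) ^ 2 * (1 - u - u ^ 4 / 2 - w) :=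
      mul_le_mul_of_nonneg_left (by linarith) (sq_nonneg _)
    nlinarith [mul_pos hu0 hu0]
  rw [eV]
  calc (1 - 11 * u) * (2 * r / (Real.pi * w ^ 2 * R))
      ≤ ((1 - 6 * u) * (1 - 5 * u)) * (2 * r / (Real.pi * w ^ 2 * R)) := by
        gcongr; nlinarith [mul_pos hu0 hu0]
    _ = 2 * r * (1 - 6 * u) / (Real.pi * w ^ 2) * ((1 - 5 * u) / R) := by field_simp
    _ ≤ 2 * r * ((1 - 2 * u) ^ 2 * (1 - u - u ^ 4 / 2 - w)) / (Real.pi * w ^ 2) *
          ∑ j ∈ Finset.range N, Δ / (R + Δ + 3 * u * R + j * Δ) ^ 2 := by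
        have c1 : 0 ≤ (1 - 5 * u) / R := div_nonneg (by linarith) hR.le
        have c2 : 0 ≤ (1 - 2 * u) ^ 2 * (1 - u - u ^ 4 / 2 - w) := by linarith
        gcongr
        exact t2.trans t1
    _ = _ := by
        rw [Finset.mul_sum]
        refine Finset.sum_congr rfl fun j _ => ?_
        have : 0 < R + Δ + 3 * u * R + j * Δ := by positivity
        field_simp

theorem slow_upper {A : ℂ} (hA : A ≠ 0) {r w u : ℝ} (hu1 : u ≤ 1 / 10)
    (hr : 0 < r) (hw : 0 < w) (hw1 : w ≤ u) (hr1 : 2 * r ≤ u * ‖A‖) :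
    value r w A ≤ ENNReal.ofReal ((1 + 11 * u) * (2 * r / (Real.pi * w ^ 2 * ‖A‖))) := by
  have hR : 0 < ‖A‖ := norm_pos_iff.2 hA
  have hpi := Real.pi_pos
  have hpi4 := Real.pi_le_four
  have hu0 : 0 < u := by linarith
  have h1 : r * (1 + w) ≤ u * ‖A‖ := by nlinarith
  have h2 : u * ‖A‖ ≤ 1 / 10 * ‖A‖ := by gcongr
  have h := value_le_velocity (r := r) (r' := r * (1 + w)) (w := w) A hr.le (by nlinarith) hw
    (by linarith)
  refine h.trans (ENNReal.ofReal_le_ofReal ?_)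
  set R := ‖A‖
  have h3 : 0 < R - r * (1 + w) := by linarith
  have e : (Real.pi * (r * (1 + w)) ^ 2 + 2 * (r * (1 + w)) * (R - r * (1 + w) + r * (1 + w))) /
      (Real.pi * (w * ((R - r * (1 + w)) / (1 + w))) ^ 2) =
      ((1 + w) ^ 3 * (R + Real.pi / 2 * (r * (1 + w))) * R / (R - r * (1 + w)) ^ 2) *
        (2 * r / (Real.pi * w ^ 2 * R)) := by
    field_simp
    ring
  rw [e]
  refine mul_le_mul_of_nonneg_right ?_ (by positivity)
  rw [div_le_iff₀ (by positivity)]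
  calc (1 + w) ^ 3 * (R + Real.pi / 2 * (r * (1 + w))) * R
      ≤ (1 + u) ^ 3 * (R + 4 / 2 * (u * R)) * R := by gcongr
    _ = ((1 + u) ^ 3 * (1 + 2 * u)) * R ^ 2 := by ring
    _ ≤ ((1 + 11 * u) * (1 - u) ^ 2) * R ^ 2 := by
        refine mul_le_mul_of_nonneg_right ?_ (sq_nonneg _)
        have a1 : u ^ 2 ≤ u / 10 := by nlinarith
        have a2 : 0 ≤ u ^ 3 := by positivity
        have a3 : u ^ 4 ≤ u ^ 3 := by nlinarith
        nlinarith
    _ = (1 + 11 * u) * (R - u * R) ^ 2 := by ring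
    _ ≤ _ := by gcongr; linarith

theorem slow_hider (Λ ε : ℝ) (hε : 0 < ε) : ∃ w₀ : ℝ, 0 < w₀ ∧ ∀ (r w : ℝ) (A : ℂ),
    0 < r → 0 < w → w < w₀ → r ≤ Λ * (w ^ 2 * ‖A‖) →
      ENNReal.ofReal (1 - Real.exp (-((1 - ε) * (2 * r / (Real.pi * w ^ 2 * ‖A‖))))) ≤
          value r w A ∧
        value r w A ≤ ENNReal.ofReal ((1 + ε) * (2 * r / (Real.pi * w ^ 2 * ‖A‖))) := by
  obtain ⟨K0, hK0⟩ := exists_nat_ge (11 / ε)
  set K := max K0 8 with hK
  have hK8 : 8 ≤ K := le_max_right _ _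
  have hKr : (8 : ℝ) ≤ K := by exact_mod_cast hK8
  have hKK : (K0 : ℝ) ≤ K := by exact_mod_cast le_max_left _ _
  set u : ℝ := 1 / (K + 2) with hu
  have hu0 : 0 < u := by positivity
  have hu1 : u ≤ 1 / 10 := one_div_le_one_div_of_le (by norm_num) (by linarith)
  have huε : 11 * u ≤ ε := by
    rw [div_le_iff₀ hε] at hK0
    rw [hu, mul_one_div, div_le_iff₀ (by positivity)]
    nlinarith
  have hL : 0 < |Λ| + 1 := by positivity
  refine ⟨u ^ 6 / (4 * (|Λ| + 1)), by positivity, fun r w A hr hw hw0 hrΛ => ?_⟩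
  have hA : A ≠ 0 := by
    rintro rfl
    simp at hrΛ
    linarith
  have hR : 0 < ‖A‖ := norm_pos_iff.2 hA
  have hpi := Real.pi_pos
  rw [lt_div_iff₀ (by positivity)] at hw0
  have hΛ := le_abs_self Λ
  have hΛ0 := abs_nonneg Λ
  have h6 : u ^ 6 ≤ u ^ 4 := pow_le_pow_of_le_one hu0.le (by linarith) (by norm_num)
  have h4 : u ^ 4 ≤ u ^ 1 := pow_le_pow_of_le_one hu0.le (by linarith) (by norm_num)
  rw [pow_one] at h4
  have hw4 : w ≤ u ^ 4 / 4 := by nlinarith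
  have hr1 : r < u ^ 6 / 4 * (w * ‖A‖) := by
    calc r ≤ Λ * (w ^ 2 * ‖A‖) := hrΛ
      _ = (Λ * w) * (w * ‖A‖) := by ring
      _ < _ := by gcongr; nlinarith
  have hq : 0 < 2 * r / (Real.pi * w ^ 2 * ‖A‖) := by positivity
  constructor
  · refine le_trans (ENNReal.ofReal_le_ofReal ?_)
      (slow_lower K hK8 hA (u := u) (by rw [hu]; field_simp) hr hw hw4 hr1)
    refine sub_le_sub_left (Real.exp_le_exp.2 (neg_le_neg ?_)) _
    gcongr
  · refine (slow_upper hA hu1 hr hw (by linarith) ?_).trans (ENNReal.ofReal_le_ofReal ?_)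
    · have : u ^ 6 / 4 * (w * ‖A‖) ≤ u / 4 * (1 * ‖A‖) := by gcongr <;> linarith
      nlinarith [mul_pos hu0 hR]
    · gcongr

theorem slow_asymp (ε : ℝ) (hε : 0 < ε) : ∃ δ : ℝ, 0 < δ ∧ ∀ (r w : ℝ) (A : ℂ),
    0 < r → 0 < w → w < δ → r ≤ δ * (w ^ 2 * ‖A‖) →
      |(value r w A).toReal - 2 * r / (Real.pi * w ^ 2 * ‖A‖)| ≤
        ε * (2 * r / (Real.pi * w ^ 2 * ‖A‖)) := by
  set e := min ε 1 / 2 with he
  have he0 : 0 < e := by positivity
  have he1 : e ≤ 1 / 2 := by have := min_le_right ε 1; linarith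
  have he2 : 2 * e ≤ ε := by have := min_le_left ε 1; linarith
  obtain ⟨w₀, hw₀, H⟩ := slow_hider 1 e he0
  refine ⟨min w₀ e, lt_min hw₀ he0, fun r w A hr hw hwδ hrδ => ?_⟩
  have hA : A ≠ 0 := by
    rintro rfl
    simp at hrδ
    linarith
  have hR : 0 < ‖A‖ := norm_pos_iff.2 hA
  have hpi := Real.pi_gt_three
  have hq : 0 < w ^ 2 * ‖A‖ := by positivity
  have hre : r ≤ e * (w ^ 2 * ‖A‖) := hrδ.trans (by gcongr; exact min_le_right _ _)
  obtain ⟨h1, h2⟩ := H r w A hr hw (hwδ.trans_le (min_le_left _ _)) (by nlinarith)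
  set x := 2 * r / (Real.pi * w ^ 2 * ‖A‖) with hx
  have hx0 : 0 < x := by positivity
  have hxe : x ≤ e := by
    rw [hx, div_le_iff₀ (by positivity)]
    nlinarith [mul_pos he0 hq]
  have hfin : value r w A ≠ ⊤ := ne_top_of_le_ne_top ENNReal.one_ne_top (value_le_one' r hw.le A)
  have h3 := (ENNReal.ofReal_le_iff_le_toReal hfin).1 h1
  have h4 := ENNReal.toReal_le_of_le_ofReal (by positivity) h2
  set y := (1 - e) * x with hy
  have hy0 : 0 ≤ y := mul_nonneg (by linarith) hx0.le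
  have hyx : y ≤ x := by nlinarith
  have h5 : Real.exp (-y) ≤ 1 - y + y ^ 2 := by
    have a1 := Real.add_one_le_exp y
    have a2 : Real.exp (-y) * Real.exp y = 1 := by rw [← Real.exp_add]; simp
    have a3 := Real.exp_pos (-y)
    have a4 : Real.exp (-y) * (y + 1) ≤ 1 := by nlinarith
    have a5 : 1 ≤ (1 - y + y ^ 2) * (y + 1) := by nlinarith [pow_nonneg hy0 3]
    exact le_of_mul_le_mul_right (a4.trans a5) (by linarith)
  have h6 : y ^ 2 ≤ e * x := by nlinarith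
  rw [abs_le]
  constructor <;> nlinarith

end Pool.Agent.MP_66a317_pr
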