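import Pool.Agent.Mg.F66a317.G5afe50

open MeasureTheory Metric Set
open scoped NNReal ENNReal

namespace Pool.Agent.MP_66a317_pr

theorem cone_bound (A p : ℂ) (M : ℝ) (hA : 0 < ‖A‖) (hM : 0 < M)
    (hp : p ∈ ball (((-(2 * M / 3) / ‖A‖ : ℝ) : ℂ) * A) (M / 3)) :
    M / 3 ≤ ‖p‖ ∧ ‖p‖ ≤ M ∧ 3 / 4 * ‖p‖ * ‖A‖ ≤ -(p.re * A.re + p.im * A.im) := by
  have hc : ‖((-(2 * M / 3) / ‖A‖ : ℝ) : ℂ) * A‖ = 2 * M / 3 := by
    rw [norm_mul, Complex.norm_real, Real.norm_eq_abs, abs_div, abs_neg, abs_of_pos hA,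
      abs_of_pos (by positivity)]
    field_simp
  rw [mem_ball, Complex.dist_eq] at hp
  have h1 := norm_sub_norm_le p (((-(2 * M / 3) / ‖A‖ : ℝ) : ℂ) * A)
  have h2 := norm_sub_norm_le (((-(2 * M / 3) / ‖A‖ : ℝ) : ℂ) * A) p
  rw [norm_sub_rev] at h2
  refine ⟨by linarith, by linarith, ?_⟩
  have h3 : ‖p - ((-(2 * M / 3) / ‖A‖ : ℝ) : ℂ) * A‖ ^ 2 < (M / 3) ^ 2 :=
    pow_lt_pow_left₀ hp (norm_nonneg _) two_ne_zero
  have eA : ‖A‖ ^ 2 = A.re ^ 2 + A.im ^ 2 := by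
    rw [Complex.sq_norm, Complex.normSq_apply]; ring
  have ep : ‖p‖ ^ 2 = p.re ^ 2 + p.im ^ 2 := by
    rw [Complex.sq_norm, Complex.normSq_apply]; ring
  set i := -(p.re * A.re + p.im * A.im) / ‖A‖ with hi
  have e3 : ‖p - ((-(2 * M / 3) / ‖A‖ : ℝ) : ℂ) * A‖ ^ 2 =
      ‖p‖ ^ 2 - 4 * M / 3 * i + 4 * M ^ 2 / 9 := by
    rw [Complex.sq_norm, Complex.normSq_apply, ep, hi]
    simp only [Complex.sub_re, Complex.sub_im, Complex.re_ofReal_mul, Complex.im_ofReal_mul]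
    field_simp
    linear_combination (-36 * M ^ 2) * eA
  rw [e3] at h3
  have h4 : 0 < i := by nlinarith [sq_nonneg ‖p‖]
  have h5 : 3 / 4 * ‖p‖ ≤ i := by
    refine (abs_le_of_sq_le_sq' ?_ h4.le).2
    nlinarith [sq_nonneg (i - 3 * M / 8)]
  rw [hi, le_div_iff₀ hA] at h5
  exact h5

theorem run_safe (A p : ℂ) (w t ρ : ℝ) (hA : 0 < ‖A‖) (hp : 0 < ‖p‖) (hw0 : 0 < w)
    (ht0 : 0 ≤ t) (ht : t * (1 - w) ≤ ‖A‖ / 5) (hρ0 : 0 ≤ ρ) (hρ : ρ ≤ 11 / 20 * ‖A‖)
    (hc : 3 / 4 * ‖p‖ * ‖A‖ ≤ -(p.re * A.re + p.im * A.im)) :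
    t + ρ ≤ dist A (((w * t / ‖p‖ : ℝ) : ℂ) * p) := by
  have eA : ‖A‖ ^ 2 = A.re ^ 2 + A.im ^ 2 := by
    rw [Complex.sq_norm, Complex.normSq_apply]; ring
  have ep : ‖p‖ ^ 2 = p.re ^ 2 + p.im ^ 2 := by
    rw [Complex.sq_norm, Complex.normSq_apply]; ring
  have e3 : dist A (((w * t / ‖p‖ : ℝ) : ℂ) * p) ^ 2 =
      ‖A‖ ^ 2 + 2 * (w * t / ‖p‖) * (-(p.re * A.re + p.im * A.im)) + (w * t) ^ 2 := by
    rw [Complex.dist_eq, Complex.sq_norm, Complex.normSq_apply, eA]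
    simp only [Complex.sub_re, Complex.sub_im, Complex.re_ofReal_mul, Complex.im_ofReal_mul]
    field_simp
    linear_combination (-(w * t) ^ 2) * ep
  have h1 : 2 * (w * t / ‖p‖) * (3 / 4 * ‖p‖ * ‖A‖) ≤
      2 * (w * t / ‖p‖) * (-(p.re * A.re + p.im * A.im)) := by gcongr
  have h2 : 2 * (w * t / ‖p‖) * (3 / 4 * ‖p‖ * ‖A‖) = 3 / 2 * w * t * ‖A‖ := by
    field_simp
    ring
  refine (abs_le_of_sq_le_sq' ?_ dist_nonneg).2
  rw [e3]
  set R := ‖A‖
  have h3 : (1 - w ^ 2) * t ^ 2 ≤ t * (1 + w) * (R / 5) := by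
    calc _ = t * (1 + w) * (t * (1 - w)) := by ring
      _ ≤ _ := by gcongr
  have h4 : 2 * t * ρ ≤ 2 * t * (11 / 20 * R) := by gcongr
  have h5 : ρ ^ 2 ≤ (11 / 20 * R) ^ 2 := by gcongr
  have h6 : 13 / 10 * R * (t * (1 - w)) ≤ 13 / 10 * R * (R / 5) := by gcongr
  nlinarith

theorem value_le_order {r w : ℝ} (A : ℂ) (hr : 0 < r) (hw0 : 0 < w) (hw1 : w < 1)
    (hA : 2 * r ≤ ‖A‖) : value r w A ≤ ENNReal.ofReal (100 * (r * (1 - w) / (w ^ 2 * ‖A‖))) := by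
  have hR : 0 < ‖A‖ := by linarith
  have hw : 0 < 1 - w := by linarith
  set x := r * (1 - w) / (w ^ 2 * ‖A‖) with hx
  have hx0 : 0 < x := by positivity
  rcases le_or_gt (1 / 100) x with hx1 | hx1
  · refine (value_le_one' r hw0.le A).trans ?_
    rw [← ENNReal.ofReal_one]
    exact ENNReal.ofReal_le_ofReal (by linarith)
  set T := ‖A‖ / (5 * (1 - w)) with hT
  have hT0 : 0 < T := by positivity
  have hM : 0 < w * T := by positivity
  have hpi := Real.pi_pos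
  have hv := vol_ball (ρ := w * T / 3) (by positivity) (((-(2 * (w * T) / 3) / ‖A‖ : ℝ) : ℂ) * A)
  have h := value_le (r := r) (r' := 101 / 100 * r) A (by linarith) hw0.le
    (ball (((-(2 * (w * T) / 3) / ‖A‖ : ℝ) : ℂ) * A) (w * T / 3)) measurableSet_ball
    (by rw [hv]; exact (ENNReal.ofReal_pos.2 (by positivity)).ne')
    (by rw [hv]; exact ENNReal.ofReal_ne_top)
    (fun p t => ((max (min (w * t / ‖p‖) 1) (t / T) : ℝ) : ℂ) * p)
    (fun p hp => ⟨by simp, fun s t _ _ => by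
      obtain ⟨a1, a2, -⟩ := cone_bound A p _ hR hM hp
      have hp0 : 0 < ‖p‖ := by linarith
      rw [Complex.dist_eq, ← sub_mul, ← Complex.ofReal_sub, norm_mul, Complex.norm_real,
        Real.norm_eq_abs, ← le_div_iff₀ hp0]
      refine (abs_max_sub_max_le_max _ _ _ _).trans (max_le ?_ ?_)
      · refine (abs_min_sub_min_le_max _ _ _ _).trans (max_le ?_ (by simp; positivity))
        rw [← sub_div, ← mul_sub, abs_div, abs_mul, abs_of_pos hw0, abs_of_pos hp0]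
      · rw [← sub_div, abs_div, abs_of_pos hT0, div_le_div_iff₀ hT0 hp0]
        calc |s - t| * ‖p‖ ≤ |s - t| * (w * T) := by gcongr
          _ = _ := by ring⟩)
    (fun t => by fun_prop)
    (ENNReal.ofReal (Real.pi * (101 / 100 * r) ^ 2 + 2 * (101 / 100 * r) * T) +
      ENNReal.ofReal (Real.pi * (101 / 100 * r) ^ 2 +
        2 * (101 / 100 * r) * (T * (1 + w) + 101 / 100 * r)))
    (fun σ h0 hσ => by
      refine le_trans (measure_mono ?_) ((measure_union_le _ _).trans (add_le_add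
        (static_tube σ hσ (by positivity)) (expand_tube σ hσ (by positivity) hw0.le hT0)))
      rintro p ⟨hp, q, hq0, hq⟩
      obtain ⟨a1, a2, a3⟩ := cone_bound A p _ hR hM hp
      have hp0 : 0 < ‖p‖ := by linarith
      rcases le_total (w * q) ‖p‖ with hc | hc
      · exfalso
        have b1 : w * q / ‖p‖ ≤ 1 := (div_le_one hp0).2 hc
        have b2 : (q : ℝ) / T ≤ w * q / ‖p‖ := by
          rw [div_le_div_iff₀ hT0 hp0]
          calc (q : ℝ) * ‖p‖ ≤ q * (w * T) := by gcongr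
            _ = _ := by ring
        rw [min_eq_left b1, max_eq_left b2] at hq
        have b3 : (q : ℝ) ≤ T := le_of_mul_le_mul_left (hc.trans a2) hw0
        have b4 : (q : ℝ) * (1 - w) ≤ ‖A‖ / 5 := by
          calc (q : ℝ) * (1 - w) ≤ T * (1 - w) := by gcongr
            _ = _ := by rw [hT]; field_simp
        have b5 := run_safe A p w q (101 / 100 * r) hR hp0 hw0 hq0 b4 (by positivity)
          (by linarith) a3
        have b6 := hσ 0 q
        rw [h0, zero_sub, abs_neg, abs_of_nonneg hq0] at b6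
        have b7 := dist_triangle A (σ q) (((w * q / ‖p‖ : ℝ) : ℂ) * p)
        linarith
      · rw [min_eq_right ((one_le_div hp0).2 hc)] at hq
        rcases le_total (q : ℝ) T with hd | hd
        · left
          rw [max_eq_left ((div_le_one hT0).2 hd)] at hq
          exact ⟨q, hq0, hd, by simpa using hq⟩
        · right
          rw [max_eq_right ((one_le_div hT0).2 hd)] at hq
          exact ⟨a2, q, hd, hq⟩)
  rw [hv, ← ENNReal.ofReal_add (by positivity) (by positivity),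
    ← ENNReal.ofReal_div_of_pos (by positivity)] at h
  refine h.trans (ENNReal.ofReal_le_ofReal ?_)
  have e1 : r = 5 * x * (w ^ 2 * T) := by
    rw [hx, hT]
    field_simp
  have hpi3 := Real.pi_gt_d2
  have hpi4 := Real.pi_lt_d2
  rw [div_le_iff₀ (by positivity)]
  have hwT : 0 < (w * T) ^ 2 := by positivity
  have e2 : r * T = 5 * x * (w * T) ^ 2 := by rw [e1]; ring
  have e3 : r ^ 2 ≤ 1 / 4 * x * (w * T) ^ 2 := by
    calc r ^ 2 = (25 * x * w ^ 2) * (x * (w * T) ^ 2) := by rw [e1]; ring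
      _ ≤ (25 * (1 / 100) * 1 ^ 2) * (x * (w * T) ^ 2) := by gcongr
      _ = _ := by ring
  have e4 : r * T * w ≤ r * T := by nlinarith [mul_pos hr hT0]
  have e5 : Real.pi * r ^ 2 ≤ 3.15 * r ^ 2 := by gcongr
  have e6 : 3.14 * (x * (w * T) ^ 2) ≤ Real.pi * (x * (w * T) ^ 2) := by gcongr
  nlinarith

end Pool.Agent.MP_66a317_pr
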