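import Pool.Agent.Mg.F66a317.G5afe50
import Pool.Agent.MP_66a317_pr.Stair.Lev

section

open MeasureTheory Set Filter
open scoped ENNReal

namespace Pool.Agent.MP_66a317_pr.Fast

/-- the point of the unit circle with angle `x` -/
noncomputable def cis (x : ℝ) : ℂ := Complex.exp (x * Complex.I)

/-- logarithmic clock started at time `t0` -/
noncomputable def clock (t0 t : ℝ) : ℝ := Real.log (max t t0 / t0)

/-- searcher path with lag profile `Λ`, angle profile `Q`, phase `φ` -/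
noncomputable def spath (Λ Q : ℝ → ℝ) (t0 z0 k φ t : ℝ) : ℂ :=
  -1 + ((min t (max t t0 * (1 - Λ (φ + clock t0 t))) : ℝ) : ℂ) *
    cis (z0 + k * clock t0 t + Q (φ + clock t0 t))

def ScaleStmt : Prop :=
  (∀ (r w : ℝ) (A : ℂ), A ≠ 0 → value r w A = value (r / ‖A‖) w (-1)) ∧
  (∀ (r r' w : ℝ) (A : ℂ), r ≤ r' → value r w A ≤ value r' w A)

def DisperseStmt : Prop :=
  ∀ (r r' w T S V b1 b2 : ℝ) (A : ℂ) (I : Set ℝ) (G : ℝ → ℝ → ℂ),
    r < r' → 0 ≤ r' → r' ≤ 1 → 1 / 2 ≤ w → 0 ≤ T → 1 ≤ S → 0 < V → 0 ≤ b1 → 0 ≤ b2 →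
    MeasurableSet I → volume I = ENNReal.ofReal V →
    (∀ ω ∈ I, G ω 0 = 0 ∧ ∀ s t, 0 ≤ s → 0 ≤ t → dist (G ω s) (G ω t) ≤ w * |s - t|) →
    (∀ t, Measurable fun ω => G ω t) →
    (∀ σ : ℝ → ℂ, σ 0 = A → (∀ s t, dist (σ s) (σ t) ≤ |s - t|) →
      volume {ω | ω ∈ I ∧ ∃ t, 0 ≤ t ∧ t ≤ T ∧ dist (σ t) (G ω t) < r'} ≤ ENNReal.ofReal b1) →
    (∀ z : ℂ, volume {ω | ω ∈ I ∧ dist z (G ω T) < r' + 2 * S} ≤ ENNReal.ofReal b2) →
    value r w A ≤ ENNReal.ofReal ((b1 + b2) / V + 12 / S)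

def NearStmt : Prop :=
  ∀ (P z : ℂ) (ρ a : ℝ), 0 < ρ →
    volume {ω : ℝ | |ω| ≤ 1 ∧ dist z (P + (ρ : ℂ) * cis ω) < a} ≤ ENNReal.ofReal (4 * a / ρ)

def FanLocStmt : Prop :=
  ∀ (Z : ℂ) (r ε β a u ζ D : ℝ), 0 < r → r ≤ 1 → 0 < ε → 0 ≤ β → 0 < a → a ≤ u → ζ ≤ 1 / 2 →
    ε + 1 / a ≤ ζ → 0 ≤ D → 8 * (β / a ^ 2 + ε / a) ≤ D ^ 2 →
    Z.re ≤ u - r + β → dist Z (((1 - ε) * u : ℝ) : ℂ) < r →
    ∃ Δ : ℝ, |Δ| ≤ D ∧ Z = (‖Z‖ : ℂ) * cis Δ ∧ (1 - ζ) * u ≤ ‖Z‖ ∧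
      r - 2 * β - 2 * ε ≤ u - ‖Z‖ ∧ u - ‖Z‖ ≤ r + ε * u

def FanStmt : Prop :=
  ∀ (γ : ℝ → ℂ) (r ε β a lam ζ Ω D : ℝ) (N : ℕ) (I : Set ℝ),
    (∀ s t, dist (γ s) (γ t) ≤ |s - t|) → 0 < r → r ≤ 1 → 0 < ε → 0 ≤ β → 0 < a → 1 ≤ lam →
    ζ ≤ 1 / 2 → ε + 1 / a ≤ ζ → 0 ≤ D → 8 * (β / a ^ 2 + ε / a) ≤ D ^ 2 →
    (2 * Ω + 2 * D) ^ 2 ≤ ζ → 0 < N → (∀ ω ∈ I, |ω| ≤ Ω) →
    (∀ ω ∈ I, ∀ u, a ≤ u → (γ u * cis (-ω)).re ≤ u - r + β) →
    volume {ω | ω ∈ I ∧ ∃ u, a ≤ u ∧ u ≤ a * lam ^ N ∧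
        dist (γ u) ((((1 - ε) * u : ℝ) : ℂ) * cis ω) < r} ≤
      ENNReal.ofReal ((N * (lam - 1) * √(2 * ε) + (2 * β / a + 2 * ε) / √(2 * ε)) / (1 - ζ) ^ 2 +
        2 * N * D)

def UpFanCoreStmt : Prop :=
  ∀ (ε δ δ' Φ a lam ζ D S : ℝ) (N : ℕ), 0 < ε → 0 < δ' → δ' < δ → δ' < 1 → 0 < Φ → 0 < a →
    ε * a ≤ δ' - Φ ^ 2 / 2 → 1 ≤ lam → ζ ≤ 1 / 2 → ε + 1 / a ≤ ζ → 0 ≤ D → 8 * (ε / a) ≤ D ^ 2 →
    (2 * Φ + 2 * D) ^ 2 ≤ ζ → 0 < N → 1 ≤ S →
    value (1 - δ) (1 - ε) (-1) ≤ ENNReal.ofReal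
      (((N * (lam - 1) + 1) * √(2 * ε) / (1 - ζ) ^ 2 + 2 * N * D +
        8 * (1 + 2 * S) / (a * lam ^ N)) / (2 * Φ) + 12 / S)

def UpFanStmt : Prop :=
  ∀ η : ℝ, 0 < η → η ≤ 1 → ∀ᶠ L : ℝ in atTop, ∀ θ : ℝ, η ≤ θ → θ ≤ 1 →
    value (1 - Real.exp (-L) * L ^ 2 / (4 * θ ^ 2)) (1 - Real.exp (-L)) (-1) ≤
      ENNReal.ofReal (θ / 2 + η)

def ExclStmt : Prop :=
  ∀ (σ : ℝ → ℂ) (ε δ Φ Ψ t1 U ω ω' u u' : ℝ), σ 0 = -1 → (∀ s t, dist (σ s) (σ t) ≤ |s - t|) →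
    0 < ε → ε ≤ 1 / 2 → 0 < δ → δ < 1 → 0 < Φ → 2 * Φ ≤ Ψ → Ψ ≤ 1 / 2 → 0 < t1 → ε * t1 ≤ δ →
    16 * Ψ ≤ t1 * Φ → 4 * Ψ ^ 3 ≤ Φ → ε * U ≤ t1 * Ψ * Φ / 2 →
    128 * (2 * Ψ ^ 2 * (1 + t1) + ε * U) ≤ (t1 * Φ) ^ 2 →
    Ψ ≤ ω → ω ≤ 2 * Ψ → Ψ ≤ ω' → ω' ≤ 2 * Ψ → 0 ≤ u' → u' ≤ u → u ≤ U →
    dist (σ (t1 + u')) ((((1 - ε) * t1 : ℝ) : ℂ) * cis (-Φ) + (((1 - ε) * u' : ℝ) : ℂ) * cis (-ω')) <
      1 - δ →
    dist (σ (t1 + u)) ((((1 - ε) * t1 : ℝ) : ℂ) * cis Φ + (((1 - ε) * u : ℝ) : ℂ) * cis ω) < 1 - δ →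
    False

def UpJumpCoreStmt : Prop :=
  ∀ (ε δ δ' Φ Ψ t1 U D S : ℝ) (N : ℕ), 0 < ε → ε ≤ 1 / 2 → 0 < δ' → δ' < δ → δ' < 1 → 0 < Φ →
    2 * Φ ≤ Ψ → Ψ ≤ 1 / 2 → 0 < t1 → ε * t1 ≤ δ' - Φ ^ 2 / 2 → 16 * Ψ ≤ t1 * Φ → 4 * Ψ ^ 3 ≤ Φ →
    ε * U ≤ t1 * Ψ * Φ / 2 → 128 * (2 * Ψ ^ 2 * (1 + t1) + ε * U) ≤ (t1 * Φ) ^ 2 → 0 < U →
    ε + 1 / U ≤ 1 / 2 → 0 ≤ D → 8 * (2 * Ψ ^ 2 * (1 + t1) / U ^ 2 + ε / U) ≤ D ^ 2 →
    (4 * Ψ + 2 * D) ^ 2 ≤ 1 / 2 → 0 < N → 1 ≤ S →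
    value (1 - δ) (1 - ε) (-1) ≤ ENNReal.ofReal
      (1 / 2 + (4 * (N * √(2 * ε) + (4 * Ψ ^ 2 * (1 + t1) / U + 2 * ε) / √(2 * ε)) + 2 * N * D +
        8 * (1 + 2 * S) / (U * 2 ^ N)) / Ψ + 12 / S)

def UpJumpStmt : Prop :=
  ∀ η : ℝ, 0 < η → ∃ K : ℝ, 0 < K ∧ ∀ᶠ L : ℝ in atTop,
    value (1 - K * L * Real.exp (-L)) (1 - Real.exp (-L)) (-1) ≤ ENNReal.ofReal (1 / 2 + η)

/-- the two periodic profiles of the searcher -/
def Profile (Λ Q : ℝ → ℝ) (e k J M dR dL d0 : ℝ) : Prop :=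
  Continuous Λ ∧ Continuous Q ∧ (∀ s, 0 ≤ Λ s ∧ Λ s ≤ Real.exp d0 * e) ∧ (∀ s, 0 ≤ Q s ∧ Q s ≤ M) ∧
  (∀ (n : ℤ) (s : ℝ), n * (dR + dL + 2 * d0) ≤ s → s ≤ n * (dR + dL + 2 * d0) + dR →
    Λ s ≤ e ∧ Q s ≤ J) ∧
  (∀ (n : ℤ) (s : ℝ), n * (dR + dL + 2 * d0) - d0 - dL ≤ s → s ≤ n * (dR + dL + 2 * d0) - d0 →
    Λ s ≤ e ∧ Q s ≤ J) ∧
  (∀ n : ℤ, Q (n * (dR + dL + 2 * d0) - d0 - dL) = J ∧ Q (n * (dR + dL + 2 * d0) - d0) = 0) ∧
  (∀ s1 s2, s1 ≤ s2 →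
    dist (((Real.exp s1 * (1 - Λ s1) : ℝ) : ℂ) * cis (k * s1 + Q s1))
      (((Real.exp s2 * (1 - Λ s2) : ℝ) : ℂ) * cis (k * s2 + Q s2)) ≤ Real.exp s2 - Real.exp s1)

def MasterStmt : Prop :=
  ∀ (e κ c K d0 : ℝ), 0 < e → 0 ≤ κ → κ ^ 2 ≤ 2 * e - e ^ 2 → 1 < c → 0 < K → Real.log 2 ≤ d0 →
    Real.exp d0 * e ≤ 1 → (κ * (K + c) * d0 / Real.log 2) ^ 2 ≤ (Real.exp d0 - 1) * e →
    ∃ Λ Q : ℝ → ℝ, Profile Λ Q e (c * κ) (κ * K * d0) (κ * (K + c) * d0)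
      (K * d0 / (c - 1)) (K * d0 / (c + 1)) d0

def ZoneStmt : Prop :=
  ∀ (ξ τ Q : ℝ → ℝ) (te J dR dL d0 : ℝ), 0 ≤ te → ContinuousOn ξ (Icc 0 te) → Continuous τ →
    Monotone τ → τ 0 = 0 → Continuous Q → 0 < dR → 0 < dL → 0 < d0 → J ≤ ξ 0 → ξ te ≤ 0 →
    (∀ (n : ℤ) (s : ℝ), n * (dR + dL + 2 * d0) ≤ s → s ≤ n * (dR + dL + 2 * d0) + dR →
      0 ≤ Q s ∧ Q s ≤ J) →
    (∀ n : ℤ, Q (n * (dR + dL + 2 * d0) - d0 - dL) = J ∧ Q (n * (dR + dL + 2 * d0) - d0) = 0) →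
    ENNReal.ofReal (dR - dL - d0) ≤ volume {φ : ℝ | φ ∈ Ico 0 (dR + dL + 2 * d0) ∧
      ∃ t ∈ Icc 0 te, ξ t = Q (φ + τ t) ∧ ∃ n : ℤ,
        (n * (dR + dL + 2 * d0) ≤ φ + τ t ∧ φ + τ t ≤ n * (dR + dL + 2 * d0) + dR) ∨
        (n * (dR + dL + 2 * d0) - d0 - dL ≤ φ + τ t ∧ φ + τ t ≤ n * (dR + dL + 2 * d0) - d0)}

def BridgeStmt : Prop :=
  ∀ (r w P V : ℝ) (σ : ℝ → ℝ → ℂ), 0 ≤ w → 0 < P → (∀ φ, σ φ 0 = -1) →
    (∀ φ s t, 0 ≤ s → 0 ≤ t → dist (σ φ s) (σ φ t) ≤ |s - t|) → (∀ t, Measurable fun φ => σ φ t) →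
    (∀ h : ℝ → ℂ, h 0 = 0 → (∀ s t, dist (h s) (h t) ≤ w * |s - t|) →
      ENNReal.ofReal V ≤ volume {φ | φ ∈ Ico 0 P ∧ ∃ t, 0 ≤ t ∧ dist (σ φ t) (h t) ≤ r} ∨
      ENNReal.ofReal V ≤
        volume {φ | φ ∈ Ico 0 P ∧ ∃ t, 0 ≤ t ∧ dist (σ φ t) ((starRingEnd ℂ) (h t)) ≤ r}) →
    ENNReal.ofReal (V / (2 * P)) ≤ value r w (-1)

def PathStmt : Prop :=
  ∀ (Λ Q : ℝ → ℝ) (e k J M dR dL d0 t0 z0 : ℝ), Profile Λ Q e k J M dR dL d0 → 0 < t0 →
    Real.exp d0 * e ≤ 1 →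
    (∀ φ, spath Λ Q t0 z0 k φ 0 = -1) ∧
    (∀ φ s t, 0 ≤ s → 0 ≤ t → dist (spath Λ Q t0 z0 k φ s) (spath Λ Q t0 z0 k φ t) ≤ |s - t|) ∧
    (∀ t, Measurable fun φ => spath Λ Q t0 z0 k φ t)

def HitStmt : Prop :=
  ∀ (Λ Q : ℝ → ℝ) (h : ℝ → ℂ) (ε δ e k J t0 ΦB φ t : ℝ), 0 < ε → ε < 1 → 0 < t0 →
    δ ≤ (ε - e) * t0 → 0 ≤ δ → 0 ≤ ΦB → ΦB + J ≤ Real.pi → Real.cos ΦB ≤ 1 - δ → 0 ≤ t →
    ‖h t‖ ≤ (1 - ε) * t → t ≤ ‖h t + 1‖ → 0 ≤ Λ (φ + clock t0 t) → Λ (φ + clock t0 t) ≤ e →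
    0 ≤ Q (φ + clock t0 t) → Q (φ + clock t0 t) ≤ J →
    Complex.arg (h t + 1) = -(ΦB + J) + k * clock t0 t + Q (φ + clock t0 t) →
    dist (spath Λ Q t0 (-(ΦB + J)) k φ t) (h t) ≤ 1 - δ

def CapStmt : Prop :=
  ∀ (Λ Q : ℝ → ℝ) (ε δ e k J M dR dL d0 t0 T1 ΦB : ℝ), Profile Λ Q e k J M dR dL d0 →
    0 < ε → ε < 1 → 0 ≤ δ → δ ≤ 1 / 2 → 0 ≤ k → 0 ≤ J → 0 < dR → 0 < dL → 0 < d0 → 0 < t0 → t0 ≤ T1 →
    δ ≤ (ε - e) * t0 → 0 ≤ ΦB → ΦB + J ≤ Real.pi → Real.cos ΦB ≤ 1 - δ →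
    ΦB + J ≤ k * Real.log (T1 / t0) → T1 * (ΦB + J + M) ≤ 1 / 4 → Real.exp d0 * e * T1 ≤ 1 / 4 →
    Real.exp d0 * e ≤ 1 →
    ∀ h : ℝ → ℂ, h 0 = 0 → (∀ s t, dist (h s) (h t) ≤ (1 - ε) * |s - t|) →
      ENNReal.ofReal (dR - dL - d0) ≤ volume {φ | φ ∈ Ico 0 (dR + dL + 2 * d0) ∧
        ∃ t, 0 ≤ t ∧ dist (spath Λ Q t0 (-(ΦB + J)) k φ t) (h t) ≤ 1 - δ} ∨
      ENNReal.ofReal (dR - dL - d0) ≤ volume {φ | φ ∈ Ico 0 (dR + dL + 2 * d0) ∧
        ∃ t, 0 ≤ t ∧ dist (spath Λ Q t0 (-(ΦB + J)) k φ t) ((starRingEnd ℂ) (h t)) ≤ 1 - δ}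

def LowCoreStmt : Prop :=
  ∀ (ε δ e κ c K d0 t0 T1 ΦB : ℝ), 0 < e → 0 ≤ κ → κ ^ 2 ≤ 2 * e - e ^ 2 → 1 < c → 0 < K →
    Real.log 2 ≤ d0 → Real.exp d0 * e ≤ 1 →
    (κ * (K + c) * d0 / Real.log 2) ^ 2 ≤ (Real.exp d0 - 1) * e →
    0 < ε → ε < 1 → 0 ≤ δ → δ ≤ 1 / 2 → 0 < t0 → t0 ≤ T1 → δ ≤ (ε - e) * t0 → 0 ≤ ΦB →
    ΦB + κ * K * d0 ≤ Real.pi → Real.cos ΦB ≤ 1 - δ →
    ΦB + κ * K * d0 ≤ c * κ * Real.log (T1 / t0) →
    T1 * (ΦB + κ * K * d0 + κ * (K + c) * d0) ≤ 1 / 4 → Real.exp d0 * e * T1 ≤ 1 / 4 →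
    ENNReal.ofReal (1 / (2 * c) - (c + 2) / (4 * K)) ≤ value (1 - δ) (1 - ε) (-1)

def LowStmt : Prop :=
  ∀ η : ℝ, 0 < η → η ≤ 1 → ∀ᶠ L : ℝ in atTop, ∀ θ : ℝ, η ≤ θ → θ ≤ 1 →
    ENNReal.ofReal (θ / 2 - η) ≤
      value (1 - Real.exp (-L) * L ^ 2 / (4 * θ ^ 2)) (1 - Real.exp (-L)) (-1)

def MainStmt : Prop :=
  ∀ η : ℝ, 0 < η → ∃ K δ : ℝ, 0 < K ∧ 0 < δ ∧ ∀ (r w : ℝ) (A : ℂ), 0 < r → r < ‖A‖ →
    1 - δ < w → w < 1 → K * (1 - w) * Real.log (1 / (1 - w)) ≤ 1 - r / ‖A‖ →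
    |(value r w A).toReal -
      min 1 (Real.log (1 / (1 - w)) / 2 * √((1 - w) / (1 - r / ‖A‖))) / 2| ≤ η

end Pool.Agent.MP_66a317_pr.Fast

end

section

open MeasureTheory Set Filter
open scoped ENNReal

namespace Pool.Agent.MP_66a317_pr.Fast

theorem cis_add (x y : ℝ) : cis (x + y) = cis x * cis y := by
  simp only [cis, ← Complex.exp_add]
  congr 1
  push_cast
  ring

@[simp] theorem cis_zero : cis 0 = 1 := by simp [cis]

@[simp] theorem norm_cis (x : ℝ) : ‖cis x‖ = 1 := Complex.norm_exp_ofReal_mul_I x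

@[simp] theorem cis_re (x : ℝ) : (cis x).re = Real.cos x := Complex.exp_ofReal_mul_I_re x

@[simp] theorem cis_im (x : ℝ) : (cis x).im = Real.sin x := Complex.exp_ofReal_mul_I_im x

theorem cis_mul_neg (x : ℝ) : cis x * cis (-x) = 1 := by rw [← cis_add]; simp

theorem conj_cis (x : ℝ) : (starRingEnd ℂ) (cis x) = cis (-x) := by
  apply Complex.ext <;> simp

@[fun_prop] theorem continuous_cis : Continuous cis := by
  unfold cis
  fun_prop

theorem norm_mul_cis_arg (z : ℂ) : (‖z‖ : ℂ) * cis (Complex.arg z) = z :=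
  Complex.norm_mul_exp_arg_mul_I z

/-- rotation keeps distances -/
theorem dist_mul_cis (z z' : ℂ) (x : ℝ) : dist (z * cis x) (z' * cis x) = dist z z' := by
  rw [Complex.dist_eq, Complex.dist_eq, ← sub_mul, norm_mul, norm_cis, mul_one]

/-- a projection is at most the norm -/
theorem re_mul_cis_le (z : ℂ) (x : ℝ) : (z * cis x).re ≤ ‖z‖ := by
  have := Complex.re_le_norm (z * cis x)
  rwa [norm_mul, norm_cis, mul_one] at this

theorem dist_polar_sq (ρ ρ' x x' : ℝ) :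
    dist ((ρ : ℂ) * cis x) ((ρ' : ℂ) * cis x') ^ 2 =
      (ρ - ρ') ^ 2 + 2 * ρ * ρ' * (1 - Real.cos (x - x')) := by
  rw [Complex.dist_eq, Complex.sq_norm, Complex.normSq_apply, Real.cos_sub]
  simp only [Complex.sub_re, Complex.sub_im, Complex.mul_re, Complex.mul_im, Complex.ofReal_re,
    Complex.ofReal_im, cis_re, cis_im]
  have h1 := Real.sin_sq_add_cos_sq x
  have h2 := Real.sin_sq_add_cos_sq x'
  linear_combination ρ ^ 2 * h1 + ρ' ^ 2 * h2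

theorem chord_le {ρ ρ' : ℝ} (h : 0 ≤ ρ) (h' : 0 ≤ ρ') (x x' : ℝ) :
    dist ((ρ : ℂ) * cis x) ((ρ' : ℂ) * cis x') ^ 2 ≤ (ρ - ρ') ^ 2 + ρ * ρ' * (x - x') ^ 2 := by
  rw [dist_polar_sq]
  have h1 := Real.one_sub_sq_div_two_le_cos (x := x - x')
  have h2 : 0 ≤ ρ * ρ' := mul_nonneg h h'
  nlinarith

theorem cos_le_of_abs_le_one {x : ℝ} (hx : |x| ≤ 1) :
    Real.cos x ≤ 1 - x ^ 2 / 2 + 5 / 96 * x ^ 4 := by
  have h := Real.cos_bound hx
  have h2 := (abs_le.1 h).2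
  have e : |x| ^ 4 = x ^ 4 := by
    rw [show (4 : ℕ) = 2 * 2 from rfl, pow_mul, pow_mul, sq_abs]
  rw [e] at h2
  linarith

theorem chord_ge {ρ ρ' ζ x x' : ℝ} (h : 0 ≤ ρ) (h' : 0 ≤ ρ') (hζ : ζ ≤ 1) (hx : (x - x') ^ 2 ≤ ζ) :
    (ρ - ρ') ^ 2 + (1 - ζ) * (ρ * ρ') * (x - x') ^ 2 ≤
      dist ((ρ : ℂ) * cis x) ((ρ' : ℂ) * cis x') ^ 2 := by
  rw [dist_polar_sq]
  have h0 : |x - x'| ≤ 1 := by
    rw [← sq_le_one_iff_abs_le_one]
    linarith
  have h1 := cos_le_of_abs_le_one h0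
  have h2 : 0 ≤ ρ * ρ' := mul_nonneg h h'
  have h3 : 0 ≤ (x - x') ^ 2 := sq_nonneg _
  have h4 : (x - x') ^ 4 ≤ ζ * (x - x') ^ 2 := by nlinarith
  have h5 : (1 - ζ) * (x - x') ^ 2 ≤ 2 * (1 - Real.cos (x - x')) := by nlinarith
  nlinarith [mul_le_mul_of_nonneg_left h5 h2]

theorem clock_of_le {t0 t : ℝ} (h0 : 0 < t0) (h : t ≤ t0) : clock t0 t = 0 := by
  rw [clock, max_eq_right h, div_self h0.ne', Real.log_one]

theorem clock_of_ge {t0 t : ℝ} (h : t0 ≤ t) : clock t0 t = Real.log (t / t0) := by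
  rw [clock, max_eq_left h]

theorem clock_mono {t0 : ℝ} (h0 : 0 < t0) : Monotone (clock t0) := fun _ _ hst =>
  Real.log_le_log (div_pos (lt_max_of_lt_right h0) h0)
    (div_le_div_of_nonneg_right (max_le_max_right _ hst) h0.le)

theorem clock_nonneg {t0 : ℝ} (h0 : 0 < t0) (t : ℝ) : 0 ≤ clock t0 t :=
  Real.log_nonneg ((one_le_div h0).2 (le_max_right _ _))

theorem continuous_clock {t0 : ℝ} (h0 : 0 < t0) : Continuous (clock t0) := by
  refine Continuous.log (by fun_prop) fun t => ?_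
  exact (div_pos (lt_max_of_lt_right h0) h0).ne'

/-- the two clamps of a time add up -/
theorem abs_min_add_abs_max (s t T : ℝ) :
    |min s T - min t T| + |max s T - max t T| = |s - t| := by
  rcases le_total s T with h | h <;> rcases le_total t T with h' | h'
  · simp [h, h']
  · rw [min_eq_left h, min_eq_right h', max_eq_right h, max_eq_left h',
      abs_of_nonpos (by linarith), abs_of_nonpos (by linarith), abs_of_nonpos (by linarith)]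
    ring
  · rw [min_eq_right h, min_eq_left h', max_eq_left h, max_eq_right h',
      abs_of_nonneg (by linarith), abs_of_nonneg (by linarith), abs_of_nonneg (by linarith)]
    ring
  · simp [h, h']

end Pool.Agent.MP_66a317_pr.Fast

end

section

open MeasureTheory Set Filter
open scoped ENNReal

namespace Pool.Agent.MP_66a317_pr.Fast

/-- rescaling of space and time by a nonzero complex number -/
noncomputable def scal_Scale {a b : ℂ} {v : ℝ} (c : ℂ) (hc : c ≠ 0) (hb : b = c * a)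
    (f : Traj a v) : Traj b v :=
  ⟨fun t => c * f.1 (t / ‖c‖₊), by
    refine ⟨by simp [f.2.1, hb], fun s t => ?_⟩
    have hn : (0 : ℝ) < ‖c‖ := norm_pos_iff.2 hc
    have h1 := f.2.2 (s / ‖c‖₊) (t / ‖c‖₊)
    have h2 : dist (s / ‖c‖₊) (t / ‖c‖₊) = dist s t / ‖c‖ := by
      rw [NNReal.dist_eq, NNReal.dist_eq, NNReal.coe_div, NNReal.coe_div, coe_nnnorm, ← sub_div,
        abs_div, abs_of_pos hn]
    rw [h2] at h1
    rw [Complex.dist_eq, ← mul_sub, norm_mul, ← Complex.dist_eq]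
    calc ‖c‖ * dist (f.1 (s / ‖c‖₊)) (f.1 (t / ‖c‖₊)) ≤ ‖c‖ * (v * (dist s t / ‖c‖)) :=
          mul_le_mul_of_nonneg_left h1 hn.le
      _ = v * dist s t := by field_simp⟩

theorem meas_Scale {a b : ℂ} {v : ℝ} (c : ℂ) (hc : c ≠ 0) (hb : b = c * a) :
    Measurable (scal_Scale (v := v) c hc hb) := by
  refine Measurable.subtype_mk (measurable_pi_lambda _ fun t => ?_)
  have h : Measurable fun f : Traj a v => f.1 (t / ‖c‖₊) :=
    (measurable_pi_apply (t / ‖c‖₊)).comp measurable_subtype_coe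
  exact h.const_mul c

theorem le_Scale (r r' w : ℝ) (A B c : ℂ) (hc : c ≠ 0) (hB : B = c * A) (hr : r' = ‖c‖ * r) :
    value r w A ≤ value r' w B := by
  unfold value
  refine iSup_le fun μ => ?_
  have hm := meas_Scale (v := 1) c hc hB
  refine le_iSup_of_le (μ.map hm.aemeasurable) (le_iInf fun h' => ?_)
  refine iInf_le_of_le (scal_Scale c⁻¹ (inv_ne_zero hc) (by simp) h') ?_
  rw [ProbabilityMeasure.toMeasure_map]
  refine le_trans (measure_mono ?_) (Measure.le_map_apply hm.aemeasurable _)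
  rintro σ ⟨t, ht⟩
  have hn : (0 : ℝ) < ‖c‖ := norm_pos_iff.2 hc
  have hn' : ‖c‖₊ ≠ 0 := nnnorm_ne_zero_iff.2 hc
  refine ⟨t / ‖c⁻¹‖₊, ?_⟩
  have e1 : t / ‖c⁻¹‖₊ / ‖c‖₊ = t := by
    rw [nnnorm_inv]
    field_simp
  change dist (c * σ.1 (t / ‖c⁻¹‖₊ / ‖c‖₊)) (h'.1 (t / ‖c⁻¹‖₊)) ≤ r'
  change dist (σ.1 t) (c⁻¹ * h'.1 (t / ‖c⁻¹‖₊)) ≤ r at ht
  rw [e1, hr]
  have e2 : c * σ.1 t - h'.1 (t / ‖c⁻¹‖₊) = c * (σ.1 t - c⁻¹ * h'.1 (t / ‖c⁻¹‖₊)) := by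
    field_simp
  rw [Complex.dist_eq] at ht ⊢
  rw [e2, norm_mul]
  exact mul_le_mul_of_nonneg_left ht hn.le

theorem scale_stmt : ScaleStmt := by
  refine ⟨fun r w A hA => le_antisymm ?_ ?_, fun r r' w A h => ?_⟩
  · refine le_Scale r _ w A (-1) (-A⁻¹) (neg_ne_zero.2 (inv_ne_zero hA)) ?_ ?_
    · field_simp
    · rw [norm_neg, norm_inv, div_eq_inv_mul]
  · have hn : ‖A‖ ≠ 0 := norm_ne_zero_iff.2 hA
    refine le_Scale _ r w (-1) A (-A) (neg_ne_zero.2 hA) (by ring) ?_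
    rw [norm_neg]
    field_simp
  · unfold value
    refine iSup_mono fun μ => iInf_mono fun g => measure_mono ?_
    rintro σ ⟨t, ht⟩
    exact ⟨t, ht.trans h⟩

end Pool.Agent.MP_66a317_pr.Fast

end

section

open MeasureTheory Set Filter
open scoped ENNReal

namespace Pool.Agent.MP_66a317_pr.Fast

/-- the path that belongs to two profiles -/
noncomputable def F_Master (Λ Q : ℝ → ℝ) (k s : ℝ) : ℂ :=
  ((Real.exp s * (1 - Λ s) : ℝ) : ℂ) * cis (k * s + Q s)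

/-- the speed bound on an interval -/
def Ok_Master (F : ℝ → ℂ) (a b : ℝ) : Prop :=
  ∀ s1 s2, a ≤ s1 → s1 ≤ s2 → s2 ≤ b → dist (F s1) (F s2) ≤ Real.exp s2 - Real.exp s1

theorem glue_Master {F : ℝ → ℂ} {a b c : ℝ} (h1 : Ok_Master F a b) (h2 : Ok_Master F b c) :
    Ok_Master F a c := by
  intro s1 s2 ha hs hc
  rcases le_total s2 b with h | h
  · exact h1 s1 s2 ha hs h
  · rcases le_total b s1 with h' | h'
    · exact h2 s1 s2 h' hs hc
    · linarith [dist_triangle (F s1) (F b) (F s2), h1 s1 b ha h' le_rfl, h2 b s2 le_rfl h hc]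

theorem exp_Master {s1 s2 : ℝ} (h : s1 ≤ s2) :
    Real.exp s1 * Real.exp s2 * (s1 - s2) ^ 2 ≤ (Real.exp s2 - Real.exp s1) ^ 2 := by
  have h1 : (s2 - s1) / 2 ≤ Real.sinh ((s2 - s1) / 2) := Real.self_le_sinh_iff.2 (by linarith)
  rw [Real.sinh_eq] at h1
  have h2 : Real.exp s2 = Real.exp ((s1 + s2) / 2) * Real.exp ((s2 - s1) / 2) := by
    rw [← Real.exp_add]
    congr 1
    ring
  have h3 : Real.exp s1 = Real.exp ((s1 + s2) / 2) * Real.exp (-((s2 - s1) / 2)) := by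
    rw [← Real.exp_add]
    congr 1
    ring
  have h4 : Real.exp s1 * Real.exp s2 = Real.exp ((s1 + s2) / 2) ^ 2 := by
    rw [sq, ← Real.exp_add, ← Real.exp_add]
    congr 1
    ring
  have h5 := Real.exp_pos ((s1 + s2) / 2)
  have h6 : Real.exp ((s1 + s2) / 2) * (s2 - s1) ≤ Real.exp s2 - Real.exp s1 := by
    rw [h2, h3, ← mul_sub]
    exact mul_le_mul_of_nonneg_left (by linarith) h5.le
  calc _ = (Real.exp ((s1 + s2) / 2) * (s2 - s1)) ^ 2 := by rw [h4]; ring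
    _ ≤ _ := pow_le_pow_left₀ (mul_nonneg h5.le (by linarith)) h6 2

theorem piece_Master {Λ Q : ℝ → ℝ} {k a b : ℝ} (ν α C1 C2 : ℝ) (h : ν ^ 2 + α ^ 2 ≤ 1)
    (h1 : ∀ s, a ≤ s → s ≤ b → 0 ≤ Λ s ∧ Λ s ≤ 1 ∧
      Real.exp s * (1 - Λ s) = ν * Real.exp s + C1 ∧ k * s + Q s = α * s + C2) :
    Ok_Master (F_Master Λ Q k) a b := by
  intro s1 s2 ha hs hb
  obtain ⟨a1, a2, a3, a4⟩ := h1 s1 ha (hs.trans hb)
  obtain ⟨b1, b2, b3, b4⟩ := h1 s2 (ha.trans hs) hb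
  have e1 := Real.exp_pos s1
  have e2 := Real.exp_pos s2
  have p1 : 0 ≤ Real.exp s1 * (1 - Λ s1) := mul_nonneg e1.le (by linarith)
  have p2 : 0 ≤ Real.exp s2 * (1 - Λ s2) := mul_nonneg e2.le (by linarith)
  have h2 := chord_le p1 p2 (k * s1 + Q s1) (k * s2 + Q s2)
  have h3 : Real.exp s1 * (1 - Λ s1) * (Real.exp s2 * (1 - Λ s2)) ≤ Real.exp s1 * Real.exp s2 :=
    mul_le_mul (mul_le_of_le_one_right e1.le (by linarith))
      (mul_le_of_le_one_right e2.le (by linarith)) p2 e1.le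
  have h4 : (Real.exp s1 * (1 - Λ s1) - Real.exp s2 * (1 - Λ s2)) ^ 2 =
      ν ^ 2 * (Real.exp s2 - Real.exp s1) ^ 2 := by
    rw [a3, b3]
    ring
  have h5 : (k * s1 + Q s1 - (k * s2 + Q s2)) ^ 2 = α ^ 2 * (s1 - s2) ^ 2 := by
    rw [a4, b4]
    ring
  rw [h4, h5] at h2
  have h6 := mul_le_mul_of_nonneg_right h3 (mul_nonneg (sq_nonneg α) (sq_nonneg (s1 - s2)))
  have h7 := mul_le_mul_of_nonneg_left (exp_Master hs) (sq_nonneg α)
  have h8 := mul_le_mul_of_nonneg_right h (sq_nonneg (Real.exp s2 - Real.exp s1))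
  refine le_of_sq_le_sq ?_ (sub_nonneg.2 (Real.exp_le_exp.2 hs))
  unfold F_Master
  linarith

theorem ex_Master (e G k k2 J m d : ℝ) (hm : m * d = J) :
    ∃ l q : ℝ → ℝ, Continuous l ∧ Continuous q ∧ (∀ y, y ≤ d → l y = e ∧ q y = J - m * y) ∧
      (∀ v, 0 ≤ v → v ≤ Real.log 2 →
        l (d + v) = e * (1 + G * (Real.exp v - 1)) * Real.exp (-v) ∧ q (d + v) = (k2 - k) * v) ∧
      ∀ v, Real.log 2 ≤ v →
        l (d + v) = e * (1 + G) * Real.exp (-v) ∧ q (d + v) = k2 * Real.log 2 - k * v := by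
  have h2 : 0 < Real.log 2 := Real.log_pos (by norm_num)
  have h3 : Real.exp (Real.log 2) = 2 := Real.exp_log (by norm_num)
  refine ⟨fun y => e * (1 + G * (min (Real.exp (max 0 (y - d))) 2 - 1)) *
      Real.exp (-max 0 (y - d)),
    fun y => J - m * min y d + (k2 * min (max 0 (y - d)) (Real.log 2) - k * max 0 (y - d)),
    by fun_prop, by fun_prop, fun y hy => ?_, fun v h0 hv => ?_, fun v hv => ?_⟩
  · have h1 : max 0 (y - d) = 0 := max_eq_left (by linarith)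
    simp only [h1, min_eq_left hy, min_eq_left h2.le]
    norm_num
  · have h1 : max 0 (d + v - d) = v := by rw [add_sub_cancel_left, max_eq_right h0]
    have h4 : Real.exp v ≤ 2 := (Real.exp_le_exp.2 hv).trans h3.le
    simp only [h1, min_eq_left hv, min_eq_left h4, min_eq_right (le_add_of_nonneg_right h0), hm]
    exact ⟨trivial, by ring⟩
  · have h0 := h2.le.trans hv
    have h1 : max 0 (d + v - d) = v := by rw [add_sub_cancel_left, max_eq_right h0]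
    have h4 : 2 ≤ Real.exp v := h3.ge.trans (Real.exp_le_exp.2 hv)
    simp only [h1, min_eq_right hv, min_eq_right h4, min_eq_right (le_add_of_nonneg_right h0), hm]
    exact ⟨by ring, by ring⟩

/-- a phase followed by a gap -/
structure Half_Master (e k J M d d0 : ℝ) (l q : ℝ → ℝ) : Prop where
  cl : Continuous l
  cq : Continuous q
  bd : ∀ y, 0 ≤ y → y ≤ d + d0 → (0 ≤ l y ∧ l y ≤ Real.exp d0 * e) ∧ 0 ≤ q y ∧ q y ≤ M
  ph : ∀ y, 0 ≤ y → y ≤ d → l y ≤ e ∧ q y ≤ J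
  l0 : l 0 = e
  q0 : q 0 = J
  qd : q d = 0
  l1 : l (d + d0) = e
  q1 : q (d + d0) = J
  ok : ∀ (Λ Q : ℝ → ℝ) (s0 : ℝ), (∀ y, 0 ≤ y → y ≤ d + d0 → Λ (s0 + y) = l y) →
    (∀ y, 0 ≤ y → y ≤ d + d0 → Q (s0 + y) = q y) →
    Ok_Master (F_Master Λ Q k) s0 (s0 + (d + d0))

theorem half_Master {e k k2 J M d d0 : ℝ} (m : ℝ) (he : 0 < e) (hd : 0 ≤ d) (hm : m * d = J)
    (hm0 : 0 ≤ m) (hα : (k - m) ^ 2 ≤ 2 * e - e ^ 2) (hd0 : Real.log 2 ≤ d0)
    (he1 : Real.exp d0 * e ≤ 1) (hk2 : k2 ^ 2 ≤ (Real.exp d0 - 1) * e) (hM : k2 * Real.log 2 = M)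
    (hJ : M - k * d0 = J) (hk : 0 ≤ k) : ∃ l q, Half_Master e k J M d d0 l q := by
  obtain ⟨G, hG⟩ : ∃ G, Real.exp d0 = 1 + G := ⟨Real.exp d0 - 1, by ring⟩
  obtain ⟨l, q, cl, cq, h1, h2, h3⟩ := ex_Master e G k k2 J m d hm
  have g2 : 0 < Real.log 2 := Real.log_pos (by norm_num)
  have g3 : Real.exp (Real.log 2) = 2 := Real.exp_log (by norm_num)
  have gG : 1 ≤ G := by linarith [Real.exp_le_exp.2 hd0]
  have gJ : 0 ≤ J := hm ▸ mul_nonneg hm0 hd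
  have gk : k ≤ k2 := le_of_mul_le_mul_right
    (by linarith [mul_le_mul_of_nonneg_left hd0 hk]) g2
  have gM : J ≤ M := by linarith [mul_nonneg hk (g2.le.trans hd0)]
  have bd : ∀ y, 0 ≤ y → y ≤ d + d0 →
      (0 ≤ l y ∧ l y ≤ Real.exp d0 * e) ∧ 0 ≤ q y ∧ q y ≤ M := by
    intro y hy hy'
    rw [hG]
    rcases le_total y d with h | h
    · rw [(h1 y h).1, (h1 y h).2]
      exact ⟨⟨he.le, by nlinarith⟩, by linarith [mul_le_mul_of_nonneg_left h hm0],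
        by linarith [mul_nonneg hm0 hy]⟩
    obtain ⟨v, rfl⟩ : ∃ v, y = d + v := ⟨y - d, by ring⟩
    have h0 : 0 ≤ v := by linarith
    have h4 : Real.exp (-v) ≤ 1 := Real.exp_le_one_iff.2 (by linarith)
    have h5 := Real.exp_pos (-v)
    rcases le_total v (Real.log 2) with h' | h'
    · rw [(h2 v h0 h').1, (h2 v h0 h').2]
      have h6 : Real.exp v ≤ 2 := (Real.exp_le_exp.2 h').trans g3.le
      have h7 : 1 ≤ Real.exp v := Real.one_le_exp h0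
      have h8 : 0 ≤ e * (1 + G * (Real.exp v - 1)) := mul_nonneg he.le (by nlinarith)
      refine ⟨⟨mul_nonneg h8 h5.le, (mul_le_of_le_one_right h8 h4).trans ?_⟩,
        mul_nonneg (by linarith) h0, ?_⟩
      · rw [mul_comm]
        exact mul_le_mul_of_nonneg_right (by nlinarith) he.le
      · linarith [mul_nonneg hk h0, mul_le_mul_of_nonneg_left h' (hk.trans gk)]
    · rw [(h3 v h').1, (h3 v h').2]
      have h8 : 0 ≤ e * (1 + G) := mul_nonneg he.le (by linarith)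
      exact ⟨⟨mul_nonneg h8 h5.le, (mul_le_of_le_one_right h8 h4).trans (mul_comm _ _).le⟩,
        by linarith [mul_le_mul_of_nonneg_left (show v ≤ d0 by linarith) hk],
        by linarith [mul_nonneg hk h0]⟩
  refine ⟨l, q, cl, cq, bd, fun y hy h => ?_, (h1 0 hd).1, by rw [(h1 0 hd).2]; ring,
    by rw [(h1 d le_rfl).2, hm, sub_self], ?_, by rw [(h3 d0 hd0).2, hM, hJ],
    fun Λ Q s0 hΛ hQ => ?_⟩
  · rw [(h1 y h).1, (h1 y h).2]
    exact ⟨le_rfl, by linarith [mul_nonneg hm0 hy]⟩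
  · rw [(h3 d0 hd0).1, ← hG, mul_assoc, ← Real.exp_add, add_neg_cancel, Real.exp_zero, mul_one]
  have b1 : ∀ y, 0 ≤ y → y ≤ d + d0 → 0 ≤ Λ (s0 + y) ∧ Λ (s0 + y) ≤ 1 := fun y hy hy' => by
    rw [hΛ y hy hy']
    exact ⟨(bd y hy hy').1.1, (bd y hy hy').1.2.trans he1⟩
  have gGe : G * e ≤ 1 := by nlinarith
  have gGe' : 0 ≤ G * e := mul_nonneg (by linarith) he.le
  refine glue_Master (b := s0 + d) ?_ (glue_Master (b := s0 + (d + Real.log 2)) ?_ ?_)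
  · refine piece_Master (1 - e) (k - m) 0 (J + m * s0) (by linarith) fun s hs hs' => ?_
    obtain ⟨y, rfl⟩ : ∃ y, s = s0 + y := ⟨s - s0, by ring⟩
    have hy : 0 ≤ y := by linarith
    have hy1 : y ≤ d := by linarith
    have hy' : y ≤ d + d0 := by linarith
    refine ⟨(b1 y hy hy').1, (b1 y hy hy').2, ?_, ?_⟩
    · rw [hΛ y hy hy', (h1 y hy1).1]
      ring
    · rw [hQ y hy hy', (h1 y hy1).2]
      ring
  · refine piece_Master (1 - G * e) k2 (e * (G - 1) * Real.exp (s0 + d)) ((k - k2) * (s0 + d))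
      (by rw [hG, add_sub_cancel_left] at hk2; nlinarith) fun s hs hs' => ?_
    obtain ⟨v, rfl⟩ : ∃ v, s = s0 + (d + v) := ⟨s - s0 - d, by ring⟩
    have h0 : 0 ≤ v := by linarith
    have hv : v ≤ Real.log 2 := by linarith
    have hy : 0 ≤ d + v := by linarith
    have hy' : d + v ≤ d + d0 := by linarith
    refine ⟨(b1 _ hy hy').1, (b1 _ hy hy').2, ?_, ?_⟩
    · have h4 : Real.exp v * Real.exp (-v) = 1 := by
        rw [← Real.exp_add, add_neg_cancel, Real.exp_zero]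
      rw [hΛ _ hy hy', (h2 v h0 hv).1, ← add_assoc, Real.exp_add (s0 + d)]
      linear_combination (-(e * Real.exp (s0 + d) * (1 + G * (Real.exp v - 1)))) * h4
    · rw [hQ _ hy hy', (h2 v h0 hv).2]
      ring
  · refine piece_Master 1 0 (-(e * (1 + G) * Real.exp (s0 + d))) (k * (s0 + d) + k2 * Real.log 2)
      (by norm_num) fun s hs hs' => ?_
    obtain ⟨v, rfl⟩ : ∃ v, s = s0 + (d + v) := ⟨s - s0 - d, by ring⟩
    have hv : Real.log 2 ≤ v := by linarith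
    have hy : 0 ≤ d + v := by linarith
    have hy' : d + v ≤ d + d0 := by linarith
    refine ⟨(b1 _ hy hy').1, (b1 _ hy hy').2, ?_, ?_⟩
    · have h4 : Real.exp v * Real.exp (-v) = 1 := by
        rw [← Real.exp_add, add_neg_cancel, Real.exp_zero]
      rw [hΛ _ hy hy', (h3 v hv).1, ← add_assoc, Real.exp_add (s0 + d)]
      linear_combination (-(e * Real.exp (s0 + d) * (1 + G))) * h4
    · rw [hQ _ hy hy', (h3 v hv).2]
      ring

theorem per_Master {f : ℝ → ℝ} (hf : Continuous f) {P : ℝ} (hP : 0 < P) (h : f 0 = f P) :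
    ∃ F : ℝ → ℝ, Continuous F ∧ ∀ (n : ℤ) (y : ℝ), 0 ≤ y → y ≤ P → F (n * P + y) = f y := by
  have h1 : Continuous ((fun x => f (P * x)) ∘ Int.fract) :=
    ContinuousOn.comp_fract'' (by fun_prop) (by simpa using h)
  refine ⟨fun s => f (P * Int.fract (s / P)), h1.comp (continuous_id.div_const P),
    fun n y h0 hy => ?_⟩
  have h2 : (n * P + y) / P = n + y / P := by field_simp
  simp only [h2, Int.fract_intCast_add]
  rcases hy.eq_or_lt with rfl | hy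
  · rw [div_self hP.ne', Int.fract_one, mul_zero, h]
  · rw [Int.fract_eq_self.2 ⟨div_nonneg h0 hP.le, (div_lt_one hP).2 hy⟩, mul_div_cancel₀ _ hP.ne']

theorem two_Master {f g : ℝ → ℝ} (hf : Continuous f) (hg : Continuous g) {a b : ℝ} (ha : 0 < a)
    (hb : 0 < b) (h1 : f a = g 0) (h2 : g b = f 0) : ∃ F : ℝ → ℝ, Continuous F ∧ ∀ n : ℤ,
      (∀ y, 0 ≤ y → y ≤ a → F (n * (a + b) + y) = f y) ∧
      ∀ y, 0 ≤ y → y ≤ b → F (n * (a + b) + a + y) = g y := by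
  have h3 : Continuous fun y => if y ≤ a then f y else g (y - a) :=
    Continuous.if_le hf (by fun_prop) continuous_id continuous_const fun x hx => by
      rw [show x = a from hx, sub_self, h1]
  obtain ⟨F, hF, hF'⟩ := per_Master h3 (add_pos ha hb) (by
    rw [if_pos ha.le, if_neg (by linarith), add_sub_cancel_left, h2])
  refine ⟨F, hF, fun n => ⟨fun y h0 hy => ?_, fun y h0 hy => ?_⟩⟩
  · rw [hF' n y h0 (by linarith), if_pos hy]
  · rw [add_assoc, hF' n (a + y) (by linarith) (by linarith), add_sub_cancel_left]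
    split_ifs with h
    · rw [show y = 0 by linarith, add_zero, h1]
    · rfl

theorem master_stmt : MasterStmt := by
  intro e κ c K d0 he hκ hκe hc hK hd0 he1 hk2
  have g2 : 0 < Real.log 2 := Real.log_pos (by norm_num)
  have g0 : 0 < d0 := g2.trans_le hd0
  have c1 : 0 < c - 1 := by linarith
  have c2 : 0 < c + 1 := by linarith
  have hR : 0 < K * d0 / (c - 1) := by positivity
  have hL : 0 < K * d0 / (c + 1) := by positivity
  have hM : κ * (K + c) * d0 / Real.log 2 * Real.log 2 = κ * (K + c) * d0 :=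
    div_mul_cancel₀ _ g2.ne'
  have hJ : κ * (K + c) * d0 - c * κ * d0 = κ * K * d0 := by ring
  have hk : 0 ≤ c * κ := mul_nonneg (by linarith) hκ
  obtain ⟨l1, q1, H1⟩ := half_Master ((c - 1) * κ) he hR.le (by field_simp) (mul_nonneg c1.le hκ)
    (by linarith [show (c * κ - (c - 1) * κ) ^ 2 = κ ^ 2 by ring]) hd0 he1 hk2 hM hJ hk
  obtain ⟨l2, q2, H2⟩ := half_Master ((c + 1) * κ) he hL.le (by field_simp) (mul_nonneg c2.le hκ)
    (by linarith [show (c * κ - (c + 1) * κ) ^ 2 = κ ^ 2 by ring]) hd0 he1 hk2 hM hJ hk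
  generalize K * d0 / (c - 1) = dR at *
  generalize K * d0 / (c + 1) = dL at *
  obtain ⟨Λ, cΛ, hΛ⟩ := two_Master H1.cl H2.cl (add_pos hR g0) (add_pos hL g0)
    (H1.l1.trans H2.l0.symm) (H2.l1.trans H1.l0.symm)
  obtain ⟨Q, cQ, hQ⟩ := two_Master H1.cq H2.cq (add_pos hR g0) (add_pos hL g0)
    (H1.q1.trans H2.q0.symm) (H2.q1.trans H1.q0.symm)
  obtain ⟨P, hP⟩ : ∃ P, P = dR + dL + 2 * d0 := ⟨_, rfl⟩
  have hP' : dR + d0 + (dL + d0) = P := by rw [hP]; ring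
  have hP0 : 0 < P := by linarith
  rw [hP'] at hΛ hQ
  have hfl : ∀ s : ℝ, ∃ n : ℤ, n * P ≤ s ∧ s ≤ n * P + P := fun s =>
    ⟨⌊s / P⌋, (le_div_iff₀ hP0).1 (Int.floor_le _), by
      linarith [(div_lt_iff₀ hP0).1 (Int.lt_floor_add_one (s / P))]⟩
  have hbd : ∀ s, (0 ≤ Λ s ∧ Λ s ≤ Real.exp d0 * e) ∧ 0 ≤ Q s ∧ Q s ≤ κ * (K + c) * d0 := by
    intro s
    obtain ⟨n, h1, h2⟩ := hfl s
    rcases le_total s (n * P + (dR + d0)) with h | h
    · obtain ⟨y, rfl⟩ : ∃ y, s = n * P + y := ⟨s - n * P, by ring⟩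
      have hy : 0 ≤ y := by linarith
      have hy' : y ≤ dR + d0 := by linarith
      rw [(hΛ n).1 y hy hy', (hQ n).1 y hy hy']
      exact H1.bd y hy hy'
    · obtain ⟨y, rfl⟩ : ∃ y, s = n * P + (dR + d0) + y := ⟨s - (n * P + (dR + d0)), by ring⟩
      have hy : 0 ≤ y := by linarith
      have hy' : y ≤ dL + d0 := by linarith
      rw [(hΛ n).2 y hy hy', (hQ n).2 y hy hy']
      exact H2.bd y hy hy'
  have hsh : ∀ n : ℤ, n * P - d0 - dL = ((n - 1 : ℤ) : ℝ) * P + (dR + d0) := fun n => by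
    push_cast
    linarith
  have hok : ∀ (n : ℤ) (m : ℕ), Ok_Master (F_Master Λ Q (c * κ)) (n * P) ((n + m : ℤ) * P) := by
    intro n m
    induction m with
    | zero =>
      intro s1 s2 h1 h2 h3
      rw [Nat.cast_zero, add_zero] at h3
      rw [show s1 = s2 by linarith, dist_self, sub_self]
    | succ m ih =>
      refine glue_Master ih (glue_Master (H1.ok Λ Q _ (hΛ _).1 (hQ _).1) ?_)
      have h1 := H2.ok Λ Q _ (hΛ (n + m)).2 (hQ (n + m)).2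
      have h2 : ((n + m : ℤ) : ℝ) * P + (dR + d0) + (dL + d0) = (n + (m + 1 : ℕ) : ℤ) * P := by
        push_cast
        linarith
      rwa [h2] at h1
  refine ⟨Λ, Q, cΛ, cQ, fun s => (hbd s).1, fun s => (hbd s).2, fun n s h1 h2 => ?_,
    fun n s h1 h2 => ?_, fun n => ?_, fun s1 s2 h => ?_⟩
  · rw [← hP] at h1 h2
    obtain ⟨y, rfl⟩ : ∃ y, s = n * P + y := ⟨s - n * P, by ring⟩
    have hy : 0 ≤ y := by linarith
    have hy' : y ≤ dR + d0 := by linarith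
    rw [(hΛ n).1 y hy hy', (hQ n).1 y hy hy']
    exact H1.ph y hy (by linarith)
  · rw [← hP] at h1 h2
    obtain ⟨y, rfl⟩ : ∃ y, s = n * P - d0 - dL + y := ⟨s - (n * P - d0 - dL), by ring⟩
    have hy : 0 ≤ y := by linarith
    have hy' : y ≤ dL + d0 := by linarith
    rw [hsh, (hΛ _).2 y hy hy', (hQ _).2 y hy hy']
    exact H2.ph y hy (by linarith)
  · rw [← hP]
    have h1 := (hQ (n - 1)).2 0 le_rfl (by linarith)
    have h2 := (hQ (n - 1)).2 dL hL.le (by linarith)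
    rw [← hsh] at h1 h2
    rw [add_zero, H2.q0] at h1
    rw [sub_add_cancel, H2.qd] at h2
    exact ⟨h1, h2⟩
  · obtain ⟨n, h1, -⟩ := hfl s1
    obtain ⟨m, hm⟩ := exists_nat_ge ((s2 - n * P) / P)
    refine hok n m s1 s2 h1 h ?_
    push_cast
    linarith [(div_le_iff₀ hP0).1 hm]

end Pool.Agent.MP_66a317_pr.Fast

end

section

open MeasureTheory Set Filter
open scoped ENNReal

namespace Pool.Agent.MP_66a317_pr.Stair

open Fast

/- searcher side -/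

/-- possible positions of the hider relative to the searcher at the start of a stage -/
def cone (r g y : ℝ) : Set ℂ := {z | 0 < z.re ∧ ‖z‖ ≤ r + g ∧ |z.im| ≤ y}

/-- a finite family of searcher paths from `0` catches every hider from `C` with share `p` -/
def Wins (r w : ℝ) (C : Set ℂ) (p : ℝ) : Prop :=
  ∃ (ι : Type) (_ : Fintype ι) (σ : ι → ℝ → ℂ), Nonempty ι ∧
    (∀ i, σ i 0 = 0 ∧ ∀ s t, 0 ≤ s → 0 ≤ t → dist (σ i s) (σ i t) ≤ |s - t|) ∧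
    ∀ h : ℝ → ℂ, h 0 ∈ C → (∀ s t, dist (h s) (h t) ≤ w * |s - t|) →
      p * Fintype.card ι ≤ ({i | ∃ t, 0 ≤ t ∧ dist (σ i t) (h t) ≤ r} : Set ι).ncard

/-- the same within time `T`, all paths advancing along the real axis with lag at most `lam` -/
def Stage (r w : ℝ) (C : Set ℂ) (T p lam : ℝ) : Prop :=
  ∃ (ι : Type) (_ : Fintype ι) (σ : ι → ℝ → ℂ), Nonempty ι ∧
    (∀ i, σ i 0 = 0 ∧ (∀ s t, 0 ≤ s → 0 ≤ t → dist (σ i s) (σ i t) ≤ |s - t|) ∧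
      ∀ t, 0 ≤ t → t ≤ T → t - lam ≤ (σ i t).re) ∧
    ∀ h : ℝ → ℂ, h 0 ∈ C → (∀ s t, dist (h s) (h t) ≤ w * |s - t|) →
      p * Fintype.card ι ≤ ({i | ∃ t, 0 ≤ t ∧ t ≤ T ∧ dist (σ i t) (h t) ≤ r} : Set ι).ncard

def ReachStmt : Prop :=
  ∀ (σ h : ℝ → ℂ) (r g y lam T : ℝ) (n : ℕ), 1 / 2 ≤ r → r ≤ 1 → 0 ≤ g → 0 ≤ y → 0 ≤ lam → 0 ≤ T →
    16 * T ≤ n → 2 ^ n * (y + 2 * √(g + lam)) ≤ 1 / 8 → σ 0 = 0 →
    (∀ s t, 0 ≤ s → 0 ≤ t → dist (σ s) (σ t) ≤ |s - t|) →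
    (∀ t, 0 ≤ t → t ≤ T → t - lam ≤ (σ t).re) → h 0 ∈ cone r g y →
    (∀ s t, dist (h s) (h t) ≤ |s - t|) → (∀ t, 0 ≤ t → t ≤ T → r < dist (σ t) (h t)) →
    h T - σ T ∈ cone r (g + lam + (2 ^ n * (y + 2 * √(g + lam))) ^ 2) (2 ^ n * (y + 2 * √(g + lam)))

def ComposeStmt : Prop :=
  ∀ (r w T p lam p' : ℝ) (C C' : Set ℂ), 0 ≤ T → p' ≤ 1 → Stage r w C T p lam →
    (∀ σ h : ℝ → ℂ, σ 0 = 0 → (∀ s t, 0 ≤ s → 0 ≤ t → dist (σ s) (σ t) ≤ |s - t|) →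
      (∀ t, 0 ≤ t → t ≤ T → t - lam ≤ (σ t).re) → h 0 ∈ C →
      (∀ s t, dist (h s) (h t) ≤ w * |s - t|) → (∀ t, 0 ≤ t → t ≤ T → r < dist (σ t) (h t)) →
      h T - σ T ∈ C') →
    Wins r w C' p' → Wins r w C (1 - (1 - p) * (1 - p'))

def Bridge2Stmt : Prop :=
  ∀ r w p : ℝ, 0 ≤ w → Wins r w {1} p → ENNReal.ofReal p ≤ value r w (-1)

def ZoneCoreStmt : Prop :=
  ∀ (ξ τ Q : ℝ → ℝ) (te J dR dL d0 : ℝ), 0 ≤ te → ContinuousOn ξ (Icc 0 te) → Continuous τ →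
    Monotone τ → τ 0 = 0 → Continuous Q → 0 < dR → 0 < dL → 0 < d0 → J ≤ ξ 0 → ξ te ≤ 0 →
    (∀ (n : ℤ) (s : ℝ), n * (dR + dL + 2 * d0) ≤ s → s ≤ n * (dR + dL + 2 * d0) + dR →
      0 ≤ Q s ∧ Q s ≤ J) →
    (∀ n : ℤ, Q (n * (dR + dL + 2 * d0) - d0 - dL) = J ∧ Q (n * (dR + dL + 2 * d0) - d0) = 0) →
    ∃ x1 x2 : ℝ, ∀ φ : ℝ,
      (∃ t ∈ Icc 0 te, ξ t = Q (φ + τ t) ∧ ∃ n : ℤ,
        (n * (dR + dL + 2 * d0) ≤ φ + τ t ∧ φ + τ t ≤ n * (dR + dL + 2 * d0) + dR) ∨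
        (n * (dR + dL + 2 * d0) - d0 - dL ≤ φ + τ t ∧ φ + τ t ≤ n * (dR + dL + 2 * d0) - d0)) ∨
      (∃ n : ℤ, n * (dR + dL + 2 * d0) + dR ≤ φ + x1 ∧
        φ + x1 ≤ n * (dR + dL + 2 * d0) + dR + (dL + 2 * d0)) ∨
      (∃ n : ℤ, n * (dR + dL + 2 * d0) + (-d0 - dL) ≤ φ + x2 ∧
        φ + x2 ≤ n * (dR + dL + 2 * d0) + (-d0 - dL) + (d0 + dL))

def ArcCountStmt : Prop :=
  ∀ (P b x d : ℝ) (N : ℕ), 0 < P → 0 < N → 0 ≤ d →
    (({j : Fin N | ∃ n : ℤ, n * P + b ≤ (j : ℝ) * P / N + x ∧ (j : ℝ) * P / N + x ≤ n * P + b + d} :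
      Set (Fin N)).ncard : ℝ) ≤ d * N / P + 2

def Hit2Stmt : Prop :=
  ∀ (Λ Q : ℝ → ℝ) (h : ℝ → ℂ) (ε r g y e k J t0 ΦB φ t : ℝ), 0 < ε → ε < 1 → 0 < t0 → 0 ≤ g →
    g ≤ (ε - e) * t0 → 0 ≤ ΦB → ΦB + J ≤ Real.pi / 2 →
    (∀ x, ΦB ≤ x → x ≤ ΦB + J → (r + g) * Real.cos x + y * Real.sin x ≤ r) → 0 ≤ t →
    h 0 ∈ cone r g y → ‖h t - h 0‖ ≤ (1 - ε) * t → t ≤ ‖h t‖ →
    0 ≤ Λ (φ + clock t0 t) → Λ (φ + clock t0 t) ≤ e →
    0 ≤ Q (φ + clock t0 t) → Q (φ + clock t0 t) ≤ J →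
    Complex.arg (h t) = -(ΦB + J) + k * clock t0 t + Q (φ + clock t0 t) →
    dist (spath Λ Q t0 (-(ΦB + J)) k φ t + 1) (h t) ≤ r

def Cap2Stmt : Prop :=
  ∀ (Λ Q : ℝ → ℝ) (ε r g y e k J M dR dL d0 t0 T1 ΦB : ℝ) (N : ℕ), Profile Λ Q e k J M dR dL d0 →
    0 < ε → ε < 1 → 1 / 2 ≤ r → 0 ≤ g → 0 ≤ k → 0 ≤ J → 0 < dR → 0 < dL → 0 < d0 → 0 < t0 →
    t0 ≤ T1 → g ≤ (ε - e) * t0 → 0 ≤ ΦB → 4 * y ≤ ΦB → ΦB + J ≤ Real.pi / 2 →
    (∀ x, ΦB ≤ x → x ≤ ΦB + J → (r + g) * Real.cos x + y * Real.sin x ≤ r) →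
    ΦB + J ≤ k * Real.log (T1 / t0) → T1 * (ΦB + J + M) ≤ 1 / 4 → Real.exp d0 * e * T1 ≤ 1 / 4 →
    Real.exp d0 * e ≤ 1 → 0 < N →
    ∀ h : ℝ → ℂ, h 0 ∈ cone r g y → (∀ s t, dist (h s) (h t) ≤ (1 - ε) * |s - t|) →
      (dR - dL - d0) / (dR + dL + 2 * d0) * N - 4 ≤
        ({j : Fin N | ∃ t, 0 ≤ t ∧ t ≤ T1 ∧ dist (spath Λ Q t0 (-(ΦB + J)) k
          ((j : ℝ) * (dR + dL + 2 * d0) / N) t + 1) (h t) ≤ r} : Set (Fin N)).ncard ∨
      (dR - dL - d0) / (dR + dL + 2 * d0) * N - 4 ≤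
        ({j : Fin N | ∃ t, 0 ≤ t ∧ t ≤ T1 ∧ dist (spath Λ Q t0 (-(ΦB + J)) k
          ((j : ℝ) * (dR + dL + 2 * d0) / N) t + 1) ((starRingEnd ℂ) (h t)) ≤ r} :
            Set (Fin N)).ncard

def StageCoreStmt : Prop :=
  ∀ (ε r g y e κ c K d0 t0 T1 ΦB : ℝ) (N : ℕ), 0 < e → 0 ≤ κ → κ ^ 2 ≤ 2 * e - e ^ 2 → 1 < c →
    0 < K → Real.log 2 ≤ d0 → Real.exp d0 * e ≤ 1 →
    (κ * (K + c) * d0 / Real.log 2) ^ 2 ≤ (Real.exp d0 - 1) * e →
    0 < ε → ε < 1 → 1 / 2 ≤ r → 0 ≤ g → 0 < t0 → t0 ≤ T1 → g ≤ (ε - e) * t0 → 0 ≤ ΦB →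
    4 * y ≤ ΦB → ΦB + κ * K * d0 ≤ Real.pi / 2 →
    (∀ x, ΦB ≤ x → x ≤ ΦB + κ * K * d0 → (r + g) * Real.cos x + y * Real.sin x ≤ r) →
    ΦB + κ * K * d0 = c * κ * Real.log (T1 / t0) →
    T1 * (ΦB + κ * K * d0 + κ * (K + c) * d0) ≤ 1 / 4 → Real.exp d0 * e * T1 ≤ 1 / 4 → 0 < N →
    Stage r (1 - ε) (cone r g y) T1 (1 / (2 * c) - (c + 2) / (4 * K) - 2 / N)
      (T1 * (Real.exp d0 * e + (ΦB + κ * K * d0 + κ * (K + c) * d0) ^ 2 / 2))

def StageAsymStmt : Prop :=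
  ∀ η θ0 : ℝ, 0 < η → η ≤ 1 → 0 < θ0 → ∃ K C ν b0 : ℝ, 2 ≤ K ∧ 1 ≤ C ∧ 0 < ν ∧ ν < 1 ∧
    ∀ ε r b θ : ℝ, 0 < ε → 1 - 1 / K ≤ r → r ≤ 1 → b0 ≤ b → θ0 ≤ θ → θ ≤ 1 →
      √ε * b * (C * b ^ 2 * Real.exp ((1 - ν) * θ * b)) * C ≤ 1 →
      ∃ T1 : ℝ, 0 ≤ T1 ∧ T1 ≤ C * b ^ 2 * Real.exp ((1 - ν) * θ * b) ∧
        Stage r (1 - ε) (cone r (ε * b ^ 2) (√ε * b / K)) T1 (θ / 2 - η)
          (C * ε * b ^ 2 * (C * b ^ 2 * Real.exp ((1 - ν) * θ * b)))

/-- the searcher's guarantee at level `x` -/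
def WinAll (ε x K q η θ0 : ℝ) : Prop :=
  ∀ r θ : ℝ, 1 - 1 / K ≤ r → r ≤ 1 → θ0 ≤ θ → θ ≤ 1 →
    Wins r (1 - ε) (cone r (ε * (x / θ) ^ 2) (√ε * (x / θ) / K)) (1 - q * (1 - θ / 2) - η)

def LowBaseStmt : Prop :=
  ∀ η θ0 : ℝ, 0 < η → η ≤ 1 → 0 < θ0 → ∃ K : ℝ, 2 ≤ K ∧
    ∀ᶠ L : ℝ in atTop, WinAll (Real.exp (-L)) (L / 2) K 1 η θ0

def LowStepStmt : Prop :=
  ∀ η θ0 K' : ℝ, 0 < η → η ≤ 1 → 0 < θ0 → θ0 ≤ 1 → 2 ≤ K' → ∃ K c : ℝ, 2 ≤ K ∧ 0 < c ∧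
    ∀ᶠ y : ℝ in atTop, ∀ ε q η' : ℝ, 0 < ε → 0 ≤ q → q ≤ 1 → 0 ≤ η' →
      √ε * Real.exp (Real.exp y) ≤ c → WinAll ε (Real.exp (Real.exp y)) K' q η' θ0 →
      WinAll ε y K (q / 2) (η' + η) θ0

def LowLevelStmt : Prop :=
  ∀ (k : ℕ) (η : ℝ), 0 < η → η ≤ 1 → ∀ᶠ L : ℝ in atTop, ∀ θ : ℝ, η ≤ θ → θ ≤ 1 →
    ENNReal.ofReal (1 - (1 / 2) ^ k * (1 - θ / 2) - η) ≤
      value (1 - Real.exp (-L) * (lev L k / θ) ^ 2) (1 - Real.exp (-L)) (-1)

/- hider side -/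

/-- the searcher is behind a front -/
def Front (γ : ℝ → ℂ) (r β τ : ℝ) : Prop :=
  ∀ ω u : ℝ, 0 ≤ u → (γ u * cis (-ω)).re ≤ u - r + β + τ * ω ^ 2

/-- a mixed strategy of the hider from `0`, straight until time `a` in a direction of `[lo, hi]`,
that is caught after time `a` with probability at most `1 - q` -/
def Esc (r ε β τ lo hi a q : ℝ) : Prop :=
  ∃ (Ω : Type) (_ : MeasurableSpace Ω) (μ : Measure Ω) (H : Ω → ℝ → ℂ), IsProbabilityMeasure μ ∧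
    (∀ x, H x 0 = 0 ∧ (∀ s t, 0 ≤ s → 0 ≤ t → dist (H x s) (H x t) ≤ (1 - ε) * |s - t|) ∧
      ∃ ψ, lo ≤ ψ ∧ ψ ≤ hi ∧ ∀ u, 0 ≤ u → u ≤ a → H x u = (((1 - ε) * u : ℝ) : ℂ) * cis ψ) ∧
    (∀ u, Measurable fun x => H x u) ∧
    ∀ γ : ℝ → ℂ, (∀ s t, dist (γ s) (γ t) ≤ |s - t|) → Front γ r β τ →
      μ {x | ∃ u, a ≤ u ∧ dist (γ u) (H x u) < r} ≤ ENNReal.ofReal (1 - q)

/-- the turning arc: sideways displacement grows like `exp (v/32)` -/
noncomputable def acc (ε y0 v : ℝ) : ℂ :=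
  (((1 - ε) * v - y0 ^ 2 / (64 * (1 - ε)) * (Real.exp (v / 16) - 1) : ℝ) : ℂ) +
    ((y0 * (Real.exp (v / 32) - 1) : ℝ) : ℂ) * Complex.I

/-- identity or mirror image -/
def flip (b : Bool) (z : ℂ) : ℂ := if b then z else (starRingEnd ℂ) z

/-- straight in direction `ω` until `t'`, turning arc of duration `Δ` to the side `b`, then `g` -/
noncomputable def stepPath (ε y0 Δ t' ω : ℝ) (b : Bool) (g : ℝ → ℂ) (u : ℝ) : ℂ :=
  cis ω * flip b ((((1 - ε) * min u t' : ℝ) : ℂ) + acc ε y0 (min (max (u - t') 0) Δ) +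
    g (max (u - t' - Δ) 0))

/-- capture on the later part of the arc or on the straight run after it -/
def SideHit (Z : ℝ → ℂ) (r ε y0 Δ U t' : ℝ) : Prop :=
  (∃ v, 8 ≤ Real.exp (v / 32) ∧ v ≤ Δ ∧
    dist (Z (t' + v)) ((((1 - ε) * t' : ℝ) : ℂ) + acc ε y0 v) < r) ∨
  (∃ v ψ, 0 ≤ v ∧ v ≤ U ∧ y0 * Real.exp (Δ / 32) / 32 ≤ ψ ∧ ψ ≤ 2 * (y0 * Real.exp (Δ / 32) / 32) ∧
    dist (Z (t' + Δ + v))
      ((((1 - ε) * t' : ℝ) : ℂ) + acc ε y0 Δ + (((1 - ε) * v : ℝ) : ℂ) * cis ψ) < r)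

def MeasStmt : Prop :=
  ∀ (Ω : Type) [MeasurableSpace Ω] (H : Ω → ℝ → ℂ) (γ : ℝ → ℂ) (w r a : ℝ), 0 ≤ a →
    (∀ x s t, 0 ≤ s → 0 ≤ t → dist (H x s) (H x t) ≤ w * |s - t|) →
    (∀ u, Measurable fun x => H x u) → (∀ s t, dist (γ s) (γ t) ≤ |s - t|) →
    MeasurableSet {x | ∃ u, a ≤ u ∧ dist (γ u) (H x u) < r}

def EscTopStmt : Prop :=
  ∀ ε δ δ' Φ a q : ℝ, 0 < ε → ε ≤ 1 → δ' < δ → 0 ≤ Φ → 0 ≤ a → ε * a ≤ δ' - Φ ^ 2 / 2 →
    Esc (1 - δ') ε (-δ') (1 / 2) (-Φ) Φ a q → value (1 - δ) (1 - ε) (-1) ≤ ENNReal.ofReal (1 - q)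

def EscBaseStmt : Prop :=
  ∀ (r ε β τ lo hi a βb lam ζ Ω D S : ℝ) (N : ℕ), 0 < r → r ≤ 1 → 0 < ε → lo < hi → |lo| ≤ Ω →
    |hi| ≤ Ω → 0 < a → 0 ≤ βb → (∀ ω, lo ≤ ω → ω ≤ hi → β + τ * ω ^ 2 ≤ βb) → 1 ≤ lam →
    ζ ≤ 1 / 2 → ε + 1 / a ≤ ζ → 0 ≤ D → 8 * (βb / a ^ 2 + ε / a) ≤ D ^ 2 →
    (2 * Ω + 2 * D) ^ 2 ≤ ζ → 0 < N → 1 ≤ S →
    Esc r ε β τ lo hi a (1 - ((N * (lam - 1) * √(2 * ε) + (2 * βb / a + 2 * ε) / √(2 * ε)) /
      (1 - ζ) ^ 2 + 2 * N * D + 8 * (1 + 2 * S) / (a * lam ^ N)) / (hi - lo) - 12 / S)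

def StepPathStmt : Prop :=
  (∀ (ε y0 Δ t' ω : ℝ) (b : Bool) (g : ℝ → ℂ), ε ≤ 1 / 10 → 0 ≤ y0 → 0 ≤ Δ → 0 ≤ t' →
    y0 * Real.exp (Δ / 32) / 32 ≤ 1 / 4 → g 0 = 0 →
    (∀ s t, 0 ≤ s → 0 ≤ t → dist (g s) (g t) ≤ (1 - ε) * |s - t|) →
    stepPath ε y0 Δ t' ω b g 0 = 0 ∧
    (∀ s t, 0 ≤ s → 0 ≤ t →
      dist (stepPath ε y0 Δ t' ω b g s) (stepPath ε y0 Δ t' ω b g t) ≤ (1 - ε) * |s - t|) ∧
    ∀ u, u ≤ t' → stepPath ε y0 Δ t' ω b g u = (((1 - ε) * u : ℝ) : ℂ) * cis ω) ∧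
  (∀ (Ω : Type) [MeasurableSpace Ω] (H : Ω → ℝ → ℂ) (ε y0 Δ ta lo hi u : ℝ) (M : ℕ),
    (∀ v, Measurable fun x => H x v) →
    Measurable fun p : ℝ × (Fin M × Bool) × Ω =>
      stepPath ε y0 Δ (ta + (p.2.1.1 : ℕ)) (max lo (min p.1 hi)) p.2.1.2 (H p.2.2) u)

def EarlyStmt : Prop :=
  ∀ (Z : ℝ → ℂ) (r ε βb y0 t' v : ℝ), (∀ s t, dist (Z s) (Z t) ≤ |s - t|) → 0 < r → r ≤ 1 →
    0 ≤ ε → ε ≤ 1 / 10 → 0 ≤ βb → 0 < y0 → y0 ≤ 1 / 4 → 4 ≤ t' → 0 ≤ v → Real.exp (v / 32) ≤ 8 →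
    βb + ε * (t' + v) ≤ y0 ^ 2 / 2 → (∀ t, 0 ≤ t → (Z t).re ≤ t - r + βb) →
    dist (Z (t' + v)) ((((1 - ε) * t' : ℝ) : ℂ) + acc ε y0 v) < r →
    |(Z t').im| ≤ 32 * y0 ∧ t' / 2 ≤ (Z t').re

def MidStmt : Prop :=
  ∀ (Z : ℝ → ℂ) (r ε βb y0 t' v : ℝ), 0 < r → r ≤ 1 → 0 ≤ ε → ε ≤ 1 / 10 → 0 < y0 →
    8 ≤ Real.exp (v / 32) → βb + ε * (t' + v) ≤ y0 ^ 2 / 2 →
    (Z (t' + v)).re ≤ t' + v - r + βb →
    dist (Z (t' + v)) ((((1 - ε) * t' : ℝ) : ℂ) + acc ε y0 v) < r →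
    y0 * Real.exp (v / 32) / 2 ≤ (Z (t' + v)).im ∧
      t' + v - r + βb - (Z (t' + v)).re + y0 ^ 2 ≤ (y0 * Real.exp (v / 32)) ^ 2 / 24

def LateStmt : Prop :=
  ∀ (Z : ℝ → ℂ) (r ε βb y0 t' Δ v ψ : ℝ), (∀ s t, dist (Z s) (Z t) ≤ |s - t|) → 0 < r → r ≤ 1 →
    0 ≤ ε → ε ≤ 1 / 10 → 0 ≤ βb → 0 < y0 → 0 ≤ t' → 32 ≤ Real.exp (Δ / 32) →
    y0 * Real.exp (Δ / 32) / 32 ≤ 1 / 4 → βb + ε * (t' + Δ) ≤ y0 ^ 2 / 2 →
    (Z (t' + Δ)).re ≤ t' + Δ - r + βb → 0 ≤ v → ε * v ≤ (y0 * Real.exp (Δ / 32) / 32) ^ 2 →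
    y0 * Real.exp (Δ / 32) / 32 ≤ ψ → ψ ≤ 2 * (y0 * Real.exp (Δ / 32) / 32) →
    dist (Z (t' + Δ + v))
      ((((1 - ε) * t' : ℝ) : ℂ) + acc ε y0 Δ + (((1 - ε) * v : ℝ) : ℂ) * cis ψ) < r →
    3 / 16 * (y0 * Real.exp (Δ / 32)) ≤ (Z (t' + Δ)).im

def CountStmt : Prop :=
  ∀ (F : ℝ → ℝ) (Δ c ta : ℝ) (S : Finset ℕ), Monotone F → (∀ t, 0 ≤ F t ∧ F t ≤ Δ) → 0 ≤ c →
    (∀ j ∈ S, ∃ a b, a ≤ b ∧ ta + j ≤ a - F a ∧ b - F b ≤ ta + j + c ∧ F a + 1 ≤ F b) →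
    (S.card : ℝ) ≤ Δ * (2 + c)

def DoubleStmt : Prop :=
  ∀ (Z : ℝ → ℂ) (r ε βb y0 ta Δ U : ℝ) (M : ℕ), (∀ s t, dist (Z s) (Z t) ≤ |s - t|) → 0 < r →
    r ≤ 1 → 0 ≤ ε → ε ≤ 1 / 10 → 0 ≤ βb → 0 < y0 → 0 ≤ ta → 32 ≤ Real.exp (Δ / 32) →
    y0 * Real.exp (Δ / 32) / 32 ≤ 1 / 4 → βb + ε * (ta + M + Δ) ≤ y0 ^ 2 / 2 →
    ε * U ≤ (y0 * Real.exp (Δ / 32) / 32) ^ 2 → (∀ t, 0 ≤ t → (Z t).re ≤ t - r + βb) →
    (({j : Fin M | SideHit Z r ε y0 Δ U (ta + (j : ℕ)) ∧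
      SideHit (fun t => (starRingEnd ℂ) (Z t)) r ε y0 Δ U (ta + (j : ℕ))} : Set (Fin M)).ncard : ℝ) ≤
      Δ * (2 + 16 * Real.log (57 * Δ))

def FrontStmt : Prop :=
  ∀ (γ : ℝ → ℂ) (r ε β τ Ω ω y0 t' Δ β' τ' : ℝ) (b : Bool), 0 ≤ ε → ε ≤ 1 / 10 → 0 ≤ τ → |ω| ≤ Ω →
    0 ≤ y0 → 4 ≤ t' → 0 ≤ Δ → y0 * Real.exp (Δ / 32) / 32 ≤ 1 / 4 →
    β + 2 * τ * Ω ^ 2 + ε * (t' + Δ) + 544 * (y0 * Real.exp (Δ / 32) / 32) ^ 2 ≤ β' →
    2 * τ + (t' + Δ + 1) / 2 ≤ τ' → Front γ r β τ →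
    Front (fun v => flip b (γ (t' + Δ + v) * cis (-ω)) - ((((1 - ε) * t' : ℝ) : ℂ) + acc ε y0 Δ))
      r β' τ'

def NearDirStmt : Prop :=
  ∀ (z : ℂ) (y ρ : ℝ), 0 < ρ →
    volume {ω : ℝ | |ω| ≤ 1 / 2 ∧ |(z * cis (-ω)).im| ≤ y ∧ ρ ≤ (z * cis (-ω)).re} ≤
      ENNReal.ofReal (4 * y / ρ)

def MixStmt : Prop :=
  ∀ (Ω : Type) [MeasurableSpace Ω] (μ' : Measure Ω) [IsProbabilityMeasure μ'] (lo hi : ℝ) (M : ℕ),
    lo < hi → 0 < M → ∃ μ : Measure (ℝ × (Fin M × Bool) × Ω), IsProbabilityMeasure μ ∧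
      ∀ (E : Set (ℝ × (Fin M × Bool) × Ω)) (A : Set ℝ) (B : Fin M → Set ℝ) (S : ℝ → Set (Fin M))
        (q α α' κ : ℝ), MeasurableSet E → 0 ≤ q → q ≤ 1 → 0 ≤ α → 0 ≤ α' → 0 ≤ κ →
        volume A ≤ ENNReal.ofReal α → (∀ j, volume (B j) ≤ ENNReal.ofReal α') →
        (∀ ω, lo ≤ ω → ω ≤ hi → ((S ω).ncard : ℝ) ≤ κ) →
        (∀ ω, lo ≤ ω → ω ≤ hi → ∀ j, ω ∉ A → ω ∉ B j → j ∉ S ω →
          ∃ b : Bool, μ' {x | (ω, (j, b), x) ∈ E} ≤ ENNReal.ofReal (1 - q)) →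
        μ E ≤ ENNReal.ofReal (1 - (1 - (α + α') / (hi - lo) - κ / M) * q / 2)

def EscStepStmt : Prop :=
  ∀ (r ε β τ lo hi a βb lam ζ Ω D ta y0 Δ U β' τ' q' : ℝ) (N M : ℕ), 0 < r → r ≤ 1 → 0 < ε →
    ε ≤ 1 / 10 → 0 ≤ τ → lo < hi → |lo| ≤ Ω → |hi| ≤ Ω → 0 < a → 0 ≤ βb →
    (∀ ω, lo ≤ ω → ω ≤ hi → β + τ * ω ^ 2 ≤ βb) → 1 ≤ lam → ζ ≤ 1 / 2 → ε + 1 / a ≤ ζ → 0 ≤ D →
    8 * (βb / a ^ 2 + ε / a) ≤ D ^ 2 → (2 * Ω + 2 * D) ^ 2 ≤ ζ → 0 < N → 0 < M → a ≤ ta → 4 ≤ ta →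
    ta + M ≤ a * lam ^ N → 0 < y0 → 32 ≤ Real.exp (Δ / 32) →
    y0 * Real.exp (Δ / 32) / 32 ≤ 1 / 4 → βb + ε * (ta + M + Δ) ≤ y0 ^ 2 / 2 → 0 ≤ U →
    ε * U ≤ (y0 * Real.exp (Δ / 32) / 32) ^ 2 →
    β + 2 * τ * Ω ^ 2 + ε * (ta + M + Δ) + 544 * (y0 * Real.exp (Δ / 32) / 32) ^ 2 ≤ β' →
    2 * τ + (ta + M + Δ + 1) / 2 ≤ τ' → 0 ≤ q' → q' ≤ 1 →
    Esc r ε β' τ' (y0 * Real.exp (Δ / 32) / 32) (2 * (y0 * Real.exp (Δ / 32) / 32)) U q' →
    Esc r ε β τ lo hi a ((1 - ((N * (lam - 1) * √(2 * ε) + (2 * βb / a + 2 * ε) / √(2 * ε)) /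
      (1 - ζ) ^ 2 + 2 * N * D + 256 * y0 / ta) / (hi - lo) -
        Δ * (2 + 16 * Real.log (57 * Δ)) / M) * q' / 2)

/-- the hider's guarantee at level `x` -/
def EscAll (ε x K q η : ℝ) : Prop :=
  ∀ r b a lo β τ βb : ℝ, 0 < r → r ≤ 1 → x / 2 ≤ b → b ≤ x ^ 2 → K ≤ a → b ≤ a → a ≤ x ^ 5 →
    |lo| ≤ 4 * √(2 * ε) * b → |lo + 2 * √(2 * ε) * b| ≤ 4 * √(2 * ε) * b → 0 ≤ τ → τ ≤ x ^ 2 →
    0 ≤ βb → βb ≤ ε * a * b / K →
    (∀ ω, lo ≤ ω → ω ≤ lo + 2 * √(2 * ε) * b → β + τ * ω ^ 2 ≤ βb) →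
    Esc r ε β τ lo (lo + 2 * √(2 * ε) * b) a (q * (1 - x / (2 * b)) - η)

def UpBaseStmt : Prop :=
  ∀ η : ℝ, 0 < η → η ≤ 1 → ∃ K : ℝ, 1 ≤ K ∧
    ∀ᶠ L : ℝ in atTop, EscAll (Real.exp (-L)) (L / 2) K 1 η

def UpStepStmt : Prop :=
  ∀ η K' : ℝ, 0 < η → η ≤ 1 → 1 ≤ K' → ∃ K c : ℝ, 1 ≤ K ∧ 0 < c ∧
    ∀ᶠ y : ℝ in atTop, ∀ ε q η' : ℝ, 0 < ε → 0 ≤ q → q ≤ 1 → 0 ≤ η' →
      √ε * Real.exp (Real.exp y) ^ 2 ≤ c → EscAll ε (Real.exp (Real.exp y)) K' q η' →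
      EscAll ε y K (q / 2) (η' + η)

def UpLevelStmt : Prop :=
  ∀ (k : ℕ) (η : ℝ), 0 < η → η ≤ 1 → ∀ᶠ L : ℝ in atTop, ∀ θ : ℝ, η ≤ θ → θ ≤ 1 →
    value (1 - Real.exp (-L) * (lev L k / θ) ^ 2) (1 - Real.exp (-L)) (-1) ≤
      ENNReal.ofReal (1 - (1 / 2) ^ k * (1 - θ / 2) + η)

/- levels and the theorem -/

def LevStmt : Prop :=
  (∀ k, Tendsto (fun L => lev L k) atTop atTop) ∧
  (∀ k, ∀ᶠ L : ℝ in atTop, lev L k = Real.exp (Real.exp (lev L (k + 1)))) ∧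
  (∀ (L : ℝ) (k : ℕ), 0 ≤ L → 0 ≤ lev L k ∧ lev L k ≤ L ∧ lev L (k + 1) ≤ lev L k / 2) ∧
  (∀ L : ℝ, ∃ n, ∀ k, n ≤ k → lev L k = 0) ∧
  (∀ (k : ℕ) (c : ℝ), 0 < c → ∀ᶠ L : ℝ in atTop, lev L (k + 1) ≤ c * lev L k)

def StairStmt : Prop :=
  ∀ η : ℝ, 0 < η → ∃ δ : ℝ, 0 < δ ∧ ∀ (r w : ℝ) (A : ℂ), 0 < r → r < ‖A‖ → 1 - δ < w → w < 1 →
    |(value r w A).toReal - (1 - ∏' k : ℕ,
      (1 - min 1 (lev (Real.log (1 / (1 - w))) k * √((1 - w) / (1 - r / ‖A‖))) / 2))| ≤ η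

end Pool.Agent.MP_66a317_pr.Stair

end

section

open MeasureTheory Set Filter
open scoped ENNReal

namespace Pool.Agent.MP_66a317_pr.Stair

open Fast

theorem cone_mono {r g g' y y' : ℝ} (hg : g ≤ g') (hy : y ≤ y') : cone r g y ⊆ cone r g' y' :=
  fun _ hz => ⟨hz.1, hz.2.1.trans (by linarith), hz.2.2.trans hy⟩

theorem conj_mem_cone {r g y : ℝ} {z : ℂ} (hz : z ∈ cone r g y) :
    (starRingEnd ℂ) z ∈ cone r g y := by
  obtain ⟨h1, h2, h3⟩ := hz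
  exact ⟨by simpa using h1, by simpa using h2, by simpa using h3⟩

theorem Wins.mono {r w p p' : ℝ} {C C' : Set ℂ} (h : Wins r w C p) (hC : C' ⊆ C) (hp : p' ≤ p) :
    Wins r w C' p' := by
  obtain ⟨ι, hι, σ, hne, h1, h2⟩ := h
  refine ⟨ι, hι, σ, hne, h1, fun g hg hl => le_trans ?_ (h2 g (hC hg) hl)⟩
  exact mul_le_mul_of_nonneg_right hp (Nat.cast_nonneg _)

theorem Stage.mono {r w T p p' lam lam' : ℝ} {C C' : Set ℂ} (h : Stage r w C T p lam)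
    (hC : C' ⊆ C) (hp : p' ≤ p) (hl : lam ≤ lam') : Stage r w C' T p' lam' := by
  obtain ⟨ι, hι, σ, hne, h1, h2⟩ := h
  refine ⟨ι, hι, σ, hne, fun i => ⟨(h1 i).1, (h1 i).2.1, fun t h0 ht => ?_⟩,
    fun g hg hg' => le_trans ?_ (h2 g (hC hg) hg')⟩
  · have := (h1 i).2.2 t h0 ht
    linarith
  · exact mul_le_mul_of_nonneg_right hp (Nat.cast_nonneg _)

theorem Stage.wins {r w T p lam : ℝ} {C : Set ℂ} (h : Stage r w C T p lam) : Wins r w C p := by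
  obtain ⟨ι, hι, σ, hne, h1, h2⟩ := h
  refine ⟨ι, hι, σ, hne, fun i => ⟨(h1 i).1, (h1 i).2.1⟩, fun g hg hg' => (h2 g hg hg').trans ?_⟩
  refine Nat.cast_le.2 (Set.ncard_le_ncard ?_ (Set.toFinite _))
  rintro i ⟨t, h0, _, ht⟩
  exact ⟨t, h0, ht⟩

theorem Front.mono {γ : ℝ → ℂ} {r β τ β' τ' : ℝ} (h : Front γ r β τ) (hβ : β ≤ β') (hτ : τ ≤ τ') :
    Front γ r β' τ' := fun ω u hu => by
  have h1 := h ω u hu
  have h2 := mul_le_mul_of_nonneg_right hτ (sq_nonneg ω)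
  linarith

theorem Esc.mono {r ε β τ lo hi a q q' : ℝ} (h : Esc r ε β τ lo hi a q) (hq : q' ≤ q) :
    Esc r ε β τ lo hi a q' := by
  obtain ⟨Ω, m, μ, H, hμ, h1, h2, h3⟩ := h
  exact ⟨Ω, m, μ, H, hμ, h1, h2, fun γ hγ hf =>
    (h3 γ hγ hf).trans (ENNReal.ofReal_le_ofReal (by linarith))⟩

theorem Esc.max_zero {r ε β τ lo hi a q : ℝ} (h : Esc r ε β τ lo hi a q) :
    Esc r ε β τ lo hi a (max q 0) := by
  rcases le_total q 0 with hq | hq
  · obtain ⟨Ω, m, μ, H, hμ, h1, h2, _⟩ := h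
    refine ⟨Ω, m, μ, H, hμ, h1, h2, fun γ _ _ => ?_⟩
    rw [max_eq_right hq, sub_zero, ENNReal.ofReal_one]
    exact prob_le_one
  · rwa [max_eq_left hq]

theorem acc_re (ε y0 v : ℝ) : (acc ε y0 v).re =
    (1 - ε) * v - y0 ^ 2 / (64 * (1 - ε)) * (Real.exp (v / 16) - 1) := by
  rw [acc, Complex.add_re, Complex.ofReal_re, Complex.re_ofReal_mul, Complex.I_re, mul_zero,
    add_zero]

theorem acc_im (ε y0 v : ℝ) : (acc ε y0 v).im = y0 * (Real.exp (v / 32) - 1) := by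
  rw [acc, Complex.add_im, Complex.ofReal_im, Complex.im_ofReal_mul, Complex.I_im, mul_one,
    zero_add]

@[simp] theorem acc_zero (ε y0 : ℝ) : acc ε y0 0 = 0 := by simp [acc]

theorem exp_sixteen (v : ℝ) : Real.exp (v / 16) = Real.exp (v / 32) ^ 2 := by
  rw [← Real.exp_nat_mul]
  congr 1
  push_cast
  ring

@[simp] theorem flip_true (z : ℂ) : flip true z = z := rfl

@[simp] theorem flip_false (z : ℂ) : flip false z = (starRingEnd ℂ) z := rfl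

theorem flip_flip (b : Bool) (z : ℂ) : flip b (flip b z) = z := by cases b <;> simp

theorem dist_flip (b : Bool) (z z' : ℂ) : dist (flip b z) (flip b z') = dist z z' := by
  cases b
  · simp
  · simp

theorem dist_flip_left (b : Bool) (z z' : ℂ) : dist z (flip b z') = dist (flip b z) z' := by
  rw [← dist_flip b z, flip_flip]

/-- sideways motion costs progress -/
theorem im_sq_le {z : ℂ} {x : ℝ} (h : ‖z‖ ≤ x) : z.im ^ 2 ≤ 2 * x * (x - z.re) := by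
  have h0 : 0 ≤ x := (norm_nonneg z).trans h
  have h1 : ‖z‖ ^ 2 ≤ x ^ 2 := by gcongr
  rw [Complex.sq_norm, Complex.normSq_apply] at h1
  nlinarith [sq_nonneg (x - z.re)]

end Pool.Agent.MP_66a317_pr.Stair

end

section

open MeasureTheory Set Filter
open scoped ENNReal

namespace Pool.Agent.MP_66a317_pr.Stair

open Fast

theorem sq_Reach {z : ℂ} {r : ℝ} (hr : 0 ≤ r) (h : r < ‖z‖) : r ^ 2 < z.re ^ 2 + z.im ^ 2 := by
  have h1 : r ^ 2 < ‖z‖ ^ 2 := by gcongr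
  rw [Complex.sq_norm, Complex.normSq_apply] at h1
  linarith

theorem step_Reach {H H' S S' : ℂ} {r g lam q a d : ℝ} (hr : 1 / 2 ≤ r) (hg : 0 ≤ g)
    (hl : 0 ≤ lam) (hq : 0 ≤ q) (hq2 : q ^ 2 = g + lam) (hd : d ≤ 1 / 16)
    (h1 : ‖H' - H‖ ≤ d) (h2 : ‖S' - S‖ ≤ d) (h3 : H.re ≤ r + g + a) (h4 : S.re ≤ a)
    (h5 : a + d - lam ≤ S'.re) (h6 : r < ‖H - S‖) (h7 : r < ‖H' - S'‖) (h8 : 0 < (H - S).re)
    (h9 : |(H - S).im| ≤ 1 / 8) :
    0 < (H' - S').re ∧ |(H' - S').im| ≤ 2 * |(H - S).im| + 2 * q := by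
  have k6 := sq_Reach (by linarith) h6
  have k7 := sq_Reach (by linarith) h7
  have a1 := abs_le.1 ((Complex.abs_re_le_norm _).trans h1)
  have a2 := abs_le.1 ((Complex.abs_re_le_norm _).trans h2)
  have a3 := abs_le.1 ((Complex.abs_im_le_norm _).trans h1)
  have a4 := abs_le.1 ((Complex.abs_im_le_norm _).trans h2)
  have b1 := im_sq_le h1
  have b2 := im_sq_le h2
  have a9 := abs_le.1 h9
  have eX : (H' - S').re = (H - S).re + (H' - H).re - (S' - S).re := by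
    simp only [Complex.sub_re]; ring
  have eY : (H' - S').im = (H - S).im + (H' - H).im - (S' - S).im := by
    simp only [Complex.sub_im]; ring
  have eH : (H' - S').re ≤ r + g + lam + (H' - H).re - d := by
    simp only [Complex.sub_re]; linarith
  have eS : d - (S' - S).re ≤ lam := by
    simp only [Complex.sub_re]; linarith
  generalize (H' - S').re = X' at *
  generalize (H' - S').im = Y' at *
  generalize (H - S).re = X at *
  generalize (H - S).im = Y at *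
  generalize (H' - H).re = u at *
  generalize (H' - H).im = v at *
  generalize (S' - S).re = u' at *
  generalize (S' - S).im = v' at *
  have r2 : (1 / 2) ^ 2 ≤ r ^ 2 := by gcongr
  have c1 : 1 / 4 < X := by
    by_contra hc
    have e1 : X ^ 2 ≤ (1 / 4) ^ 2 := pow_le_pow_left₀ h8.le (not_lt.1 hc) 2
    have e2 : Y ^ 2 ≤ (1 / 8) ^ 2 := sq_le_sq' a9.1 a9.2
    linarith
  have c2 : 0 < X' := by linarith
  refine ⟨c2, ?_⟩
  have c3 : r - 2 * Y' ^ 2 ≤ X' := by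
    by_contra hc
    have e1 : X' ^ 2 ≤ (r - 2 * Y' ^ 2) ^ 2 := pow_le_pow_left₀ c2.le (not_le.1 hc).le 2
    have e2 : Y' ^ 2 ≤ (1 / 4) ^ 2 := sq_le_sq' (by linarith) (by linarith)
    have e3 : 0 ≤ Y' ^ 2 * (4 * r - 1 - 4 * Y' ^ 2) := mul_nonneg (sq_nonneg _) (by linarith)
    linarith
  have c4 : |v| ≤ q / 2 + |Y'| / 2 := by
    refine abs_le_of_sq_le_sq' ?_ (by positivity) |> abs_le.2
    have : 2 * d * (d - u) ≤ 1 / 8 * (q ^ 2 + 2 * Y' ^ 2) :=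
      mul_le_mul (by linarith) (by linarith) (by linarith) (by norm_num)
    linarith [sq_abs Y', mul_nonneg hq (abs_nonneg Y'), sq_nonneg q]
  have c5 : |v'| ≤ q / 2 := by
    refine abs_le_of_sq_le_sq' ?_ (by positivity) |> abs_le.2
    have : 2 * d * (d - u') ≤ 1 / 8 * q ^ 2 :=
      mul_le_mul (by linarith) (by linarith) (by linarith) (by norm_num)
    linarith [sq_nonneg q]
  have c6 : |Y'| ≤ |Y| + |v| + |v'| := by
    rw [eY]
    exact (abs_sub _ _).trans (add_le_add_left (abs_add_le _ _) _)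
  linarith

theorem reach_stmt : ReachStmt := by
  intro σ h r g y lam T n hr hr1 hg hy hl hT hn hs h0 hσ hre hc hh hd
  set q := √(g + lam) with hq
  have q0 : 0 ≤ q := Real.sqrt_nonneg _
  have q2 : q ^ 2 = g + lam := Real.sq_sqrt (by linarith)
  have hH : ∀ t, 0 ≤ t → (h t).re ≤ r + g + t := fun t ht => by
    have a1 := (Complex.re_le_norm _).trans hc.2.1
    have a2 := (Complex.re_le_norm (h t - h 0)).trans ((dist_eq_norm _ _).symm.le.trans (hh t 0))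
    rw [sub_zero, abs_of_nonneg ht, Complex.sub_re] at a2
    linarith
  have hS : ∀ t, 0 ≤ t → (σ t).re ≤ t := fun t ht => by
    have a2 := hσ t 0 ht le_rfl
    rw [h0, dist_zero_right, sub_zero, abs_of_nonneg ht] at a2
    exact (Complex.re_le_norm _).trans a2
  have hd' : ∀ t, 0 ≤ t → t ≤ T → r < ‖h t - σ t‖ := fun t a b => by
    rw [← dist_eq_norm, dist_comm]
    exact hd t a b
  obtain ⟨d, d0, d1, d2⟩ : ∃ d : ℝ, 0 ≤ d ∧ d ≤ 1 / 16 ∧ n * d = T := by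
    rcases n.eq_zero_or_pos with rfl | h1
    · exact ⟨0, le_rfl, by norm_num, by simp at hn ⊢; linarith⟩
    · have h2 : (0 : ℝ) < n := by exact_mod_cast h1
      exact ⟨T / n, by positivity, by rw [div_le_iff₀ h2]; linarith, by field_simp⟩
  have key : ∀ i : ℕ, i ≤ n → 0 < (h (i * d) - σ (i * d)).re ∧
      |(h (i * d) - σ (i * d)).im| + 2 * q ≤ 2 ^ i * (y + 2 * q) := fun i => by
    induction i with
    | zero =>
      intro _
      simp only [Nat.cast_zero, zero_mul, h0, sub_zero, pow_zero, one_mul]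
      exact ⟨hc.1, by linarith [hc.2.2]⟩
    | succ i ih =>
      intro hi
      obtain ⟨k1, k2⟩ := ih (by omega)
      have a0 : 0 ≤ i * d := by positivity
      have e : ((i + 1 : ℕ) : ℝ) * d = i * d + d := by push_cast; ring
      have a1 : i * d + d ≤ T := by
        rw [← e, ← d2]
        exact mul_le_mul_of_nonneg_right (by exact_mod_cast hi) d0
      have a2 : (2 : ℝ) ^ i * (y + 2 * q) ≤ 1 / 8 := le_trans (mul_le_mul_of_nonneg_right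
        (pow_le_pow_right₀ one_le_two (by omega)) (by positivity)) hs
      have a3 := hh (i * d + d) (i * d)
      have a4 := hσ (i * d + d) (i * d) (by positivity) a0
      rw [dist_eq_norm, add_sub_cancel_left, abs_of_nonneg d0] at a3 a4
      obtain ⟨k3, k4⟩ := step_Reach hr hg hl q0 q2 d1 a3 a4 (hH _ a0) (hS _ a0)
        (hre _ (by positivity) a1) (hd' _ a0 (by linarith)) (hd' _ (by positivity) a1) k1
        (by linarith)
      rw [e, pow_succ]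
      exact ⟨k3, by linarith⟩
  obtain ⟨k1, k2⟩ := key n le_rfl
  rw [d2] at k1 k2
  have k3 : |(h T - σ T).im| ≤ 2 ^ n * (y + 2 * q) := by linarith
  refine ⟨k1, ?_, k3⟩
  have k4 : (h T - σ T).re ≤ r + g + lam := by
    have := hH T hT
    have := hre T hT le_rfl
    rw [Complex.sub_re]
    linarith
  have k5 : (h T - σ T).im ^ 2 ≤ (2 ^ n * (y + 2 * q)) ^ 2 := by
    rw [← sq_abs]
    gcongr
  refine le_of_sq_le_sq ?_ (by positivity)
  rw [Complex.sq_norm, Complex.normSq_apply]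
  generalize (2 ^ n * (y + 2 * q)) ^ 2 = Z at *
  nlinarith [sq_nonneg (h T - σ T).im, sq_nonneg Z]

end Pool.Agent.MP_66a317_pr.Stair

end

section

open MeasureTheory Set Filter
open scoped ENNReal

namespace Pool.Agent.MP_66a317_pr.Stair

open Fast

open Classical in
theorem ncard_sum_Compose {α : Type} [Fintype α] (S : Set α) :
    (S.ncard : ℝ) = ∑ a, if a ∈ S then (1 : ℝ) else 0 := by
  rw [Finset.sum_boole, Set.ncard_eq_toFinset_card']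
  congr 2
  ext a
  simp

theorem count_Compose {ι κ : Type} [Fintype ι] [Fintype κ] (A : Set ι) (B : Set (ι × κ))
    (p p' : ℝ) (hp' : p' ≤ 1) (hA : p * Fintype.card ι ≤ A.ncard)
    (h1 : ∀ i ∈ A, ∀ j, (i, j) ∈ B)
    (h2 : ∀ i, i ∉ A → p' * Fintype.card κ ≤ ({j | (i, j) ∈ B} : Set κ).ncard) :
    (1 - (1 - p) * (1 - p')) * Fintype.card (ι × κ) ≤ B.ncard := by
  classical
  have e1 : (B.ncard : ℝ) = ∑ i, (({j | (i, j) ∈ B} : Set κ).ncard : ℝ) := by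
    rw [ncard_sum_Compose, Fintype.sum_prod_type]
    refine Finset.sum_congr rfl fun i _ => ?_
    rw [ncard_sum_Compose]
    rfl
  have e2 : ∀ i, p' * Fintype.card κ + (if i ∈ A then (1 : ℝ) else 0) * ((1 - p') * Fintype.card κ)
      ≤ (({j | (i, j) ∈ B} : Set κ).ncard : ℝ) := by
    intro i
    by_cases hi : i ∈ A
    · have hu : ({j | (i, j) ∈ B} : Set κ) = univ := eq_univ_of_forall fun j => h1 i hi j
      rw [if_pos hi, hu, Set.ncard_univ, Nat.card_eq_fintype_card]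
      linarith
    · rw [if_neg hi, zero_mul, add_zero]
      exact h2 i hi
  have e3 := Finset.sum_le_sum fun i (_ : i ∈ (Finset.univ : Finset ι)) => e2 i
  rw [← e1, Finset.sum_add_distrib, Finset.sum_const, Finset.card_univ, nsmul_eq_mul,
    ← Finset.sum_mul] at e3
  have e4 : (∑ i, if i ∈ A then (1 : ℝ) else 0) = A.ncard := by
    rw [ncard_sum_Compose]
  rw [e4] at e3
  have e5 : 0 ≤ (1 - p') * (Fintype.card κ : ℝ) :=
    mul_nonneg (by linarith) (Nat.cast_nonneg _)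
  have e6 := mul_le_mul_of_nonneg_right hA e5
  rw [Fintype.card_prod, Nat.cast_mul]
  nlinarith

theorem compose_stmt : ComposeStmt := by
  intro r w T p lam p' C C' hT hp' hS hR hW
  obtain ⟨ι, hι, σ, ⟨i0⟩, hσ, hc⟩ := hS
  obtain ⟨κ, hκ, τ, ⟨j0⟩, hτ, hc'⟩ := hW
  refine ⟨ι × κ, inferInstance, fun q t => σ q.1 (min t T) + τ q.2 (max (t - T) 0), ⟨(i0, j0)⟩,
    fun q => ⟨?_, fun s t hs ht => ?_⟩, fun h h0 hl => ?_⟩
  · show σ q.1 (min 0 T) + τ q.2 (max (0 - T) 0) = 0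
    rw [min_eq_left hT, max_eq_right (by linarith), (hσ q.1).1, (hτ q.2).1, add_zero]
  · have a1 := (hσ q.1).2.1 (min s T) (min t T) (le_min hs hT) (le_min ht hT)
    have a2 := (hτ q.2).2 (max (s - T) 0) (max (t - T) 0) (le_max_right _ _) (le_max_right _ _)
    have a3 : ∀ u : ℝ, max (u - T) 0 = max u T - T := fun u => by
      rw [← max_sub_sub_right, sub_self]
    have a4 := abs_min_add_abs_max s t T
    have a5 : max (s - T) 0 - max (t - T) 0 = max s T - max t T := by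
      rw [a3, a3]
      ring
    rw [a5] at a2
    exact (dist_add_add_le _ _ _ _).trans (by linarith)
  · refine count_Compose {i | ∃ t, 0 ≤ t ∧ t ≤ T ∧ dist (σ i t) (h t) ≤ r} _ p p' hp'
      (hc h h0 hl) ?_ ?_
    · rintro i ⟨t, ht0, htT, hd⟩ j
      refine ⟨t, ht0, ?_⟩
      show dist (σ i (min t T) + τ j (max (t - T) 0)) (h t) ≤ r
      rwa [min_eq_left htT, max_eq_right (by linarith), (hτ j).1, add_zero]
    · intro i hi
      have hm : h T - σ i T ∈ C' := hR (σ i) h (hσ i).1 (hσ i).2.1 (hσ i).2.2 h0 hl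
        fun t ht0 htT => lt_of_not_ge fun hd => hi ⟨t, ht0, htT, hd⟩
      have hb := hc' (fun t => h (T + t) - σ i T) (by simpa using hm) fun s t => by
        have := hl (T + s) (T + t)
        rw [add_sub_add_left_eq_sub] at this
        rwa [dist_sub_right]
      refine hb.trans (Nat.cast_le.2 (Set.ncard_le_ncard ?_ (Set.toFinite _)))
      rintro j ⟨t, ht0, hd⟩
      refine ⟨T + t, by linarith, ?_⟩
      show dist (σ i (min (T + t) T) + τ j (max (T + t - T) 0)) (h (T + t)) ≤ r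
      rw [min_eq_right (by linarith), add_sub_cancel_left, max_eq_left ht0]
      rwa [← dist_add_left (σ i T), add_sub_cancel] at hd

theorem bridge2_stmt : Bridge2Stmt := by
  intro r w p hw hW
  obtain ⟨ι, hι, σ, hne, hσ, hc⟩ := hW
  let _ : MeasurableSpace ι := ⊤
  have _ : MeasurableSingletonClass ι := ⟨fun _ => trivial⟩
  let F : ι → Traj (-1) 1 := fun i => ⟨fun t => σ i t - 1, by simp [(hσ i).1], fun s t => by
    rw [one_mul, NNReal.dist_eq, dist_sub_right]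
    exact (hσ i).2 s t s.2 t.2⟩
  have m1 : Measurable F := fun _ _ => trivial
  have hν : IsProbabilityMeasure (ProbabilityTheory.uniformOn (univ : Set ι)) :=
    ProbabilityTheory.isProbabilityMeasure_uniformOn finite_univ univ_nonempty
  have p1 := Measure.isProbabilityMeasure_map
    (μ := ProbabilityTheory.uniformOn (univ : Set ι)) m1.aemeasurable
  refine le_iSup_of_le ⟨_, p1⟩ (le_iInf fun h => ?_)
  rw [ProbabilityMeasure.coe_mk]
  refine le_trans ?_ (Measure.le_map_apply m1.aemeasurable _)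
  have hb := hc (fun t => h.1 t.toNNReal + 1) (by simpa using h.2.1) fun s t => by
    rw [dist_add_right]
    exact (h.2.2 _ _).trans (mul_le_mul_of_nonneg_left (dist_toNNReal_le s t) hw)
  set A : Set ι := {i | ∃ t, 0 ≤ t ∧ dist (σ i t) (h.1 t.toNNReal + 1) ≤ r} with hA
  have hsub : A ⊆ F ⁻¹' {s | ∃ t : NNReal, dist (s.1 t) (h.1 t) ≤ r} := by
    rintro i ⟨t, ht, hd⟩
    refine ⟨t.toNNReal, ?_⟩
    show dist (σ i t.toNNReal - 1) (h.1 t.toNNReal) ≤ r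
    rw [Real.coe_toNNReal t ht]
    rwa [← dist_sub_right _ _ (1 : ℂ), add_sub_cancel_right] at hd
  refine le_trans ?_ (measure_mono hsub)
  have hn : (0 : ℝ) < Fintype.card ι := Nat.cast_pos.2 Fintype.card_pos
  rw [ProbabilityTheory.uniformOn_univ, Measure.count_apply_finite A (Set.toFinite _),
    ← Set.ncard_eq_toFinset_card A (Set.toFinite _), ← ENNReal.ofReal_natCast,
    ← ENNReal.ofReal_natCast (Fintype.card ι), ← ENNReal.ofReal_div_of_pos hn]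
  exact ENNReal.ofReal_le_ofReal ((le_div_iff₀ hn).2 hb)

end Pool.Agent.MP_66a317_pr.Stair

end

section

open MeasureTheory Set Filter
open scoped ENNReal
namespace Pool.Agent.MP_66a317_pr.Stair
open Fast

theorem floor_ZoneCore {P : ℝ} (hP : 0 < P) (x : ℝ) : ∃ n : ℤ, n * P ≤ x ∧ x < n * P + P := by
  refine ⟨⌊x / P⌋, ?_, ?_⟩
  · have := Int.floor_le (x / P)
    rwa [le_div_iff₀ hP] at this
  · have := Int.lt_floor_add_one (x / P)
    rw [div_lt_iff₀ hP] at this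
    linarith

theorem zoneCore_stmt : ZoneCoreStmt := by
  intro ξ τ Q te J dR dL d0 hte hξ hτ hmono hτ0 hQ hdR hdL hd0 hJ hend hR hL
  have hPR : dL + 2 * d0 = dR + dL + 2 * d0 - dR := by ring
  rw [hPR]
  obtain ⟨P, hP⟩ : ∃ P, P = dR + dL + 2 * d0 := ⟨_, rfl⟩
  rw [← hP] at hR hL ⊢
  have hP0 : 0 < P := by linarith
  obtain ⟨ts, ⟨hts, hξs⟩, hmin⟩ : ∃ t, IsLeast (Icc 0 te ∩ ξ ⁻¹' Iic 0) t :=
    (isCompact_Icc.of_isClosed_subset (hξ.preimage_isClosed_of_isClosed isClosed_Icc isClosed_Iic)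
      inter_subset_left).exists_isLeast ⟨te, ⟨hte, le_rfl⟩, hend⟩
  have hξ' : ContinuousOn ξ (Icc 0 ts) := hξ.mono (Icc_subset_Icc_right hts.2)
  obtain ⟨t', ⟨ht', hξt'⟩, hmax⟩ : ∃ t, IsGreatest (Icc 0 ts ∩ ξ ⁻¹' Ici J) t :=
    (isCompact_Icc.of_isClosed_subset (hξ'.preimage_isClosed_of_isClosed isClosed_Icc isClosed_Ici)
      inter_subset_left).exists_isGreatest ⟨0, ⟨le_rfl, hts.1⟩, hJ⟩
  have hξs' : ξ ts ≤ 0 := hξs
  have hξt'' : J ≤ ξ t' := hξt'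
  refine ⟨τ ts, τ t', fun φ => ?_⟩
  by_contra hno
  rw [not_or, not_or] at hno
  obtain ⟨hng, hb1, hb2⟩ := hno
  obtain ⟨n, hn1, hn2⟩ := floor_ZoneCore hP0 (φ + τ ts)
  have hn3 : φ + τ ts ≤ n * P + dR := by
    by_contra h
    exact hb1 ⟨n, (not_le.mp h).le, by linarith⟩
  have hg : ContinuousOn (fun t => ξ t - Q (φ + τ t)) (Icc 0 ts) :=
    hξ'.sub (hQ.comp (continuous_const.add hτ)).continuousOn
  have hc : Continuous fun t => φ + τ t := continuous_const.add hτ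
  have hzero : ∀ t ∈ Icc 0 ts, ξ t - Q (φ + τ t) = 0 →
      ¬ ((n * P ≤ φ + τ t ∧ φ + τ t ≤ n * P + dR) ∨
        (n * P - d0 - dL ≤ φ + τ t ∧ φ + τ t ≤ n * P - d0)) := fun t ht h0 h =>
    hng ⟨t, ⟨ht.1, ht.2.trans hts.2⟩, sub_eq_zero.mp h0, n, h⟩
  have hneg : ∀ t ∈ Icc 0 ts, n * P ≤ φ + τ t → ξ t < J := by
    intro t ht h
    by_contra hJt
    have h1 : φ + τ t ≤ n * P + dR := by linarith [hmono ht.2]
    have h2 := (hR n _ h h1).2
    have h3 := (hR n _ hn1 hn3).1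
    obtain ⟨u, hu, hu0⟩ := intermediate_value_Icc' ht.2 (hg.mono (Icc_subset_Icc_left ht.1))
      (show (0 : ℝ) ∈ Icc (ξ ts - Q (φ + τ ts)) (ξ t - Q (φ + τ t)) from
        ⟨by linarith, by linarith [not_lt.mp hJt]⟩)
    exact hzero u ⟨ht.1.trans hu.1, hu.2⟩ hu0
      (Or.inl ⟨by linarith [hmono hu.1], by linarith [hmono hu.2]⟩)
  have hup : φ + τ t' < n * P := by
    by_contra h
    exact absurd (hneg t' ht' (not_lt.mp h)) (not_lt.mpr hξt'')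
  have hlow : φ + τ t' < n * P - d0 - dL := by
    by_contra h
    exact hb2 ⟨n, by linarith [not_lt.mp h], by linarith⟩
  obtain ⟨ta, hta, hea⟩ := intermediate_value_Icc ht'.2 hc.continuousOn
    (show n * P - d0 - dL ∈ Icc (φ + τ t') (φ + τ ts) from ⟨hlow.le, by linarith⟩)
  have hea' : φ + τ ta = n * P - d0 - dL := hea
  obtain ⟨tb, htb, heb⟩ := intermediate_value_Icc hta.2 hc.continuousOn
    (show n * P - d0 ∈ Icc (φ + τ ta) (φ + τ ts) from ⟨by linarith, by linarith⟩)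
  have heb' : φ + τ tb = n * P - d0 := heb
  have ha0 : 0 ≤ ta := ht'.1.trans hta.1
  have hb0 : 0 ≤ tb := ha0.trans htb.1
  have hξb : 0 < ξ tb := by
    by_contra h
    have h1 : ts ≤ tb := hmin ⟨⟨hb0, htb.2.trans hts.2⟩, not_lt.mp h⟩
    linarith [hmono h1]
  have hξa : ξ ta < J := by
    by_contra h
    have h1 : ta ≤ t' := hmax ⟨⟨ha0, hta.2⟩, not_lt.mp h⟩
    linarith [hmono h1]
  obtain ⟨u, hu, hu0⟩ := intermediate_value_Icc htb.1 (hg.mono (Icc_subset_Icc ha0 htb.2))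
    (show (0 : ℝ) ∈ Icc (ξ ta - Q (φ + τ ta)) (ξ tb - Q (φ + τ tb)) from
      ⟨by rw [hea', (hL n).1]; linarith, by rw [heb', (hL n).2]; linarith⟩)
  exact hzero u ⟨ha0.trans hu.1, hu.2.trans htb.2⟩ hu0
    (Or.inr ⟨by linarith [hmono hu.1], by linarith [hmono hu.2]⟩)

theorem count_ZoneCore {P : ℝ} {N : ℕ} (hP : 0 < P) (hN : 0 < N) (a l : ℝ) (hl : 0 ≤ l) :
    (({j : Fin N | a ≤ (j : ℝ) * P / N ∧ (j : ℝ) * P / N ≤ a + l} : Set (Fin N)).ncard : ℝ) ≤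
      l * N / P + 1 := by
  have hN' : (0 : ℝ) < N := Nat.cast_pos.2 hN
  have h1 : ({j : Fin N | a ≤ (j : ℝ) * P / N ∧ (j : ℝ) * P / N ≤ a + l} : Set (Fin N)).ncard ≤
      (Finset.Icc ⌈a * N / P⌉ ⌊(a + l) * N / P⌋).card := by
    rw [← Set.ncard_coe_finset]
    refine Set.ncard_le_ncard_of_injOn (fun j => ((j : ℕ) : ℤ)) (fun j hj => ?_)
      (fun j _ j' _ e => Fin.ext (Int.ofNat_inj.1 e)) (Finset.finite_toSet _)
    obtain ⟨h2, h3⟩ := hj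
    rw [le_div_iff₀ hN'] at h2
    rw [div_le_iff₀ hN'] at h3
    rw [Finset.mem_coe, Finset.mem_Icc, Int.ceil_le, Int.le_floor, Int.cast_natCast,
      div_le_iff₀ hP, le_div_iff₀ hP]
    exact ⟨h2, h3⟩
  refine (Nat.cast_le.2 h1).trans ?_
  rw [Int.card_Icc]
  rcases le_total (⌊(a + l) * N / P⌋ + 1 - ⌈a * N / P⌉) 0 with h | h
  · rw [Int.toNat_of_nonpos h, Nat.cast_zero]
    positivity
  · rw [← Int.cast_natCast, Int.toNat_of_nonneg h]
    have h2 := Int.floor_le ((a + l) * N / P)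
    have h3 := Int.le_ceil (a * N / P)
    rw [add_mul, add_div] at h2
    rw [add_mul, add_div]
    push_cast
    linarith

theorem arcCount_stmt : ArcCountStmt := by
  intro P b x d N hP hN hd
  have hN' : (0 : ℝ) < N := Nat.cast_pos.2 hN
  rcases le_or_gt P d with hdP | hdP
  · have h1 : ({j : Fin N | ∃ n : ℤ, n * P + b ≤ (j : ℝ) * P / N + x ∧
        (j : ℝ) * P / N + x ≤ n * P + b + d} : Set (Fin N)).ncard ≤ N := by
      refine (Set.ncard_le_card _).trans ?_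
      rw [Nat.card_eq_fintype_card, Fintype.card_fin]
    have h2 : (N : ℝ) ≤ d * N / P := by
      rw [le_div_iff₀ hP, mul_comm]
      exact mul_le_mul_of_nonneg_right hdP hN'.le
    have h3 := (Nat.cast_le (α := ℝ)).2 h1
    linarith
  obtain ⟨m, hm1, hm2⟩ := floor_ZoneCore hP (x - b)
  obtain ⟨y, hy⟩ : ∃ y, y = x - b - m * P := ⟨_, rfl⟩
  have hy0 : 0 ≤ y := by linarith
  have hyP : y < P := by linarith
  have hsub : ({j : Fin N | ∃ n : ℤ, n * P + b ≤ (j : ℝ) * P / N + x ∧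
      (j : ℝ) * P / N + x ≤ n * P + b + d} : Set (Fin N)) ⊆
      {j : Fin N | 0 ≤ (j : ℝ) * P / N ∧ (j : ℝ) * P / N ≤ 0 + max (d - y) 0} ∪
        {j : Fin N | P - y ≤ (j : ℝ) * P / N ∧ (j : ℝ) * P / N ≤ P - y + min d y} := by
    rintro j ⟨n, h2, h3⟩
    have h0 : 0 ≤ (j : ℝ) * P / N := by positivity
    have h1 : (j : ℝ) * P / N < P := by
      rw [div_lt_iff₀ hN', mul_comm]
      exact mul_lt_mul_of_pos_left (Nat.cast_lt.2 j.2) hP
    have e1 : ((n - m : ℤ) : ℝ) * P < 2 * P := by push_cast; linarith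
    have e2 : (-1 : ℝ) * P < ((n - m : ℤ) : ℝ) * P := by push_cast; linarith
    have e3 : n - m < 2 := by exact_mod_cast lt_of_mul_lt_mul_right e1 hP.le
    have e4 : -1 < n - m := by exact_mod_cast lt_of_mul_lt_mul_right e2 hP.le
    have e5 : n = m ∨ n = m + 1 := by omega
    rcases e5 with rfl | rfl
    · exact Or.inl ⟨h0, by linarith [le_max_left (d - y) 0]⟩
    · push_cast at h2 h3
      refine Or.inr ⟨by linarith, ?_⟩
      rcases le_total d y with h | h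
      · rw [min_eq_left h]; linarith
      · rw [min_eq_right h]; linarith
  have h1 := (Nat.cast_le (α := ℝ)).2
    ((Set.ncard_le_ncard hsub (Set.toFinite _)).trans (Set.ncard_union_le _ _))
  have h2 := count_ZoneCore hP hN 0 (max (d - y) 0) (le_max_right _ _)
  have h3 := count_ZoneCore hP hN (P - y) (min d y) (le_min hd hy0)
  have h4 : d = max (d - y) 0 + min d y := by
    rcases le_total d y with h | h
    · rw [min_eq_left h, max_eq_right (by linarith), zero_add]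
    · rw [min_eq_right h, max_eq_left (by linarith), sub_add_cancel]
  have h5 : d * N / P = max (d - y) 0 * N / P + min d y * N / P := by
    rw [← add_div, ← add_mul, ← h4]
  rw [Nat.cast_add] at h1
  linarith

end Pool.Agent.MP_66a317_pr.Stair

end

section

open MeasureTheory Set Filter
open scoped ENNReal

namespace Pool.Agent.MP_66a317_pr.Stair

open Fast

theorem pow_exp_LowStep (A ν : ℝ) (n : ℕ) (hν : 0 < ν) (δ : ℝ) (hδ : 0 < δ) :
    ∀ᶠ y : ℝ in atTop, A * (y ^ n * Real.exp (-(ν * y))) ≤ δ := by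
  have h1 : Tendsto (fun y : ℝ => ν * y) atTop atTop := tendsto_id.const_mul_atTop hν
  have h2 := (Real.tendsto_pow_mul_exp_neg_atTop_nhds_zero n).comp h1
  have h3 := h2.const_mul (A / ν ^ n)
  rw [mul_zero] at h3
  filter_upwards [h3.eventually (ge_mem_nhds hδ)] with y hy
  have h4 : A * (y ^ n * Real.exp (-(ν * y))) =
      A / ν ^ n * ((ν * y) ^ n * Real.exp (-(ν * y))) := by
    rw [mul_pow]
    field_simp
  rw [h4]
  exact hy

theorem lowBase_stmt (hS : StageAsymStmt) : LowBaseStmt := by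
  intro η θ0 hη hη1 hθ0
  obtain ⟨K, C, ν, b0, hK, hC, hν, hν1, H⟩ := hS η θ0 hη hη1 hθ0
  refine ⟨K, hK, ?_⟩
  filter_upwards [pow_exp_LowStep (C ^ 2 / (2 * θ0) ^ 3) (ν / 2) 3 (by positivity) 1 one_pos,
    eventually_ge_atTop (2 * b0), eventually_ge_atTop 0] with L hL hLb hL0
  intro r θ hr hr1 hθ hθ1
  have hθp : 0 < θ := hθ0.trans_le hθ
  have hb1 : L / 2 ≤ L / 2 / θ := by
    rw [le_div_iff₀ hθp]
    nlinarith
  have hb2 : L / 2 / θ ≤ L / (2 * θ0) := by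
    rw [div_div]
    gcongr
  have hb0 : 0 ≤ L / 2 / θ := by positivity
  have hs : √(Real.exp (-L)) = Real.exp (-L / 2) := (Real.exp_half (-L)).symm
  have he : (1 - ν) * θ * (L / 2 / θ) = (1 - ν) * (L / 2) := by field_simp
  have hsm : √(Real.exp (-L)) * (L / 2 / θ) *
      (C * (L / 2 / θ) ^ 2 * Real.exp ((1 - ν) * θ * (L / 2 / θ))) * C ≤ 1 := by
    rw [hs, he]
    have h1 : Real.exp (-L / 2) * Real.exp ((1 - ν) * (L / 2)) = Real.exp (-(ν / 2 * L)) := by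
      rw [← Real.exp_add]
      congr 1
      ring
    have h2 : Real.exp (-L / 2) * (L / 2 / θ) *
        (C * (L / 2 / θ) ^ 2 * Real.exp ((1 - ν) * (L / 2))) * C =
        C ^ 2 * (L / 2 / θ) ^ 3 * Real.exp (-(ν / 2 * L)) := by
      rw [← h1]
      ring
    rw [h2]
    refine le_trans ?_ hL
    have h3 : C ^ 2 / (2 * θ0) ^ 3 * (L ^ 3 * Real.exp (-(ν / 2 * L))) =
        C ^ 2 * (L / (2 * θ0)) ^ 3 * Real.exp (-(ν / 2 * L)) := by
      rw [div_pow]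
      ring
    rw [h3]
    gcongr
  obtain ⟨T1, -, -, hst⟩ := H (Real.exp (-L)) r (L / 2 / θ) θ (Real.exp_pos _) hr hr1
    (by linarith) hθ hθ1 hsm
  exact hst.wins.mono subset_rfl (by linarith)

theorem grow_LowStep (s b C T T1 K : ℝ) (hs : 0 ≤ s) (hb : 0 ≤ b) (hbT : b ≤ T)
    (hCT : C ≤ T) (hT : 1 ≤ T) (hT1 : 0 ≤ T1) (hT1T : T1 ≤ T) (hK : 1 ≤ K) :
    2 ^ ⌈16 * T1⌉₊ * (s * b / K + 2 * √(s ^ 2 * b ^ 2 + C * s ^ 2 * b ^ 2 * T)) ≤
      s * Real.exp (22 * T) := by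
  have h1 : (2 : ℝ) ^ ⌈16 * T1⌉₊ ≤ Real.exp (16 * T + 1) := by
    have h2 : (⌈16 * T1⌉₊ : ℝ) ≤ 16 * T + 1 := by
      have := Nat.ceil_lt_add_one (show 0 ≤ 16 * T1 by positivity)
      linarith
    have h3 : (2 : ℝ) ≤ Real.exp 1 := by
      have := Real.add_one_le_exp (1 : ℝ)
      linarith
    calc (2 : ℝ) ^ ⌈16 * T1⌉₊ ≤ Real.exp 1 ^ ⌈16 * T1⌉₊ := by gcongr
      _ = Real.exp (⌈16 * T1⌉₊ : ℝ) := by rw [← Real.exp_nat_mul, mul_one]
      _ ≤ _ := Real.exp_le_exp.2 h2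
  have h4 : √(s ^ 2 * b ^ 2 + C * s ^ 2 * b ^ 2 * T) ≤ s * b * (1 + T) := by
    rw [Real.sqrt_le_left (by positivity)]
    have h5 : 1 + C * T ≤ (1 + T) ^ 2 := by nlinarith
    calc s ^ 2 * b ^ 2 + C * s ^ 2 * b ^ 2 * T = (s * b) ^ 2 * (1 + C * T) := by ring
      _ ≤ (s * b) ^ 2 * (1 + T) ^ 2 := by gcongr
      _ = _ := by ring
  have h6 : s * b / K ≤ s * b := div_le_self (by positivity) hK
  have h7 : b ≤ Real.exp T := by
    have := Real.add_one_le_exp T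
    linarith
  have h8 : 3 + 2 * T ≤ Real.exp (2 + 2 * T) := by
    have := Real.add_one_le_exp (2 + 2 * T)
    linarith
  have h9 : s * b / K + 2 * √(s ^ 2 * b ^ 2 + C * s ^ 2 * b ^ 2 * T) ≤
      s * (Real.exp T * Real.exp (2 + 2 * T)) := by
    calc _ ≤ s * (b * (3 + 2 * T)) := by nlinarith
      _ ≤ _ := by gcongr
  calc _ ≤ Real.exp (16 * T + 1) * (s * (Real.exp T * Real.exp (2 + 2 * T))) := by gcongr
    _ = s * Real.exp (16 * T + 1 + (T + (2 + 2 * T))) := by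
      rw [Real.exp_add (16 * T + 1), Real.exp_add T]
      ring
    _ ≤ _ := by
      gcongr
      linarith

theorem lowStep_stmt (hS : StageAsymStmt) (hR : ReachStmt) (hC : ComposeStmt) : LowStepStmt := by
  intro η θ0 K' hη hη1 hθ0 hθ01 hK'
  obtain ⟨K1, C, ν, b0, hK1, hC1, hν, hν1, H⟩ := hS (min η (θ0 / 2)) θ0
    (lt_min hη (by positivity)) ((min_le_left _ _).trans hη1) hθ0
  refine ⟨max K1 K', 1 / 8, hK1.trans (le_max_left _ _), by norm_num, ?_⟩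
  filter_upwards [pow_exp_LowStep (22 * C / θ0 ^ 2) ν 2 hν (1 / 2) (by norm_num),
    eventually_ge_atTop b0, eventually_ge_atTop 1, eventually_ge_atTop (2 * K')]
    with y hy hyb hy1 hyK
  intro ε q η' hε hq hq1 hη' hsX hW r θ hr hr1 hθ hθ1
  have hθp : 0 < θ := hθ0.trans_le hθ
  have hK1p : 0 < K1 := by linarith
  have hK'p : 0 < K' := by linarith
  have hKa : 1 / max K1 K' ≤ 1 / K1 := one_div_le_one_div_of_le hK1p (le_max_left _ _)
  have hKb : 1 / max K1 K' ≤ 1 / K' := one_div_le_one_div_of_le hK'p (le_max_right _ _)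
  have hKc : 1 / K' ≤ 1 / 2 := one_div_le_one_div_of_le two_pos hK'
  have hb1 : y ≤ y / θ := by
    rw [le_div_iff₀ hθp]
    exact mul_le_of_le_one_right (by linarith) hθ1
  have hb2 : y / θ ≤ y / θ0 := by gcongr
  have he : (1 - ν) * θ * (y / θ) = (1 - ν) * y := by field_simp
  set b := y / θ with hb
  set X := Real.exp (Real.exp y) with hX
  set T := C * b ^ 2 * Real.exp ((1 - ν) * θ * b) with hT
  have hs0 : 0 ≤ √ε := Real.sqrt_nonneg _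
  have hss : √ε ^ 2 = ε := Real.sq_sqrt hε.le
  have hb1' : 1 ≤ b := hy1.trans hb1
  have hE : 1 ≤ Real.exp ((1 - ν) * θ * b) := Real.one_le_exp (by
    have : 0 ≤ 1 - ν := by linarith
    positivity)
  have hb3 : b ≤ b ^ 2 := le_self_pow₀ hb1' two_ne_zero
  have hCb : C * b ^ 2 ≤ T := le_mul_of_one_le_right (by positivity) hE
  have hbT : b ≤ T :=
    hb3.trans ((le_mul_of_one_le_left (sq_nonneg b) hC1).trans hCb)
  have hCT : C ≤ T :=
    (le_mul_of_one_le_right (by linarith) (hb1'.trans hb3)).trans hCb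
  have hT1 : 1 ≤ T := hb1'.trans hbT
  have hTy : 22 * T + K' ≤ Real.exp y := by
    have h1 : T ≤ C * (y / θ0) ^ 2 * Real.exp ((1 - ν) * y) := by
      rw [hT, he]
      gcongr
    have h2 : Real.exp ((1 - ν) * y) = Real.exp (-(ν * y)) * Real.exp y := by
      rw [← Real.exp_add]
      congr 1
      ring
    have h3 : 22 * (C * (y / θ0) ^ 2 * Real.exp ((1 - ν) * y)) =
        22 * C / θ0 ^ 2 * (y ^ 2 * Real.exp (-(ν * y))) * Real.exp y := by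
      rw [h2, div_pow]
      ring
    have h4 := mul_le_mul_of_nonneg_right hy (Real.exp_pos y).le
    have h5 := Real.add_one_le_exp y
    linarith
  have hXT : Real.exp (22 * T) * K' ≤ X := by
    have h1 : K' ≤ Real.exp K' := by
      have := Real.add_one_le_exp K'
      linarith
    calc Real.exp (22 * T) * K' ≤ Real.exp (22 * T) * Real.exp K' := by gcongr
      _ = Real.exp (22 * T + K') := (Real.exp_add _ _).symm
      _ ≤ _ := Real.exp_le_exp.2 hTy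
  have hXT' : Real.exp (22 * T) ≤ X / K' := by rwa [le_div_iff₀ hK'p]
  have hX0 : 0 < X := Real.exp_pos _
  have hXK : X / K' ≤ X / 2 := by gcongr
  have hsm : √ε * b * T * C ≤ 1 := by
    have h1 : T ≤ Real.exp T := by
      have := Real.add_one_le_exp T
      linarith
    have h2 : b * T * C ≤ Real.exp (22 * T) := by
      calc b * T * C ≤ Real.exp T * Real.exp T * Real.exp T := by
            gcongr
            · exact hbT.trans h1
            · exact hCT.trans h1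
        _ = Real.exp (T + T + T) := by rw [Real.exp_add, Real.exp_add]
        _ ≤ _ := Real.exp_le_exp.2 (by linarith)
    have h3 : b * T * C ≤ X := by linarith
    calc √ε * b * T * C = √ε * (b * T * C) := by ring
      _ ≤ √ε * X := by gcongr
      _ ≤ 1 := by linarith
  obtain ⟨T1, hT10, hT1T, hst⟩ := H ε r b θ hε (by linarith) hr1 (hyb.trans hb1) hθ hθ1 hsm
  have hst' : Stage r (1 - ε) (cone r (ε * b ^ 2) (√ε * b / max K1 K')) T1
      (θ / 2 - min η (θ0 / 2)) (C * ε * b ^ 2 * T) :=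
    hst.mono (cone_mono le_rfl (by gcongr; exact le_max_left _ _)) le_rfl le_rfl
  have hY := grow_LowStep (√ε) b C T T1 (max K1 K') hs0 (by linarith) hbT hCT hT1
    hT10 hT1T (le_trans (by linarith) (le_max_left _ _))
  rw [hss] at hY
  have hKp : 0 < max K1 K' := lt_max_of_lt_left hK1p
  have hg0 : 0 ≤ ε * b ^ 2 := by positivity
  have hl0 : 0 ≤ C * ε * b ^ 2 * T := by positivity
  have hy0 : 0 ≤ √ε * b / max K1 K' := by positivity
  have hw := hC r (1 - ε) T1 _ _ (1 - q * (1 - 1 / 2) - η') _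
    (cone r (ε * (X / 1) ^ 2) (√ε * (X / 1) / K')) hT10 (by linarith) hst' ?_
    (hW r 1 (by linarith) hr1 hθ01 le_rfl)
  · refine hw.mono subset_rfl ?_
    have h1 : min η (θ0 / 2) ≤ η := min_le_left _ _
    have h2 : min η (θ0 / 2) ≤ θ0 / 2 := min_le_right _ _
    have h3 : 0 < min η (θ0 / 2) := lt_min hη (by positivity)
    generalize min η (θ0 / 2) = m at h1 h2 h3 ⊢
    have h4 : 0 ≤ η' * (θ / 2 - m) := mul_nonneg hη' (by linarith)
    have h5 : 0 ≤ m * (1 - q) := mul_nonneg h3.le (by linarith)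
    linarith
  · intro σ h hσ0 hσ hlag hh0 hh hno
    have hY1 : √ε * Real.exp (22 * T) ≤ √ε * (X / K') := by gcongr
    have hY2 : √ε * (X / K') ≤ √ε * (X / 2) := by gcongr
    have hre := hR σ h r (ε * b ^ 2) (√ε * b / max K1 K') (C * ε * b ^ 2 * T) T1 ⌈16 * T1⌉₊
      (by linarith) hr1 hg0 hy0 hl0 hT10 (Nat.le_ceil _) (by linarith) hσ0 hσ hlag hh0
      (fun s t => (hh s t).trans (mul_le_of_le_one_left (abs_nonneg _) (by linarith))) hno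
    refine cone_mono ?_ ?_ hre
    · have h1 : (1 : ℝ) ≤ 2 ^ ⌈16 * T1⌉₊ := one_le_pow₀ one_le_two
      have h2 := Real.sq_sqrt (add_nonneg hg0 hl0)
      have h3 := Real.sqrt_nonneg (ε * b ^ 2 + C * ε * b ^ 2 * T)
      generalize √(ε * b ^ 2 + C * ε * b ^ 2 * T) = u at *
      have h4 : √ε * b / max K1 K' + 2 * u ≤ 2 ^ ⌈16 * T1⌉₊ * (√ε * b / max K1 K' + 2 * u) :=
        le_mul_of_one_le_left (by positivity) h1
      generalize 2 ^ ⌈16 * T1⌉₊ * (√ε * b / max K1 K' + 2 * u) = Y at *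
      have h5 : 2 * u ≤ Y := by linarith
      have h6 : Y ≤ √ε * (X / 2) := by linarith
      have h7 : Y ^ 2 ≤ (√ε * (X / 2)) ^ 2 := by gcongr; linarith
      have h8 : (2 * u) ^ 2 ≤ Y ^ 2 := by gcongr
      have h9 : (√ε * (X / 2)) ^ 2 = ε * X ^ 2 / 4 := by
        rw [mul_pow, hss]
        ring
      rw [div_one, ← h2]
      have h10 : 0 ≤ ε * X ^ 2 := by positivity
      linarith
    · rw [div_one, mul_div_assoc (√ε) X]
      linarith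

end Pool.Agent.MP_66a317_pr.Stair

end

section

open MeasureTheory Set Filter
open scoped ENNReal

namespace Pool.Agent.MP_66a317_pr.Fast

lemma front_UpFanCore {σ : ℝ → ℂ} (h0 : σ 0 = -1) (hσ : ∀ s t, dist (σ s) (σ t) ≤ |s - t|)
    {Φ ω t : ℝ} (hω : |ω| ≤ Φ) (ht : 0 ≤ t) : (σ t * cis (-ω)).re ≤ t - (1 - Φ ^ 2 / 2) := by
  have h1 := re_mul_cis_le (σ t + 1) (-ω)
  have h2 := hσ t 0
  rw [h0, Complex.dist_eq, sub_neg_eq_add, sub_zero, abs_of_nonneg ht] at h2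
  rw [add_mul, one_mul, Complex.add_re, cis_re, Real.cos_neg] at h1
  have h3 := Real.one_sub_sq_div_two_le_cos (x := ω)
  have h4 := pow_le_pow_left₀ (abs_nonneg ω) hω 2
  rw [sq_abs] at h4
  linarith

lemma proj_UpFanCore (z : ℂ) (ρ ω : ℝ) :
    ρ - (z * cis (-ω)).re ≤ dist z ((ρ : ℂ) * cis ω) := by
  rw [← dist_mul_cis _ _ (-ω), mul_assoc, cis_mul_neg, mul_one, dist_comm, Complex.dist_eq]
  simpa using Complex.re_le_norm ((ρ : ℂ) - z * cis (-ω))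

theorem upFanCore_stmt (hD : DisperseStmt) (hN : NearStmt) (hF : FanStmt) : UpFanCoreStmt := by
  intro ε δ δ' Φ a lam ζ D S N hε hδ' hδ hδ1 hΦ ha h1 hl hζ h2 hD0 h3 h4 hN0 hS
  have a1 : 0 < 1 / a := by positivity
  have a2 : 0 < ε * a := by positivity
  have hT : 0 < a * lam ^ N := by positivity
  have hΦ1 : Φ ≤ 1 := by nlinarith
  have hl0 : 0 ≤ lam - 1 := by linarith
  refine hD (1 - δ) (1 - δ') (1 - ε) (a * lam ^ N) S (2 * Φ) _ _ (-1) (Icc (-Φ) Φ)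
    (fun ω t => (((1 - ε) * t : ℝ) : ℂ) * cis ω) (by linarith) (by linarith) (by linarith)
    (by linarith) hT.le hS (by positivity) (by positivity) (by positivity) measurableSet_Icc
    (by rw [Real.volume_Icc, sub_neg_eq_add, two_mul]) (fun ω _ => ⟨by simp, fun s t _ _ => ?_⟩)
    (fun t => Continuous.measurable (by fun_prop)) (fun σ h0 hσ => ?_) fun z => ?_
  · rw [dist_mul_cis, Complex.dist_eq, ← Complex.ofReal_sub, Complex.norm_real, Real.norm_eq_abs,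
      ← mul_sub, abs_mul, abs_of_nonneg (by linarith)]
  · have hf := fun ω (hω : ω ∈ Icc (-Φ) Φ) t ht =>
      front_UpFanCore h0 hσ (abs_le.2 hω) (t := t) ht
    have key := hF σ (1 - δ') ε 0 a lam ζ Φ D N (Icc (-Φ) Φ) hσ (by linarith) (by linarith) hε
      le_rfl ha hl hζ h2 hD0 (by rwa [zero_div, zero_add]) h4 hN0 (fun ω hω => abs_le.2 hω)
      fun ω hω u hu => (hf ω hω u (by linarith)).trans (by linarith)
    rw [mul_zero, zero_div, zero_add, Real.div_sqrt, ← add_one_mul] at key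
    refine (measure_mono ?_).trans key
    rintro ω ⟨hω, t, t0, t1, t2⟩
    refine ⟨hω, t, not_lt.1 fun t3 => ?_, t1, t2⟩
    have b1 := proj_UpFanCore (σ t) ((1 - ε) * t) ω
    have b2 := hf ω hω t t0
    have b3 := mul_lt_mul_of_pos_left t3 hε
    linarith
  · have b1 : 0 < (1 - ε) * (a * lam ^ N) := mul_pos (by linarith) hT
    refine (measure_mono ?_).trans ((hN 0 z _ (1 - δ' + 2 * S) b1).trans
      (ENNReal.ofReal_le_ofReal ?_))
    · rintro ω ⟨hω, h⟩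
      exact ⟨(abs_le.2 hω).trans hΦ1, by rwa [zero_add]⟩
    · rw [← div_div, div_le_div_iff_of_pos_right hT, div_le_iff₀ (by linarith)]
      nlinarith

end Pool.Agent.MP_66a317_pr.Fast

end

section

open MeasureTheory Set Filter
open scoped ENNReal

namespace Pool.Agent.MP_66a317_pr.Stair

open Fast

theorem deriv_StepPath (ε y0 v : ℝ) :
    HasDerivAt (acc ε y0)
      ((((1 - ε) * 1 - y0 ^ 2 / (64 * (1 - ε)) * (Real.exp (v / 16) * (1 / 16)) : ℝ) : ℂ) +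
        ((y0 * (Real.exp (v / 32) * (1 / 32)) : ℝ) : ℂ) * Complex.I) v := by
  have h1 : HasDerivAt (fun v : ℝ => (1 - ε) * v - y0 ^ 2 / (64 * (1 - ε)) * (Real.exp (v / 16) - 1))
      ((1 - ε) * 1 - y0 ^ 2 / (64 * (1 - ε)) * (Real.exp (v / 16) * (1 / 16))) v :=
    ((hasDerivAt_id v).const_mul _).sub
      ((((hasDerivAt_id v).div_const 16).exp.sub_const 1).const_mul _)
  have h2 : HasDerivAt (fun v : ℝ => y0 * (Real.exp (v / 32) - 1))
      (y0 * (Real.exp (v / 32) * (1 / 32))) v :=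
    (((hasDerivAt_id v).div_const 32).exp.sub_const 1).const_mul _
  exact h1.ofReal_comp.add (h2.ofReal_comp.mul_const Complex.I)

theorem speed_StepPath {w p : ℝ} (hw : 0 < w) (h0 : 0 ≤ p) (hp : p ≤ w) :
    ‖((w - p ^ 2 / w : ℝ) : ℂ) + (p : ℂ) * Complex.I‖ ≤ w := by
  rw [Complex.norm_add_mul_I]
  refine Real.sqrt_le_iff.2 ⟨hw.le, ?_⟩
  have h1 : p ^ 2 / w * w = p ^ 2 := div_mul_cancel₀ _ hw.ne'
  have h2 : p ^ 2 / w ≤ p := by
    rw [div_le_iff₀ hw]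
    nlinarith
  have h3 : 0 ≤ p ^ 2 / w := by positivity
  nlinarith

theorem acc_lip_StepPath {ε y0 Δ : ℝ} (hε : ε ≤ 1 / 10) (hy : 0 ≤ y0)
    (hp : y0 * Real.exp (Δ / 32) / 32 ≤ 1 / 4) {a b : ℝ} (ha : a ≤ Δ) (hb : b ≤ Δ) :
    dist (acc ε y0 a) (acc ε y0 b) ≤ (1 - ε) * |a - b| := by
  have hw : 0 < 1 - ε := by linarith
  have key := (convex_Iic Δ).norm_image_sub_le_of_norm_hasDerivWithin_le (C := 1 - ε)
    (fun v (_ : v ∈ Iic Δ) => (deriv_StepPath ε y0 v).hasDerivWithinAt) (fun v hv => by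
      have h1 : Real.exp (v / 32) ≤ Real.exp (Δ / 32) :=
        Real.exp_le_exp.2 (by linarith [mem_Iic.1 hv])
      have h2 := mul_le_mul_of_nonneg_left h1 hy
      have h3 := speed_StepPath (p := y0 * (Real.exp (v / 32) * (1 / 32))) hw (by positivity)
        (by linarith)
      have h4 : (1 - ε) * 1 - y0 ^ 2 / (64 * (1 - ε)) * (Real.exp (v / 16) * (1 / 16)) =
          (1 - ε) - (y0 * (Real.exp (v / 32) * (1 / 32))) ^ 2 / (1 - ε) := by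
        rw [exp_sixteen]
        field_simp
        ring
      rw [h4]
      exact h3) (mem_Iic.2 hb) (mem_Iic.2 ha)
  rwa [dist_eq_norm, ← Real.norm_eq_abs]

theorem clocks_StepPath {Δ : ℝ} (hΔ : 0 ≤ Δ) (s t t' : ℝ) :
    |min s t' - min t t'| + |min (max (s - t') 0) Δ - min (max (t - t') 0) Δ| +
      |max (s - t' - Δ) 0 - max (t - t' - Δ) 0| = |s - t| := by
  have a1 : ∀ u : ℝ, max (u - t') 0 = max u t' - t' := fun u => by
    rw [← max_sub_sub_right, sub_self]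
  have a2 : ∀ u : ℝ, max (u - t' - Δ) 0 = max (max (u - t') 0) Δ - Δ := fun u => by
    rw [max_assoc, max_eq_right hΔ, ← max_sub_sub_right, sub_self]
  have b1 := abs_min_add_abs_max s t t'
  have b2 := abs_min_add_abs_max (max (s - t') 0) (max (t - t') 0) Δ
  have c1 : max (s - t') 0 - max (t - t') 0 = max s t' - max t t' := by
    rw [a1, a1]
    ring
  have c2 : max (s - t' - Δ) 0 - max (t - t' - Δ) 0 =
      max (max (s - t') 0) Δ - max (max (t - t') 0) Δ := by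
    rw [a2, a2]
    ring
  rw [c1] at b2
  rw [c2]
  linarith

theorem cont_flip_StepPath (b : Bool) : Continuous (flip b) := by
  cases b
  · exact Complex.continuous_conj
  · exact continuous_id

theorem cont_cis_StepPath : Continuous cis := by
  unfold cis
  fun_prop

theorem stepPath_stmt : StepPathStmt := by
  refine ⟨fun ε y0 Δ t' ω b g hε hy hΔ ht hp hg0 hg => ⟨?_, fun s t _ _ => ?_, fun u hu => ?_⟩,
    fun Ω _ H ε y0 Δ ta lo hi u M hH => ?_⟩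
  · rw [stepPath, min_eq_left ht, max_eq_right (by linarith : 0 - t' ≤ 0), min_eq_left hΔ,
      max_eq_right (by linarith : 0 - t' - Δ ≤ 0), hg0, acc_zero]
    cases b <;> simp
  · have hw : 0 ≤ 1 - ε := by linarith
    rw [stepPath, stepPath, mul_comm (cis ω), mul_comm (cis ω), dist_mul_cis, dist_flip,
      ← clocks_StepPath hΔ s t t', mul_add, mul_add]
    refine (dist_add_add_le _ _ _ _).trans (add_le_add ((dist_add_add_le _ _ _ _).trans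
      (add_le_add ?_ ?_)) ?_)
    · rw [Complex.dist_of_im_eq (by simp), Complex.ofReal_re, Complex.ofReal_re, Real.dist_eq,
        ← mul_sub, abs_mul, abs_of_nonneg hw]
    · exact acc_lip_StepPath hε hy hp (min_le_right _ _) (min_le_right _ _)
    · exact hg _ _ (le_max_right _ _) (le_max_right _ _)
  · rw [stepPath, min_eq_left hu, max_eq_right (by linarith : u - t' ≤ 0), min_eq_left hΔ,
      max_eq_right (by linarith : u - t' - Δ ≤ 0), hg0, acc_zero, add_zero, add_zero, mul_comm]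
    cases b
    · rw [flip_false, Complex.conj_ofReal]
    · rw [flip_true]
  · have h1 : Measurable fun p : (ℝ × Ω) × (Fin M × Bool) =>
        stepPath ε y0 Δ (ta + (p.2.1 : ℕ)) (max lo (min p.1.1 hi)) p.2.2 (H p.1.2) u := by
      refine measurable_from_prod_countable_left fun y => ?_
      unfold stepPath
      refine Measurable.mul (cont_cis_StepPath.measurable.comp
        (measurable_const.max (measurable_fst.min measurable_const))) ?_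
      have h2 : Measurable fun x : ℝ × Ω => H x.2 (max (u - (ta + (y.1 : ℕ)) - Δ) 0) :=
        (hH _).comp measurable_snd
      exact (cont_flip_StepPath y.2).measurable.comp (h2.const_add
        ((((1 - ε) * min u (ta + (y.1 : ℕ)) : ℝ) : ℂ) +
          acc ε y0 (min (max (u - (ta + (y.1 : ℕ))) 0) Δ)))
    exact h1.comp (f := fun p : ℝ × (Fin M × Bool) × Ω => ((p.1, p.2.2), p.2.1))
      ((measurable_fst.prodMk measurable_snd.snd).prodMk measurable_snd.fst)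

end Pool.Agent.MP_66a317_pr.Stair

end

section

open MeasureTheory Set Filter
open scoped ENNReal

namespace Pool.Agent.MP_66a317_pr.Stair

open Fast

theorem aux_Count (F : ℝ → ℝ) (Δ c ta : ℝ) (a b : ℕ → ℝ) (hF : Monotone F) (hΔ : ∀ t, F t ≤ Δ)
    (hc : 0 ≤ c) (n : ℕ) : ∀ S : Finset ℕ, S.card ≤ n →
      (∀ j ∈ S, ta + j ≤ a j - F (a j) ∧ b j - F (b j) ≤ ta + j + c ∧ F (a j) + 1 ≤ F (b j)) →
      ∀ m, m ≤ Δ → (∀ j ∈ S, m ≤ F (a j)) → (S.card : ℝ) ≤ (Δ - m) * (2 + c) := by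
  classical
  induction n with
  | zero =>
    intro S hS _ m hm _
    rw [Nat.le_zero.1 hS, Nat.cast_zero]
    exact mul_nonneg (by linarith) (by linarith)
  | succ n ih =>
    intro S hS h m hm hmS
    rcases S.eq_empty_or_nonempty with rfl | hne
    · rw [Finset.card_empty, Nat.cast_zero]
      exact mul_nonneg (by linarith) (by linarith)
    obtain ⟨i, hi, hmin⟩ := Finset.exists_min_image S (fun j => j) hne
    have hab : a i < b i := by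
      by_contra h0
      have h1 := hF (not_lt.1 h0)
      have h2 := (h i hi).2.2
      linarith
    obtain ⟨js, hjs, hmax⟩ := Finset.exists_max_image (S.filter fun j => a j < b i) (fun j => j)
      ⟨i, Finset.mem_filter.2 ⟨hi, hab⟩⟩
    rw [Finset.mem_filter] at hjs
    have hij : i ≤ js := hmin js hjs.1
    have h1 : (S.filter fun j => js < j).card ≤ n := by
      have h2 : (S.filter fun j => js < j) ⊆ S.erase i := by
        intro j hj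
        rw [Finset.mem_filter] at hj
        exact Finset.mem_erase.2 ⟨by omega, hj.1⟩
      have h3 := Finset.card_le_card h2
      rw [Finset.card_erase_of_mem hi] at h3
      omega
    have h2 := ih (S.filter fun j => js < j) h1 (fun j hj => h j (Finset.mem_filter.1 hj).1)
      (F (b i)) (hΔ _) fun j hj => by
        rw [Finset.mem_filter] at hj
        refine hF (not_lt.1 fun h0 => ?_)
        have := hmax j (Finset.mem_filter.2 ⟨hj.1, h0⟩)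
        omega
    have h3 : (S.filter fun j => ¬ js < j).card ≤ js + 1 - i := by
      rw [← Nat.card_Icc]
      refine Finset.card_le_card fun j hj => ?_
      rw [Finset.mem_filter] at hj
      exact Finset.mem_Icc.2 ⟨hmin j hj.1, not_lt.1 hj.2⟩
    have h4 : ((S.filter fun j => ¬ js < j).card : ℝ) ≤ (js : ℝ) + 1 - i := by
      have h5 : ((js + 1 - i : ℕ) : ℝ) = (js : ℝ) + 1 - i := by
        rw [Nat.cast_sub (by omega)]
        push_cast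
        ring
      rw [← h5]
      exact_mod_cast h3
    have h5 := Finset.card_filter_add_card_filter_not (s := S) fun j => js < j
    have h6 : (S.card : ℝ) = (S.filter fun j => js < j).card +
        (S.filter fun j => ¬ js < j).card := by exact_mod_cast h5.symm
    have h7 := (h js hjs.1).1
    have h8 := (h i hi).2.1
    have h9 := (h i hi).2.2
    have h10 := hmS i hi
    have h11 := hmS js hjs.1
    have h12 := hjs.2
    have h13 : 0 ≤ (F (b i) - m - 1) * (1 + c) := mul_nonneg (by linarith) (by linarith)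
    rw [h6]
    nlinarith

theorem count_stmt : CountStmt := by
  intro F Δ c ta S hF hΔ hc h
  have h1 : ∀ j : ℕ, ∃ a b : ℝ, j ∈ S →
      ta + j ≤ a - F a ∧ b - F b ≤ ta + j + c ∧ F a + 1 ≤ F b := by
    intro j
    by_cases hj : j ∈ S
    · obtain ⟨a, b, -, H⟩ := h j hj
      exact ⟨a, b, fun _ => H⟩
    · exact ⟨0, 0, fun h0 => absurd h0 hj⟩
  choose a b H using h1
  have h2 := aux_Count F Δ c ta a b hF (fun t => (hΔ t).2) hc S.card S le_rfl H 0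
    ((hΔ 0).1.trans (hΔ 0).2) fun j _ => (hΔ _).1
  rwa [sub_zero] at h2

theorem sin_Count {x : ℝ} (hx : |x| ≤ 1) : |x| / 2 ≤ |Real.sin x| := by
  have h1 : |x| ≤ Real.pi / 2 := by linarith [Real.pi_gt_three]
  have h2 := Real.mul_abs_le_abs_sin h1
  have h3 : 1 / 2 ≤ 2 / Real.pi := by
    rw [div_le_div_iff₀ (by norm_num) Real.pi_pos]
    linarith [Real.pi_le_four]
  nlinarith [mul_le_mul_of_nonneg_right h3 (abs_nonneg x)]

theorem nearDir_stmt : NearDirStmt := by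
  intro z y ρ hρ
  refine (Real.volume_le_diam _).trans (Metric.ediam_le_of_forall_dist_le ?_)
  rintro ω ⟨h1, h2, h3⟩ ω' ⟨h1', h2', -⟩
  have e : z * cis (-ω') = z * cis (-ω) * cis (ω - ω') := by
    rw [mul_assoc, ← cis_add]
    congr 2
    ring
  rw [e, Complex.mul_im, cis_re, cis_im] at h2'
  generalize (z * cis (-ω)).re = X at *
  generalize (z * cis (-ω)).im = Y at *
  have h4 : |ω - ω'| ≤ 1 := by linarith [abs_sub ω ω']
  have h5 := sin_Count h4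
  have h6 : |Y * Real.cos (ω - ω')| ≤ y := by
    rw [abs_mul]
    nlinarith [Real.abs_cos_le_one (ω - ω'), abs_nonneg Y, abs_nonneg (Real.cos (ω - ω'))]
  have h7 : |X * Real.sin (ω - ω')| ≤ 2 * y := by
    have h8 := abs_sub (X * Real.sin (ω - ω') + Y * Real.cos (ω - ω')) (Y * Real.cos (ω - ω'))
    rw [add_sub_cancel_right] at h8
    linarith
  rw [abs_mul, abs_of_pos (hρ.trans_le h3)] at h7
  rw [Real.dist_eq, le_div_iff₀ hρ]
  nlinarith [mul_le_mul_of_nonneg_right h3 (abs_nonneg (Real.sin (ω - ω'))),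
    mul_le_mul_of_nonneg_left h5 hρ.le]

end Pool.Agent.MP_66a317_pr.Stair

end

section

open MeasureTheory Set Filter
open scoped ENNReal
namespace Pool.Agent.MP_66a317_pr.Stair
open Fast

/-- the uniform law on an interval -/
noncomputable def unifI_Mix (lo hi : ℝ) : Measure ℝ :=
  (ENNReal.ofReal (hi - lo))⁻¹ • volume.restrict (Icc lo hi)

lemma unifI_prob_Mix {lo hi : ℝ} (h : lo < hi) : IsProbabilityMeasure (unifI_Mix lo hi) := by
  refine ⟨?_⟩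
  have h0 : ENNReal.ofReal (hi - lo) ≠ 0 := by
    simpa using h
  simp only [unifI_Mix, Measure.smul_apply, MeasurableSet.univ, Measure.restrict_apply, univ_inter,
    Real.volume_Icc, smul_eq_mul]
  exact ENNReal.inv_mul_cancel h0 ENNReal.ofReal_ne_top

lemma unifI_le_Mix {lo hi : ℝ} (h : lo < hi) (A : Set ℝ) {α : ℝ}
    (hA : volume A ≤ ENNReal.ofReal α) :
    unifI_Mix lo hi (toMeasurable volume A) ≤ ENNReal.ofReal (α / (hi - lo)) := by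
  have hp : 0 < hi - lo := sub_pos.2 h
  simp only [unifI_Mix, Measure.smul_apply, smul_eq_mul]
  rw [ENNReal.ofReal_div_of_pos hp, ENNReal.div_eq_inv_mul]
  gcongr
  calc volume.restrict (Icc lo hi) (toMeasurable volume A)
      ≤ volume (toMeasurable volume A) := Measure.restrict_apply_le _ _
    _ = volume A := measure_toMeasurable _
    _ ≤ _ := hA

lemma unifI_ae_Mix (lo hi : ℝ) : ∀ᵐ ω ∂(unifI_Mix lo hi), ω ∈ Icc lo hi := by
  unfold unifI_Mix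
  exact Measure.ae_smul_measure (ae_restrict_mem measurableSet_Icc) _

/-- the uniform law on the labels -/
noncomputable def unifL_Mix (M : ℕ) : Measure (Fin M × Bool) :=
  ((2 * M : ℝ≥0∞))⁻¹ • Measure.count

lemma unifL_prob_Mix {M : ℕ} (h : 0 < M) : IsProbabilityMeasure (unifL_Mix M) := by
  refine ⟨?_⟩
  have h0 : (2 * M : ℝ≥0∞) ≠ 0 := by
    simpa using h.ne'
  have h1 : (2 * M : ℝ≥0∞) ≠ ⊤ := ENNReal.mul_ne_top (by simp) (by simp)
  simp only [unifL_Mix, Measure.smul_apply, smul_eq_mul, Measure.count_univ]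
  have : ((ENat.card (Fin M × Bool) : ℕ∞) : ℝ≥0∞) = 2 * M := by
    simp [mul_comm]
  rw [this]
  exact ENNReal.inv_mul_cancel h0 h1

lemma lint_unifL_Mix (M : ℕ) (f : Fin M × Bool → ℝ≥0∞) :
    ∫⁻ p, f p ∂(unifL_Mix M) = ((2 * M : ℝ≥0∞))⁻¹ * ∑ j : Fin M, (f (j, true) + f (j, false)) := by
  simp only [unifL_Mix, lintegral_smul_measure, lintegral_count, tsum_fintype, smul_eq_mul]
  rw [Fintype.sum_prod_type]
  simp

lemma pair_le_Mix {a b : ℝ≥0∞} {q : ℝ} (hq0 : 0 ≤ q) (hq1 : q ≤ 1) (ha : a ≤ 1) (hb : b ≤ 1)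
    (t : ℝ≥0∞) (h : 1 ≤ t ∨ a ≤ ENNReal.ofReal (1 - q) ∨ b ≤ ENNReal.ofReal (1 - q)) :
    a + b ≤ ENNReal.ofReal (2 - q) + ENNReal.ofReal q * t := by
  have e : ENNReal.ofReal (2 - q) = ENNReal.ofReal (1 - q) + 1 := by
    rw [← ENNReal.ofReal_one, ← ENNReal.ofReal_add (by linarith) zero_le_one]
    congr 1
    ring
  rcases h with h | h | h
  · calc a + b ≤ 1 + 1 := add_le_add ha hb
      _ = ENNReal.ofReal (2 - q) + ENNReal.ofReal q * 1 := by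
        rw [mul_one, ← ENNReal.ofReal_add (by linarith) hq0, ← ENNReal.ofReal_one,
          ← ENNReal.ofReal_add zero_le_one zero_le_one]
        congr 1
        ring
      _ ≤ _ := by gcongr
  · calc a + b ≤ ENNReal.ofReal (1 - q) + 1 := add_le_add h hb
      _ = ENNReal.ofReal (2 - q) := e.symm
      _ ≤ _ := le_self_add
  · calc a + b ≤ 1 + ENNReal.ofReal (1 - q) := add_le_add ha h
      _ = ENNReal.ofReal (2 - q) := by rw [e, add_comm]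
      _ ≤ _ := le_self_add

lemma sum_ind_Mix {M : ℕ} (S : Set (Fin M)) {κ : ℝ} (h : (S.ncard : ℝ) ≤ κ) :
    ∑ j : Fin M, S.indicator (fun _ => (1 : ℝ≥0∞)) j ≤ ENNReal.ofReal κ := by
  classical
  have : ∑ j : Fin M, S.indicator (fun _ => (1 : ℝ≥0∞)) j = (S.ncard : ℝ≥0∞) := by
    rw [Set.ncard_eq_toFinset_card' S]
    simp only [Set.indicator_apply, Finset.sum_boole]
    congr 2
    ext j
    simp
  rw [this, ← ENNReal.ofReal_natCast]
  exact ENNReal.ofReal_le_ofReal h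

theorem mix_stmt : MixStmt := by
  intro Ω _ μ' _ lo hi M hlh hM
  haveI := unifI_prob_Mix hlh
  haveI := unifL_prob_Mix hM
  refine ⟨(unifI_Mix lo hi).prod ((unifL_Mix M).prod μ'), inferInstance, ?_⟩
  intro E A B S q α α' κ hE hq0 hq1 hα hα' hκ hA hB hS hgood
  have hp : 0 < hi - lo := sub_pos.2 hlh
  have hMr : (0 : ℝ) < M := by exact_mod_cast hM
  set A' := toMeasurable volume A with hA'
  set B' : Fin M → Set ℝ := fun j => toMeasurable volume (B j) with hB'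
  have mA : MeasurableSet A' := measurableSet_toMeasurable _ _
  have mB : ∀ j, MeasurableSet (B' j) := fun j => measurableSet_toMeasurable _ _
  set c : ℝ≥0∞ := ((2 * M : ℝ≥0∞))⁻¹ with hc
  have key : ∀ ω ∈ Icc lo hi, ((unifL_Mix M).prod μ') (Prod.mk ω ⁻¹' E) ≤
      c * (M * ENNReal.ofReal (2 - q) + ENNReal.ofReal q *
        (M * A'.indicator (fun _ => (1 : ℝ≥0∞)) ω +
          ∑ j, (B' j).indicator (fun _ => (1 : ℝ≥0∞)) ω + ENNReal.ofReal κ)) := by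
    intro ω hω
    rw [Measure.prod_apply (measurable_prodMk_left hE), lint_unifL_Mix]
    gcongr
    calc ∑ j : Fin M, (μ' (Prod.mk (j, true) ⁻¹' (Prod.mk ω ⁻¹' E)) +
            μ' (Prod.mk (j, false) ⁻¹' (Prod.mk ω ⁻¹' E)))
        ≤ ∑ j : Fin M, (ENNReal.ofReal (2 - q) + ENNReal.ofReal q *
            (A'.indicator (fun _ => (1 : ℝ≥0∞)) ω + (B' j).indicator (fun _ => (1 : ℝ≥0∞)) ω +
              (S ω).indicator (fun _ => (1 : ℝ≥0∞)) j)) := by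
          refine Finset.sum_le_sum fun j _ => pair_le_Mix hq0 hq1 prob_le_one prob_le_one _ ?_
          by_cases h1 : ω ∈ A
          · left
            rw [indicator_of_mem (subset_toMeasurable _ _ h1), add_assoc]
            exact le_self_add
          by_cases h2 : ω ∈ B j
          · left
            have : ω ∈ B' j := subset_toMeasurable _ _ h2
            rw [indicator_of_mem this]
            exact le_add_right le_add_self
          by_cases h3 : j ∈ S ω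
          · left
            rw [indicator_of_mem h3]
            exact le_add_self
          right
          obtain ⟨b, hb⟩ := hgood ω hω.1 hω.2 j h1 h2 h3
          cases b
          · exact Or.inr hb
          · exact Or.inl hb
      _ = M * ENNReal.ofReal (2 - q) + ENNReal.ofReal q *
            (M * A'.indicator (fun _ => (1 : ℝ≥0∞)) ω +
              ∑ j, (B' j).indicator (fun _ => (1 : ℝ≥0∞)) ω +
                ∑ j, (S ω).indicator (fun _ => (1 : ℝ≥0∞)) j) := by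
          rw [Finset.sum_add_distrib, ← Finset.mul_sum, Finset.sum_add_distrib,
            Finset.sum_add_distrib]
          simp
      _ ≤ _ := by
          gcongr
          exact sum_ind_Mix _ (hS ω hω.1 hω.2)
  have mIA : Measurable fun ω => A'.indicator (fun _ => (1 : ℝ≥0∞)) ω :=
    measurable_const.indicator mA
  have mIB : ∀ j, Measurable fun ω => (B' j).indicator (fun _ => (1 : ℝ≥0∞)) ω :=
    fun j => measurable_const.indicator (mB j)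
  have mSB : Measurable fun ω => ∑ j, (B' j).indicator (fun _ => (1 : ℝ≥0∞)) ω :=
    Finset.measurable_sum _ fun j _ => mIB j
  have iA : ∫⁻ ω, A'.indicator (fun _ => (1 : ℝ≥0∞)) ω ∂(unifI_Mix lo hi) ≤
      ENNReal.ofReal (α / (hi - lo)) := by
    rw [lintegral_indicator_const mA, one_mul]
    exact unifI_le_Mix hlh A hA
  have iB : ∫⁻ ω, ∑ j, (B' j).indicator (fun _ => (1 : ℝ≥0∞)) ω ∂(unifI_Mix lo hi) ≤
      M * ENNReal.ofReal (α' / (hi - lo)) := by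
    rw [lintegral_finset_sum _ fun j _ => mIB j]
    calc _ ≤ ∑ _j : Fin M, ENNReal.ofReal (α' / (hi - lo)) := by
          refine Finset.sum_le_sum fun j _ => ?_
          rw [lintegral_indicator_const (mB j), one_mul]
          exact unifI_le_Mix hlh (B j) (hB j)
      _ = _ := by simp
  rw [Measure.prod_apply hE]
  calc _ ≤ ∫⁻ ω, c * (M * ENNReal.ofReal (2 - q) + ENNReal.ofReal q *
        (M * A'.indicator (fun _ => (1 : ℝ≥0∞)) ω +
          ∑ j, (B' j).indicator (fun _ => (1 : ℝ≥0∞)) ω + ENNReal.ofReal κ)) ∂(unifI_Mix lo hi) :=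
        lintegral_mono_ae ((unifI_ae_Mix lo hi).mono key)
    _ = c * (M * ENNReal.ofReal (2 - q) + ENNReal.ofReal q *
        (M * ∫⁻ ω, A'.indicator (fun _ => (1 : ℝ≥0∞)) ω ∂(unifI_Mix lo hi) +
          ∫⁻ ω, ∑ j, (B' j).indicator (fun _ => (1 : ℝ≥0∞)) ω ∂(unifI_Mix lo hi) +
            ENNReal.ofReal κ)) := by
        have m1 : Measurable fun ω => (M : ℝ≥0∞) * A'.indicator (fun _ => (1 : ℝ≥0∞)) ω +
            ∑ j, (B' j).indicator (fun _ => (1 : ℝ≥0∞)) ω + ENNReal.ofReal κ :=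
          ((mIA.const_mul _).add mSB).add measurable_const
        have m2 : Measurable fun ω => (M : ℝ≥0∞) * ENNReal.ofReal (2 - q) + ENNReal.ofReal q *
            ((M : ℝ≥0∞) * A'.indicator (fun _ => (1 : ℝ≥0∞)) ω +
            ∑ j, (B' j).indicator (fun _ => (1 : ℝ≥0∞)) ω + ENNReal.ofReal κ) :=
          measurable_const.add (m1.const_mul _)
        rw [lintegral_const_mul _ m2,
          lintegral_add_left measurable_const, lintegral_const,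
          lintegral_const_mul _ m1, lintegral_add_right _ measurable_const,
          lintegral_add_right _ mSB, lintegral_const_mul _ mIA, lintegral_const, measure_univ,
          mul_one, mul_one]
    _ ≤ c * (M * ENNReal.ofReal (2 - q) + ENNReal.ofReal q *
        (M * ENNReal.ofReal (α / (hi - lo)) + M * ENNReal.ofReal (α' / (hi - lo)) +
            ENNReal.ofReal κ)) := by
        gcongr
    _ = _ := by
        have h1 : 0 ≤ α / (hi - lo) := div_nonneg hα hp.le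
        have h2 : 0 ≤ α' / (hi - lo) := div_nonneg hα' hp.le
        have h3 : 0 ≤ 2 - q := by linarith
        have ec : c = ENNReal.ofReal ((2 * M : ℝ)⁻¹) := by
          rw [hc, ENNReal.ofReal_inv_of_pos (by positivity), ENNReal.ofReal_mul (by norm_num),
            ENNReal.ofReal_natCast]
          simp
        rw [ec, ← ENNReal.ofReal_natCast M, ← ENNReal.ofReal_mul hMr.le,
          ← ENNReal.ofReal_mul hMr.le, ← ENNReal.ofReal_mul hMr.le,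
          ← ENNReal.ofReal_add (by positivity) (by positivity),
          ← ENNReal.ofReal_add (by positivity) hκ, ← ENNReal.ofReal_mul hq0,
          ← ENNReal.ofReal_add (by positivity) (by positivity),
          ← ENNReal.ofReal_mul (by positivity)]
        congr 1
        field_simp
        ring

end Pool.Agent.MP_66a317_pr.Stair

end

section

open MeasureTheory Set Filter
open scoped ENNReal

namespace Pool.Agent.MP_66a317_pr.Stair

open Fast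

theorem posLog_nonneg_LevFacts (x : ℝ) : 0 ≤ Real.posLog x := le_max_left _ _

theorem posLog_le_half_LevFacts {x : ℝ} (hx : 0 ≤ x) : Real.posLog x ≤ x / 2 := by
  refine max_le (by linarith) ?_
  rcases hx.eq_or_lt with rfl | h
  · simp
  · have h1 := Real.log_le_sub_one_of_pos (show 0 < x / 2 by linarith)
    rw [Real.log_div h.ne' (by norm_num)] at h1
    have h2 := Real.log_two_lt_d9
    linarith

theorem posLog_eq_LevFacts {x : ℝ} (hx : 1 ≤ x) : Real.posLog x = Real.log x :=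
  max_eq_right (Real.log_nonneg hx)

theorem posLog_zero_LevFacts {x : ℝ} (h0 : 0 ≤ x) (hx : x ≤ 1) : Real.posLog x = 0 :=
  max_eq_left (Real.log_nonpos h0 hx)

theorem half_LevFacts {x : ℝ} (hx : 0 ≤ x) : Real.posLog (Real.posLog x) ≤ x / 2 := by
  have h1 := posLog_le_half_LevFacts hx
  have h2 := posLog_le_half_LevFacts (posLog_nonneg_LevFacts x)
  linarith

theorem tendsto_LevFacts (k : ℕ) : Tendsto (fun L => lev L k) atTop atTop := by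
  have hp : Tendsto Real.posLog atTop atTop :=
    tendsto_atTop_mono (fun x => le_max_right _ _) Real.tendsto_log_atTop
  induction k with
  | zero => exact tendsto_id.atTop_div_const (by norm_num)
  | succ k ih => exact hp.comp (hp.comp ih)

theorem lev_stmt : LevStmt := by
  refine ⟨tendsto_LevFacts, fun k => ?_, fun L k hL => ?_, fun L => ?_, fun k c hc => ?_⟩
  · filter_upwards [(tendsto_LevFacts k).eventually_ge_atTop (Real.exp 1)] with L hL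
    have h0 : 0 < lev L k := (Real.exp_pos 1).trans_le hL
    have h1 : 1 ≤ lev L k := le_trans (by linarith [Real.add_one_le_exp (1 : ℝ)]) hL
    have h2 : 1 ≤ Real.log (lev L k) := by
      rw [Real.le_log_iff_exp_le h0]
      exact hL
    rw [lev, posLog_eq_LevFacts h1, posLog_eq_LevFacts h2, Real.exp_log (by linarith),
      Real.exp_log h0]
  · have key : ∀ k, 0 ≤ lev L k ∧ lev L k ≤ L := by
      intro k
      induction k with
      | zero =>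
        rw [lev]
        constructor <;> linarith
      | succ k ih =>
        rw [lev]
        have := half_LevFacts ih.1
        exact ⟨posLog_nonneg_LevFacts _, by linarith [ih.1, ih.2]⟩
    exact ⟨(key k).1, (key k).2, half_LevFacts (key k).1⟩
  · have h0 : ∀ k, 0 ≤ lev L (k + 1) := fun k => posLog_nonneg_LevFacts _
    have h1 : ∀ k, lev L (k + 1) ≤ lev L 1 * (1 / 2) ^ k := by
      intro k
      induction k with
      | zero => simp
      | succ k ih =>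
        have h2 : lev L (k + 1 + 1) ≤ lev L (k + 1) / 2 := half_LevFacts (h0 k)
        rw [pow_succ]
        linarith
    have h2 : Tendsto (fun k : ℕ => lev L 1 * (1 / 2 : ℝ) ^ k) atTop (nhds (lev L 1 * 0)) :=
      (tendsto_pow_atTop_nhds_zero_of_lt_one (by norm_num) (by norm_num)).const_mul _
    rw [mul_zero] at h2
    obtain ⟨n, hn⟩ := eventually_atTop.1 (h2.eventually (gt_mem_nhds zero_lt_one))
    refine ⟨n + 2, fun k hk => ?_⟩
    obtain ⟨j, rfl⟩ : ∃ j, k = j + 1 + 1 := ⟨k - 2, by omega⟩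
    have h3 : lev L (j + 1) ≤ 1 := (h1 j).trans (hn j (by omega)).le
    rw [lev, posLog_zero_LevFacts (h0 j) h3, posLog_zero_LevFacts le_rfl zero_le_one]
  · have h1 := Real.isLittleO_log_id_atTop.bound hc
    filter_upwards [(tendsto_LevFacts k).eventually h1,
      (tendsto_LevFacts k).eventually_ge_atTop 1] with L hL h2
    have h3 := posLog_le_half_LevFacts (posLog_nonneg_LevFacts (lev L k))
    have h4 := Real.log_nonneg h2
    rw [lev]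
    rw [posLog_eq_LevFacts h2] at h3 ⊢
    rw [Real.norm_of_nonneg h4, id, Real.norm_of_nonneg (by linarith)] at hL
    linarith

end Pool.Agent.MP_66a317_pr.Stair

end
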