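import Pool.Agent.Mg.F66a317.Gad8f3f

section

open MeasureTheory Set Filter
open scoped ENNReal

namespace Pool.Agent.MP_66a317_pr.Fast

theorem loc_Fan (hL : FanLocStmt) {z : ℂ} {r ε β a u ζ D ω : ℝ} (hr : 0 < r) (hr1 : r ≤ 1)
    (hε : 0 < ε) (hβ : 0 ≤ β) (ha : 0 < a) (hu : a ≤ u) (hζ : ζ ≤ 1 / 2) (hζ2 : ε + 1 / a ≤ ζ)
    (hD : 0 ≤ D) (hD2 : 8 * (β / a ^ 2 + ε / a) ≤ D ^ 2) (h1 : (z * cis (-ω)).re ≤ u - r + β)
    (h2 : dist z ((((1 - ε) * u : ℝ) : ℂ) * cis ω) < r) :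
    ∃ Δ : ℝ, |Δ| ≤ D ∧ z = (‖z‖ : ℂ) * cis (ω + Δ) ∧ (1 - ζ) * u ≤ ‖z‖ ∧
      r - 2 * β - 2 * ε ≤ u - ‖z‖ ∧ u - ‖z‖ ≤ r + ε * u := by
  have hn : ‖z * cis (-ω)‖ = ‖z‖ := by rw [norm_mul, norm_cis, mul_one]
  obtain ⟨Δ, a1, a2, a3, a4, a5⟩ := hL (z * cis (-ω)) r ε β a u ζ D hr hr1 hε hβ ha hu hζ hζ2 hD
    hD2 h1 (by rwa [← dist_mul_cis _ _ (-ω), mul_assoc, cis_mul_neg, mul_one] at h2)
  rw [hn] at a2 a3 a4 a5
  refine ⟨Δ, a1, ?_, a3, a4, a5⟩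
  have h3 := cis_mul_neg ω
  rw [cis_add]
  linear_combination cis ω * a2 - z * h3

theorem pair_Fan {z z' : ℂ} {x x' ζ v u u' d B μ : ℝ} (hζ0 : 0 ≤ ζ) (hζ : ζ ≤ 1 / 2) (hv : 0 < v)
    (hμ : 0 < μ) (hz : z = (‖z‖ : ℂ) * cis x) (hz' : z' = (‖z'‖ : ℂ) * cis x')
    (hx : (x - x') ^ 2 ≤ ζ) (h1 : (1 - ζ) * v ≤ ‖z‖) (h2 : (1 - ζ) * v ≤ ‖z'‖) (hu : u ≤ u')
    (hB : u' - u ≤ B * v) (hd : dist z z' ≤ u' - u) (hm : (u' - ‖z'‖) - (u - ‖z‖) ≤ d) :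
    |x - x'| ≤ (d / v / μ + μ * B / 2) / (1 - ζ) ^ 2 := by
  have h3 := chord_ge (norm_nonneg z) (norm_nonneg z') (by linarith) hx
  rw [← hz, ← hz'] at h3
  have h4 : dist z z' ^ 2 ≤ (u' - u) ^ 2 := pow_le_pow_left₀ dist_nonneg hd 2
  have h5 : |‖z‖ - ‖z'‖| ≤ u' - u := (abs_norm_sub_norm_le z z').trans (by rwa [← dist_eq_norm])
  obtain ⟨h6, h7⟩ := abs_le.1 h5
  have hζ1 : 0 < 1 - ζ := by linarith
  have hB0 : 0 ≤ B := by
    by_contra h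
    have : B * v < 0 := mul_neg_of_neg_of_pos (not_le.1 h) hv
    linarith
  have hd0 : 0 ≤ d := by linarith
  have h8 : ((u' - ‖z'‖) - (u - ‖z‖)) * ((u' - u) + (‖z'‖ - ‖z‖)) ≤ d * (2 * (B * v)) :=
    mul_le_mul hm (by linarith) (by linarith) hd0
  have h9 : ((1 - ζ) * v) * ((1 - ζ) * v) ≤ ‖z‖ * ‖z'‖ :=
    mul_le_mul h1 h2 (by positivity) (norm_nonneg _)
  have h10 : (1 - ζ) * (((1 - ζ) * v) * ((1 - ζ) * v)) * (x - x') ^ 2 ≤
      (1 - ζ) * (‖z‖ * ‖z'‖) * (x - x') ^ 2 :=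
    mul_le_mul_of_nonneg_right (mul_le_mul_of_nonneg_left h9 hζ1.le) (sq_nonneg _)
  have h11 : (1 - ζ) ^ 3 * (x - x') ^ 2 * v * v ≤ 2 * (d / v) * B * v * v := by
    have : 2 * (d / v) * B * v * v = d * (2 * (B * v)) := by field_simp
    rw [this]
    nlinarith
  have h12 : (1 - ζ) ^ 3 * (x - x') ^ 2 ≤ 2 * (d / v) * B :=
    le_of_mul_le_mul_right (le_of_mul_le_mul_right h11 hv) hv
  have h13 : (|x - x'| * (1 - ζ) ^ 2) ^ 2 ≤ (d / v / μ + μ * B / 2) ^ 2 := by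
    have e1 : (|x - x'| * (1 - ζ) ^ 2) ^ 2 = (1 - ζ) * ((1 - ζ) ^ 3 * (x - x') ^ 2) := by
      rw [mul_pow, sq_abs]; ring
    have e2 : (d / v / μ + μ * B / 2) ^ 2 = (d / v / μ - μ * B / 2) ^ 2 + 2 * (d / v) * B := by
      field_simp; ring
    have e3 : 0 ≤ ζ * ((1 - ζ) ^ 3 * (x - x') ^ 2) := by positivity
    rw [e1, e2]
    nlinarith [sq_nonneg (d / v / μ - μ * B / 2)]
  rw [le_div_iff₀ (by positivity)]
  exact (pow_le_pow_iff_left₀ (by positivity) (by positivity) two_ne_zero).1 h13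

theorem cover_Fan {a lam u : ℝ} (n : ℕ) (h1 : a ≤ u) (h2 : u ≤ a * lam ^ (n + 1)) :
    ∃ k < n + 1, a * lam ^ k ≤ u ∧ u ≤ a * lam ^ (k + 1) := by
  induction n with
  | zero => exact ⟨0, by omega, by simpa using h1, h2⟩
  | succ n ih =>
    rcases le_total u (a * lam ^ (n + 1)) with h | h
    · obtain ⟨k, hk, h3⟩ := ih h
      exact ⟨k, by omega, h3⟩
    · exact ⟨n + 1, by omega, h, h2⟩

theorem abel_Fan {a lam b ε : ℝ} (m : ℕ → ℝ) (ha : 0 < a) (hl : 1 ≤ lam) (h0 : 0 ≤ m 0)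
    (hm : ∀ k, m k ≤ b + ε * (a * lam ^ k)) (n : ℕ) :
    ∑ k ∈ Finset.range n, (m (k + 1) - m k) / (a * lam ^ k) ≤
      b / a - b / (a * lam ^ n) + n * (ε * (lam - 1)) + m n / (a * lam ^ n) := by
  induction n with
  | zero => simpa using div_nonneg h0 ha.le
  | succ n ih =>
    rw [Finset.sum_range_succ]
    have hl0 : 0 < lam := by linarith
    have hu : 0 < a * lam ^ n := by positivity
    have h1 : 0 ≤ 1 / (a * lam ^ n) - 1 / (a * lam ^ (n + 1)) := by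
      have : 1 / (a * lam ^ n) - 1 / (a * lam ^ (n + 1)) = (lam - 1) / (a * lam ^ (n + 1)) := by
        field_simp; ring
      rw [this]
      exact div_nonneg (by linarith) (by positivity)
    have h2 := mul_le_mul_of_nonneg_right (hm (n + 1)) h1
    have h3 : (b + ε * (a * lam ^ (n + 1))) * (1 / (a * lam ^ n) - 1 / (a * lam ^ (n + 1))) =
        b / (a * lam ^ n) - b / (a * lam ^ (n + 1)) + ε * (lam - 1) := by
      field_simp; ring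
    have h4 : m (n + 1) * (1 / (a * lam ^ n) - 1 / (a * lam ^ (n + 1))) =
        m (n + 1) / (a * lam ^ n) - m (n + 1) / (a * lam ^ (n + 1)) := by ring
    rw [h3, h4] at h2
    rw [sub_div]
    push_cast
    linarith

theorem fan_stmt (hL : FanLocStmt) : FanStmt := by
  intro γ r ε β a lam ζ Ω D N I hγ hr hr1 hε hβ ha hl hζ hζ2 hD hD2 hΩ hN hI hre
  obtain ⟨n, rfl⟩ : ∃ n, N = n + 1 := ⟨N - 1, by omega⟩
  set μ := √(2 * ε) with hμ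
  have hμ0 : 0 < μ := Real.sqrt_pos.2 (by linarith)
  have hμ2 : μ * μ = 2 * ε := Real.mul_self_sqrt (by linarith)
  have ha1 : 0 < 1 / a := by positivity
  have hζ0 : 0 ≤ ζ := by linarith
  have hζ1 : 0 < 1 - ζ := by linarith
  have hl0 : 0 < lam := by linarith
  set f : ℝ → ℝ := fun u => u - ‖γ u‖ - r + (2 * β + 2 * ε) with hf
  have hfm : ∀ u u', u ≤ u' → f u ≤ f u' := fun u u' h => by
    have h1 : |‖γ u'‖ - ‖γ u‖| ≤ |u' - u| := (abs_norm_sub_norm_le (γ u') (γ u)).trans (by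
      rw [← dist_eq_norm]; exact hγ u' u)
    rw [abs_of_nonneg (sub_nonneg.2 h)] at h1
    have := (abs_le.1 h1).2
    simp only [hf]
    linarith
  have hua : ∀ k : ℕ, a ≤ a * lam ^ k := fun k => le_mul_of_one_le_right ha.le (one_le_pow₀ hl)
  have hus : ∀ k : ℕ, a * lam ^ k ≤ a * lam ^ (k + 1) := fun k =>
    mul_le_mul_of_nonneg_left (pow_le_pow_right₀ hl (by omega)) ha.le
  set m : ℕ → ℝ := fun k => max 0 (min (f (a * lam ^ k)) (2 * β + 2 * ε + ε * (a * lam ^ k)))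
    with hm
  have hm1 : ∀ k, m k ≤ 2 * β + 2 * ε + ε * (a * lam ^ k) := fun k =>
    max_le (by positivity) (min_le_right _ _)
  have hm2 : ∀ k, m k ≤ m (k + 1) := fun k =>
    max_le_max le_rfl (min_le_min (hfm _ _ (hus k)) (by nlinarith [hus k]))
  set C : ℕ → Set ℝ := fun k => {ω | ω ∈ I ∧ ∃ u, a * lam ^ k ≤ u ∧ u ≤ a * lam ^ (k + 1) ∧
    dist (γ u) ((((1 - ε) * u : ℝ) : ℂ) * cis ω) < r} with hC
  set c : ℕ → ℝ := fun k =>
    ((m (k + 1) - m k) / (a * lam ^ k) / μ + μ * (lam - 1) / 2) / (1 - ζ) ^ 2 + 2 * D with hc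
  have hc0 : ∀ k, 0 ≤ c k := fun k => by
    have h1 := sub_nonneg.2 (hm2 k)
    have h2 := sub_nonneg.2 hl
    simp only [hc]
    positivity
  have key : ∀ k ω ω' u u', ω ∈ I → ω' ∈ I → a * lam ^ k ≤ u → u ≤ u' → u' ≤ a * lam ^ (k + 1) →
      dist (γ u) ((((1 - ε) * u : ℝ) : ℂ) * cis ω) < r →
      dist (γ u') ((((1 - ε) * u' : ℝ) : ℂ) * cis ω') < r → |ω - ω'| ≤ c k := by
    intro k ω ω' u u' h1 h2 h3 h4 h5 h6 h7
    have h8 : a ≤ u := (hua k).trans h3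
    obtain ⟨Δ, a1, a2, a3, a4, a5⟩ := loc_Fan hL hr hr1 hε hβ ha h8 hζ hζ2 hD hD2
      (hre ω h1 u h8) h6
    obtain ⟨Δ', b1, b2, b3, b4, b5⟩ := loc_Fan hL hr hr1 hε hβ ha (h8.trans h4) hζ hζ2 hD hD2
      (hre ω' h2 u' (h8.trans h4)) h7
    obtain ⟨a6, a7⟩ := abs_le.1 a1
    obtain ⟨b6, b7⟩ := abs_le.1 b1
    obtain ⟨c1, c2⟩ := abs_le.1 (hI ω h1)
    obtain ⟨c3, c4⟩ := abs_le.1 (hI ω' h2)
    have h9 : (ω + Δ - (ω' + Δ')) ^ 2 ≤ ζ :=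
      (sq_le_sq' (by linarith) (by linarith)).trans hΩ
    have h10 : m k ≤ f u := max_le (by simp only [hf]; linarith)
      ((min_le_left _ _).trans (hfm _ _ h3))
    have h11 : f u' ≤ m (k + 1) := le_max_of_le_right (le_min (hfm _ _ h5) (by
      simp only [hf]; nlinarith))
    have h12 := pair_Fan (v := a * lam ^ k) (u := u) (u' := u') (d := m (k + 1) - m k)
      (B := lam - 1) hζ0 hζ (by positivity) hμ0 a2 b2 h9
      ((mul_le_mul_of_nonneg_left h3 hζ1.le).trans a3)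
      ((mul_le_mul_of_nonneg_left (h3.trans h4) hζ1.le).trans b3) h4
      (by rw [pow_succ] at h5; linarith)
      ((hγ u u').trans (by rw [abs_sub_comm, abs_of_nonneg (sub_nonneg.2 h4)]))
      (by simp only [hf] at h10 h11; linarith)
    obtain ⟨d1, d2⟩ := abs_le.1 h12
    simp only [hc]
    exact abs_le.2 ⟨by linarith, by linarith⟩
  have hvol : ∀ k, volume (C k) ≤ ENNReal.ofReal (c k) := fun k => by
    refine (Real.volume_le_diam _).trans (Metric.ediam_le ?_)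
    rintro ω ⟨h1, u, h2, h3, h4⟩ ω' ⟨h1', u', h2', h3', h4'⟩
    rw [edist_dist, Real.dist_eq]
    refine ENNReal.ofReal_le_ofReal ?_
    rcases le_total u u' with h | h
    · exact key k ω ω' u u' h1 h1' h2 h h3' h4 h4'
    · rw [abs_sub_comm]
      exact key k ω' ω u' u h1' h1 h2' h h3 h4' h4
  have hsub : {ω | ω ∈ I ∧ ∃ u, a ≤ u ∧ u ≤ a * lam ^ (n + 1) ∧
      dist (γ u) ((((1 - ε) * u : ℝ) : ℂ) * cis ω) < r} ⊆ ⋃ k ∈ Finset.range (n + 1), C k := by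
    rintro ω ⟨h1, u, h2, h3, h4⟩
    obtain ⟨k, hk, h5, h6⟩ := cover_Fan n h2 h3
    exact mem_iUnion₂.2 ⟨k, Finset.mem_range.2 hk, h1, u, h5, h6, h4⟩
  refine (measure_mono hsub).trans ((measure_biUnion_finset_le _ _).trans
    ((Finset.sum_le_sum fun k _ => hvol k).trans ?_))
  rw [← ENNReal.ofReal_sum_of_nonneg fun k _ => hc0 k]
  refine ENNReal.ofReal_le_ofReal ?_
  have h1 := abel_Fan m ha hl (le_max_left _ _) hm1 (n + 1)
  have h2 : m (n + 1) / (a * lam ^ (n + 1)) ≤ (2 * β + 2 * ε) / (a * lam ^ (n + 1)) + ε := by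
    rw [div_add' _ _ _ (by positivity)]
    exact div_le_div_of_nonneg_right (hm1 _) (by positivity)
  have h3 : (2 * β + 2 * ε) / a ≤ 2 * β / a + ε := by
    have e : (2 * β + 2 * ε) / a = 2 * β / a + 2 * ε * (1 / a) := by ring
    nlinarith
  set S := ∑ k ∈ Finset.range (n + 1), (m (k + 1) - m k) / (a * lam ^ k) with hS
  have h4 : S ≤ 2 * β / a + 2 * ε + ((n + 1 : ℕ) : ℝ) * (ε * (lam - 1)) := by linarith
  have h5 : ∑ k ∈ Finset.range (n + 1), c k =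
      (S / μ + ((n + 1 : ℕ) : ℝ) * (μ * (lam - 1) / 2)) / (1 - ζ) ^ 2 + 2 * ((n + 1 : ℕ) : ℝ) * D := by
    simp only [hc, Finset.sum_add_distrib, ← Finset.sum_div, Finset.sum_const, Finset.card_range,
      nsmul_eq_mul, hS]
    ring
  rw [h5]
  have h6 : S / μ ≤ (2 * β / a + 2 * ε) / μ + ((n + 1 : ℕ) : ℝ) * (μ * (lam - 1) / 2) := by
    rw [div_add' _ _ _ hμ0.ne']
    refine div_le_div_of_nonneg_right (h4.trans (le_of_eq ?_)) hμ0.le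
    linear_combination (-((n + 1 : ℕ) : ℝ) * (lam - 1) / 2) * hμ2
  refine add_le_add (div_le_div_of_nonneg_right ?_ (by positivity)) le_rfl
  linarith

end Pool.Agent.MP_66a317_pr.Fast

end

section

open MeasureTheory Set Filter
open scoped ENNReal
namespace Pool.Agent.MP_66a317_pr.Stair
open Fast

theorem c_Late {ε y0 E : ℝ} (hε : ε ≤ 1 / 10) (hE : 1 ≤ E) :
    0 ≤ y0 ^ 2 / (64 * (1 - ε)) * (E ^ 2 - 1) ∧
      y0 ^ 2 / (64 * (1 - ε)) * (E ^ 2 - 1) ≤ 18 * (y0 * E / 32) ^ 2 := by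
  have hw : 0 < 64 * (1 - ε) := by linarith
  have h1 : 0 ≤ E ^ 2 - 1 := by nlinarith
  refine ⟨by positivity, ?_⟩
  rw [div_mul_eq_mul_div, div_le_iff₀ hw]
  have h2 : 0 ≤ (y0 * E) ^ 2 * (1 / 10 - ε) := mul_nonneg (sq_nonneg _) (by linarith)
  nlinarith [sq_nonneg y0, sq_nonneg (y0 * E)]

theorem re_Late (z : ℂ) (ψ : ℝ) :
    (z * cis (-ψ)).re = z.re * Real.cos ψ + z.im * Real.sin ψ := by
  rw [Complex.mul_re, cis_re, cis_im, Real.cos_neg, Real.sin_neg]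
  ring

theorem P_Late (ε y0 t' Δ : ℝ) :
    ((((1 - ε) * t' : ℝ) : ℂ) + acc ε y0 Δ).re =
      (1 - ε) * (t' + Δ) - y0 ^ 2 / (64 * (1 - ε)) * (Real.exp (Δ / 32) ^ 2 - 1) ∧
    ((((1 - ε) * t' : ℝ) : ℂ) + acc ε y0 Δ).im = y0 * Real.exp (Δ / 32) - y0 := by
  rw [Complex.add_re, Complex.add_im, Complex.ofReal_re, Complex.ofReal_im, acc_re, acc_im,
    exp_sixteen]
  constructor <;> ring

theorem late_stmt : LateStmt := by
  intro Z r ε βb y0 t' Δ v ψ hZ hr hr1 hε0 hε hβ hy0 ht' hE hΨ hs hre hv hεv hψ1 hψ2 hd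
  obtain ⟨-, hc⟩ := c_Late (y0 := y0) hε (show 1 ≤ Real.exp (Δ / 32) by linarith)
  obtain ⟨hP1, hP2⟩ := P_Late ε y0 t' Δ
  generalize (((1 - ε) * t' : ℝ) : ℂ) + acc ε y0 Δ = P at *
  generalize y0 ^ 2 / (64 * (1 - ε)) * (Real.exp (Δ / 32) ^ 2 - 1) = c at *
  obtain ⟨Ψ, hΨe⟩ : ∃ Ψ, y0 * Real.exp (Δ / 32) = 32 * Ψ :=
    ⟨y0 * Real.exp (Δ / 32) / 32, by ring⟩
  have hy : y0 ≤ Ψ := by nlinarith
  rw [hΨe] at hP2 ⊢
  rw [hΨe, show 32 * Ψ / 32 = Ψ by ring] at hΨ hεv hψ1 hψ2 hc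
  have hΨ0 : 0 < Ψ := hy0.trans_le hy
  have h1 := hZ (t' + Δ + v) (t' + Δ)
  rw [add_sub_cancel_left, abs_of_nonneg hv, Complex.dist_eq] at h1
  rw [dist_comm, Complex.dist_eq] at hd
  have h2 := (re_mul_cis_le _ (-ψ)).trans h1
  have h3 := (re_mul_cis_le _ (-ψ)).trans_lt hd
  have h4 : (P + (((1 - ε) * v : ℝ) : ℂ) * cis ψ - Z (t' + Δ + v)) * cis (-ψ) =
      (((1 - ε) * v : ℝ) : ℂ) - (Z (t' + Δ + v) - Z (t' + Δ)) * cis (-ψ) -
        (Z (t' + Δ) - P) * cis (-ψ) := by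
    linear_combination (((1 - ε) * v : ℝ) : ℂ) * cis_mul_neg ψ
  rw [h4, Complex.sub_re, Complex.sub_re, Complex.ofReal_re, re_Late (Z (t' + Δ) - P),
    Complex.sub_re, Complex.sub_im, hP1, hP2] at h3
  have hψ0 : 0 < ψ := hΨ0.trans_le hψ1
  have hψ3 : ψ ≤ 1 / 2 := by linarith
  have c1 := Real.one_sub_sq_div_two_le_cos (x := ψ)
  have c2 := Real.cos_le_one ψ
  have q1 : ψ ^ 2 ≤ 4 * Ψ ^ 2 := by nlinarith
  have q2 : ψ ^ 2 ≤ 1 / 4 := by nlinarith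
  have c3 : 0 ≤ Real.cos ψ := by linarith
  have s1 := Real.sin_gt_sub_cube hψ0
  have s3 := mul_le_mul_of_nonneg_left q2 hψ0.le
  have s2 : 9 / 10 * Ψ ≤ Real.sin ψ := by linarith
  have q3 : y0 ^ 2 ≤ Ψ ^ 2 := by nlinarith
  have a1 : (Z (t' + Δ)).re - ((1 - ε) * (t' + Δ) - c) ≤ -r + 37 / 2 * Ψ ^ 2 := by linarith
  have a2 := mul_le_mul_of_nonneg_right a1 c3
  have a3 : Ψ ^ 2 * Real.cos ψ ≤ Ψ ^ 2 := mul_le_of_le_one_right (sq_nonneg _) c2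
  have a4 : r * (1 - Real.cos ψ) ≤ 1 - Real.cos ψ := mul_le_of_le_one_left (by linarith) hr1
  by_contra hcon
  have b1 : 25 * Ψ ≤ 32 * Ψ - y0 - (Z (t' + Δ)).im := by linarith [not_le.1 hcon]
  have b2 := mul_le_mul b1 s2 (by positivity) (by linarith)
  have b3 : 0 < Ψ ^ 2 := by positivity
  linarith

theorem front_stmt : FrontStmt := by
  intro γ r ε β τ Ω ω y0 t' Δ β' τ' b hε0 hε hτ hω hy0 ht' hΔ hΨ hβ' hτ' hF ω' u hu
  have hE : 1 ≤ Real.exp (Δ / 32) := Real.one_le_exp (by positivity)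
  obtain ⟨hc0, hc⟩ := c_Late (y0 := y0) hε hE
  obtain ⟨hP1, hP2⟩ := P_Late ε y0 t' Δ
  have hω2 : ω ^ 2 ≤ Ω ^ 2 := sq_le_sq' (by linarith [(abs_le.1 hω).1]) (abs_le.1 hω).2
  have h1 : (flip b (γ (t' + Δ + u) * cis (-ω)) * cis (-ω')).re ≤
      t' + Δ + u - r + β + τ * (2 * Ω ^ 2 + 2 * ω' ^ 2) := by
    cases b
    · have e : flip false (γ (t' + Δ + u) * cis (-ω)) * cis (-ω') =
          (starRingEnd ℂ) (γ (t' + Δ + u) * cis (-(ω - ω'))) := by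
        rw [flip_false, ← conj_cis ω', ← map_mul, mul_assoc, ← cis_add]
        congr 3
        ring
      rw [e, Complex.conj_re]
      refine (hF (ω - ω') _ (by linarith)).trans (add_le_add le_rfl ?_)
      exact mul_le_mul_of_nonneg_left (by nlinarith [sq_nonneg (ω + ω')]) hτ
    · rw [flip_true, mul_assoc, ← cis_add, ← neg_add]
      refine (hF (ω + ω') _ (by linarith)).trans (add_le_add le_rfl ?_)
      exact mul_le_mul_of_nonneg_left (by nlinarith [sq_nonneg (ω - ω')]) hτ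
  change ((flip b (γ (t' + Δ + u) * cis (-ω)) - ((((1 - ε) * t' : ℝ) : ℂ) + acc ε y0 Δ)) *
    cis (-ω')).re ≤ _
  rw [sub_mul, Complex.sub_re, re_Late (_ + acc ε y0 Δ), hP1, hP2]
  generalize y0 ^ 2 / (64 * (1 - ε)) * (Real.exp (Δ / 32) ^ 2 - 1) = c at *
  have hy : y0 ≤ y0 * Real.exp (Δ / 32) := le_mul_of_one_le_right hy0 hE
  generalize y0 * Real.exp (Δ / 32) = Y at *
  have q0 : (Y / 32) ^ 2 ≤ 1 / 16 := by nlinarith
  have q1 : 0 ≤ ε * (t' + Δ) := by positivity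
  have q2 : ε * (t' + Δ) ≤ 1 / 10 * (t' + Δ) := mul_le_mul_of_nonneg_right hε (by linarith)
  have x0 : 0 ≤ (1 - ε) * (t' + Δ) - c := by linarith
  have x1 : (1 - ε) * (t' + Δ) - c ≤ t' + Δ := by linarith
  have a1 := mul_le_mul_of_nonneg_left (Real.one_sub_sq_div_two_le_cos (x := ω')) x0
  have a2 := mul_le_mul_of_nonneg_right x1 (sq_nonneg ω')
  have a3 : Real.sin ω' ^ 2 ≤ ω' ^ 2 := Real.sin_sq_le_sq
  have a4 : (Y - y0) ^ 2 ≤ Y ^ 2 := by nlinarith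
  have a5 := mul_le_mul_of_nonneg_right hτ' (sq_nonneg ω')
  linarith [sq_nonneg (Y - y0 + Real.sin ω'), sq_nonneg Y]

end Pool.Agent.MP_66a317_pr.Stair

end
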