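import Pool.Agent.Mg.F66a317.Gad8f3f

section

open MeasureTheory Set Filter
open scoped ENNReal

namespace Pool.Agent.MP_66a317_pr.Fast

theorem cos_Near {x : ℝ} (hx : |x| ≤ 2) : x ^ 2 / 8 ≤ 1 - Real.cos x := by
  have h1 := Real.cos_le_one_sub_mul_cos_sq (x := x) (hx.trans Real.two_le_pi)
  have h2 : 1 / 8 ≤ 2 / Real.pi ^ 2 := by
    rw [div_le_div_iff₀ (by norm_num) (by positivity)]
    nlinarith [Real.pi_le_four, Real.pi_pos]
  nlinarith [mul_le_mul_of_nonneg_right h2 (sq_nonneg x)]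

theorem near_stmt : NearStmt := by
  intro P z ρ a hρ
  refine (Real.volume_le_diam _).trans (Metric.ediam_le_of_forall_dist_le ?_)
  rintro x ⟨hx, hx'⟩ y ⟨hy, hy'⟩
  have h1 : dist ((ρ : ℂ) * cis x) ((ρ : ℂ) * cis y) ≤ 2 * a := by
    rw [← dist_add_left P]
    linarith [dist_triangle_left (P + (ρ : ℂ) * cis x) (P + (ρ : ℂ) * cis y) z]
  have h2 := dist_polar_sq ρ ρ x y
  have h3 : |x - y| ≤ 2 := by linarith [abs_sub x y]
  have h4 := cos_Near h3
  have h0 : 0 ≤ dist ((ρ : ℂ) * cis x) ((ρ : ℂ) * cis y) := dist_nonneg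
  rw [Real.dist_eq, le_div_iff₀ hρ]
  refine le_of_sq_le_sq ?_ (by linarith)
  have h5 := pow_le_pow_left₀ h0 h1 2
  rw [mul_pow, sq_abs]
  nlinarith [mul_le_mul_of_nonneg_left h4 (sq_nonneg ρ)]

theorem abs_le_tan_Near {x : ℝ} (h : |x| < Real.pi / 2) : x ^ 2 ≤ Real.tan x ^ 2 := by
  have h1 := Real.le_tan (abs_nonneg x) h
  have h2 : Real.tan |x| ^ 2 = Real.tan x ^ 2 := by
    rcases abs_choice x with e | e <;> rw [e]
    rw [Real.tan_neg, neg_sq]
  rw [← h2, ← sq_abs x]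
  exact pow_le_pow_left₀ (abs_nonneg x) h1 2

theorem fanLoc_stmt : FanLocStmt := by
  intro Z r ε β a u ζ D hr hr1 hε hβ ha hau hζ hεa hD hD2 hre hd
  have hn : ‖Z‖ ^ 2 = Z.re ^ 2 + Z.im ^ 2 := by
    rw [Complex.sq_norm, Complex.normSq_apply]
    ring
  have hre' := Complex.re_le_norm Z
  have hd2 : (Z.re - (1 - ε) * u) ^ 2 + Z.im ^ 2 < r ^ 2 := by
    have h1 := pow_lt_pow_left₀ hd dist_nonneg two_ne_zero
    rw [Complex.dist_eq, Complex.sq_norm, Complex.normSq_apply] at h1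
    simp only [Complex.sub_re, Complex.sub_im, Complex.ofReal_re, Complex.ofReal_im] at h1
    nlinarith
  have harg := Complex.tan_arg Z
  have hpi : 0 < Z.re → |Complex.arg Z| < Real.pi / 2 := fun h =>
    Complex.abs_arg_lt_pi_div_two_iff.mpr (Or.inl h)
  have hN := norm_nonneg Z
  refine ⟨Complex.arg Z, ?_, (norm_mul_cis_arg Z).symm, ?_⟩
  all_goals
    generalize Z.re = X at *
    generalize Z.im = Y at *
    generalize ‖Z‖ = R at *
    have hu : 0 < u := ha.trans_le hau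
    have ha2 : 2 ≤ a := by
      have h1 : 1 / a ≤ 1 / 2 := by linarith
      rwa [div_le_div_iff₀ ha (by norm_num), one_mul, one_mul] at h1
    have hq := abs_lt.mp (abs_lt_of_sq_lt_sq (by nlinarith [sq_nonneg Y] :
      (X - (1 - ε) * u) ^ 2 < r ^ 2) hr.le)
    have hY : Y ^ 2 ≤ 2 * (β + ε * u) := by
      have h1 : Y ^ 2 ≤ (r + (X - (1 - ε) * u)) * (r - (X - (1 - ε) * u)) := by nlinarith
      have h2 : (r + (X - (1 - ε) * u)) * (r - (X - (1 - ε) * u)) ≤ (β + ε * u) * 2 :=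
        mul_le_mul (by linarith) (by linarith [hq.1]) (by linarith [hq.2]) (by positivity)
      linarith
    have hua : 1 ≤ 1 / a * u := by
      rw [one_div, inv_mul_eq_div, one_le_div ha]
      exact hau
    have hX : (1 - ζ) * u ≤ X := by nlinarith [mul_le_mul_of_nonneg_right hεa hu.le, hq.1]
    have hX2 : u / 2 ≤ X := by nlinarith
    have hX0 : 0 < X := by linarith
  · refine abs_le_of_sq_le_sq ((abs_le_tan_Near (hpi hX0)).trans (le_trans ?_ hD2)) hD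
    rw [harg, div_pow]
    calc Y ^ 2 / X ^ 2 ≤ 2 * (β + ε * u) / (u / 2) ^ 2 := by gcongr
      _ = 8 * (β / u ^ 2 + ε / u) := by
          field_simp
          ring
      _ ≤ 8 * (β / a ^ 2 + ε / a) := by gcongr
  · refine ⟨by linarith, ?_, by linarith [hq.1]⟩
    have h1 : R ≤ X + (β + 2 * ε) := by
      refine le_of_sq_le_sq ?_ (by positivity)
      have h2 : u / 2 * (β + 2 * ε) ≤ X * (β + 2 * ε) := by gcongr
      have h3 : 2 * β ≤ u * β := by gcongr; linarith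
      nlinarith [sq_nonneg (β + 2 * ε)]
    linarith

end Pool.Agent.MP_66a317_pr.Fast

end

section

open MeasureTheory Set Filter
open scoped ENNReal
namespace Pool.Agent.MP_66a317_pr.Stair
open Fast

theorem small_Level (hL : LevStmt) (k n : ℕ) {c : ℝ} (hc : 0 < c) :
    ∀ᶠ L : ℝ in atTop, √(Real.exp (-L)) * lev L k ^ n ≤ c ∧ Real.exp (-L) * lev L k ^ n ≤ c ∧
      Real.exp (-L) ≤ 1 ∧ 0 ≤ lev L k := by
  have h1 := (Real.tendsto_pow_mul_exp_neg_atTop_nhds_zero n).comp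
    (tendsto_id.atTop_div_const (by norm_num : (0 : ℝ) < 2))
  have h2 : (0 : ℝ) < c / 2 ^ n := by positivity
  filter_upwards [h1.eventually (ge_mem_nhds h2), eventually_ge_atTop (0 : ℝ)] with L h hL0
  obtain ⟨h3, h4, -⟩ := hL.2.2.1 L k hL0
  have h5 : Real.exp (-L) ≤ 1 := Real.exp_le_one_iff.2 (by linarith)
  have h6 : √(Real.exp (-L)) * lev L k ^ n ≤ c := by
    rw [← Real.exp_half]
    simp only [Function.comp, id] at h
    rw [le_div_iff₀ (by positivity), div_pow] at h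
    have h7 : lev L k ^ n ≤ L ^ n := by gcongr
    calc Real.exp (-L / 2) * lev L k ^ n ≤ Real.exp (-L / 2) * L ^ n := by gcongr
      _ = L ^ n / 2 ^ n * Real.exp (-(L / 2)) * 2 ^ n := by
        rw [neg_div]
        field_simp
      _ ≤ c := h
  refine ⟨h6, le_trans ?_ h6, h5, h3⟩
  have h8 : Real.exp (-L) ≤ √(Real.exp (-L)) := by
    rw [← Real.exp_half]
    exact Real.exp_le_exp.2 (by linarith)
  gcongr

theorem lowAll_Level (hB : LowBaseStmt) (hS : LowStepStmt) (hL : LevStmt) (k : ℕ) :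
    ∀ η θ0 : ℝ, 0 < η → η ≤ 1 → 0 < θ0 → θ0 ≤ 1 → ∃ K : ℝ, 2 ≤ K ∧
      ∀ᶠ L : ℝ in atTop, WinAll (Real.exp (-L)) (lev L k) K ((1 / 2) ^ k) η θ0 := by
  induction k with
  | zero =>
    intro η θ0 h1 h2 h3 _
    obtain ⟨K, hK, h⟩ := hB η θ0 h1 h2 h3
    exact ⟨K, hK, by simpa only [pow_zero, lev] using h⟩
  | succ k ih =>
    intro η θ0 h1 h2 h3 h4
    obtain ⟨K', hK', h'⟩ := ih (η / 2) θ0 (by linarith) (by linarith) h3 h4
    obtain ⟨K, c, hK, hc, h⟩ := hS (η / 2) θ0 K' (by linarith) (by linarith) h3 h4 hK'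
    refine ⟨K, hK, ?_⟩
    filter_upwards [h', (hL.1 (k + 1)).eventually h, hL.2.1 k, small_Level hL k 1 hc] with
      L a1 a2 a3 a4
    have := a2 (Real.exp (-L)) ((1 / 2) ^ k) (η / 2) (Real.exp_pos _) (by positivity)
      (pow_le_one₀ (by norm_num) (by norm_num)) (by linarith)
      (by rw [← a3]; simpa only [pow_one] using a4.1) (by rw [← a3]; exact a1)
    rwa [add_halves, ← mul_one_div, ← pow_succ] at this

theorem sq_Level {ε x η θ c : ℝ} (hε : 0 ≤ ε) (hx : 0 ≤ x) (hη : 0 < η) (hθ : η ≤ θ)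
    (h : ε * x ^ 2 ≤ c * η ^ 2) : ε * (x / θ) ^ 2 ≤ c := by
  have hθ0 : 0 < θ := hη.trans_le hθ
  calc ε * (x / θ) ^ 2 ≤ ε * (x / η) ^ 2 := by gcongr
    _ = ε * x ^ 2 / η ^ 2 := by rw [div_pow, mul_div_assoc]
    _ ≤ c := by rwa [div_le_iff₀ (by positivity)]

theorem lowLevel_stmt (hB : LowBaseStmt) (hS : LowStepStmt) (hL : LevStmt) (hBr : Bridge2Stmt) :
    LowLevelStmt := by
  intro k η h1 h2
  obtain ⟨K, hK, h⟩ := lowAll_Level hB hS hL k η η h1 h2 h1 h2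
  have hK0 : 0 < K := by linarith
  filter_upwards [h, small_Level hL k 2 (c := 1 / K * η ^ 2) (by positivity)] with L a1 a2 θ h3 h4
  obtain ⟨-, b1, b2, b3⟩ := a2
  have he := Real.exp_pos (-L)
  have hθ : 0 < θ := h1.trans_le h3
  have b4 := sq_Level he.le b3 h1 h3 b1
  have b5 : 0 ≤ Real.exp (-L) * (lev L k / θ) ^ 2 := by positivity
  refine hBr _ _ _ (by linarith) ((a1 _ θ (by linarith) (by linarith) h3 h4).mono ?_ le_rfl)
  rintro z rfl
  refine ⟨by simp, by simp, ?_⟩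
  rw [Complex.one_im, abs_zero]
  positivity

theorem upAll_Level (hB : UpBaseStmt) (hS : UpStepStmt) (hL : LevStmt) (k : ℕ) :
    ∀ η : ℝ, 0 < η → η ≤ 1 → ∃ K : ℝ, 1 ≤ K ∧
      ∀ᶠ L : ℝ in atTop, EscAll (Real.exp (-L)) (lev L k) K ((1 / 2) ^ k) η := by
  induction k with
  | zero =>
    intro η h1 h2
    obtain ⟨K, hK, h⟩ := hB η h1 h2
    exact ⟨K, hK, by simpa only [pow_zero, lev] using h⟩
  | succ k ih =>
    intro η h1 h2
    obtain ⟨K', hK', h'⟩ := ih (η / 2) (by linarith) (by linarith)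
    obtain ⟨K, c, hK, hc, h⟩ := hS (η / 2) K' (by linarith) (by linarith) hK'
    refine ⟨K, hK, ?_⟩
    filter_upwards [h', (hL.1 (k + 1)).eventually h, hL.2.1 k, small_Level hL k 2 hc] with
      L a1 a2 a3 a4
    have := a2 (Real.exp (-L)) ((1 / 2) ^ k) (η / 2) (Real.exp_pos _) (by positivity)
      (pow_le_one₀ (by norm_num) (by norm_num)) (by linarith)
      (by rw [← a3]; exact a4.1) (by rw [← a3]; exact a1)
    rwa [add_halves, ← mul_one_div, ← pow_succ] at this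

theorem top_Level (hT : EscTopStmt) {ε X K q ν θ : ℝ} (hε : 0 < ε) (hε1 : ε ≤ 1) (hν : 0 < ν)
    (hθ : 4 * ν ≤ θ) (hθ1 : θ ≤ 1) (hq : 0 ≤ q) (hq1 : q ≤ 1) (hK : 1 ≤ K)
    (hX : K ≤ ν * (θ * X)) (hs : ε * X ^ 2 ≤ 1 / 2) (h : EscAll ε (θ * X) K q (2 * ν)) :
    value (1 - ε * X ^ 2) (1 - ε) (-1) ≤ ENNReal.ofReal (1 - q * (1 - θ / 2) + 4 * ν) := by
  have hθ0 : 0 < θ := by linarith
  have hx : 4 ≤ θ * X := by nlinarith
  have hX0 : 0 < X := (mul_pos_iff_of_pos_left hθ0).1 (by linarith)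
  have hxX : θ * X ≤ X := by nlinarith
  have hν1 : 0 < 1 - ν := by linarith
  have hδ : 0 < ε * X ^ 2 := by positivity
  have hνX : 1 ≤ ν * X := by nlinarith
  have hθx : 1 ≤ θ * (θ * X) := by nlinarith
  have hXx : X ≤ (θ * X) ^ 2 := by nlinarith
  have hb : 0 < (1 - ν) * X := by positivity
  have hΦ : 0 ≤ √(2 * ε) * ((1 - ν) * X) := by positivity
  have hΦ2 : (√(2 * ε) * ((1 - ν) * X)) ^ 2 / 2 = (1 - ν) ^ 2 * (ε * X ^ 2) := by
    rw [mul_pow, Real.sq_sqrt (by positivity)]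
    ring
  have e : -(√(2 * ε) * ((1 - ν) * X)) + 2 * √(2 * ε) * ((1 - ν) * X) =
      √(2 * ε) * ((1 - ν) * X) := by ring
  have h5 : ν * X ^ 2 ≤ (θ * X) ^ 5 := by
    have h6 : X ^ 2 ≤ ((θ * X) ^ 2) ^ 2 := by gcongr
    have h7 : (θ * X) ^ 4 ≤ (θ * X) ^ 5 := pow_le_pow_right₀ (by linarith) (by norm_num)
    nlinarith [sq_nonneg X]
  have h1 := h (1 - (1 - ν / 2) * (ε * X ^ 2)) ((1 - ν) * X) (ν * X ^ 2)
    (-(√(2 * ε) * ((1 - ν) * X))) (-((1 - ν / 2) * (ε * X ^ 2))) (1 / 2) 0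
    (by nlinarith) (by nlinarith) (by nlinarith) (by nlinarith) (by nlinarith) (by nlinarith) h5
    (by rw [abs_neg, abs_of_nonneg hΦ]; linarith) (by rw [e, abs_of_nonneg hΦ]; linarith)
    (by norm_num) (by nlinarith) le_rfl (by positivity) (fun ω h2 h3 => by
      rw [e] at h3
      have h4 := sq_le_sq' h2 h3
      nlinarith [mul_nonneg hδ.le (mul_nonneg hν.le hν1.le), mul_nonneg hδ.le hν.le])
  rw [e] at h1
  refine (hT ε _ _ _ _ _ hε hε1 (by nlinarith) hΦ (by positivity) ?_ h1).trans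
    (ENNReal.ofReal_le_ofReal ?_)
  · rw [hΦ2]
    nlinarith [mul_nonneg hδ.le (mul_nonneg hν.le (by linarith : 0 ≤ 1 / 2 - ν))]
  · have h2 : θ * X / (2 * ((1 - ν) * X)) ≤ θ / 2 + ν := by
      rw [div_le_iff₀ (by positivity)]
      nlinarith [mul_nonneg (mul_nonneg hν.le hX0.le) (by linarith : 0 ≤ 2 - 2 * ν - θ)]
    nlinarith

theorem upLevel_stmt (hB : UpBaseStmt) (hS : UpStepStmt) (hL : LevStmt) (hT : EscTopStmt) :
    UpLevelStmt := by
  intro k η h1 h2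
  obtain ⟨K, hK, h⟩ := upAll_Level hB hS hL k (η / 2) (by linarith) (by linarith)
  filter_upwards [h, small_Level hL k 2 (c := 1 / 2 * η ^ 2) (by positivity),
    (hL.1 k).eventually (eventually_ge_atTop (K / (η / 4)))] with L a1 a2 a3 θ h3 h4
  obtain ⟨-, b1, b2, b3⟩ := a2
  have he := Real.exp_pos (-L)
  have hθ : 0 < θ := h1.trans_le h3
  have e : θ * (lev L k / θ) = lev L k := by field_simp
  rw [div_le_iff₀ (by positivity)] at a3
  have := top_Level hT (X := lev L k / θ) (K := K) (q := (1 / 2) ^ k) (ν := η / 4) (θ := θ) he b2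
    (by positivity) (by linarith) h4 (by positivity) (pow_le_one₀ (by norm_num) (by norm_num)) hK
    (by rw [e]; linarith) (sq_Level he.le b3 h1 h3 b1)
    (by rw [e, show 2 * (η / 4) = η / 2 by ring]; exact a1)
  rwa [show 4 * (η / 4) = η by ring] at this

end Pool.Agent.MP_66a317_pr.Stair

end
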