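import Pool.Agent.Mg.F66a317.Gad8f3f

open MeasureTheory Set Filter
open scoped ENNReal

namespace Pool.Agent.MP_66a317_pr.Stair

open Fast

theorem exists_MN_UpStep {ν η y : ℝ} (hν : 0 < ν) (hν1 : ν ≤ 1 / 40) (hη : 0 < η) (hη1 : η ≤ 1)
    (hy : 100000 / (η * ν ^ 2) ≤ y) :
    100000 ≤ y ∧ 100000 ≤ η * y ∧ ∃ M N : ℕ, y ^ 7 ≤ M ∧ (M : ℝ) ≤ Real.exp (Real.exp y) ∧
      100 * Real.exp y * (2 + 16 * (y + 5700)) ≤ η / 10 * M ∧ 2 * (M : ℝ) ≤ (1 + ν) ^ N ∧ 0 < N ∧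
      N * ν ≤ (1 + ν) * ((1 + ν) * y + 2) + ν := by
  have hp : 0 < η * ν ^ 2 := by positivity
  rw [div_le_iff₀ hp] at hy
  have hν2 : ν ^ 2 ≤ 1 := by nlinarith
  have hy0 : 0 < y := by
    by_contra h
    have h' : y ≤ 0 := not_lt.1 h
    nlinarith [mul_nonneg (neg_nonneg.2 h') hp.le]
  have hηy : 100000 ≤ η * y := by
    have : y * (η * ν ^ 2) ≤ η * y := by
      have := mul_le_mul_of_nonneg_left hν2 (mul_pos hη hy0).le
      nlinarith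
    linarith
  have hy1 : 100000 ≤ y := by nlinarith
  have h7 : y ^ 7 ≤ Real.exp y := by
    have h := Real.pow_div_factorial_le_exp y hy0.le 8
    have h8 : ((Nat.factorial 8 : ℕ) : ℝ) = 40320 := by norm_num [Nat.factorial]
    rw [h8] at h
    have h7 : 0 < y ^ 7 := by positivity
    have : y ^ 8 = y ^ 7 * y := by ring
    rw [this] at h
    nlinarith
  set A := Real.exp ((1 + ν) * y) with hA
  have hA1 : Real.exp y ≤ A := Real.exp_le_exp.2 (by nlinarith)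
  have hE1 : 1 ≤ Real.exp y := Real.one_le_exp hy0.le
  have hAM : A ≤ (⌈A⌉₊ : ℝ) := Nat.le_ceil A
  have hMA : (⌈A⌉₊ : ℝ) ≤ 2 * A := by
    have := Nat.ceil_lt_add_one (show 0 ≤ A by linarith)
    linarith
  have h4 : (4 : ℝ) ≤ Real.exp 2 := by
    have := Real.quadratic_le_exp_of_nonneg (show (0 : ℝ) ≤ 2 by norm_num)
    linarith
  have h2M : 2 * (⌈A⌉₊ : ℝ) ≤ Real.exp ((1 + ν) * y + 2) := by
    rw [Real.exp_add, ← hA]
    nlinarith
  have hM0 : (0 : ℝ) < 2 * (⌈A⌉₊ : ℝ) := by linarith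
  have hlog : Real.log (2 * (⌈A⌉₊ : ℝ)) ≤ (1 + ν) * y + 2 := (Real.log_le_iff_le_exp hM0).2 h2M
  have hlog0 : 0 < Real.log (2 * (⌈A⌉₊ : ℝ)) := Real.log_pos (by linarith)
  have hl : ν / (1 + ν) ≤ Real.log (1 + ν) := by
    have := Real.one_sub_inv_le_log_of_pos (show 0 < 1 + ν by linarith)
    have h2 : ν / (1 + ν) = 1 - (1 + ν)⁻¹ := by field_simp; ring
    linarith
  have hl0 : 0 < Real.log (1 + ν) := Real.log_pos (by linarith)
  have hq0 : 0 < Real.log (2 * (⌈A⌉₊ : ℝ)) / Real.log (1 + ν) := div_pos hlog0 hl0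
  refine ⟨hy1, hηy, ⌈A⌉₊, ⌈Real.log (2 * (⌈A⌉₊ : ℝ)) / Real.log (1 + ν)⌉₊, by linarith, ?_, ?_, ?_,
    Nat.ceil_pos.2 hq0, ?_⟩
  · have h3 : (1 + ν) * y + 2 ≤ Real.exp y := by
      have h1 : y ^ 2 ≤ y ^ 7 := pow_le_pow_right₀ (by linarith) (by norm_num)
      nlinarith
    have := Real.exp_le_exp.2 h3
    linarith
  · have h1 : A = Real.exp y * Real.exp (ν * y) := by
      rw [hA, ← Real.exp_add]; congr 1; ring
    have h2 := Real.quadratic_le_exp_of_nonneg (show 0 ≤ ν * y by positivity)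
    have h3 : 100 * (2 + 16 * (y + 5700)) ≤ η / 10 * Real.exp (ν * y) := by
      have h5 : (ν * y) ^ 2 / 2 ≤ Real.exp (ν * y) := by
        have : 0 ≤ ν * y := by positivity
        linarith
      have h6 : η / 10 * ((ν * y) ^ 2 / 2) ≤ η / 10 * Real.exp (ν * y) :=
        mul_le_mul_of_nonneg_left h5 (by positivity)
      have h8 : η / 10 * ((ν * y) ^ 2 / 2) = y * (η * ν ^ 2) * y / 20 := by ring
      have h9 : 100000 * y ≤ y * (η * ν ^ 2) * y := mul_le_mul_of_nonneg_right hy hy0.le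
      linarith
    have h4 := mul_le_mul_of_nonneg_left h3 (show 0 ≤ Real.exp y by linarith)
    have h5 : η / 10 * A ≤ η / 10 * (⌈A⌉₊ : ℝ) := mul_le_mul_of_nonneg_left hAM (by positivity)
    rw [h1] at h5
    rw [h1]
    linarith
  · have h1 := Nat.le_ceil (Real.log (2 * (⌈A⌉₊ : ℝ)) / Real.log (1 + ν))
    rw [div_le_iff₀ hl0] at h1
    rw [← Real.log_pow] at h1
    exact (Real.log_le_log_iff hM0 (by positivity)).1 h1
  · have h1 := (Nat.ceil_lt_add_one hq0.le).le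
    have h2 : Real.log (2 * (⌈A⌉₊ : ℝ)) / Real.log (1 + ν) * ν ≤ (1 + ν) * ((1 + ν) * y + 2) := by
      rw [div_mul_eq_mul_div, div_le_iff₀ hl0]
      rw [div_le_iff₀ (by linarith)] at hl
      have h3 : 0 ≤ (1 + ν) * y + 2 := by positivity
      calc Real.log (2 * (⌈A⌉₊ : ℝ)) * ν ≤ ((1 + ν) * y + 2) * ν :=
            mul_le_mul_of_nonneg_right hlog hν.le
        _ ≤ ((1 + ν) * y + 2) * (Real.log (1 + ν) * (1 + ν)) := mul_le_mul_of_nonneg_left hl h3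
        _ = (1 + ν) * ((1 + ν) * y + 2) * Real.log (1 + ν) := by ring
    have h3 := mul_le_mul_of_nonneg_right h1 hν.le
    linarith

theorem err_UpStep {ε μ s b y ν η k a βb y0 M N : ℝ} (hν : 0 < ν) (hν1 : ν ≤ 1 / 40) (hη : 0 < η)
    (hνη : ν = η / 40) (hk : k * (ν * η) = 200) (hk1 : 200 ≤ k * η) (hk2 : 1 ≤ k) (hμ : 0 < μ)
    (hμ2 : μ ^ 2 = 2 * ε) (hs : s ≤ μ) (hy : 100000 ≤ y) (hηy : 100000 ≤ η * y)
    (hb : y / 2 ≤ b) (ha : 0 < a) (hβ : βb ≤ ε * a * b / k ^ 2) (hM : 0 < M) (hN0 : 0 ≤ N)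
    (hN : N * ν ≤ (1 + ν) * ((1 + ν) * y + 2) + ν) (hy0 : y0 ≤ 2 * μ * M) :
    ((N * (1 + ν - 1) * μ + (2 * βb / a + 2 * ε) / μ) / (1 - ν) ^ 2 + 2 * N * (4 * s / k) +
      256 * y0 / M) / (2 * μ * b) ≤ y / (2 * b) + η * (3 / 10) := by
  have hb0 : 0 < b := by linarith
  have hk0 : 0 < k := by linarith
  have hw : 0 < (1 - ν) ^ 2 := by
    have : 0 < 1 - ν := by linarith
    positivity
  have t1 : N * (1 + ν - 1) ≤ ((1 + 5 * ν) * y + 3) * (1 - ν) ^ 2 := by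
    have h1 : (1 + ν) * (1 + ν) ≤ (1 + 5 * ν) * (1 - ν) ^ 2 := by
      nlinarith [mul_pos hν hν, mul_pos (mul_pos hν hν) hν]
    have h2 := mul_le_mul_of_nonneg_right h1 (show 0 ≤ y by linarith)
    have h3 : 2 + 3 * ν ≤ 3 * (1 - ν) ^ 2 := by nlinarith
    nlinarith
  have t2 : (2 * βb / a + 2 * ε) / μ ≤ μ * (b / k ^ 2 + 1) := by
    rw [div_le_iff₀ hμ]
    have h1 : 2 * βb / a ≤ 2 * ε * (b / k ^ 2) := by
      rw [div_le_iff₀ ha]
      have : ε * a * b / k ^ 2 = ε * (b / k ^ 2) * a := by ring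
      linarith
    have h2 : μ * (b / k ^ 2 + 1) * μ = μ ^ 2 * (b / k ^ 2 + 1) := by ring
    rw [h2, hμ2]
    linarith
  have hbk : 0 ≤ b / k ^ 2 := by positivity
  have t12 : (N * (1 + ν - 1) * μ + (2 * βb / a + 2 * ε) / μ) / (1 - ν) ^ 2 ≤
      μ * ((1 + 5 * ν) * y + 3 + 2 * (b / k ^ 2 + 1)) := by
    rw [div_le_iff₀ hw]
    have h1 := mul_le_mul_of_nonneg_right t1 hμ.le
    have h2 : 1 ≤ 2 * (1 - ν) ^ 2 := by nlinarith
    have h3 := mul_le_mul_of_nonneg_left h2 (show 0 ≤ μ * (b / k ^ 2 + 1) by positivity)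
    nlinarith
  have t3 : 2 * N * (4 * s / k) ≤ μ * (4 / 25 * η * b) := by
    have h1 : N * ν ≤ 4 * b := by nlinarith
    have h2 : 4 * s / k ≤ 4 * μ / k := by gcongr
    have h3 : 4 * μ / k = μ * (ν * η) / 50 := by
      rw [div_eq_iff hk0.ne']
      have : μ * (ν * η) / 50 * k = μ * (k * (ν * η)) / 50 := by ring
      rw [this, hk]; ring
    have h4 : 2 * N * (4 * s / k) ≤ 2 * N * (μ * (ν * η) / 50) :=
      mul_le_mul_of_nonneg_left (h3 ▸ h2) (by positivity)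
    have h5 := mul_le_mul_of_nonneg_right h1 (show 0 ≤ μ * η / 25 by positivity)
    have h6 : 2 * N * (μ * (ν * η) / 50) = N * ν * (μ * η / 25) := by ring
    have h7 : μ * (4 / 25 * η * b) = 4 * b * (μ * η / 25) := by ring
    linarith
  have t4 : 256 * y0 / M ≤ μ * 512 := by
    rw [div_le_iff₀ hM]
    nlinarith
  have hbk2 : b / k ^ 2 ≤ η * b / 200 := by
    rw [div_le_div_iff₀ (by positivity) (by norm_num)]
    have h1 : 200 ≤ η * k ^ 2 := by nlinarith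
    nlinarith
  rw [div_le_iff₀ (by positivity)]
  have e1 : (y / (2 * b) + η * (3 / 10)) * (2 * μ * b) = μ * (y + 3 / 5 * η * b) := by
    field_simp; ring
  rw [e1]
  have h1 : η * y ≤ 2 * (η * b) := by nlinarith
  have h2 : (1 + 5 * ν) * y + 3 + 2 * (b / k ^ 2 + 1) + 4 / 25 * η * b + 512 ≤
      y + 3 / 5 * η * b := by
    have : 5 * ν * y = η * y / 8 := by rw [hνη]; ring
    nlinarith
  have h3 := mul_le_mul_of_nonneg_left h2 hμ.le
  linarith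

theorem final_UpStep {q η η' θ e X : ℝ} (hq0 : 0 ≤ q) (hq : q ≤ 1) (hη : 0 < η) (hη' : 0 ≤ η')
    (hθ0 : 0 ≤ θ) (hθ : θ ≤ 1) (he : e ≤ θ + η / 2) (hX : 0 < X) (hηX : 1 ≤ η * X) :
    q / 2 * (1 - θ) - (η' + η) ≤ (1 - e) * max (q * (1 - X / (2 * X ^ 2)) - η') 0 / 2 := by
  have hx : X / (2 * X ^ 2) = 1 / (2 * X) := by field_simp
  have hx0 : 0 ≤ 1 / (2 * X) := by positivity
  have hx1 : 1 / (2 * X) ≤ η / 2 := by
    rw [div_le_iff₀ (by positivity)]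
    linarith
  rw [hx]
  set z := 1 / (2 * X)
  set m := max (q * (1 - z) - η') 0 with hm
  have m0 : 0 ≤ m := le_max_right _ _
  have m1 : q * (1 - z) - η' ≤ m := le_max_left _ _
  have m2 : m ≤ 1 := max_le (by nlinarith) (by norm_num)
  have h1 : (1 - (θ + η / 2)) * m ≤ (1 - e) * m := mul_le_mul_of_nonneg_right (by linarith) m0
  have h2 : (1 - θ) * (q * (1 - z) - η') ≤ (1 - θ) * m := mul_le_mul_of_nonneg_left m1 (by linarith)
  have h3 : η * m ≤ η := by nlinarith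
  have h4 : (1 - θ) * q ≤ 1 := by nlinarith
  have h5 : (1 - θ) * q * z ≤ z := by nlinarith
  have h6 : (1 - θ) * η' ≤ η' := by nlinarith
  nlinarith

theorem small_UpStep {ε μ s ν X : ℝ} (hν : 0 < ν) (hν1 : ν ≤ 1 / 40) (hμ : 0 < μ)
    (hμ2 : μ ^ 2 = 2 * ε) (hs0 : 0 < s) (hs2 : s ^ 2 = ε) (hX : 1 ≤ X) (hc : s * X ^ 2 ≤ ν / 20) :
    s ≤ μ ∧ μ * X ^ 2 ≤ 3 * ν / 40 ∧ s ≤ ν / 20 ∧ ε ≤ ν / 2 := by
  have h1 : s ≤ μ := by nlinarith
  have h2 : μ ≤ 3 / 2 * s := by nlinarith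
  have h3 : 1 ≤ X ^ 2 := by nlinarith
  have h4 : s ≤ ν / 20 := by nlinarith
  have h5 := mul_le_mul_of_nonneg_right h2 (show 0 ≤ X ^ 2 by positivity)
  refine ⟨h1, by linarith, h4, by nlinarith⟩

theorem y0_UpStep {ε μ y0 βb M X : ℝ} (hε : 0 < ε) (hμ : 0 < μ) (hμ2 : μ ^ 2 = 2 * ε)
    (hy0 : 0 < y0) (hy2 : y0 ^ 2 = 2 * (βb + 3 * (ε * M))) (hβ0 : 0 ≤ βb) (hβ : βb ≤ ε * M)
    (hM : 1 ≤ M) (hMX : M ≤ X) : μ ≤ y0 ∧ y0 ≤ 2 * μ * M ∧ y0 ≤ 2 * μ * X ^ 2 := by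
  have h1 : ε ≤ ε * M := by nlinarith
  have h2 : ε * M ≤ ε * M ^ 2 := mul_le_mul_of_nonneg_left (by nlinarith) hε.le
  have h3 : y0 ≤ 2 * μ * M := by
    refine abs_le_of_sq_le_sq' ?_ (by positivity) |>.2
    have : (2 * μ * M) ^ 2 = 4 * μ ^ 2 * M ^ 2 := by ring
    rw [this, hμ2, hy2]
    linarith
  refine ⟨(abs_le_of_sq_le_sq' (by linarith) hy0.le).2, h3, h3.trans ?_⟩
  exact mul_le_mul_of_nonneg_left (by nlinarith) (by positivity)

theorem delta_UpStep {μ y0 y E X : ℝ} (hμ : 0 < μ) (h1 : μ ≤ y0) (h2 : y0 ≤ 2 * μ * X ^ 2)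
    (hE : E = Real.exp y) (hX : X = Real.exp E) (hE2 : 100 ≤ E) (hy : 0 ≤ y) :
    ∃ Δ : ℝ, y0 * Real.exp (Δ / 32) / 32 = 2 * μ * X ^ 2 ∧ 32 ≤ Real.exp (Δ / 32) ∧ 0 < Δ ∧
      Δ ≤ 100 * E ∧ Δ * (2 + 16 * Real.log (57 * Δ)) ≤ 100 * E * (2 + 16 * (y + 5700)) := by
  have hy0 : 0 < y0 := by linarith
  have hX0 : 0 < X := hX ▸ Real.exp_pos _
  have hz : 0 < 32 * (2 * μ * X ^ 2) / y0 := by positivity
  have hz1 : 32 ≤ 32 * (2 * μ * X ^ 2) / y0 := by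
    rw [le_div_iff₀ hy0]
    linarith
  have hz2 : 32 * (2 * μ * X ^ 2) / y0 ≤ 64 * X ^ 2 := by
    rw [div_le_iff₀ hy0]
    have := mul_le_mul_of_nonneg_left h1 (show 0 ≤ 64 * X ^ 2 by positivity)
    linarith
  have he : Real.exp (32 * Real.log (32 * (2 * μ * X ^ 2) / y0) / 32) =
      32 * (2 * μ * X ^ 2) / y0 := by
    rw [mul_div_cancel_left₀ _ (by norm_num), Real.exp_log hz]
  have hl0 : 0 < Real.log (32 * (2 * μ * X ^ 2) / y0) := Real.log_pos (by linarith)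
  have hl1 : Real.log (32 * (2 * μ * X ^ 2) / y0) ≤ 63 + 2 * E := by
    have h3 := Real.log_le_log hz hz2
    rw [Real.log_mul (by norm_num) (by positivity), Real.log_pow, hX, Real.log_exp] at h3
    have h4 := Real.log_le_sub_one_of_pos (show (0 : ℝ) < 64 by norm_num)
    rw [hX]
    push_cast at h3
    linarith
  have hD : 32 * Real.log (32 * (2 * μ * X ^ 2) / y0) ≤ 100 * E := by linarith
  refine ⟨32 * Real.log (32 * (2 * μ * X ^ 2) / y0), ?_, by rw [he]; exact hz1, by linarith, hD, ?_⟩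
  · rw [he]
    field_simp
  · set Δ := 32 * Real.log (32 * (2 * μ * X ^ 2) / y0)
    have hΔ : 0 < Δ := by positivity
    have h3 : Real.log (57 * Δ) ≤ y + 5700 := by
      have h4 := Real.log_le_log (by positivity) (show 57 * Δ ≤ 5700 * E by linarith)
      rw [Real.log_mul (x := 5700) (by norm_num) (by linarith), hE, Real.log_exp] at h4
      have h5 := Real.log_le_sub_one_of_pos (show (0 : ℝ) < 5700 by norm_num)
      linarith
    calc Δ * (2 + 16 * Real.log (57 * Δ)) ≤ Δ * (2 + 16 * (y + 5700)) :=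
          mul_le_mul_of_nonneg_left (by linarith) hΔ.le
      _ ≤ 100 * E * (2 + 16 * (y + 5700)) := mul_le_mul_of_nonneg_right hD (by positivity)

theorem front_UpStep {ε μ b y β τ M X Δ K' ω : ℝ} (hε : 0 < ε) (hμ : 0 < μ) (hμ2 : μ ^ 2 = 2 * ε)
    (hb0 : 0 < b) (hb : b ≤ y ^ 2) (hτ : τ ≤ y ^ 2) (hy2 : y ^ 2 ≤ M)
    (hy6 : y ^ 6 ≤ M) (hM : 1 ≤ M) (hMX : M ≤ X) (hβ : β ≤ ε * M) (hΔ : Δ ≤ M)
    (hK : 1 ≤ K') (hKX : 600 * K' ≤ X) (hω : 2 * μ * X ^ 2 ≤ ω)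
    (hω' : ω ≤ 2 * μ * X ^ 2 + 2 * μ * X ^ 2) :
    β + 2 * τ * (4 * μ * b) ^ 2 + ε * (M + M + Δ) + 544 * (2 * μ * X ^ 2) ^ 2 +
      (2 * τ + (M + M + Δ + 1) / 2) * ω ^ 2 ≤ ε * (8 * X ^ 4) * X ^ 2 / K' := by
  have hX0 : 0 < X := by linarith
  have hX4 : 1 ≤ X ^ 4 := one_le_pow₀ (by linarith)
  have hεM : 0 < ε * M := by positivity
  have h1 : 2 * τ * (4 * μ * b) ^ 2 ≤ 64 * (ε * M) := by
    have e : 2 * τ * (4 * μ * b) ^ 2 = 32 * μ ^ 2 * (τ * b ^ 2) := by ring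
    have h2 : τ * b ^ 2 ≤ y ^ 2 * (y ^ 2) ^ 2 := by gcongr
    have h3 : y ^ 2 * (y ^ 2) ^ 2 = y ^ 6 := by ring
    have h4 : ε * (τ * b ^ 2) ≤ ε * M := mul_le_mul_of_nonneg_left (by linarith) hε.le
    rw [e, hμ2]
    linarith
  have h2 : ε * (M + M + Δ) ≤ 3 * (ε * M) := by
    have := mul_le_mul_of_nonneg_left hΔ hε.le
    linarith
  have h3 : (2 * μ * X ^ 2) ^ 2 = 8 * (ε * X ^ 4) := by
    have : (2 * μ * X ^ 2) ^ 2 = 4 * μ ^ 2 * X ^ 4 := by ring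
    rw [this, hμ2]; ring
  have h4 : ω ^ 2 ≤ 32 * (ε * X ^ 4) := by
    have h0 : 0 ≤ ω := le_trans (by positivity) hω
    have h5 : ω ^ 2 ≤ (2 * μ * X ^ 2 + 2 * μ * X ^ 2) ^ 2 := by gcongr
    have h6 : (2 * μ * X ^ 2 + 2 * μ * X ^ 2) ^ 2 = 4 * (2 * μ * X ^ 2) ^ 2 := by ring
    linarith
  have h5 : (2 * τ + (M + M + Δ + 1) / 2) * ω ^ 2 ≤ 4 * M * (32 * (ε * X ^ 4)) :=
    mul_le_mul (by linarith) h4 (sq_nonneg _) (by positivity)
  have h6 : ε * M ≤ ε * M * X ^ 4 := le_mul_of_one_le_right hεM.le hX4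
  have h7 : ε * X ^ 4 ≤ ε * M * X ^ 4 := by
    have := le_mul_of_one_le_right (show 0 ≤ ε * X ^ 4 by positivity) hM
    linarith
  have h8 : 4800 * (ε * M * X ^ 4) ≤ ε * (8 * X ^ 4) * X ^ 2 / K' := by
    rw [le_div_iff₀ (by linarith)]
    have h9 : M * (600 * K') ≤ X * X := mul_le_mul hMX hKX (by positivity) hX0.le
    have h10 := mul_le_mul_of_nonneg_left h9 (show 0 ≤ 8 * (ε * X ^ 4) by positivity)
    linarith
  have h9 : 0 ≤ ε * M * X ^ 4 := by positivity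
  rw [h3]
  linarith

theorem fan_UpStep {ε μ s ν k a b y X βb : ℝ} (hε : 0 < ε) (hν : 0 < ν) (hν1 : ν ≤ 1 / 40)
    (hμ : 0 < μ) (hs0 : 0 < s) (hs2 : s ^ 2 = ε) (hk : 1 ≤ k) (hkν : 200 ≤ k * ν) (hε1 : ε ≤ ν / 2)
    (hsν : s ≤ ν / 20) (hμX : μ * X ^ 2 ≤ 3 * ν / 40) (hy : 0 ≤ y) (hyX : y ≤ X) (hb0 : 0 < b)
    (hb : b ≤ y ^ 2) (hka : k ^ 2 ≤ a) (hba : b ≤ a) (hβ : βb ≤ ε * a * b / k ^ 2) :
    ε + 1 / a ≤ ν ∧ 8 * (βb / a ^ 2 + ε / a) ≤ (4 * s / k) ^ 2 ∧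
      (2 * (4 * μ * b) + 2 * (4 * s / k)) ^ 2 ≤ ν := by
  have hk0 : 0 < k := by linarith
  have hkk : k ≤ k ^ 2 := by nlinarith
  have ha0 : 0 < a := by linarith
  refine ⟨?_, ?_, ?_⟩
  · have : 1 / a ≤ ν / 2 := by
      rw [div_le_iff₀ ha0]
      have := mul_le_mul_of_nonneg_right (hkk.trans hka) hν.le
      linarith
    linarith
  · have h1 : ε / a ≤ ε / k ^ 2 := by gcongr
    have h2 : βb / a ^ 2 ≤ ε / k ^ 2 := by
      rw [div_le_iff₀ (by positivity)]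
      have h3 : ε * a * b / k ^ 2 ≤ ε * a * a / k ^ 2 := by gcongr
      have h4 : ε / k ^ 2 * a ^ 2 = ε * a * a / k ^ 2 := by ring
      linarith
    have h3 : (4 * s / k) ^ 2 = 16 * (ε / k ^ 2) := by rw [← hs2]; ring
    linarith
  · have h1 : 4 * s / k ≤ 4 * s := div_le_self (by positivity) hk
    have h2 : b ≤ X ^ 2 := hb.trans (by gcongr)
    have h3 := mul_le_mul_of_nonneg_left h2 hμ.le
    have h4 : 2 * (4 * μ * b) + 2 * (4 * s / k) ≤ ν := by linarith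
    have h5 : (2 * (4 * μ * b) + 2 * (4 * s / k)) ^ 2 ≤ ν ^ 2 := by gcongr
    nlinarith

theorem upStep_stmt (h : EscStepStmt) : UpStepStmt := by
  intro η K' hη hη1 hK'
  obtain ⟨ν, hνη⟩ : ∃ ν : ℝ, ν = η / 40 := ⟨_, rfl⟩
  have hν : 0 < ν := by linarith
  have hν1 : ν ≤ 1 / 40 := by linarith
  obtain ⟨k, hk⟩ : ∃ k : ℝ, k * (ν * η) = 200 := ⟨200 / (ν * η), by field_simp⟩
  have hk0 : 0 < k := by
    by_contra hc
    nlinarith [mul_nonneg (neg_nonneg.2 (not_lt.1 hc)) (mul_pos hν hη).le]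
  have hk1 : 200 ≤ k * η := by nlinarith [mul_pos hk0 hη]
  have hk3 : 200 ≤ k * ν := by nlinarith [mul_pos hk0 hν]
  have hk2 : 1 ≤ k := by nlinarith
  have hkk : k ≤ k ^ 2 := by nlinarith
  refine ⟨k ^ 2, ν / 20, by linarith, by linarith, ?_⟩
  filter_upwards [eventually_ge_atTop (100000 / (η * ν ^ 2)), eventually_ge_atTop (600 * K')]
    with y hy hyK
  obtain ⟨hy1, hηy, M, N, hM7, hMX, hT5, hMN, hN0, hN⟩ := exists_MN_UpStep hν hν1 hη hη1 hy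
  intro ε q η' hε hq0 hq hη' hc hAll r b a lo β τ βb hr0 hr1 hb1 hb2 hKa hba ha5 hlo hhi hτ0 hτ
    hβb0 hβb hfr
  obtain ⟨E, hE⟩ : ∃ E, E = Real.exp y := ⟨_, rfl⟩
  rw [← hE] at hMX hT5 hc hAll
  obtain ⟨X, hX⟩ : ∃ X, X = Real.exp E := ⟨_, rfl⟩
  rw [← hX] at hMX hc hAll
  have hyE : y ≤ E := by have := Real.add_one_le_exp y; linarith
  have hEX : E ≤ X := by have := Real.add_one_le_exp E; linarith
  have hX1 : 100000 ≤ X := by linarith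
  have hX0 : 0 < X := by linarith
  have hμ : 0 < √(2 * ε) := Real.sqrt_pos.2 (by linarith)
  have hμ2 : √(2 * ε) ^ 2 = 2 * ε := Real.sq_sqrt (by linarith)
  have hs0 : 0 < √ε := Real.sqrt_pos.2 hε
  have hs2 : √ε ^ 2 = ε := Real.sq_sqrt hε.le
  obtain ⟨hsμ, hμX, hsν, hε1⟩ := small_UpStep hν hν1 hμ hμ2 hs0 hs2 (by linarith) hc
  have hb0 : 0 < b := by linarith
  have ha1 : 1 ≤ a := by linarith
  have ha0 : 0 < a := by linarith
  have hy1' : (1 : ℝ) ≤ y := by linarith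
  have hyM : y ≤ M := by
    have := (pow_le_pow_right₀ hy1' (show 1 ≤ 7 by norm_num)).trans hM7
    rwa [pow_one] at this
  have hy2 : y ^ 2 ≤ M := (pow_le_pow_right₀ hy1' (by norm_num)).trans hM7
  have hy5 : y ^ 5 ≤ M := (pow_le_pow_right₀ hy1' (by norm_num)).trans hM7
  have hy6 : y ^ 6 ≤ M := (pow_le_pow_right₀ hy1' (by norm_num)).trans hM7
  have hM4 : (4 : ℝ) ≤ M := by linarith
  have hM0 : (0 : ℝ) < M := by linarith
  have hβM : βb ≤ ε * M := by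
    have h1 : ε * a * b / k ^ 2 ≤ ε * a * b := div_le_self (by positivity) (by linarith)
    have h2 : a * b ≤ y ^ 5 * y ^ 2 := mul_le_mul ha5 hb2 hb0.le (by positivity)
    have h3 : y ^ 5 * y ^ 2 = y ^ 7 := by ring
    have h4 : ε * (a * b) ≤ ε * M := mul_le_mul_of_nonneg_left (by linarith) hε.le
    have h5 : ε * a * b = ε * (a * b) := by ring
    linarith
  have hεM : 0 < ε * M := by positivity
  obtain ⟨y0, hy0d⟩ : ∃ y0, y0 = √(2 * (βb + 3 * (ε * M))) := ⟨_, rfl⟩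
  have hy00 : 0 < y0 := hy0d ▸ Real.sqrt_pos.2 (by linarith)
  have hy02 : y0 ^ 2 = 2 * (βb + 3 * (ε * M)) := hy0d ▸ Real.sq_sqrt (by linarith)
  obtain ⟨hμy, hy0M, hy0X⟩ := y0_UpStep hε hμ hμ2 hy00 hy02 hβb0 hβM (by linarith) hMX
  obtain ⟨Δ, hΨ, hΔ32, hΔ0, hΔE, hΔl⟩ :=
    delta_UpStep hμ hμy hy0X hE hX (by linarith) (by linarith)
  have hE0 : 0 < E := by linarith
  have hΔM : Δ ≤ M := by
    have h1 : 100 * E * 1 ≤ 100 * E * (2 + 16 * (y + 5700)) :=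
      mul_le_mul_of_nonneg_left (by linarith) (by positivity)
    have h2 : η / 10 * M ≤ 1 * M := mul_le_mul_of_nonneg_right (by linarith) hM0.le
    linarith
  obtain ⟨f1, f2, f3⟩ := fan_UpStep hε hν hν1 hμ hs0 hs2 hk2 hk3 hε1 hsν hμX (by linarith)
    (by linarith) hb0 hb2 hKa hba hβb
  have hlh : lo < lo + 2 * √(2 * ε) * b := by
    have : 0 < 2 * √(2 * ε) * b := by positivity
    linarith
  have hβ : β ≤ ε * M := by
    have h1 := hfr lo le_rfl hlh.le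
    have h2 : 0 ≤ τ * lo ^ 2 := by positivity
    linarith
  have hXX : X ≤ X ^ 2 := le_self_pow₀ (by linarith) (by norm_num)
  have hX24 : X ^ 2 ≤ X ^ 4 := pow_le_pow_right₀ (by linarith) (by norm_num)
  have hX45 : 8 * X ^ 4 ≤ X ^ 5 := by
    have h1 := mul_le_mul_of_nonneg_right (show 8 ≤ X by linarith) (show 0 ≤ X ^ 4 by positivity)
    have h2 : X * X ^ 4 = X ^ 5 := by ring
    linarith
  have h4M : 4 * (M : ℝ) ≤ X ^ 2 := by
    have h1 := mul_le_mul (show 4 ≤ X by linarith) hMX hM0.le hX0.le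
    have h2 : X * X = X ^ 2 := by ring
    linarith
  have hΨ0 : 0 < √(2 * ε) * X ^ 2 := by positivity
  have hlow := (hAll r (X ^ 2) (8 * X ^ 4) (2 * √(2 * ε) * X ^ 2)
    (β + 2 * τ * (4 * √(2 * ε) * b) ^ 2 + ε * (M + M + Δ) + 544 * (2 * √(2 * ε) * X ^ 2) ^ 2)
    (2 * τ + (M + M + Δ + 1) / 2) (ε * (8 * X ^ 4) * X ^ 2 / K') hr0 hr1 (by linarith) le_rfl
    (by linarith) (by linarith) hX45 (by rw [abs_of_pos (by linarith)]; linarith)
    (by rw [abs_of_pos (by linarith)]; linarith) (by positivity) (by linarith) (by positivity) le_rfl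
    (fun ω h1 h2 => front_UpStep hε hμ hμ2 hb0 hb2 hτ hy2 hy6 (by linarith) hMX hβ hΔM hK'
      (by linarith) h1 h2)).max_zero
  have hq1 : max (q * (1 - X / (2 * X ^ 2)) - η') 0 ≤ 1 := by
    refine max_le ?_ (by norm_num)
    have h1 : 0 ≤ q * (X / (2 * X ^ 2)) := by positivity
    linarith
  have hU : ε * (8 * X ^ 4) ≤ (2 * √(2 * ε) * X ^ 2) ^ 2 := by
    have : (2 * √(2 * ε) * X ^ 2) ^ 2 = 4 * √(2 * ε) ^ 2 * X ^ 4 := by ring
    rw [this, hμ2]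
    linarith
  have hMa : (M : ℝ) + M ≤ a * (1 + ν) ^ N := by
    have := le_mul_of_one_le_left (show 0 ≤ (1 + ν) ^ N by positivity) ha1
    linarith
  have hy0b : βb + ε * (M + M + Δ) ≤ y0 ^ 2 / 2 := by
    have := mul_le_mul_of_nonneg_left hΔM hε.le
    linarith
  have key := h r ε β τ lo (lo + 2 * √(2 * ε) * b) a βb (1 + ν) ν (4 * √(2 * ε) * b) (4 * √ε / k) M
    y0 Δ (8 * X ^ 4)
    (β + 2 * τ * (4 * √(2 * ε) * b) ^ 2 + ε * (M + M + Δ) + 544 * (2 * √(2 * ε) * X ^ 2) ^ 2)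
    (2 * τ + (M + M + Δ + 1) / 2) (max (q * (1 - X / (2 * X ^ 2)) - η') 0) N M hr0 hr1 hε
    (by linarith) hτ0 hlh hlo hhi ha0 hβb0 hfr (by linarith) (by linarith) f1 (by positivity) f2 f3
    hN0 (by exact_mod_cast hM0) (by linarith) hM4 hMa hy00 hΔ32 (by rw [hΨ]; linarith) hy0b
    (by positivity) (by rw [hΨ]; exact hU) (by rw [hΨ]) le_rfl (le_max_right _ _) hq1
    (by rw [hΨ, two_mul (2 * √(2 * ε) * X ^ 2)]; exact hlow)
  refine key.mono ?_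
  have herr := err_UpStep hν hν1 hη hνη hk hk1 hk2 hμ hμ2 hsμ hy1 hηy hb1 ha0 hβb hM0
    (Nat.cast_nonneg N) hN hy0M
  have hT : Δ * (2 + 16 * Real.log (57 * Δ)) / M ≤ η / 10 := by
    rw [div_le_iff₀ hM0]
    linarith
  have hθ : y / (2 * b) ≤ 1 := by
    rw [div_le_one (by linarith)]
    linarith
  have hηX : 1 ≤ η * X := by
    have := mul_le_mul_of_nonneg_left (hyE.trans hEX) hη.le
    linarith
  rw [add_sub_cancel_left lo, sub_sub 1]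
  exact final_UpStep hq0 hq hη hη' (by positivity) hθ (by linarith) hX0 hηX

end Pool.Agent.MP_66a317_pr.Stair
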