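import Pool.Agent.Mg.F66a317.Gad8f3f

section

open MeasureTheory Set Filter
open scoped ENNReal
namespace Pool.Agent.MP_66a317_pr.Fast

theorem lo_Path (Λ Q : ℝ → ℝ) {t0 s t : ℝ} (z0 k φ : ℝ) (h0 : 0 < t0) (hs : s ≤ t0) (ht : t ≤ t0) :
    dist (spath Λ Q t0 z0 k φ s) (spath Λ Q t0 z0 k φ t) ≤ |s - t| := by
  rw [spath, spath, clock_of_le h0 hs, clock_of_le h0 ht, max_eq_right hs, max_eq_right ht,
    dist_add_left, dist_mul_cis, Complex.dist_eq, ← Complex.ofReal_sub, Complex.norm_real,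
    Real.norm_eq_abs]
  exact (abs_min_sub_min_le_max _ _ _ _).trans (by simp)

theorem exp_Path {t0 t : ℝ} (φ : ℝ) (h0 : 0 < t0) (ht : t0 ≤ t) :
    Real.exp (φ + clock t0 t) * (t0 * Real.exp (-φ)) = t := by
  rw [clock_of_ge ht, Real.exp_add, Real.exp_log (div_pos (h0.trans_le ht) h0), Real.exp_neg]
  field_simp

theorem form_Path {Λ : ℝ → ℝ} (Q : ℝ → ℝ) {t0 t : ℝ} (z0 k φ : ℝ) (hΛ : ∀ s, 0 ≤ Λ s)
    (h0 : 0 < t0) (ht : t0 ≤ t) : spath Λ Q t0 z0 k φ t =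
      -1 + ((Real.exp (φ + clock t0 t) * (1 - Λ (φ + clock t0 t)) : ℝ) : ℂ) *
        cis (k * (φ + clock t0 t) + Q (φ + clock t0 t)) * ((t0 * Real.exp (-φ) : ℝ) : ℂ) *
        cis (z0 - k * φ) := by
  rw [spath, max_eq_left ht, min_eq_right (mul_le_of_le_one_right (h0.le.trans ht)
    (sub_le_self _ (hΛ _))), mul_right_comm _ (cis _), mul_assoc _ (cis _), ← cis_add,
    ← Complex.ofReal_mul, mul_right_comm, exp_Path φ h0 ht]
  congr 3
  ring

theorem path_stmt : PathStmt := by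
  intro Λ Q e k J M dR dL d0 t0 z0 ⟨cΛ, cQ, hΛ, _, _, _, _, hL⟩ h0 he
  have hi : ∀ φ s t, t0 ≤ s → s ≤ t →
      dist (spath Λ Q t0 z0 k φ s) (spath Λ Q t0 z0 k φ t) ≤ t - s := fun φ s t hs hst => by
    have hr : 0 ≤ t0 * Real.exp (-φ) := by positivity
    rw [form_Path Q z0 k φ (fun s => (hΛ s).1) h0 hs,
      form_Path Q z0 k φ (fun s => (hΛ s).1) h0 (hs.trans hst), dist_add_left, dist_mul_cis,
      Complex.dist_eq, ← sub_mul, norm_mul, ← Complex.dist_eq, Complex.norm_real,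
      Real.norm_of_nonneg hr]
    refine (mul_le_mul_of_nonneg_right (hL _ _ (add_le_add_right (clock_mono h0 hst) φ))
      hr).trans_eq ?_
    rw [sub_mul, exp_Path φ h0 hs, exp_Path φ h0 (hs.trans hst)]
  have key : ∀ φ s t, s ≤ t →
      dist (spath Λ Q t0 z0 k φ s) (spath Λ Q t0 z0 k φ t) ≤ |s - t| := fun φ s t hst => by
    rcases le_total t t0 with ht | ht
    · exact lo_Path Λ Q z0 k φ h0 (hst.trans ht) ht
    rw [abs_sub_comm, abs_of_nonneg (sub_nonneg.2 hst)]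
    rcases le_total t0 s with hs | hs
    · exact hi φ s t hs hst
    · have h1 := lo_Path Λ Q z0 k φ h0 hs le_rfl
      rw [abs_sub_comm, abs_of_nonneg (sub_nonneg.2 hs)] at h1
      linarith [dist_triangle (spath Λ Q t0 z0 k φ s) (spath Λ Q t0 z0 k φ t0)
        (spath Λ Q t0 z0 k φ t), hi φ t0 t le_rfl ht]
  refine ⟨fun φ => ?_, fun φ s t _ _ => ?_, fun t => Continuous.measurable ?_⟩
  · rw [spath, min_eq_left (mul_nonneg (le_max_left _ _) (sub_nonneg.2 ((hΛ _).2.trans he)))]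
    simp
  · rcases le_total s t with h | h
    · exact key φ s t h
    · rw [dist_comm, abs_sub_comm]
      exact key φ t s h
  · unfold spath
    fun_prop

theorem hit_stmt : HitStmt := by
  intro Λ Q h ε δ e k J t0 ΦB φ t e0 e1 h0 hδ d0 b0 bJ hc ht hn hD l0 l1 q0 q1 hβ
  have h1 := norm_mul_cis_arg (h t + 1)
  have h2 : ‖h t + 1‖ ≤ (1 - ε) * t + 1 := norm_add_le_of_le hn norm_one.le
  have h3 : 0 ≤ ε - e := nonneg_of_mul_nonneg_left (d0.trans hδ) h0
  have h4 : ‖h t + 1‖ - t ≤ 1 - δ := by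
    rcases le_total t0 t with h5 | h5
    · nlinarith [mul_nonneg (l0.trans l1) h0.le, mul_le_mul_of_nonneg_left h5 e0.le]
    · have h6 := re_mul_cis_le (h t) (-Complex.arg (h t + 1))
      rw [show h t * cis (-Complex.arg (h t + 1)) =
        ‖h t + 1‖ - cis (-Complex.arg (h t + 1)) by
          linear_combination (-cis (-Complex.arg (h t + 1))) * h1 +
            (‖h t + 1‖ : ℂ) * cis_mul_neg (Complex.arg (h t + 1)),
        Complex.sub_re, Complex.ofReal_re, cis_re] at h6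
      rw [clock_of_le h0 h5] at hβ q0 q1
      have h7 := Real.cos_le_cos_of_nonneg_of_le_pi b0
        (show -Complex.arg (h t + 1) ≤ Real.pi by linarith) (by linarith)
      nlinarith [mul_nonneg e0.le ht]
  have h5 : ‖h t + 1‖ - max t t0 * (1 - Λ (φ + clock t0 t)) ≤ 1 - δ := by
    nlinarith [mul_le_mul_of_nonneg_left (le_max_left t t0) (sub_pos.2 e1).le,
      mul_le_mul_of_nonneg_left (le_max_right t t0) h3,
      mul_le_mul_of_nonneg_left l1 (ht.trans (le_max_left t t0))]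
  have h6 : -1 + ‖h t + 1‖ * cis (Complex.arg (h t + 1)) = h t := by
    rw [h1]
    ring
  rw [spath, ← hβ]
  refine (congrArg (dist _) h6).ge.trans ?_
  rw [dist_add_left, dist_mul_cis, Complex.dist_eq, ← Complex.ofReal_sub, Complex.norm_real,
    Real.norm_eq_abs, abs_sub_comm, abs_of_nonneg (sub_nonneg.2 ((min_le_left _ _).trans hD))]
  rcases min_choice t (max t t0 * (1 - Λ (φ + clock t0 t))) with h7 | h7 <;> rwa [h7]

end Pool.Agent.MP_66a317_pr.Fast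

end

section

open MeasureTheory Set Filter
open scoped ENNReal

namespace Pool.Agent.MP_66a317_pr.Fast

/-- first zero of a continuous function that starts positive, or the end of the interval -/
theorem stop_Cap {f : ℝ → ℝ} {T : ℝ} (hf : Continuous f) (h0 : 0 < f 0) (hT : 0 ≤ T) :
    ∃ te, 0 ≤ te ∧ te ≤ T ∧ (∀ t, 0 ≤ t → t ≤ te → 0 ≤ f t) ∧ (te = T ∨ f te = 0) := by
  by_cases hS : ∃ t, t ∈ Icc 0 T ∧ f t ≤ 0
  · have hc : IsCompact (Icc 0 T ∩ {t | f t ≤ 0}) :=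
      isCompact_Icc.inter_right (isClosed_le hf continuous_const)
    obtain ⟨te, ⟨hte, hfte⟩, hmin⟩ := hc.exists_isLeast hS
    have hz : f te = 0 := by
      obtain ⟨s, hs, hfs⟩ := intermediate_value_Icc' hte.1 hf.continuousOn
        (show (0 : ℝ) ∈ Icc (f te) (f 0) from ⟨hfte, h0.le⟩)
      have h1 : te ≤ s := hmin ⟨⟨hs.1, hs.2.trans hte.2⟩, hfs.le⟩
      rw [le_antisymm h1 hs.2]
      exact hfs
    refine ⟨te, hte.1, hte.2, fun t ht0 ht => ?_, Or.inr hz⟩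
    by_contra hneg
    have hneg' : f t < 0 := lt_of_not_ge hneg
    have h1 : te ≤ t := hmin ⟨⟨ht0, ht.trans hte.2⟩, hneg'.le⟩
    rw [le_antisymm ht h1] at hneg'
    linarith
  · refine ⟨T, hT, le_rfl, fun t ht0 ht => ?_, Or.inl rfl⟩
    by_contra hneg
    exact hS ⟨t, ⟨ht0, ht⟩, (lt_of_not_ge hneg).le⟩

theorem slit_Cap {z : ℂ} {t : ℝ} (h1 : ‖z‖ ≤ t) (h2 : t ≤ ‖z + 1‖) :
    z + 1 ∈ Complex.slitPlane := by
  rw [Complex.mem_slitPlane_iff]
  by_contra hc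
  rw [not_or, not_lt, not_not] at hc
  obtain ⟨hre, him⟩ := hc
  have h3 : ‖z + 1‖ ≤ |(z + 1).re| + |(z + 1).im| := Complex.norm_le_abs_re_add_abs_im _
  rw [him, abs_zero, add_zero, abs_of_nonpos hre] at h3
  have h4 : |z.re| ≤ ‖z‖ := Complex.abs_re_le_norm z
  have h5 := neg_abs_le z.re
  simp only [Complex.add_re, Complex.one_re] at h3
  linarith

theorem close_Cap {ρ te x x' T A δ : ℝ} (hρ : 0 ≤ ρ) (hρte : ρ ≤ te) (hte : te ≤ T)
    (hgap : te - ρ ≤ 1 / 4) (hx : |x - x'| ≤ A) (hA : T * A ≤ 1 / 4) (hδ : δ ≤ 1 / 2) :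
    dist ((ρ : ℂ) * cis x) ((te : ℂ) * cis x') ≤ 1 - δ := by
  have h0 : 0 ≤ te := hρ.trans hρte
  have h1 := chord_le hρ h0 x x'
  have hA0 : 0 ≤ A := (abs_nonneg _).trans hx
  have h2 : (x - x') ^ 2 ≤ A ^ 2 := by
    rw [← sq_abs (x - x')]
    exact pow_le_pow_left₀ (abs_nonneg _) hx 2
  have h3 : ρ * te ≤ T ^ 2 := by nlinarith
  have h4 : ρ * te * (x - x') ^ 2 ≤ T ^ 2 * A ^ 2 :=
    mul_le_mul h3 h2 (sq_nonneg _) (sq_nonneg _)
  have h5 : 0 ≤ T * A := mul_nonneg (h0.trans hte) hA0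
  have h6 : T ^ 2 * A ^ 2 ≤ 1 / 16 := by nlinarith
  have h7 : (ρ - te) ^ 2 ≤ 1 / 16 := by nlinarith
  have h8 : dist ((ρ : ℂ) * cis x) ((te : ℂ) * cis x') ^ 2 ≤ (1 / 2) ^ 2 := by linarith
  have h9 : dist ((ρ : ℂ) * cis x) ((te : ℂ) * cis x') ≤ 1 / 2 :=
    le_of_sq_le_sq h8 (by norm_num)
  linarith

theorem side_Cap (hZ : ZoneStmt) (hH : HitStmt) {Λ Q : ℝ → ℝ}
    {ε δ e k J M dR dL d0 t0 T1 ΦB : ℝ} (hP : Profile Λ Q e k J M dR dL d0)
    (hε : 0 < ε) (hε1 : ε < 1) (hδ : 0 ≤ δ) (hδ2 : δ ≤ 1 / 2) (hk : 0 ≤ k)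
    (hdR : 0 < dR) (hdL : 0 < dL) (hd0 : 0 < d0) (ht0 : 0 < t0) (hT1 : t0 ≤ T1)
    (hδe : δ ≤ (ε - e) * t0) (hΦ : 0 ≤ ΦB) (hπ : ΦB + J ≤ Real.pi) (hcos : Real.cos ΦB ≤ 1 - δ)
    (hlog : ΦB + J ≤ k * Real.log (T1 / t0)) (hA : T1 * (ΦB + J + M) ≤ 1 / 4)
    (hE : Real.exp d0 * e * T1 ≤ 1 / 4) (hE1 : Real.exp d0 * e ≤ 1)
    {h : ℝ → ℂ} (hc : Continuous h) (h0 : h 0 = 0) (hn : ∀ t, 0 ≤ t → ‖h t‖ ≤ (1 - ε) * t)
    {te : ℝ} (hte0 : 0 ≤ te) (hteT : te ≤ T1) (hge : ∀ t, 0 ≤ t → t ≤ te → t ≤ ‖h t + 1‖)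
    (hend : te = T1 ∨ ‖h te + 1‖ = te) (harg : Complex.arg (h te + 1) ≤ 0) :
    ENNReal.ofReal (dR - dL - d0) ≤ volume {φ | φ ∈ Ico 0 (dR + dL + 2 * d0) ∧
      ∃ t, 0 ≤ t ∧ dist (spath Λ Q t0 (-(ΦB + J)) k φ t) (h t) ≤ 1 - δ} := by
  obtain ⟨hΛc, hQc, hΛ, hQ, hR, hL, hJ, -⟩ := hP
  have hslit : ∀ t, 0 ≤ t → t ≤ te → h t + 1 ∈ Complex.slitPlane := fun t ht ht' =>
    slit_Cap ((hn t ht).trans (by nlinarith)) (hge t ht ht')
  set ξ : ℝ → ℝ := fun t => Complex.arg (h t + 1) - (-(ΦB + J) + k * clock t0 t) with hξ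
  have hck := continuous_clock ht0
  have hξc : ContinuousOn ξ (Icc 0 te) := by
    intro t ht
    refine ContinuousAt.continuousWithinAt ?_
    have h1 : ContinuousAt (fun t => Complex.arg (h t + 1)) t :=
      ContinuousAt.comp (f := fun t => h t + 1) (Complex.continuousAt_arg (hslit t ht.1 ht.2))
        (by fun_prop)
    exact h1.sub (by fun_prop)
  have hτ0 : clock t0 0 = 0 := clock_of_le ht0 ht0.le
  have hξ0 : J ≤ ξ 0 := by
    simp only [hξ, h0, hτ0, zero_add, Complex.arg_one, mul_zero, add_zero]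
    linarith
  by_cases hneg : ξ te ≤ 0
  · refine (hZ ξ (clock t0) Q te J dR dL d0 hte0 hξc hck (clock_mono ht0) hτ0 hQc hdR hdL hd0 hξ0
      hneg (fun n s h1 h2 => ⟨(hQ s).1, (hR n s h1 h2).2⟩) hJ).trans (measure_mono ?_)
    rintro φ ⟨hφ, t, ht, hξt, n, hn'⟩
    have hb : Λ (φ + clock t0 t) ≤ e ∧ Q (φ + clock t0 t) ≤ J := by
      rcases hn' with ⟨h1, h2⟩ | ⟨h1, h2⟩
      · exact hR n _ h1 h2
      · exact hL n _ h1 h2
    refine ⟨hφ, t, ht.1, hH Λ Q h ε δ e k J t0 ΦB φ t hε hε1 ht0 hδe hδ hΦ hπ hcos ht.1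
      (hn t ht.1) (hge t ht.1 ht.2) (hΛ _).1 hb.1 (hQ _).1 hb.2 ?_⟩
    simp only [hξ] at hξt
    linarith
  · have hpos : -(ΦB + J) + k * clock t0 te < Complex.arg (h te + 1) := by
      have := lt_of_not_ge hneg
      simp only [hξ] at this
      linarith
    have hnorm : ‖h te + 1‖ = te := by
      rcases hend with h1 | h1
      · rw [h1, clock_of_ge hT1] at hpos
        rw [h1] at harg
        linarith
      · exact h1
    have hkc : 0 ≤ k * clock t0 te := mul_nonneg hk (clock_nonneg ht0 te)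
    have hall : ∀ φ, dist (spath Λ Q t0 (-(ΦB + J)) k φ te) (h te) ≤ 1 - δ := by
      intro φ
      have hpol : h te = -1 + (te : ℂ) * cis (Complex.arg (h te + 1)) := by
        have := norm_mul_cis_arg (h te + 1)
        rw [hnorm] at this
        rw [this]
        ring
      have hl := hΛ (φ + clock t0 te)
      have hq := hQ (φ + clock t0 te)
      have hm0 : 0 ≤ max te t0 := hte0.trans (le_max_left _ _)
      have hm1 : max te t0 ≤ T1 := max_le hteT hT1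
      have hm2 : te ≤ max te t0 := le_max_left _ _
      have hgap : max te t0 * Λ (φ + clock t0 te) ≤ 1 / 4 := by
        have h1 : max te t0 * Λ (φ + clock t0 te) ≤ T1 * (Real.exp d0 * e) :=
          mul_le_mul hm1 hl.2 hl.1 (hm0.trans hm1)
        linarith
      have key := close_Cap (ρ := min te (max te t0 * (1 - Λ (φ + clock t0 te)))) (te := te)
        (x := -(ΦB + J) + k * clock t0 te + Q (φ + clock t0 te)) (x' := Complex.arg (h te + 1))
        (T := T1) (A := ΦB + J + M) (δ := δ)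
        (le_min hte0 (mul_nonneg hm0 (by linarith [hl.2]))) (min_le_left _ _) hteT
        (by
          rcases min_cases te (max te t0 * (1 - Λ (φ + clock t0 te))) with h1 | h1
          · rw [h1.1]
            norm_num
          · rw [h1.1]
            nlinarith)
        (abs_le.2 ⟨by linarith [hq.1, hq.2], by linarith [hq.1, hq.2]⟩) hA hδ2
      have e1 : dist (spath Λ Q t0 (-(ΦB + J)) k φ te) (h te) =
          dist (spath Λ Q t0 (-(ΦB + J)) k φ te)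
            (-1 + (te : ℂ) * cis (Complex.arg (h te + 1))) := by rw [← hpol]
      rw [e1, spath, dist_add_left]
      exact key
    refine le_trans ?_ (measure_mono (s := Ico 0 (dR + dL + 2 * d0))
      fun φ hφ => ⟨hφ, te, hte0, hall φ⟩)
    rw [Real.volume_Ico]
    exact ENNReal.ofReal_le_ofReal (by linarith)

theorem cap_stmt (hZ : ZoneStmt) (hH : HitStmt) : CapStmt := by
  intro Λ Q ε δ e k J M dR dL d0 t0 T1 ΦB hP hε hε1 hδ hδ2 hk _ hdR hdL hd0 ht0 hT1 hδe hΦ hπ hcos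
    hlog hA hE hE1 h h0 hLip
  have hc : Continuous h := by
    refine (LipschitzWith.of_dist_le_mul (K := ⟨1 - ε, by linarith⟩) fun s t => ?_).continuous
    rw [Real.dist_eq]
    exact hLip s t
  have hn : ∀ t, 0 ≤ t → ‖h t‖ ≤ (1 - ε) * t := fun t ht => by
    have := hLip t 0
    rwa [h0, dist_zero_right, sub_zero, abs_of_nonneg ht] at this
  obtain ⟨te, hte0, hteT, hge, hend⟩ := stop_Cap (f := fun t => ‖h t + 1‖ - t) (T := T1)
    (by fun_prop) (by simp [h0]) (ht0.le.trans hT1)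
  have hge' : ∀ t, 0 ≤ t → t ≤ te → t ≤ ‖h t + 1‖ := fun t h1 h2 => by
    have := hge t h1 h2
    linarith
  have hend' : te = T1 ∨ ‖h te + 1‖ = te := hend.imp id fun h1 => by linarith
  rcases le_total (Complex.arg (h te + 1)) 0 with harg | harg
  · exact Or.inl (side_Cap hZ hH hP hε hε1 hδ hδ2 hk hdR hdL hd0 ht0 hT1 hδe hΦ hπ hcos hlog hA hE
      hE1 hc h0 hn hte0 hteT hge' hend' harg)
  · have hcj : ∀ t, (starRingEnd ℂ) (h t) + 1 = (starRingEnd ℂ) (h t + 1) := fun t => by simp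
    have hslit : h te + 1 ∈ Complex.slitPlane :=
      slit_Cap ((hn te hte0).trans (by nlinarith)) (hge' te hte0 le_rfl)
    refine Or.inr (side_Cap hZ hH hP hε hε1 hδ hδ2 hk hdR hdL hd0 ht0 hT1 hδe hΦ hπ hcos hlog hA hE
      hE1 (h := fun t => (starRingEnd ℂ) (h t)) (Complex.continuous_conj.comp hc) (by simp [h0])
      (fun t ht => by simpa using hn t ht) hte0 hteT
      (fun t h1 h2 => by rw [hcj, Complex.norm_conj]; exact hge' t h1 h2)
      (by rw [hcj, Complex.norm_conj]; exact hend') ?_)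
    rw [hcj, Complex.arg_conj, if_neg (Complex.slitPlane_arg_ne_pi hslit)]
    linarith

end Pool.Agent.MP_66a317_pr.Fast

end

section

open MeasureTheory Set Filter
open scoped ENNReal
namespace Pool.Agent.MP_66a317_pr.Stair
open Fast

theorem hit2_stmt : Hit2Stmt := by
  intro Λ Q h ε r g y e k J t0 ΦB φ t e0 e1 h0 d0 hδ b0 bJ hc ht ⟨_, c2, c3⟩ hn hD l0 l1 q0 q1 hβ
  have h1 := norm_mul_cis_arg (h t)
  have h2 : ‖h t‖ ≤ (1 - ε) * t + (r + g) := by
    have := norm_add_le_of_le hn c2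
    rwa [sub_add_cancel] at this
  have h3 : 0 ≤ ε - e := nonneg_of_mul_nonneg_left (d0.trans hδ) h0
  have h4 : ‖h t‖ - t ≤ r := by
    rcases le_total t0 t with h5 | h5
    · nlinarith [mul_nonneg (l0.trans l1) h0.le, mul_le_mul_of_nonneg_left h5 e0.le]
    · rw [clock_of_le h0 h5] at hβ q0 q1
      obtain ⟨x, hx⟩ : ∃ x, x = -Complex.arg (h t) := ⟨_, rfl⟩
      have x1 : ΦB ≤ x := by linarith
      have x2 : x ≤ ΦB + J := by linarith
      have h6 := re_mul_cis_le (h t - h 0) x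
      rw [show (h t - h 0) * cis x = ‖h t‖ - h 0 * cis x by
          rw [hx]
          linear_combination (-cis (-Complex.arg (h t))) * h1 +
            (‖h t‖ : ℂ) * cis_mul_neg (Complex.arg (h t)),
        Complex.sub_re, Complex.ofReal_re, Complex.mul_re, cis_re, cis_im] at h6
      have h7 : 0 ≤ Real.cos x :=
        Real.cos_nonneg_of_neg_pi_div_two_le_of_le (by linarith [Real.pi_pos]) (by linarith)
      have h8 : 0 ≤ Real.sin x :=
        Real.sin_nonneg_of_nonneg_of_le_pi (by linarith) (by linarith [Real.pi_pos])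
      have h9 := mul_le_mul_of_nonneg_right ((Complex.re_le_norm _).trans c2) h7
      have h10 := mul_le_mul_of_nonneg_right (abs_le.1 c3).1 h8
      linarith [hc x x1 x2, mul_nonneg e0.le ht]
  have h5 : ‖h t‖ - max t t0 * (1 - Λ (φ + clock t0 t)) ≤ r := by
    nlinarith [mul_le_mul_of_nonneg_left (le_max_left t t0) (sub_pos.2 e1).le,
      mul_le_mul_of_nonneg_left (le_max_right t t0) h3,
      mul_le_mul_of_nonneg_left l1 (ht.trans (le_max_left t t0))]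
  rw [spath, ← hβ, add_comm (-1 : ℂ), neg_add_cancel_right]
  refine (congrArg (dist _) h1).ge.trans ?_
  rw [dist_mul_cis, Complex.dist_eq, ← Complex.ofReal_sub, Complex.norm_real,
    Real.norm_eq_abs, abs_sub_comm, abs_of_nonneg (sub_nonneg.2 ((min_le_left _ _).trans hD))]
  rcases min_choice t (max t t0 * (1 - Λ (φ + clock t0 t))) with h7 | h7 <;> rwa [h7]

theorem count_Cap2 {N : ℕ} {S A B : Set (Fin N)} (h : ∀ j, j ∈ S ∨ j ∈ A ∨ j ∈ B) :
    (N : ℝ) ≤ S.ncard + (A.ncard + B.ncard) := by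
  have h1 : (univ : Set (Fin N)).ncard ≤ (S ∪ (A ∪ B)).ncard :=
    Set.ncard_le_ncard (fun j _ => h j) (Set.toFinite _)
  rw [Set.ncard_univ, Nat.card_fin] at h1
  exact_mod_cast h1.trans ((Set.ncard_union_le _ _).trans
    (Nat.add_le_add_left (Set.ncard_union_le _ _) _))

theorem all_Cap2 {N : ℕ} {S : Set (Fin N)} {dR dL d0 : ℝ} (hdR : 0 < dR) (hdL : 0 < dL)
    (hd0 : 0 < d0) (h : ∀ j, j ∈ S) :
    (dR - dL - d0) / (dR + dL + 2 * d0) * N - 4 ≤ S.ncard := by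
  have h1 := count_Cap2 (A := ∅) (B := ∅) fun j => Or.inl (h j)
  rw [Set.ncard_empty, Nat.cast_zero, add_zero, add_zero] at h1
  have h2 : (dR - dL - d0) / (dR + dL + 2 * d0) ≤ 1 :=
    (div_le_one (by positivity)).2 (by linarith)
  linarith [mul_le_of_le_one_left (Nat.cast_nonneg (α := ℝ) N) h2]

theorem slit_Cap2 {z w : ℂ} {t : ℝ} (h0 : 0 < w.re) (h1 : ‖z - w‖ ≤ t) (h2 : t ≤ ‖z‖) :
    z ∈ Complex.slitPlane := by
  rw [Complex.mem_slitPlane_iff]
  by_contra hc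
  rw [not_or, not_lt, not_not] at hc
  obtain ⟨hre, him⟩ := hc
  have h3 : ‖z‖ ≤ |z.re| + |z.im| := Complex.norm_le_abs_re_add_abs_im _
  rw [him, abs_zero, add_zero, abs_of_nonpos hre] at h3
  have h4 : |(z - w).re| ≤ ‖z - w‖ := Complex.abs_re_le_norm _
  have h5 := neg_abs_le (z - w).re
  rw [Complex.sub_re] at h4 h5
  linarith

theorem arg_Cap2 {z : ℂ} {r g y : ℝ} (hz : z ∈ cone r g y) (h : 1 / 2 ≤ ‖z‖) :
    |Complex.arg z| ≤ 4 * y := by
  have h1 := Real.mul_abs_le_abs_sin (Complex.abs_arg_le_pi_div_two_iff.2 hz.1.le)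
  have h0 : 0 < ‖z‖ := by linarith
  rw [Complex.sin_arg, abs_div, abs_norm, le_div_iff₀ h0] at h1
  have h2 : 1 / 2 ≤ 2 / Real.pi := by
    rw [le_div_iff₀ Real.pi_pos]
    linarith [Real.pi_le_four]
  have h3 := abs_nonneg (Complex.arg z)
  have h4 : 1 / 2 * |Complex.arg z| * (1 / 2) ≤ 2 / Real.pi * |Complex.arg z| * ‖z‖ := by
    gcongr
  linarith [hz.2.2]

theorem side_Cap2 (hZ : ZoneCoreStmt) (hC : ArcCountStmt) (hH : Hit2Stmt) {Λ Q : ℝ → ℝ}
    {ε r g y e k J M dR dL d0 t0 T1 ΦB : ℝ} {N : ℕ} (hP : Profile Λ Q e k J M dR dL d0)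
    (hε : 0 < ε) (hε1 : ε < 1) (hr : 1 / 2 ≤ r) (hg : 0 ≤ g) (hk : 0 ≤ k)
    (hdR : 0 < dR) (hdL : 0 < dL) (hd0 : 0 < d0) (ht0 : 0 < t0) (hT1 : t0 ≤ T1)
    (hδe : g ≤ (ε - e) * t0) (hΦ : 0 ≤ ΦB) (hy : 4 * y ≤ ΦB) (hπ : ΦB + J ≤ Real.pi / 2)
    (hcos : ∀ x, ΦB ≤ x → x ≤ ΦB + J → (r + g) * Real.cos x + y * Real.sin x ≤ r)
    (hlog : ΦB + J ≤ k * Real.log (T1 / t0)) (hA : T1 * (ΦB + J + M) ≤ 1 / 4)
    (hE : Real.exp d0 * e * T1 ≤ 1 / 4) (hE1 : Real.exp d0 * e ≤ 1) (hN : 0 < N)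
    {h : ℝ → ℂ} (hc : Continuous h) (h0 : h 0 ∈ cone r g y) (h0' : 1 / 2 ≤ ‖h 0‖)
    (hn : ∀ t, 0 ≤ t → ‖h t - h 0‖ ≤ (1 - ε) * t)
    {te : ℝ} (hte0 : 0 ≤ te) (hteT : te ≤ T1) (hge : ∀ t, 0 ≤ t → t ≤ te → t ≤ ‖h t‖)
    (hend : te = T1 ∨ ‖h te‖ = te) (harg : Complex.arg (h te) ≤ 0) :
    (dR - dL - d0) / (dR + dL + 2 * d0) * N - 4 ≤
      ({j : Fin N | ∃ t, 0 ≤ t ∧ t ≤ T1 ∧ dist (spath Λ Q t0 (-(ΦB + J)) k
        ((j : ℝ) * (dR + dL + 2 * d0) / N) t + 1) (h t) ≤ r} : Set (Fin N)).ncard := by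
  obtain ⟨hΛc, hQc, hΛ, hQ, hR, hL, hJ, -⟩ := hP
  have hslit : ∀ t, 0 ≤ t → t ≤ te → h t ∈ Complex.slitPlane := fun t ht ht' =>
    slit_Cap2 h0.1 ((hn t ht).trans (by nlinarith)) (hge t ht ht')
  set ξ : ℝ → ℝ := fun t => Complex.arg (h t) - (-(ΦB + J) + k * clock t0 t) with hξ
  have hck := continuous_clock ht0
  have hξc : ContinuousOn ξ (Icc 0 te) := by
    intro t ht
    refine ContinuousAt.continuousWithinAt ?_
    have h1 : ContinuousAt (fun t => Complex.arg (h t)) t :=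
      ContinuousAt.comp (f := h) (Complex.continuousAt_arg (hslit t ht.1 ht.2)) hc.continuousAt
    exact h1.sub (by fun_prop)
  have hτ0 : clock t0 0 = 0 := clock_of_le ht0 ht0.le
  have hξ0 : J ≤ ξ 0 := by
    simp only [hξ, hτ0, mul_zero, add_zero]
    linarith [(abs_le.1 (arg_Cap2 h0 h0')).1]
  by_cases hneg : ξ te ≤ 0
  · obtain ⟨x1, x2, hx⟩ := hZ ξ (clock t0) Q te J dR dL d0 hte0 hξc hck (clock_mono ht0) hτ0 hQc
      hdR hdL hd0 hξ0 hneg (fun n s h1 h2 => ⟨(hQ s).1, (hR n s h1 h2).2⟩) hJ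
    have hP0 : 0 < dR + dL + 2 * d0 := by positivity
    have a1 := hC _ dR x1 (dL + 2 * d0) N hP0 hN (by positivity)
    have a2 := hC _ (-d0 - dL) x2 (d0 + dL) N hP0 hN (by positivity)
    have e1 : (dR - dL - d0) / (dR + dL + 2 * d0) * N =
        N - (dL + 2 * d0) * N / (dR + dL + 2 * d0) - (d0 + dL) * N / (dR + dL + 2 * d0) := by
      field_simp
      ring
    refine le_of_add_le_add_right (le_trans ?_ ((count_Cap2 fun j => ?_).trans
      (add_le_add_right (add_le_add a1 a2) _)))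
    · linarith
    refine (hx ((j : ℝ) * (dR + dL + 2 * d0) / N)).imp_left ?_
    rw [mem_ofPred_eq]
    generalize (j : ℝ) * (dR + dL + 2 * d0) / N = φ
    rintro ⟨t, ht, hξt, n, hn'⟩
    have hb : Λ (φ + clock t0 t) ≤ e ∧ Q (φ + clock t0 t) ≤ J := by
      rcases hn' with ⟨h1, h2⟩ | ⟨h1, h2⟩
      · exact hR n _ h1 h2
      · exact hL n _ h1 h2
    refine ⟨t, ht.1, ht.2.trans hteT, hH Λ Q h ε r g y e k J t0 ΦB φ t hε hε1 ht0 hg hδe hΦ hπ hcos
      ht.1 h0 (hn t ht.1) (hge t ht.1 ht.2) (hΛ _).1 hb.1 (hQ _).1 hb.2 ?_⟩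
    simp only [hξ] at hξt
    linarith
  · have hpos : -(ΦB + J) + k * clock t0 te < Complex.arg (h te) := by
      have := lt_of_not_ge hneg
      simp only [hξ] at this
      linarith
    have hnorm : ‖h te‖ = te := by
      rcases hend with h1 | h1
      · rw [h1, clock_of_ge hT1] at hpos
        rw [h1] at harg
        linarith
      · exact h1
    have hkc : 0 ≤ k * clock t0 te := mul_nonneg hk (clock_nonneg ht0 te)
    refine all_Cap2 hdR hdL hd0 fun j => ⟨te, hte0, hteT, ?_⟩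
    generalize (j : ℝ) * (dR + dL + 2 * d0) / N = φ
    have hpol := norm_mul_cis_arg (h te)
    rw [hnorm] at hpol
    have hl := hΛ (φ + clock t0 te)
    have hq := hQ (φ + clock t0 te)
    have hm0 : 0 ≤ max te t0 := hte0.trans (le_max_left _ _)
    have hm1 : max te t0 ≤ T1 := max_le hteT hT1
    have hm2 : te ≤ max te t0 := le_max_left _ _
    have hgap : max te t0 * Λ (φ + clock t0 te) ≤ 1 / 4 := by
      have h1 : max te t0 * Λ (φ + clock t0 te) ≤ T1 * (Real.exp d0 * e) :=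
        mul_le_mul hm1 hl.2 hl.1 (hm0.trans hm1)
      linarith
    have key := close_Cap (ρ := min te (max te t0 * (1 - Λ (φ + clock t0 te)))) (te := te)
      (x := -(ΦB + J) + k * clock t0 te + Q (φ + clock t0 te)) (x' := Complex.arg (h te))
      (T := T1) (A := ΦB + J + M) (δ := 1 - r)
      (le_min hte0 (mul_nonneg hm0 (by linarith [hl.2]))) (min_le_left _ _) hteT
      (by
        rcases min_cases te (max te t0 * (1 - Λ (φ + clock t0 te))) with h1 | h1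
        · rw [h1.1]
          norm_num
        · rw [h1.1]
          nlinarith)
      (abs_le.2 ⟨by linarith [hq.1, hq.2], by linarith [hq.1, hq.2]⟩) hA (by linarith)
    rw [hpol, sub_sub_cancel] at key
    rwa [spath, add_comm (-1 : ℂ), neg_add_cancel_right]

theorem cap2_stmt (hZ : ZoneCoreStmt) (hA : ArcCountStmt) (hH : Hit2Stmt) : Cap2Stmt := by
  intro Λ Q ε r g y e k J M dR dL d0 t0 T1 ΦB N hP hε hε1 hr hg hk _ hdR hdL hd0 ht0 hT1 hδe hΦ hy
    hπ hcos hlog hA' hE hE1 hN h h0 hLip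
  rcases le_total ‖h 0‖ r with h0' | h0'
  · refine Or.inl (all_Cap2 hdR hdL hd0 fun j => ⟨0, le_rfl, ht0.le.trans hT1, ?_⟩)
    rwa [(path_stmt Λ Q e k J M dR dL d0 t0 _ hP ht0 hE1).1, neg_add_cancel, dist_zero_left]
  have h0'' := hr.trans h0'
  have hc : Continuous h := by
    refine (LipschitzWith.of_dist_le_mul (K := ⟨1 - ε, by linarith⟩) fun s t => ?_).continuous
    rw [Real.dist_eq]
    exact hLip s t
  have hn : ∀ t, 0 ≤ t → ‖h t - h 0‖ ≤ (1 - ε) * t := fun t ht => by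
    have := hLip t 0
    rwa [dist_eq_norm, sub_zero, abs_of_nonneg ht] at this
  obtain ⟨te, hte0, hteT, hge, hend⟩ := stop_Cap (f := fun t => ‖h t‖ - t) (T := T1)
    (by fun_prop) (by linarith) (ht0.le.trans hT1)
  have hge' : ∀ t, 0 ≤ t → t ≤ te → t ≤ ‖h t‖ := fun t h1 h2 => by
    have := hge t h1 h2
    linarith
  have hend' : te = T1 ∨ ‖h te‖ = te := hend.imp id fun h1 => by linarith
  rcases le_total (Complex.arg (h te)) 0 with harg | harg
  · exact Or.inl (side_Cap2 hZ hA hH hP hε hε1 hr hg hk hdR hdL hd0 ht0 hT1 hδe hΦ hy hπ hcos hlog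
      hA' hE hE1 hN hc h0 h0'' hn hte0 hteT hge' hend' harg)
  · have hslit : h te ∈ Complex.slitPlane :=
      slit_Cap2 h0.1 ((hn te hte0).trans (by nlinarith)) (hge' te hte0 le_rfl)
    refine Or.inr (side_Cap2 hZ hA hH hP hε hε1 hr hg hk hdR hdL hd0 ht0 hT1 hδe hΦ hy hπ hcos hlog
      hA' hE hE1 hN (h := fun t => (starRingEnd ℂ) (h t)) (Complex.continuous_conj.comp hc)
      (conj_mem_cone h0) (by rwa [Complex.norm_conj])
      (fun t ht => by rw [← map_sub, Complex.norm_conj]; exact hn t ht) hte0 hteT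
      (fun t h1 h2 => by rw [Complex.norm_conj]; exact hge' t h1 h2)
      (by rw [Complex.norm_conj]; exact hend') ?_)
    rw [Complex.arg_conj, if_neg (Complex.slitPlane_arg_ne_pi hslit)]
    linarith

end Pool.Agent.MP_66a317_pr.Stair

end

section

open MeasureTheory Set Filter
open scoped ENNReal

namespace Pool.Agent.MP_66a317_pr.Stair

open Fast

theorem cost_Early {ε y0 E : ℝ} (hε : ε ≤ 1 / 10) (hE : 1 ≤ E) :
    0 ≤ y0 ^ 2 / (64 * (1 - ε)) * (E ^ 2 - 1) ∧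
      y0 ^ 2 / (64 * (1 - ε)) * (E ^ 2 - 1) ≤ (y0 * E) ^ 2 / 57 := by
  have h1 : 0 < 64 * (1 - ε) := by linarith
  have h2 : 0 ≤ E ^ 2 - 1 := by nlinarith
  refine ⟨by positivity, ?_⟩
  have h3 : y0 ^ 2 / (64 * (1 - ε)) ≤ y0 ^ 2 / 57 :=
    div_le_div_of_nonneg_left (sq_nonneg _) (by norm_num) (by linarith)
  have h4 : 0 ≤ y0 ^ 2 / 57 := by positivity
  calc _ ≤ y0 ^ 2 / 57 * (E ^ 2 - 1) := by gcongr
    _ ≤ y0 ^ 2 / 57 * E ^ 2 := by nlinarith
    _ = _ := by ring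

theorem core_Early {Z : ℂ} {r ε βb y0 t' v : ℝ} (hr : 0 < r) (hr1 : r ≤ 1) (hε : ε ≤ 1 / 10)
    (hE : 1 ≤ Real.exp (v / 32)) (hb : βb + ε * (t' + v) ≤ y0 ^ 2 / 2)
    (hf : Z.re ≤ t' + v - r + βb)
    (hc : dist Z ((((1 - ε) * t' : ℝ) : ℂ) + acc ε y0 v) < r) :
    t' + v - r + βb - Z.re ≤ y0 ^ 2 / 2 + (y0 * Real.exp (v / 32)) ^ 2 / 57 ∧
      (y0 * (Real.exp (v / 32) - 1) - Z.im) ^ 2 ≤
        2 * (y0 ^ 2 / 2 + (y0 * Real.exp (v / 32)) ^ 2 / 57) := by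
  obtain ⟨c0, c1⟩ := cost_Early (y0 := y0) hε hE
  have h1 : dist Z ((((1 - ε) * t' : ℝ) : ℂ) + acc ε y0 v) ^ 2 < r ^ 2 := by
    gcongr
  rw [Complex.dist_eq, Complex.sq_norm, Complex.normSq_apply, Complex.sub_re, Complex.sub_im,
    Complex.add_re, Complex.add_im, Complex.ofReal_re, Complex.ofReal_im, acc_re, acc_im,
    exp_sixteen] at h1
  set c := y0 ^ 2 / (64 * (1 - ε)) * (Real.exp (v / 32) ^ 2 - 1)
  set f := t' + v - r + βb - Z.re with hfd
  set s := ε * (t' + v) + βb + c with hsd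
  have e1 : Z.re - ((1 - ε) * t' + ((1 - ε) * v - c)) = -(r - (s - f)) := by
    rw [hfd, hsd]
    ring
  rw [e1] at h1
  have hf0 : 0 ≤ f := by linarith
  have hs : s ≤ y0 ^ 2 / 2 + (y0 * Real.exp (v / 32)) ^ 2 / 57 := by linarith
  set Yd := Z.im - (0 + y0 * (Real.exp (v / 32) - 1)) with hY
  have e2 : (y0 * (Real.exp (v / 32) - 1) - Z.im) ^ 2 = Yd * Yd := by
    rw [hY]
    ring
  have h2 : 0 < s - f := by nlinarith [mul_self_nonneg Yd]
  refine ⟨by linarith, ?_⟩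
  rw [e2]
  nlinarith [sq_nonneg (s - f)]

theorem mid_stmt : MidStmt := by
  intro Z r ε βb y0 t' v hr hr1 _ hε hy hE hb hf hc
  obtain ⟨h1, h2⟩ := core_Early hr hr1 hε (by linarith) hb hf hc
  set E := Real.exp (v / 32)
  have h3 : 8 * y0 ≤ y0 * E := by nlinarith
  have h4 : y0 ^ 2 ≤ (y0 * E) ^ 2 / 64 := by nlinarith
  refine ⟨?_, by linarith [sq_nonneg (y0 * E)]⟩
  by_contra hcon
  push Not at hcon
  have h5 : 3 / 8 * (y0 * E) ≤ y0 * (E - 1) - (Z (t' + v)).im := by linarith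
  have h6 : (3 / 8 * (y0 * E)) ^ 2 ≤ (y0 * (E - 1) - (Z (t' + v)).im) ^ 2 := by
    have : 0 ≤ 3 / 8 * (y0 * E) := by linarith
    gcongr
  have h7 : 0 < (y0 * E) ^ 2 := by
    have : 0 < y0 * E := by linarith
    positivity
  nlinarith

theorem early_stmt : EarlyStmt := by
  intro Z r ε βb y0 t' v hZ hr hr1 _ hε hβ hy hy4 ht hv hE hb hf hc
  have hE1 : 1 ≤ Real.exp (v / 32) := Real.one_le_exp (by linarith)
  obtain ⟨h1, h2⟩ := core_Early hr hr1 hε hE1 hb (hf (t' + v) (by linarith)) hc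
  have hv67 : v ≤ 67 := by
    have a1 : v / 32 ≤ Real.log 8 := (Real.le_log_iff_exp_le (by norm_num)).2 hE
    have a2 : Real.log 8 = 3 * Real.log 2 := by
      rw [show (8 : ℝ) = 2 ^ 3 by norm_num, Real.log_pow]
      norm_num
    have := Real.log_two_lt_d9
    linarith
  set E := Real.exp (v / 32)
  have h3 : y0 * E ≤ 8 * y0 := by nlinarith
  have h3' : y0 ≤ y0 * E := by nlinarith
  have h4 : (y0 * E) ^ 2 ≤ 64 * y0 ^ 2 := by nlinarith
  have h5 : (y0 * (E - 1) - (Z (t' + v)).im) ^ 2 ≤ (2 * y0) ^ 2 := by nlinarith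
  have h6 := abs_le.1 (abs_le_of_sq_le_sq' h5 (by linarith) |> fun h => abs_le.2 h)
  have hd : ‖Z (t' + v) - Z t'‖ ≤ v := by
    have := hZ (t' + v) t'
    rwa [Complex.dist_eq, add_sub_cancel_left, abs_of_nonneg hv] at this
  have h7 := im_sq_le hd
  have h8 := (Complex.re_le_norm _).trans hd
  rw [Complex.sub_re] at h7 h8
  rw [Complex.sub_im] at h7
  have h9 := hf t' (by linarith)
  have h10 : v - ((Z (t' + v)).re - (Z t').re) ≤ 2 * y0 ^ 2 := by nlinarith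
  have h11 : ((Z (t' + v)).im - (Z t').im) ^ 2 ≤ (17 * y0) ^ 2 := by
    have a1 : 0 ≤ v - ((Z (t' + v)).re - (Z t').re) := by linarith
    have a2 : 2 * v * (v - ((Z (t' + v)).re - (Z t').re)) ≤ 2 * 67 * (2 * y0 ^ 2) := by gcongr
    nlinarith
  have h12 := abs_le_of_sq_le_sq' h11 (by linarith)
  refine ⟨abs_le.2 ⟨by nlinarith [h6.1, h6.2, h12.1, h12.2], by nlinarith [h6.1, h6.2, h12.1, h12.2]⟩,
    by nlinarith⟩

end Pool.Agent.MP_66a317_pr.Stair

end
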