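import Pool.Agent.Mg.F66a317.Gad8f3f

open MeasureTheory Set Filter
open scoped ENNReal

namespace Pool.Agent.MP_66a317_pr.Stair

open Fast

theorem termA_UpBase {ν x b μ N : ℝ} (hν : 0 < ν) (hν1 : ν ≤ 1 / 40) (hx : 0 < x)
    (hb : x / 2 ≤ b) (hμ : 0 < μ) (hN : N ≤ x * (1 + ν) / ν + 1) :
    N * ν * μ / (1 - ν) ^ 2 / (2 * μ * b) ≤ x / (2 * b) + 4 * ν + 2 / x := by
  have h1 : 0 < 1 - ν := by linarith
  have hb0 : 0 < b := by linarith
  have h2 : N * ν ≤ (1 + ν) * (x + 1) := by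
    have h3 : N * ν ≤ (x * (1 + ν) / ν + 1) * ν := mul_le_mul_of_nonneg_right hN hν.le
    have h4 : (x * (1 + ν) / ν + 1) * ν = x * (1 + ν) + ν := by field_simp
    nlinarith
  have h5 : 1 + ν ≤ (1 + 4 * ν) * (1 - ν) ^ 2 := by
    nlinarith [mul_pos hν hν, mul_pos hν (mul_pos hν hν)]
  have e : N * ν * μ / (1 - ν) ^ 2 / (2 * μ * b) = N * ν / (1 - ν) ^ 2 / (2 * b) := by
    field_simp
  have h6 : N * ν / (1 - ν) ^ 2 ≤ (1 + 4 * ν) * (x + 1) := by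
    rw [div_le_iff₀ (by positivity)]
    nlinarith [mul_le_mul_of_nonneg_right h5 (show 0 ≤ x + 1 by linarith)]
  have h7 : x / (2 * b) ≤ 1 := by
    rw [div_le_one (by positivity)]
    linarith
  have h8 : (1 + 4 * ν) / (2 * b) ≤ 2 / x := by
    rw [div_le_div_iff₀ (by positivity) hx]
    nlinarith
  calc N * ν * μ / (1 - ν) ^ 2 / (2 * μ * b) ≤ (1 + 4 * ν) * (x + 1) / (2 * b) := by
        rw [e]
        gcongr
    _ = x / (2 * b) + 4 * ν * (x / (2 * b)) + (1 + 4 * ν) / (2 * b) := by ring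
    _ ≤ _ := by nlinarith [mul_le_mul_of_nonneg_left h7 hν.le]

theorem termB_UpBase {ν x b a μ ε βb K : ℝ} (hν : 0 < ν) (hν1 : ν ≤ 1 / 40) (hx : 0 < x)
    (hb : x / 2 ≤ b) (ha : 0 < a) (hK : 0 < K) (hε : 0 < ε) (hμ : 0 < μ) (hμ2 : μ ^ 2 = 2 * ε)
    (hβ : βb ≤ ε * a * b / K) :
    (2 * βb / a + 2 * ε) / μ / (1 - ν) ^ 2 / (2 * μ * b) ≤ 1 / K + 2 / x := by
  have h1 : 0 < 1 - ν := by linarith
  have hb0 : 0 < b := by linarith
  have h2 : 2 * βb / a ≤ 2 * (ε * b / K) := by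
    rw [div_le_iff₀ ha]
    have : ε * a * b / K = ε * b / K * a := by ring
    linarith
  have h3 : (1 : ℝ) / 2 ≤ (1 - ν) ^ 2 := by nlinarith
  have h4 : 1 / b ≤ 2 / x := by
    rw [div_le_div_iff₀ hb0 hx]
    linarith
  calc (2 * βb / a + 2 * ε) / μ / (1 - ν) ^ 2 / (2 * μ * b)
      ≤ (2 * (ε * b / K) + 2 * ε) / μ / (1 / 2) / (2 * μ * b) := by
        have h5 : (2 * βb / a + 2 * ε) / μ ≤ (2 * (ε * b / K) + 2 * ε) / μ := by gcongr
        have h6 : (2 * βb / a + 2 * ε) / μ / (1 - ν) ^ 2 ≤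
            (2 * (ε * b / K) + 2 * ε) / μ / (1 - ν) ^ 2 := by gcongr
        have h7 : (2 * (ε * b / K) + 2 * ε) / μ / (1 - ν) ^ 2 ≤
            (2 * (ε * b / K) + 2 * ε) / μ / (1 / 2) := by gcongr
        exact div_le_div_of_nonneg_right (h6.trans h7) (by positivity)
    _ = (2 * ε / μ ^ 2) * (1 / K + 1 / b) := by field_simp
    _ = 1 / K + 1 / b := by
        rw [hμ2, div_self (by positivity), one_mul]
    _ ≤ _ := by linarith

theorem termC_UpBase {ν x b μ s c N : ℝ} (hν : 0 < ν) (hx : 0 < x) (hb : x / 2 ≤ b) (hs : 0 < s)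
    (hμ : s ≤ μ) (hc : 0 < c) (hN : N ≤ 3 * x / ν) :
    2 * N * (4 * s / c) / (2 * μ * b) ≤ 24 / (ν * c) := by
  calc 2 * N * (4 * s / c) / (2 * μ * b) ≤ 2 * (3 * x / ν) * (4 * s / c) / (2 * s * (x / 2)) := by
        have h1 : 0 < μ := hs.trans_le hμ
        have h2 : 0 < b := by linarith
        gcongr
    _ = 24 / (ν * c) := by
        field_simp
        ring

theorem termD_UpBase {x b μ s a P T : ℝ} (hx : 0 < x) (hb : x / 2 ≤ b) (hs : 0 < s)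
    (hμ : s ≤ μ) (ha : 1 ≤ a) (hP : s⁻¹ ≤ P) (hT : 0 ≤ T) :
    T / (a * P) / (2 * μ * b) ≤ T / x := by
  calc T / (a * P) / (2 * μ * b) ≤ T / (1 * s⁻¹) / (2 * s * (x / 2)) := by
        have h1 : 0 < μ := hs.trans_le hμ
        gcongr
    _ = T / x := by field_simp

theorem pow_UpBase {ν x : ℝ} (hν : 0 < ν) {N : ℕ} (hN : x * (1 + ν) / ν ≤ N) :
    (Real.exp (-x))⁻¹ ≤ (1 + ν) ^ N := by
  have h0 : 0 < 1 + ν := by linarith
  have h1 : 1 - (1 + ν)⁻¹ ≤ Real.log (1 + ν) := Real.one_sub_inv_le_log_of_pos h0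
  have h2 : 1 - (1 + ν)⁻¹ = ν / (1 + ν) := by
    field_simp
    ring
  rw [← Real.exp_neg, ← Real.exp_log (pow_pos h0 N), Real.log_pow, Real.exp_le_exp]
  calc - -x = x * (1 + ν) / ν * (ν / (1 + ν)) := by field_simp
    _ ≤ N * (ν / (1 + ν)) := mul_le_mul_of_nonneg_right hN (by positivity)
    _ ≤ N * Real.log (1 + ν) := mul_le_mul_of_nonneg_left (h2 ▸ h1) (Nat.cast_nonneg N)

theorem upBase_stmt (h : EscBaseStmt) : UpBaseStmt := by
  intro η hη hη1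
  obtain ⟨ν, hνd⟩ : ∃ ν : ℝ, ν = η / 40 := ⟨_, rfl⟩
  have hν : 0 < ν := by rw [hνd]; positivity
  have hν1 : ν ≤ 1 / 40 := by rw [hνd]; linarith
  obtain ⟨S, hS⟩ : ∃ S : ℝ, S = 48 / η := ⟨_, rfl⟩
  have hS1 : 1 ≤ S := by rw [hS, le_div_iff₀ hη]; linarith
  obtain ⟨c, hcd⟩ : ∃ c : ℝ, c = 200 / (ν * η) := ⟨_, rfl⟩
  have hc : 0 < c := by rw [hcd]; positivity
  have hcν : 200 ≤ c * ν := by
    have h1 : c * ν = 200 / η := by rw [hcd]; field_simp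
    rw [h1, le_div_iff₀ hη]
    linarith
  have hc1 : 1 ≤ c := by nlinarith
  have hK1 : 1 ≤ c ^ 2 := one_le_pow₀ hc1
  have hKν : 1 / c ^ 2 ≤ ν / 2 := by
    rw [div_le_iff₀ (by positivity)]
    nlinarith
  refine ⟨c ^ 2, hK1, ?_⟩
  have hhalf : Tendsto (fun L : ℝ => L / 2) atTop atTop :=
    tendsto_id.atTop_div_const (by norm_num)
  filter_upwards [hhalf.eventually_ge_atTop 1,
    hhalf.eventually_ge_atTop (2 * (4 + 8 * (1 + 2 * S)) / η),
    ((Real.tendsto_pow_mul_exp_neg_atTop_nhds_zero 2).comp hhalf).eventually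
      (ge_mem_nhds (show 0 < ν / 32 by positivity))] with L hx1 hx3 hx4
  obtain ⟨x, hx⟩ : ∃ x : ℝ, x = L / 2 := ⟨_, rfl⟩
  simp only [Function.comp] at hx4
  rw [← hx] at hx1 hx3 hx4 ⊢
  have hx0 : 0 < x := by linarith
  obtain ⟨s, hsd⟩ : ∃ s : ℝ, s = Real.exp (-x) := ⟨_, rfl⟩
  have hs : 0 < s := by rw [hsd]; exact Real.exp_pos _
  have hε : Real.exp (-L) = s ^ 2 := by
    rw [hsd, ← Real.exp_nat_mul, hx]
    congr 1
    push_cast
    ring
  rw [← hsd] at hx4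
  rw [hε]
  have hs1 : s ≤ ν / 32 := by
    have h1 : 1 ≤ x ^ 2 := one_le_pow₀ hx1
    nlinarith
  intro r b a lo β τ βb hr hr1 hb hb2 hKa hba _ hlo hhi _ _ hβ0 hβ hω
  obtain ⟨μ, hμd⟩ : ∃ μ : ℝ, μ = √(2 * s ^ 2) := ⟨_, rfl⟩
  have hμ : 0 < μ := by rw [hμd]; positivity
  have hμ2 : μ ^ 2 = 2 * s ^ 2 := by rw [hμd]; exact Real.sq_sqrt (by positivity)
  have hμl : s ≤ μ := by
    refine abs_le_of_sq_le_sq' ?_ hμ.le |>.2
    nlinarith
  have hμu : μ ≤ 2 * s := by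
    refine abs_le_of_sq_le_sq' ?_ (by positivity) |>.2
    nlinarith
  have hb0 : 0 < b := by linarith
  have ha1 : 1 ≤ a := hK1.trans hKa
  have ha0 : 0 < a := by linarith
  have haK : 1 / a ≤ 1 / c ^ 2 := one_div_le_one_div_of_le (by positivity) hKa
  obtain ⟨N, hNd⟩ : ∃ N : ℕ, N = ⌈x * (1 + ν) / ν⌉₊ := ⟨_, rfl⟩
  have hN1 : x * (1 + ν) / ν ≤ N := by rw [hNd]; exact Nat.le_ceil _
  have hN2 : (N : ℝ) ≤ x * (1 + ν) / ν + 1 := by
    rw [hNd]; exact (Nat.ceil_lt_add_one (by positivity)).le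
  have hN0 : 0 < N := by rw [hNd]; exact Nat.ceil_pos.2 (by positivity)
  have hN3 : (N : ℝ) ≤ 3 * x / ν := by
    refine hN2.trans ?_
    rw [div_add_one hν.ne']
    gcongr
    nlinarith
  have key := h r (s ^ 2) β τ lo (lo + 2 * √(2 * s ^ 2) * b) a βb (1 + ν) ν
    (4 * √(2 * s ^ 2) * b) (4 * s / c) S N hr hr1 (by positivity)
    (by
      rw [← hμd]
      nlinarith [mul_pos hμ hb0])
    hlo hhi ha0 hβ0 hω (by linarith) (by linarith) (by nlinarith) (by positivity)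
    (by
      have h1 : βb / a ^ 2 ≤ s ^ 2 / c ^ 2 := by
        rw [div_le_iff₀ (by positivity)]
        refine hβ.trans ?_
        calc s ^ 2 * a * b / c ^ 2 ≤ s ^ 2 * a * a / c ^ 2 := by gcongr
          _ = _ := by ring
      have h2 : s ^ 2 / a ≤ s ^ 2 / c ^ 2 := by gcongr
      have h3 : (4 * s / c) ^ 2 = 16 * (s ^ 2 / c ^ 2) := by ring
      linarith)
    (by
      rw [← hμd]
      have h1 : μ * b ≤ 2 * s * x ^ 2 := by gcongr
      have h2 : 4 * s / c ≤ 4 * s := div_le_self (by positivity) hc1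
      have h3 : 2 * (4 * μ * b) + 2 * (4 * s / c) ≤ ν := by nlinarith
      have h4 : 0 ≤ 2 * (4 * μ * b) + 2 * (4 * s / c) := by positivity
      nlinarith)
    hN0 hS1
  refine key.mono ?_
  rw [← hμd, add_sub_cancel_left, add_sub_cancel_left, add_div, add_div, add_div, add_div]
  have t1 := termA_UpBase hν hν1 hx0 hb hμ hN2
  have t2 := termB_UpBase hν hν1 hx0 hb ha0 (show 0 < c ^ 2 by positivity)
    (show 0 < s ^ 2 by positivity) hμ hμ2 hβ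
  have t3 := termC_UpBase hν hx0 hb hs hμl hc hN3
  have t4 := termD_UpBase (T := 8 * (1 + 2 * S)) hx0 hb hs hμl ha1
    (hsd ▸ pow_UpBase hν hN1) (by positivity)
  have t5 : 12 / S = η / 4 := by
    rw [hS]
    field_simp
    ring
  have t6 : 2 / x + 2 / x + 8 * (1 + 2 * S) / x ≤ η / 2 := by
    rw [← add_div, ← add_div, div_le_iff₀ hx0]
    have := (div_le_iff₀ hη).1 hx3
    linarith
  have t7 : 24 / (ν * c) = 3 * η / 25 := by
    rw [hcd]
    field_simp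
    ring
  linarith

end Pool.Agent.MP_66a317_pr.Stair
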