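import Pool.Agent.Mg.F66a317.Gad8f3f

open MeasureTheory Set Filter
open scoped ENNReal

namespace Pool.Agent.MP_66a317_pr.Stair

open Fast

theorem tail_Main (θ : ℕ → ℝ) (h0 : ∀ j, 0 ≤ θ j) (hh : ∀ j, θ (j + 1) ≤ θ j / 2) (k N : ℕ) :
    0 ≤ ∏ i ∈ Finset.range N, (1 - min 1 (θ (k + i)) / 2) ∧
    ∏ i ∈ Finset.range N, (1 - min 1 (θ (k + i)) / 2) ≤ 1 ∧
    1 - θ k + θ (k + N) ≤ ∏ i ∈ Finset.range N, (1 - min 1 (θ (k + i)) / 2) := by
  induction N with
  | zero => simp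
  | succ N ih =>
    obtain ⟨i1, i2, i3⟩ := ih
    rw [Finset.prod_range_succ]
    have a1 := min_le_left 1 (θ (k + N))
    have a2 := min_le_right 1 (θ (k + N))
    have a3 : 0 ≤ min 1 (θ (k + N)) := le_min zero_le_one (h0 _)
    have a4 := hh (k + N)
    refine ⟨mul_nonneg i1 (by linarith), by nlinarith, ?_⟩
    rw [← add_assoc]
    nlinarith

theorem split_Main (θ : ℕ → ℝ) (n : ℕ) (hn : ∀ j, n ≤ j → θ j = 0) (k : ℕ)
    (hk : ∀ j, j < k → 1 ≤ θ j) :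
    ∏' j : ℕ, (1 - min 1 (θ j) / 2) =
      (1 / 2) ^ k * ∏ i ∈ Finset.range n, (1 - min 1 (θ (k + i)) / 2) := by
  rw [tprod_eq_prod (s := Finset.range (k + n)), Finset.prod_range_add]
  · congr 1
    rw [Finset.prod_congr rfl (g := fun _ => (1 / 2 : ℝ)), Finset.prod_const, Finset.card_range]
    intro j hj
    rw [min_eq_left (hk j (Finset.mem_range.1 hj))]
    norm_num
  · intro j hj
    rw [hn j (by simp at hj; omega)]
    simp

theorem prodA_Main (θ : ℕ → ℝ) (h0 : ∀ j, 0 ≤ θ j) (hh : ∀ j, θ (j + 1) ≤ θ j / 2) (n : ℕ)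
    (hn : ∀ j, n ≤ j → θ j = 0) (k : ℕ) (hk : ∀ j, j < k → 1 ≤ θ j) :
    0 ≤ ∏' j : ℕ, (1 - min 1 (θ j) / 2) ∧ ∏' j : ℕ, (1 - min 1 (θ j) / 2) ≤ (1 / 2) ^ k := by
  rw [split_Main θ n hn k hk]
  obtain ⟨a1, a2, _⟩ := tail_Main θ h0 hh k n
  have : (0 : ℝ) ≤ (1 / 2) ^ k := by positivity
  exact ⟨mul_nonneg this a1, by nlinarith⟩

theorem prodB_Main (θ : ℕ → ℝ) (h0 : ∀ j, 0 ≤ θ j) (hh : ∀ j, θ (j + 1) ≤ θ j / 2) (n : ℕ)
    (hn : ∀ j, n ≤ j → θ j = 0) (k : ℕ) (hk : ∀ j, j < k → 1 ≤ θ j) (h1 : θ k ≤ 1) :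
    (1 / 2) ^ k * (1 - θ k / 2) - θ (k + 1) ≤ ∏' j : ℕ, (1 - min 1 (θ j) / 2) ∧
      ∏' j : ℕ, (1 - min 1 (θ j) / 2) ≤ (1 / 2) ^ k * (1 - θ k / 2) := by
  rw [split_Main θ (n + 1) (fun j hj => hn j (by omega)) k hk, Finset.prod_range_succ',
    add_zero, min_eq_right h1]
  have e : ∏ i ∈ Finset.range n, (1 - min 1 (θ (k + (i + 1))) / 2) =
      ∏ i ∈ Finset.range n, (1 - min 1 (θ (k + 1 + i)) / 2) :=
    Finset.prod_congr rfl fun i _ => by rw [show k + (i + 1) = k + 1 + i by ring]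
  rw [e]
  obtain ⟨a1, a2, a3⟩ := tail_Main θ h0 hh (k + 1) n
  set R := ∏ i ∈ Finset.range n, (1 - min 1 (θ (k + 1 + i)) / 2)
  have b1 : (0 : ℝ) ≤ (1 / 2) ^ k := by positivity
  have b2 : ((1 : ℝ) / 2) ^ k ≤ 1 := pow_le_one₀ (by norm_num) (by norm_num)
  have b3 := h0 k
  have b4 := h0 (k + 1 + n)
  have b5 := h0 (k + 1)
  have b6 : 0 ≤ (1 / 2 : ℝ) ^ k * (1 - θ k / 2) := mul_nonneg b1 (by linarith)
  have b7 : (1 / 2 : ℝ) ^ k * (1 - θ k / 2) ≤ 1 := by nlinarith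
  constructor
  · nlinarith [mul_le_mul_of_nonneg_left (show 1 - θ (k + 1) ≤ R by linarith) b6]
  · nlinarith [mul_le_mul_of_nonneg_left a2 b6]

theorem stair_stmt (hS : ScaleStmt) (hU : UpLevelStmt) (hL : LowLevelStmt) (hV : LevStmt) :
    StairStmt := by
  intro η0 hη0
  set η := min η0 1 / 4 with hηd
  have hη : 0 < η := by
    have : 0 < min η0 1 := lt_min hη0 one_pos
    positivity
  have hη1 : η ≤ 1 / 4 := by
    have := min_le_right η0 1
    linarith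
  have hη2 : 4 * η ≤ η0 := by
    have := min_le_left η0 1
    linarith
  obtain ⟨m, hm⟩ := exists_pow_lt_of_lt_one hη (show (1 / 2 : ℝ) < 1 by norm_num)
  have hev : ∀ᶠ L : ℝ in atTop, 0 < L ∧ ∀ k ∈ Finset.range (m + 1),
      (∀ θ : ℝ, η ≤ θ → θ ≤ 1 →
        value (1 - Real.exp (-L) * (lev L k / θ) ^ 2) (1 - Real.exp (-L)) (-1) ≤
          ENNReal.ofReal (1 - (1 / 2) ^ k * (1 - θ / 2) + η)) ∧
      (∀ θ : ℝ, η ≤ θ → θ ≤ 1 → ENNReal.ofReal (1 - (1 / 2) ^ k * (1 - θ / 2) - η) ≤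
        value (1 - Real.exp (-L) * (lev L k / θ) ^ 2) (1 - Real.exp (-L)) (-1)) ∧
      lev L (k + 1) ≤ η * lev L k := by
    refine (eventually_gt_atTop 0).and ((eventually_all_finset _).2 fun k _ => ?_)
    exact (hU k η hη (by linarith)).and ((hL k η hη (by linarith)).and (hV.2.2.2.2 k η hη))
  obtain ⟨L0, hL0⟩ := eventually_atTop.1 hev
  refine ⟨min (Real.exp (-L0)) 1, lt_min (Real.exp_pos _) one_pos, ?_⟩
  intro r w A hr hrA hw hw1
  have hA : 0 < ‖A‖ := hr.trans hrA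
  have hA0 : A ≠ 0 := norm_pos_iff.1 hA
  have hε : 0 < 1 - w := by linarith
  have hw0 : 0 ≤ w := by
    have := min_le_right (Real.exp (-L0)) 1
    linarith
  set L := Real.log (1 / (1 - w)) with hLd
  have hexp : Real.exp (-L) = 1 - w := by
    rw [hLd, one_div, Real.log_inv, neg_neg, Real.exp_log hε]
  have hLL : L0 ≤ L := by
    have h1 := min_le_left (Real.exp (-L0)) 1
    have h2 : Real.exp (-L) ≤ Real.exp (-L0) := by linarith
    have := Real.exp_le_exp.1 h2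
    linarith
  obtain ⟨hLpos, hall⟩ := hL0 L hLL
  set δ := 1 - r / ‖A‖ with hδd
  have hδ : 0 < δ := by
    have : r / ‖A‖ < 1 := (div_lt_one hA).2 hrA
    linarith
  have hwe : 1 - Real.exp (-L) = w := by linarith
  rw [hwe, hexp] at hall
  have hv : value r w A = value (1 - δ) w (-1) := by
    rw [hS.1 r w A hA0, hδd, sub_sub_cancel]
  rw [hv]
  set s := √((1 - w) / δ) with hsd
  have hs : 0 < s := Real.sqrt_pos.2 (div_pos hε hδ)
  have hs2 : s ^ 2 = (1 - w) / δ := Real.sq_sqrt (div_pos hε hδ).le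
  have hδs : δ = (1 - w) * (1 / s) ^ 2 := by
    rw [div_pow, hs2]
    field_simp
  set θ : ℕ → ℝ := fun k => lev L k * s with hθd
  have hx0 : ∀ k, 0 ≤ lev L k := fun k => (hV.2.2.1 L k hLpos.le).1
  have h0 : ∀ j, 0 ≤ θ j := fun j => mul_nonneg (hx0 j) hs.le
  have hh : ∀ j, θ (j + 1) ≤ θ j / 2 := fun j => by
    have := mul_le_mul_of_nonneg_right (hV.2.2.1 L j hLpos.le).2.2 hs.le
    simp only [hθd]
    linarith
  obtain ⟨n, hn'⟩ := hV.2.2.2.1 L
  have hn : ∀ j, n ≤ j → θ j = 0 := fun j hj => by simp [hθd, hn' j hj]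
  change |(value (1 - δ) w (-1)).toReal - (1 - ∏' k : ℕ, (1 - min 1 (θ k) / 2))| ≤ η0
  have hfin : value (1 - δ) w (-1) ≠ ⊤ :=
    ((value_le_one' (1 - δ) hw0 (-1)).trans_lt ENNReal.one_lt_top).ne
  have hle1 : (value (1 - δ) w (-1)).toReal ≤ 1 :=
    ENNReal.toReal_le_of_le_ofReal zero_le_one (by simpa using value_le_one' (1 - δ) hw0 (-1))
  have hge0 : 0 ≤ (value (1 - δ) w (-1)).toReal := ENNReal.toReal_nonneg
  have hlow : ∀ k, k ≤ m → ∀ t, η ≤ t → t ≤ 1 → t ≤ θ k →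
      1 - (1 / 2) ^ k * (1 - t / 2) - η ≤ (value (1 - δ) w (-1)).toReal := by
    intro k hk t ht ht1 htk
    refine (ENNReal.ofReal_le_iff_le_toReal hfin).1
      (((hall k (Finset.mem_range.2 (by omega))).2.1 t ht ht1).trans (hS.2 _ _ w (-1) ?_))
    have ht0 : 0 < t := hη.trans_le ht
    have a1 : 1 / s ≤ lev L k / t := by
      rw [div_le_div_iff₀ hs ht0]
      simpa [hθd] using htk
    have a2 : (1 / s) ^ 2 ≤ (lev L k / t) ^ 2 := by gcongr
    have a3 := mul_le_mul_of_nonneg_left a2 hε.le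
    linarith
  have hup : ∀ k, k ≤ m → ∀ t, η ≤ t → t ≤ 1 → θ k ≤ t →
      (value (1 - δ) w (-1)).toReal ≤ 1 - (1 / 2) ^ k * (1 - t / 2) + η := by
    intro k hk t ht ht1 htk
    have b2 : ((1 : ℝ) / 2) ^ k ≤ 1 := pow_le_one₀ (by norm_num) (by norm_num)
    have b1 : (0 : ℝ) ≤ (1 / 2) ^ k := by positivity
    refine ENNReal.toReal_le_of_le_ofReal (by nlinarith)
      ((hS.2 _ _ w (-1) ?_).trans ((hall k (Finset.mem_range.2 (by omega))).1 t ht ht1))
    have ht0 : 0 < t := hη.trans_le ht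
    have a1 : lev L k / t ≤ 1 / s := by
      rw [div_le_div_iff₀ ht0 hs]
      simpa [hθd] using htk
    have a0 : 0 ≤ lev L k / t := div_nonneg (hx0 k) ht0.le
    have a2 : (lev L k / t) ^ 2 ≤ (1 / s) ^ 2 := by gcongr
    have a3 := mul_le_mul_of_nonneg_left a2 hε.le
    linarith
  rw [abs_le]
  by_cases hc : ∃ k, k ≤ m ∧ θ k < 1
  · classical
    set k := Nat.find hc with hkd
    obtain ⟨hkm, hk1⟩ : k ≤ m ∧ θ k < 1 := Nat.find_spec hc
    have hk : ∀ j, j < k → 1 ≤ θ j := fun j hj => by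
      by_contra hcon
      exact Nat.find_min hc hj ⟨by omega, not_le.1 hcon⟩
    obtain ⟨p1, p2⟩ := prodB_Main θ h0 hh n hn k hk hk1.le
    have p3 : θ (k + 1) ≤ η := by
      have a1 := mul_le_mul_of_nonneg_right (hall k (Finset.mem_range.2 (by omega))).2.2 hs.le
      have a2 : η * θ k ≤ η := by nlinarith
      simp only [hθd] at a2 ⊢
      nlinarith
    have b2 : ((1 : ℝ) / 2) ^ k ≤ 1 := pow_le_one₀ (by norm_num) (by norm_num)
    have b1 : (0 : ℝ) ≤ (1 / 2) ^ k := by positivity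
    have b3 := h0 k
    rcases le_total η (θ k) with h1 | h1
    · have a1 := hlow k hkm (θ k) h1 hk1.le le_rfl
      have a2 := hup k hkm (θ k) h1 hk1.le le_rfl
      constructor <;> linarith
    · have a2 := hup k hkm η le_rfl (by linarith) h1
      have a1 : 1 - (1 / 2) ^ k - η ≤ (value (1 - δ) w (-1)).toReal := by
        rcases Nat.eq_zero_or_pos k with hz | hz
        · rw [hz]
          simp only [pow_zero]
          linarith
        · obtain ⟨j, hj⟩ : ∃ j, k = j + 1 := ⟨k - 1, by omega⟩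
          have a3 := hlow j (by omega) 1 (by linarith) le_rfl (hk j (by omega))
          rw [hj, pow_succ]
          linarith
      constructor <;> nlinarith
  · push Not at hc
    obtain ⟨p1, p2⟩ := prodA_Main θ h0 hh n hn m fun j hj => hc j hj.le
    have a1 := hlow m le_rfl 1 (by linarith) le_rfl (hc m le_rfl)
    have b1 : (0 : ℝ) ≤ (1 / 2) ^ m := by positivity
    constructor <;> linarith

end Pool.Agent.MP_66a317_pr.Stair
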