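import Pool.Agent.Mg.F66a317.Gad8f3f

section

open MeasureTheory Set Filter
open scoped ENNReal
namespace Pool.Agent.MP_66a317_pr.Fast

theorem d0_Low (A : ℝ) : ∃ d : ℝ, 1 ≤ d ∧ 2 * (A * d / Real.log 2) ^ 2 ≤ Real.exp d - 1 := by
  obtain ⟨B, hB⟩ : ∃ B, B = A / Real.log 2 := ⟨_, rfl⟩
  obtain ⟨d, hd⟩ : ∃ d, d = 12 * B ^ 2 + 1 := ⟨_, rfl⟩
  have h1 : 1 ≤ d := by rw [hd]; nlinarith [sq_nonneg B]
  refine ⟨d, h1, ?_⟩
  have h2 := Real.sum_le_exp_of_nonneg (x := d) (by linarith) 4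
  simp only [Finset.sum_range_succ, Finset.sum_range_zero, Nat.factorial] at h2
  norm_num at h2
  rw [mul_div_right_comm, ← hB, mul_pow]
  have h3 : 12 * B ^ 2 * d ^ 2 ≤ d * d ^ 2 :=
    mul_le_mul_of_nonneg_right (by linarith) (sq_nonneg d)
  nlinarith [sq_nonneg d]

theorem cos_Low {ν x δ : ℝ} (hν : 0 < ν) (hν4 : ν ≤ 1 / 4) (x0 : 0 ≤ x) (x1 : x ≤ ν) (hδ : 0 ≤ δ)
    (x2 : x ^ 2 = 2 * (1 + ν) ^ 2 * δ) : Real.cos x ≤ 1 - δ := by
  have x3 : x ^ 2 ≤ ν := by nlinarith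
  refine (cos_le_of_abs_le_one (by rw [abs_of_nonneg x0]; linarith)).trans ?_
  have x4 : x ^ 4 ≤ x ^ 2 * ν := by
    rw [show x ^ 4 = x ^ 2 * x ^ 2 by ring]
    exact mul_le_mul_of_nonneg_left x3 (sq_nonneg x)
  have x5 : 0 ≤ δ * ((1 + ν) ^ 2 * (1 - 5 / 48 * ν) - 1) := mul_nonneg hδ (by
    nlinarith [mul_le_mul_of_nonneg_left hν4 (sq_nonneg ν), sq_nonneg ν])
  rw [x2] at x4 ⊢
  linarith

theorem core_Low (h : LowCoreStmt) {ν y s v m c K A d : ℝ} (hν : 0 < ν) (hν4 : ν ≤ 1 / 4)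
    (hy : 1 ≤ y) (hs : 0 < s) (hv : 1 ≤ v) (hm : m ^ 2 = 2) (hm0 : 0 < m) (hc : 1 < c) (hK : 0 < K)
    (hA : K + c ≤ A) (hd : 1 ≤ d) (hE : 2 * (A * d / Real.log 2) ^ 2 ≤ Real.exp d - 1)
    (hAd : A * d ≤ ν * y / 2) (hlog : c * (1 - ν) * Real.log v = (1 + 2 * ν) * y / 2)
    (hZ : 6 * Real.exp d * (y ^ 3 * (s * v)) ≤ ν) :
    ENNReal.ofReal (1 / (2 * c) - (c + 2) / (4 * K)) ≤
      value (1 - s ^ 2 * y ^ 2 / 4) (1 - s ^ 2) (-1) := by
  have hE1 : 1 ≤ Real.exp d := Real.one_le_exp (by linarith)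
  have hl : 0 < Real.log 2 := Real.log_pos one_lt_two
  have hl1 : Real.log 2 ≤ 1 := by linarith [Real.log_two_lt_d9]
  have hy0 : 0 < y := by linarith
  have hv0 : 0 < v := by linarith
  have hn : 0 < 1 - ν := by linarith
  have hm2 : m ≤ 2 := by nlinarith
  have hZ0 : 0 < y ^ 3 * (s * v) := by positivity
  have hZ1 : 6 * (y ^ 3 * (s * v)) ≤ ν := by nlinarith
  have hw : s * y ≤ y ^ 3 * (s * v) := by
    have e : y ^ 3 * (s * v) = s * y * (y ^ 2 * v) := by ring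
    rw [e]
    exact le_mul_of_one_le_right (by positivity)
      (one_le_mul_of_one_le_of_one_le (one_le_pow₀ hy) hv)
  have hsw : s ≤ s * y := le_mul_of_one_le_right hs.le hy
  have hw0 : 0 < s * y := by positivity
  have hs1 : s ≤ 1 / 24 := by linarith
  have hss : s ^ 2 ≤ s := by nlinarith
  have hss0 : 0 < s ^ 2 := by positivity
  have he : (1 - ν) * s ^ 2 ≤ s ^ 2 := mul_le_of_le_one_left hss0.le (by linarith)
  have hκ : ((1 - ν) * (m * s)) ^ 2 ≤ 2 * ((1 - ν) * s ^ 2) - ((1 - ν) * s ^ 2) ^ 2 := by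
    have e : 0 ≤ (1 - ν) * s ^ 2 * (2 * ν - (1 - ν) * s ^ 2) :=
      mul_nonneg (by positivity) (by linarith)
    rw [mul_pow, mul_pow m, hm]
    nlinarith
  have hκ1 : (1 - ν) * (m * s) ≤ m * s := mul_le_of_le_one_left (by positivity) (by linarith)
  have hKd : K * d ≤ ν * y / 2 :=
    (mul_le_mul_of_nonneg_right (by linarith) (by linarith)).trans hAd
  have hcd : (K + c) * d ≤ A * d := mul_le_mul_of_nonneg_right hA (by linarith)
  have hcd0 : 0 ≤ (K + c) * d := by positivity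
  have k1 : (1 - ν) * (m * s) * K * d ≤ ν * (m * (s * y)) / 2 := by
    calc (1 - ν) * (m * s) * K * d = (1 - ν) * (m * s) * (K * d) := by ring
      _ ≤ m * s * (ν * y / 2) := mul_le_mul hκ1 hKd (by positivity) (by positivity)
      _ = _ := by ring
  have k2 : (1 - ν) * (m * s) * (K + c) * d ≤ ν * (m * (s * y)) / 2 := by
    calc (1 - ν) * (m * s) * (K + c) * d = (1 - ν) * (m * s) * ((K + c) * d) := by ring
      _ ≤ m * s * (ν * y / 2) := mul_le_mul hκ1 (hcd.trans hAd) hcd0 (by positivity)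
      _ = _ := by ring
  have k3 : m * (s * y) ≤ 2 * (s * y) := mul_le_mul_of_nonneg_right hm2 hw0.le
  have k4 : ν * (m * (s * y)) ≤ 1 / 4 * (m * (s * y)) :=
    mul_le_mul_of_nonneg_right hν4 (by positivity)
  have k5 : (1 + ν) * (m * (s * y)) / 2 ≤ 5 / 4 * (s * y) := by linarith
  have k6 : 0 ≤ (1 + ν) * (m * (s * y)) / 2 := by positivity
  have ht : 0 < y ^ 2 / (4 * ν) := by positivity
  refine h (s ^ 2) (s ^ 2 * y ^ 2 / 4) ((1 - ν) * s ^ 2) ((1 - ν) * (m * s)) c K d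
    (y ^ 2 / (4 * ν)) (y ^ 2 / (4 * ν) * v) ((1 + ν) * (m * (s * y)) / 2) (by positivity)
    (by positivity) hκ hc hK (by linarith) ?_ ?_ hss0 (by linarith) (by positivity) ?_ ht
    (le_mul_of_one_le_right ht.le hv) (le_of_eq ?_) k6 ?_ ?_ ?_ ?_ ?_
  · have := mul_le_mul_of_nonneg_left (he.trans (hss.trans (hsw.trans hw))) (Real.exp_pos d).le
    linarith
  · calc ((1 - ν) * (m * s) * (K + c) * d / Real.log 2) ^ 2
        = ((1 - ν) * (m * s)) ^ 2 * ((K + c) * d / Real.log 2) ^ 2 := by ring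
      _ ≤ 2 * ((1 - ν) * s ^ 2) * (A * d / Real.log 2) ^ 2 :=
        mul_le_mul (by linarith [sq_nonneg ((1 - ν) * s ^ 2)]) (by gcongr) (sq_nonneg _)
          (by positivity)
      _ = 2 * (A * d / Real.log 2) ^ 2 * ((1 - ν) * s ^ 2) := by ring
      _ ≤ _ := mul_le_mul_of_nonneg_right hE (by positivity)
  · have := pow_le_one₀ (n := 2) hw0.le (by linarith)
    rw [mul_pow] at this
    linarith
  · field_simp
    ring
  · linarith [Real.pi_gt_three]
  · refine cos_Low hν hν4 k6 (by linarith) (by positivity) ?_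
    rw [div_pow, mul_pow, mul_pow m, hm]
    ring
  · rw [mul_div_cancel_left₀ _ ht.ne']
    have e : c * ((1 - ν) * (m * s)) * Real.log v = m * s * ((1 + 2 * ν) * y / 2) := by
      rw [← hlog]
      ring
    rw [e]
    linarith
  · calc _ ≤ y ^ 2 / (4 * ν) * v * (2 * (s * y)) :=
        mul_le_mul_of_nonneg_left (by linarith) (by positivity)
      _ = 2 * (y ^ 3 * (s * v)) / (4 * ν) := by ring
      _ ≤ 1 / 4 := by
        rw [div_le_iff₀ (by positivity)]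
        linarith
  · calc _ ≤ Real.exp d * (s * y) * (y ^ 2 / (4 * ν) * v) :=
        mul_le_mul_of_nonneg_right (mul_le_mul_of_nonneg_left (he.trans (hss.trans hsw))
          (Real.exp_pos d).le) (by positivity)
      _ = Real.exp d * (y ^ 3 * (s * v)) / (4 * ν) := by ring
      _ ≤ 1 / 4 := by
        rw [div_le_iff₀ (by positivity)]
        linarith

theorem ev_Low {a C : ℝ} (ha : 0 < a) (hC : 0 < C) :
    ∀ᶠ L : ℝ in atTop, L ^ 3 * Real.exp (-(a * L)) ≤ C := by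
  have h := (Real.tendsto_pow_mul_exp_neg_atTop_nhds_zero 3).comp
    (tendsto_id.const_mul_atTop ha)
  filter_upwards [h.eventually (ge_mem_nhds (mul_pos (pow_pos ha 3) hC))] with L hL
  simp only [Function.comp, id] at hL
  rw [mul_pow, mul_assoc] at hL
  exact le_of_mul_le_mul_left hL (by positivity)

theorem low_stmt (h : LowCoreStmt) : LowStmt := by
  intro η hη hη1
  obtain ⟨ν, rfl⟩ : ∃ ν, η = 4 * ν := ⟨η / 4, by ring⟩
  have hν : 0 < ν := by linarith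
  have hn : 0 < 1 - ν := by linarith
  obtain ⟨d, hd, hE⟩ := d0_Low (5 / (4 * ν) ^ 2 + 3 / (4 * ν))
  filter_upwards [ev_Low (a := ν / 2) (C := (4 * ν) ^ 3 * ν / (6 * Real.exp d)) (by positivity)
    (by positivity), eventually_ge_atTop 1,
    eventually_ge_atTop ((5 / (4 * ν) ^ 2 + 3 / (4 * ν)) * d / (ν / 2))] with L h1 h2 h3 θ t1 t2
  have t0 : 0 < θ := by linarith
  have hy : L ≤ L / θ := le_div_self (by linarith) t0 t2
  have hc : (1 + 2 * ν) / ((1 - ν) ^ 2 * θ) ≤ 3 / (4 * ν) := by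
    rw [div_le_div_iff₀ (by positivity) (by positivity)]
    have e1 : (1 + 2 * ν) ≤ 3 * (1 - ν) ^ 2 := by nlinarith
    calc (1 + 2 * ν) * (4 * ν) ≤ 3 * (1 - ν) ^ 2 * θ :=
        mul_le_mul e1 t1 (by positivity) (by positivity)
      _ = _ := by ring
  have key := core_Low h (ν := ν) (y := L / θ) (s := Real.exp (-L / 2))
    (v := Real.exp ((1 - ν) * L / 2)) (m := √2) (c := (1 + 2 * ν) / ((1 - ν) ^ 2 * θ))
    (K := 5 / (4 * ν) ^ 2) (d := d) hν (by linarith) (h2.trans hy) (Real.exp_pos _)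
    (Real.one_le_exp (by positivity)) (Real.sq_sqrt zero_le_two) (by positivity)
    (by
      rw [one_lt_div (by positivity)]
      have : (1 - ν) ^ 2 * θ ≤ 1 := mul_le_one₀ (by nlinarith) t0.le t2
      linarith)
    (by positivity) (add_le_add_right hc _) hd hE
    (by
      rw [div_le_iff₀ (by positivity)] at h3
      linarith [mul_le_mul_of_nonneg_left hy hν.le])
    (by
      rw [Real.log_exp]
      field_simp)
    (by
      have e1 : Real.exp (-L / 2) * Real.exp ((1 - ν) * L / 2) = Real.exp (-(ν / 2 * L)) := by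
        rw [← Real.exp_add]
        congr 1
        ring
      have e2 : L / θ ≤ L / (4 * ν) := by gcongr
      rw [e1]
      rw [le_div_iff₀ (by positivity)] at h1
      calc _ ≤ 6 * Real.exp d * ((L / (4 * ν)) ^ 3 * Real.exp (-(ν / 2 * L))) := by gcongr
        _ = L ^ 3 * Real.exp (-(ν / 2 * L)) * (6 * Real.exp d) / (4 * ν) ^ 3 := by ring
        _ ≤ ν := by
          rw [div_le_iff₀ (by positivity)]
          linarith)
  have e1 : Real.exp (-L / 2) ^ 2 = Real.exp (-L) := by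
    rw [← Real.exp_nat_mul]
    congr 1
    push_cast
    ring
  have e2 : Real.exp (-L) * (L / θ) ^ 2 / 4 = Real.exp (-L) * L ^ 2 / (4 * θ ^ 2) := by
    field_simp
  rw [e1, e2] at key
  refine (ENNReal.ofReal_le_ofReal ?_).trans key
  have f1 : θ / 2 - 2 * ν ≤ 1 / (2 * ((1 + 2 * ν) / ((1 - ν) ^ 2 * θ))) := by
    rw [show 1 / (2 * ((1 + 2 * ν) / ((1 - ν) ^ 2 * θ))) = (1 - ν) ^ 2 * θ / (2 * (1 + 2 * ν)) by
      field_simp, le_div_iff₀ (by positivity)]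
    nlinarith [mul_pos hν t0, mul_nonneg (sq_nonneg ν) t0.le,
      mul_nonneg hν.le (sub_nonneg.2 t2)]
  have f2 : ((1 + 2 * ν) / ((1 - ν) ^ 2 * θ) + 2) / (4 * (5 / (4 * ν) ^ 2)) ≤ ν := by
    rw [div_le_iff₀ (by positivity)]
    have g1 : ν * (4 * (5 / (4 * ν) ^ 2)) = 3 / (4 * ν) + 2 / (4 * ν) := by
      field_simp
      ring
    have g2 : 2 ≤ 2 / (4 * ν) := le_div_self zero_le_two hη hη1
    linarith
  linarith

end Pool.Agent.MP_66a317_pr.Fast

end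

section

open MeasureTheory Set Filter
open scoped ENNReal
namespace Pool.Agent.MP_66a317_pr.Stair
open Fast

theorem barrier_StageAsym {ν r w x : ℝ} (hν : 0 < ν) (hν8 : ν ≤ 1 / 8) (hr : 1 - ν / 4 ≤ r)
    (hw : 0 ≤ w) (hwx : w ≤ x) (hx : x ≤ ν) (hx2 : 2 * (1 + 2 * ν) ^ 2 * w ^ 2 ≤ x ^ 2) :
    (r + w ^ 2) * Real.cos x + ν / 4 * w * Real.sin x ≤ r := by
  have x0 : 0 ≤ x := hw.trans hwx
  have x3 : x ^ 2 ≤ ν := by nlinarith
  have c1 := cos_le_of_abs_le_one (x := x) (by rw [abs_of_nonneg x0]; linarith)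
  have x4 : x ^ 4 ≤ x ^ 2 * ν := by
    rw [show x ^ 4 = x ^ 2 * x ^ 2 by ring]
    exact mul_le_mul_of_nonneg_left x3 (sq_nonneg x)
  have q0 := sq_nonneg x
  have qν : 0 ≤ x ^ 2 * ν := by positivity
  have c2 : x ^ 2 / 2 * (1 - ν / 4) ≤ 1 - Real.cos x := by linarith
  have c3 : (1 - ν / 4) * (x ^ 2 / 2 * (1 - ν / 4)) ≤ r * (1 - Real.cos x) :=
    mul_le_mul hr c2 (mul_nonneg (by positivity) (by linarith)) (by linarith)
  have c4 : w ^ 2 * Real.cos x ≤ w ^ 2 := mul_le_of_le_one_right (sq_nonneg w) (Real.cos_le_one x)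
  have c5 : ν / 4 * w * Real.sin x ≤ ν / 4 * x * x :=
    (mul_le_mul_of_nonneg_left (Real.sin_le x0) (by positivity)).trans
      (mul_le_mul_of_nonneg_right (mul_le_mul_of_nonneg_left hwx (by positivity)) x0)
  have c6 : w ^ 2 ≤ (1 - 2 * ν) * (x ^ 2 / 2) := by
    have e1 : 1 ≤ (1 - 2 * ν) * (1 + 2 * ν) ^ 2 := by
      nlinarith [mul_le_mul_of_nonneg_left hν8 (sq_nonneg ν), mul_le_mul_of_nonneg_left hν8 hν.le]
    calc w ^ 2 ≤ (1 - 2 * ν) * (1 + 2 * ν) ^ 2 * w ^ 2 := le_mul_of_one_le_left (sq_nonneg w) e1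
      _ = (1 - 2 * ν) * (2 * (1 + 2 * ν) ^ 2 * w ^ 2 / 2) := by ring
      _ ≤ _ := mul_le_mul_of_nonneg_left (by linarith) (by linarith)
  have c7 : 0 ≤ x ^ 2 * ν * ν := by positivity
  nlinarith

theorem core_StageAsym (h : StageCoreStmt) {ν r s b m c K A d C L : ℝ} {N : ℕ} (hν : 0 < ν)
    (hν8 : ν ≤ 1 / 8) (hr : 1 - ν / 4 ≤ r) (hb : 1 ≤ b) (hs : 0 < s) (hm : m ^ 2 = 2)
    (hm0 : 0 < m) (hc : 1 < c) (hK : 0 < K) (hA : K + c ≤ A) (hd : 1 ≤ d)
    (hE : 2 * (A * d / Real.log 2) ^ 2 ≤ Real.exp d - 1) (hAd : A * d ≤ ν * b)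
    (hL : (1 + 3 * ν) * b = c * (1 - ν) * L) (hC1 : 100 ≤ ν * C) (hC2 : 4 * Real.exp d ≤ C)
    (hZ : s * b * (C * b ^ 2 * Real.exp L) * C ≤ 1) (hN : 0 < N) :
    ∃ T1 : ℝ, 0 ≤ T1 ∧ T1 ≤ C * b ^ 2 * Real.exp L ∧
      Stage r (1 - s ^ 2) (cone r (s ^ 2 * b ^ 2) (s * b / (4 / ν))) T1
        (1 / (2 * c) - (c + 2) / (4 * K) - 2 / N)
        (C * s ^ 2 * b ^ 2 * (C * b ^ 2 * Real.exp L)) := by
  have hE1 : 1 ≤ Real.exp d := Real.one_le_exp (by linarith)
  have hl : 0 < Real.log 2 := Real.log_pos one_lt_two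
  have hl1 : Real.log 2 ≤ 1 := by linarith [Real.log_two_lt_d9]
  have hb0 : 0 < b := by linarith
  have hn : 0 < 1 - ν := by linarith
  have hm2 : m ≤ 3 / 2 := by nlinarith
  have hm1 : 1 ≤ m := by nlinarith
  have hC0 : 0 < C := by linarith
  have hC : 800 ≤ C := by nlinarith
  have hL0 : 0 ≤ L := by
    by_contra hneg
    have : c * (1 - ν) * L < 0 := mul_neg_of_pos_of_neg (by positivity) (not_le.1 hneg)
    have : 0 < (1 + 3 * ν) * b := by positivity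
    linarith
  have hX : 1 ≤ Real.exp L := Real.one_le_exp hL0
  obtain ⟨T, hT⟩ : ∃ T, T = C * b ^ 2 * Real.exp L := ⟨_, rfl⟩
  rw [← hT] at hZ ⊢
  have hT1 : 1 ≤ T := by
    rw [hT]
    exact one_le_mul_of_one_le_of_one_le
      (one_le_mul_of_one_le_of_one_le (by linarith) (one_le_pow₀ hb)) hX
  have hw0 : 0 < s * b := by positivity
  have hwC : s * b * C ≤ 1 :=
    (mul_le_mul_of_nonneg_right (le_mul_of_one_le_right hw0.le hT1) hC0.le).trans hZ
  have hwν : 100 * (s * b) ≤ ν := by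
    calc 100 * (s * b) ≤ ν * C * (s * b) := mul_le_mul_of_nonneg_right hC1 hw0.le
      _ = ν * (s * b * C) := by ring
      _ ≤ ν := mul_le_of_le_one_right hν.le hwC
  have hwT : 800 * (s * b * T) ≤ 1 := by
    have := mul_le_mul_of_nonneg_left hC (show 0 ≤ s * b * T by positivity)
    linarith
  have hsw : s ≤ s * b := le_mul_of_one_le_right hs.le hb
  have hss : s ^ 2 ≤ s := by nlinarith
  have hss0 : 0 < s ^ 2 := by positivity
  have he : (1 - ν) * s ^ 2 ≤ s ^ 2 := mul_le_of_le_one_left hss0.le (by linarith)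
  have hκ : ((1 - ν) * (m * s)) ^ 2 ≤ 2 * ((1 - ν) * s ^ 2) - ((1 - ν) * s ^ 2) ^ 2 := by
    have e : 0 ≤ (1 - ν) * s ^ 2 * (2 * ν - (1 - ν) * s ^ 2) :=
      mul_nonneg (by positivity) (by linarith)
    rw [mul_pow, mul_pow m, hm]
    nlinarith
  have hκ1 : (1 - ν) * (m * s) ≤ m * s := mul_le_of_le_one_left (by positivity) (by linarith)
  have hκ0 : 0 < (1 - ν) * (m * s) := by positivity
  have hKd : K * d ≤ ν * b :=
    (mul_le_mul_of_nonneg_right (by linarith) (by linarith)).trans hAd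
  have hcd : (K + c) * d ≤ A * d := mul_le_mul_of_nonneg_right hA (by linarith)
  have hcd0 : 0 ≤ (K + c) * d := by positivity
  have k1 : (1 - ν) * (m * s) * K * d ≤ ν * (m * (s * b)) := by
    calc (1 - ν) * (m * s) * K * d = (1 - ν) * (m * s) * (K * d) := by ring
      _ ≤ m * s * (ν * b) := mul_le_mul hκ1 hKd (by positivity) (by positivity)
      _ = _ := by ring
  have k2 : (1 - ν) * (m * s) * (K + c) * d ≤ ν * (m * (s * b)) := by
    calc (1 - ν) * (m * s) * (K + c) * d = (1 - ν) * (m * s) * ((K + c) * d) := by ring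
      _ ≤ m * s * (ν * b) := mul_le_mul hκ1 (hcd.trans hAd) hcd0 (by positivity)
      _ = _ := by ring
  have k10 : 0 ≤ (1 - ν) * (m * s) * K * d := by positivity
  have k20 : 0 ≤ (1 - ν) * (m * s) * (K + c) * d := by positivity
  have k3 : m * (s * b) ≤ 3 / 2 * (s * b) := mul_le_mul_of_nonneg_right hm2 hw0.le
  have k3' : s * b ≤ m * (s * b) := le_mul_of_one_le_left hw0.le hm1
  have k4 : ν * (m * (s * b)) ≤ 1 / 8 * (m * (s * b)) :=
    mul_le_mul_of_nonneg_right hν8 (by positivity)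
  have k40 : 0 ≤ ν * (m * (s * b)) := by positivity
  have k6 : 0 ≤ (1 + 2 * ν) * (m * (s * b)) := by positivity
  have ht : 0 < b ^ 2 / ν := by positivity
  obtain ⟨Φ, hΦ⟩ : ∃ Φ, Φ = (1 + 2 * ν) * (m * (s * b)) := ⟨_, rfl⟩
  obtain ⟨κ, hκd⟩ : ∃ κ, κ = (1 - ν) * (m * s) := ⟨_, rfl⟩
  have hΦ' : Φ = m * (s * b) + 2 * (ν * (m * (s * b))) := by rw [hΦ]; ring
  have hcκ : c * κ * L = m * (s * b) + 3 * (ν * (m * (s * b))) := by
    calc c * κ * L = m * s * (c * (1 - ν) * L) := by rw [hκd]; ring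
      _ = _ := by rw [← hL]; ring
  rw [← hκd] at hκ hκ0 k1 k2 k10 k20
  have hcκ0 : 0 < c * κ := by positivity
  obtain ⟨u, hu⟩ : ∃ u, u = (Φ + κ * K * d) / (c * κ) := ⟨_, rfl⟩
  have hu0 : 0 ≤ u := by rw [hu]; exact div_nonneg (by linarith) hcκ0.le
  have huL : u ≤ L := by
    rw [hu, div_le_iff₀ hcκ0]
    linarith
  have hT2 : b ^ 2 / ν * Real.exp u ≤ T := by
    rw [hT]
    refine mul_le_mul ?_ (Real.exp_le_exp.2 huL) (Real.exp_pos _).le (by positivity)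
    rw [div_le_iff₀ hν]
    nlinarith [sq_nonneg b]
  have hT0 : 0 < b ^ 2 / ν * Real.exp u := by positivity
  have hB : Φ + κ * K * d + κ * (K + c) * d ≤ 3 * (s * b) := by linarith
  have hB0 : 0 ≤ Φ + κ * K * d + κ * (K + c) * d := by linarith
  have hy : s * b / (4 / ν) = ν / 4 * (s * b) := by field_simp
  have hed : Real.exp d * ((1 - ν) * s ^ 2) ≤ C / 4 * s ^ 2 :=
    mul_le_mul (by linarith) he (by positivity) (by positivity)
  have hed2 : C / 4 * s ^ 2 ≤ C / 4 * (s * b) :=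
    mul_le_mul_of_nonneg_left (hss.trans hsw) (by positivity)
  refine ⟨b ^ 2 / ν * Real.exp u, hT0.le, hT2, Stage.mono (h (s ^ 2) r (s ^ 2 * b ^ 2)
    (s * b / (4 / ν)) ((1 - ν) * s ^ 2) κ c K d (b ^ 2 / ν) (b ^ 2 / ν * Real.exp u) Φ N
    (by positivity) hκ0.le hκ hc hK (by linarith) (by linarith) ?_ hss0 (by linarith)
    (by linarith) (by positivity) ht (le_mul_of_one_le_right ht.le (Real.one_le_exp hu0))
    (le_of_eq ?_) (by linarith) ?_ (by linarith [Real.pi_gt_three]) ?_ ?_ ?_ ?_ hN)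
    subset_rfl le_rfl ?_⟩
  · calc (κ * (K + c) * d / Real.log 2) ^ 2 = κ ^ 2 * ((K + c) * d / Real.log 2) ^ 2 := by ring
      _ ≤ 2 * ((1 - ν) * s ^ 2) * (A * d / Real.log 2) ^ 2 :=
        mul_le_mul (by linarith [sq_nonneg ((1 - ν) * s ^ 2)]) (by gcongr) (sq_nonneg _)
          (by positivity)
      _ = 2 * (A * d / Real.log 2) ^ 2 * ((1 - ν) * s ^ 2) := by ring
      _ ≤ _ := mul_le_mul_of_nonneg_right hE (by positivity)
  · field_simp
    ring
  · have := mul_le_mul_of_nonneg_right hν8 hw0.le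
    rw [hy]
    linarith
  · intro x x1 x2
    rw [hy, ← mul_pow]
    refine barrier_StageAsym hν hν8 hr hw0.le (by linarith) (by linarith) ?_
    calc 2 * (1 + 2 * ν) ^ 2 * (s * b) ^ 2 = Φ ^ 2 := by rw [hΦ, mul_pow (1 + 2 * ν), mul_pow m, hm]; ring
      _ ≤ x ^ 2 := pow_le_pow_left₀ (by linarith) x1 2
  · rw [mul_div_cancel_left₀ _ ht.ne', Real.log_exp, hu, mul_div_cancel₀ _ hcκ0.ne']
  · calc _ ≤ T * (3 * (s * b)) := mul_le_mul hT2 hB hB0 (by linarith)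
      _ ≤ 1 / 4 := by linarith
  · calc _ ≤ C / 4 * (s * b) * T := mul_le_mul (hed.trans hed2) hT2 hT0.le (by positivity)
      _ ≤ 1 / 4 := by linarith
  · have e1 : (Φ + κ * K * d + κ * (K + c) * d) ^ 2 ≤ (3 * (s * b)) ^ 2 :=
      pow_le_pow_left₀ hB0 hB 2
    have e2 : s ^ 2 ≤ s ^ 2 * b ^ 2 := le_mul_of_one_le_right hss0.le (one_le_pow₀ hb)
    have e3 : C / 4 * s ^ 2 ≤ C / 4 * (s ^ 2 * b ^ 2) :=
      mul_le_mul_of_nonneg_left e2 (by positivity)
    have e4 : 800 * (s ^ 2 * b ^ 2) ≤ C * (s ^ 2 * b ^ 2) :=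
      mul_le_mul_of_nonneg_right hC (by positivity)
    have e5 : 0 ≤ s ^ 2 * b ^ 2 := by positivity
    calc _ ≤ T * (C * (s ^ 2 * b ^ 2)) :=
        mul_le_mul hT2 (by
          rw [mul_pow 3, mul_pow s b] at e1
          linarith) (by positivity) (by linarith)
      _ = _ := by ring

theorem stageAsym_stmt (h : StageCoreStmt) : StageAsymStmt := by
  intro η θ0 hη hη1 hθ0
  obtain ⟨ν, rfl⟩ : ∃ ν, η = 8 * ν := ⟨η / 8, by ring⟩
  have hν : 0 < ν := by linarith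
  have hν8 : ν ≤ 1 / 8 := by linarith
  have hn : 0 < 1 - ν := by linarith
  obtain ⟨A, hA⟩ : ∃ A, A = (3 / θ0 + 2) / (8 * ν) + 3 / θ0 := ⟨_, rfl⟩
  have hA0 : 0 < A := by rw [hA]; positivity
  obtain ⟨d, hd, hE⟩ := d0_Low A
  have hK : 2 ≤ 4 / ν := by rw [le_div_iff₀ hν]; linarith
  have hx := Real.exp_pos d
  have h100 : 1 ≤ 100 / ν := by rw [le_div_iff₀ hν]; linarith
  refine ⟨4 / ν, 100 / ν + 4 * Real.exp d, ν, A * d / ν + 1, hK, by linarith, hν, by linarith,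
    fun ε r b θ hε hr _ hb t1 t2 hZ => ?_⟩
  have t0 : 0 < θ := by linarith
  have hAd : 0 < A * d / ν := by positivity
  have hc : (1 + 3 * ν) / ((1 - ν) ^ 2 * θ) ≤ 3 / θ0 := by
    rw [div_le_div_iff₀ (by positivity) hθ0]
    have e1 : (1 + 3 * ν) ≤ 3 * (1 - ν) ^ 2 := by nlinarith
    calc (1 + 3 * ν) * θ0 ≤ 3 * (1 - ν) ^ 2 * θ := mul_le_mul e1 t1 hθ0.le (by positivity)
      _ = _ := by ring
  have hN : 6 / (8 * ν) ≤ (⌈6 / (8 * ν)⌉₊ : ℝ) := Nat.le_ceil _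
  have hN0 : 0 < ⌈6 / (8 * ν)⌉₊ := Nat.ceil_pos.2 (by positivity)
  obtain ⟨T1, a1, a2, a3⟩ := core_StageAsym h (ν := ν) (r := r) (s := √ε) (b := b) (m := √2)
    (c := (1 + 3 * ν) / ((1 - ν) ^ 2 * θ)) (K := (3 / θ0 + 2) / (8 * ν)) (A := A) (d := d)
    (C := 100 / ν + 4 * Real.exp d) (L := (1 - ν) * θ * b) hν hν8
    (by
      rw [one_div_div] at hr
      exact hr)
    (by linarith) (Real.sqrt_pos.2 hε) (Real.sq_sqrt zero_le_two) (by positivity)
    (by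
      rw [one_lt_div (by positivity)]
      have : (1 - ν) ^ 2 * θ ≤ 1 := mul_le_one₀ (by nlinarith) t0.le t2
      linarith)
    (by positivity) (by linarith) hd hE
    (by
      have : A * d / ν ≤ b := by linarith
      rw [div_le_iff₀ hν] at this
      linarith)
    (by field_simp)
    (by
      have e : ν * (100 / ν + 4 * Real.exp d) = 100 + 4 * (ν * Real.exp d) := by field_simp
      have : 0 < ν * Real.exp d := by positivity
      linarith)
    (by linarith) hZ hN0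
  rw [Real.sq_sqrt hε.le] at a3
  refine ⟨T1, a1, a2, a3.mono subset_rfl ?_ le_rfl⟩
  have f1 : θ / 2 - 5 / 2 * ν ≤ 1 / (2 * ((1 + 3 * ν) / ((1 - ν) ^ 2 * θ))) := by
    rw [show 1 / (2 * ((1 + 3 * ν) / ((1 - ν) ^ 2 * θ))) = (1 - ν) ^ 2 * θ / (2 * (1 + 3 * ν)) by
      field_simp, le_div_iff₀ (by positivity)]
    nlinarith [mul_pos hν t0, mul_nonneg (sq_nonneg ν) t0.le,
      mul_nonneg hν.le (sub_nonneg.2 t2)]
  have f2 : ((1 + 3 * ν) / ((1 - ν) ^ 2 * θ) + 2) / (4 * ((3 / θ0 + 2) / (8 * ν))) ≤ 2 * ν := by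
    rw [div_le_iff₀ (by positivity)]
    have g1 : 2 * ν * (4 * ((3 / θ0 + 2) / (8 * ν))) = 3 / θ0 + 2 := by
      field_simp
      ring
    linarith
  have f3 : 2 / (⌈6 / (8 * ν)⌉₊ : ℝ) ≤ 8 / 3 * ν := by
    rw [div_le_iff₀ (by exact_mod_cast hN0)]
    rw [div_le_iff₀ (by positivity)] at hN
    linarith
  linarith

end Pool.Agent.MP_66a317_pr.Stair

end
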