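import Pool.Agent.Mg.F66a317.Gad8f3f
import Pool.Agent.Mg.F66a317.Gdccaae
import Pool.Agent.Mg.F66a317.Gc08609
import Pool.Agent.Mg.F66a317.G817b5a
import Pool.Agent.Mg.F66a317.Gf807a2
import Pool.Agent.Mg.F66a317.G8476b1
import Pool.Agent.Mg.F66a317.G074ba7
import Pool.Agent.Mg.F66a317.Gdb036b

section

open MeasureTheory Set Filter
open scoped ENNReal

namespace Pool.Agent.MP_66a317_pr.Fast

theorem share_LowCore {c K d0 : ℝ} (hc : 1 < c) (hK : 0 < K) (hd : 0 < d0) :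
    1 / (2 * c) - (c + 2) / (4 * K) ≤
      (K * d0 / (c - 1) - K * d0 / (c + 1) - d0) /
        (2 * (K * d0 / (c - 1) + K * d0 / (c + 1) + 2 * d0)) := by
  have h1 : 0 < c - 1 := by linarith
  have h2 : 0 < c + 1 := by linarith
  have h3 : 0 < c := by linarith
  have hq : 0 < c ^ 2 - 1 := by nlinarith
  have e : (K * d0 / (c - 1) - K * d0 / (c + 1) - d0) /
      (2 * (K * d0 / (c - 1) + K * d0 / (c + 1) + 2 * d0)) =
      (2 * K - (c ^ 2 - 1)) / (4 * c * K + 4 * (c ^ 2 - 1)) := by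
    have h4 : 0 < K * d0 / (c - 1) + K * d0 / (c + 1) + 2 * d0 := by positivity
    have h5 : 0 < 4 * c * K + 4 * (c ^ 2 - 1) := by positivity
    rw [div_eq_div_iff (by positivity) h5.ne']
    field_simp
    ring
  rw [e, le_div_iff₀ (by positivity)]
  have e2 : (1 / (2 * c) - (c + 2) / (4 * K)) * (4 * c * K + 4 * (c ^ 2 - 1)) =
      2 * K + 2 * (c ^ 2 - 1) / c - c * (c + 2) - (c + 2) * (c ^ 2 - 1) / K := by
    field_simp
    ring
  rw [e2]
  have h6 : 2 * (c ^ 2 - 1) / c ≤ 2 * c := by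
    rw [div_le_iff₀ h3]
    nlinarith
  have h7 : 0 ≤ (c + 2) * (c ^ 2 - 1) / K := by positivity
  nlinarith

theorem lowCore_stmt (hM : MasterStmt) (hB : BridgeStmt) (hP : PathStmt) (hC : CapStmt) :
    LowCoreStmt := by
  intro ε δ e κ c K d0 t0 T1 ΦB he hκ hκe hc hK hd hG hfast hε hε1 hδ hδ2 ht0 hT hδt hΦ hπ hcos
    hz hB4 hl4
  have hd0 : 0 < d0 := (Real.log_pos one_lt_two).trans_le hd
  have h1 : 0 < c - 1 := by linarith
  have h2 : 0 < c + 1 := by linarith
  obtain ⟨Λ, Q, hpr⟩ := hM e κ c K d0 he hκ hκe hc hK hd hG hfast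
  obtain ⟨p0, p1, p2⟩ := hP Λ Q e (c * κ) (κ * K * d0) (κ * (K + c) * d0) (K * d0 / (c - 1))
    (K * d0 / (c + 1)) d0 t0 (-(ΦB + κ * K * d0)) hpr ht0 hG
  have hcap := hC Λ Q ε δ e (c * κ) (κ * K * d0) (κ * (K + c) * d0) (K * d0 / (c - 1))
    (K * d0 / (c + 1)) d0 t0 T1 ΦB hpr hε hε1 hδ hδ2 (by positivity) (by positivity)
    (by positivity) (by positivity) hd0 ht0 hT hδt hΦ hπ hcos hz hB4 hl4 hG
  have hb := hB (1 - δ) (1 - ε) (K * d0 / (c - 1) + K * d0 / (c + 1) + 2 * d0)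
    (K * d0 / (c - 1) - K * d0 / (c + 1) - d0)
    (fun φ t => spath Λ Q t0 (-(ΦB + κ * K * d0)) (c * κ) φ t) (by linarith) (by positivity)
    p0 p1 p2 hcap
  exact (ENNReal.ofReal_le_ofReal (share_LowCore hc hK hd0)).trans hb

end Pool.Agent.MP_66a317_pr.Fast

end

section

open MeasureTheory Set Filter
open scoped ENNReal

namespace Pool.Agent.MP_66a317_pr.Stair

open Fast

theorem flip_re_StageCore (b : Bool) (z : ℂ) : (flip b z).re = z.re := by
  cases b <;> simp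

theorem flip_zero_StageCore (b : Bool) : flip b 0 = 0 := by
  cases b <;> simp

theorem progress_StageCore (Λ Q : ℝ → ℝ) (E M A k t0 T1 φ t : ℝ)
    (hΛ : ∀ s, 0 ≤ Λ s ∧ Λ s ≤ E) (hQ : ∀ s, 0 ≤ Q s ∧ Q s ≤ M) (hE : E ≤ 1) (hA : 0 ≤ A)
    (hk : 0 ≤ k) (ht0 : 0 < t0) (hT : t0 ≤ T1) (hz : A = k * Real.log (T1 / t0))
    (h0 : 0 ≤ t) (h1 : t ≤ T1) :
    t - T1 * (E + (A + M) ^ 2 / 2) ≤ (spath Λ Q t0 (-A) k φ t + 1).re := by
  have e : spath Λ Q t0 (-A) k φ t + 1 =
      ((min t (max t t0 * (1 - Λ (φ + clock t0 t))) : ℝ) : ℂ) *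
        cis (-A + k * clock t0 t + Q (φ + clock t0 t)) := by
    rw [spath]
    ring
  rw [e, Complex.re_ofReal_mul, cis_re]
  obtain ⟨l0, l1⟩ := hΛ (φ + clock t0 t)
  obtain ⟨q0, q1⟩ := hQ (φ + clock t0 t)
  have c0 : 0 ≤ k * clock t0 t := mul_nonneg hk (clock_nonneg ht0 t)
  have c1 : k * clock t0 t ≤ A := by
    rw [hz, ← clock_of_ge hT]
    exact mul_le_mul_of_nonneg_left (clock_mono ht0 h1) hk
  generalize Λ (φ + clock t0 t) = l at l0 l1
  generalize Q (φ + clock t0 t) = q at q0 q1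
  generalize k * clock t0 t = x at c0 c1
  have m0 : t ≤ max t t0 := le_max_left _ _
  have m1 : max t t0 ≤ T1 := max_le h1 hT
  generalize max t t0 = m at m0 m1
  have hT0 : 0 ≤ T1 := h0.trans h1
  have hE0 : 0 ≤ E := l0.trans l1
  have r0 : 0 ≤ min t (m * (1 - l)) := le_min h0 (mul_nonneg (h0.trans m0) (by linarith))
  have r1 : min t (m * (1 - l)) ≤ T1 := (min_le_left _ _).trans h1
  have r2 : t - T1 * E ≤ min t (m * (1 - l)) := by
    refine le_min (by nlinarith) ?_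
    have : m * l ≤ T1 * E := mul_le_mul m1 l1 l0 hT0
    nlinarith
  generalize min t (m * (1 - l)) = ρ at r0 r1 r2
  have hb : (-A + x + q) ^ 2 ≤ (A + M) ^ 2 := by
    apply sq_le_sq'
    · linarith
    · linarith
  have hc := Real.one_sub_sq_div_two_le_cos (x := -A + x + q)
  have h2 : ρ * (1 - (A + M) ^ 2 / 2) ≤ ρ * Real.cos (-A + x + q) :=
    mul_le_mul_of_nonneg_left (by linarith) r0
  have h3 : ρ * ((A + M) ^ 2 / 2) ≤ T1 * ((A + M) ^ 2 / 2) :=
    mul_le_mul_of_nonneg_right r1 (by positivity)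
  nlinarith

theorem count_StageCore (N : ℕ) (b : Bool) (S : Set (Fin N)) (T : Set (Bool × Fin N))
    (h : ∀ j ∈ S, (b, j) ∈ T) : (S.ncard : ℝ) ≤ T.ncard := by
  refine Nat.cast_le.2 (Set.ncard_le_ncard_of_injOn (fun j => (b, j)) h ?_ (Set.toFinite _))
  intro x _ y _ hxy
  exact (Prod.ext_iff.1 hxy).2

theorem stageCore_stmt (hM : MasterStmt) (hP : PathStmt) (hC : Cap2Stmt) : StageCoreStmt := by
  intro ε r g y e κ c K d0 t0 T1 ΦB N he hκ hκe hc hK hd hG hfast hε hε1 hr hg ht0 hT hgt hΦ hy hπ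
    hcos hz hB4 hl4 hN
  have hd0 : 0 < d0 := (Real.log_pos one_lt_two).trans_le hd
  have h1 : 0 < c - 1 := by linarith
  have h2 : 0 < c + 1 := by linarith
  have h3 : 0 < c := by linarith
  obtain ⟨Λ, Q, hpr⟩ := hM e κ c K d0 he hκ hκe hc hK hd hG hfast
  obtain ⟨p0, p1, -⟩ := hP Λ Q e (c * κ) (κ * K * d0) (κ * (K + c) * d0) (K * d0 / (c - 1))
    (K * d0 / (c + 1)) d0 t0 (-(ΦB + κ * K * d0)) hpr ht0 hG
  have hcap := hC Λ Q ε r g y e (c * κ) (κ * K * d0) (κ * (K + c) * d0) (K * d0 / (c - 1))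
    (K * d0 / (c + 1)) d0 t0 T1 ΦB N hpr hε hε1 hr hg (by positivity) (by positivity)
    (by positivity) (by positivity) hd0 ht0 hT hgt hΦ hy hπ hcos hz.le hB4 hl4 hG hN
  have hsh := share_LowCore hc hK hd0
  have hpos : 0 < K * d0 / (c - 1) + K * d0 / (c + 1) + 2 * d0 := by positivity
  generalize K * d0 / (c - 1) = dR at *
  generalize K * d0 / (c + 1) = dL at *
  have hNr : (0 : ℝ) < N := Nat.cast_pos.2 hN
  refine ⟨Bool × Fin N, inferInstance, fun i t => flip i.1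
    (spath Λ Q t0 (-(ΦB + κ * K * d0)) (c * κ) ((i.2 : ℝ) * (dR + dL + 2 * d0) / N) t + 1),
    ⟨(true, ⟨0, hN⟩)⟩, fun i => ⟨?_, fun s t hs ht => ?_, fun t h0 ht => ?_⟩, fun h hh hl => ?_⟩
  · show flip i.1 _ = 0
    rw [p0, neg_add_cancel, flip_zero_StageCore]
  · show dist (flip i.1 _) (flip i.1 _) ≤ _
    rw [dist_flip, dist_add_right]
    exact p1 _ s t hs ht
  · show _ ≤ (flip i.1 _).re
    rw [flip_re_StageCore]
    exact progress_StageCore Λ Q _ _ _ _ t0 T1 _ t hpr.2.2.1 hpr.2.2.2.1 hG (by positivity)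
      (by positivity) ht0 hT hz h0 ht
  · have hp : (1 / (2 * c) - (c + 2) / (4 * K) - 2 / N) * (Fintype.card (Bool × Fin N) : ℝ) ≤
        (dR - dL - d0) / (dR + dL + 2 * d0) * N - 4 := by
      rw [Fintype.card_prod, Fintype.card_bool, Fintype.card_fin]
      push_cast
      have e1 : (dR - dL - d0) / (dR + dL + 2 * d0) =
          2 * ((dR - dL - d0) / (2 * (dR + dL + 2 * d0))) := by
        field_simp
      have e2 : (2 : ℝ) / N * (2 * N) = 4 := by
        field_simp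
        norm_num
      rw [e1, sub_mul, e2]
      nlinarith [mul_le_mul_of_nonneg_right hsh hNr.le]
    refine hp.trans ?_
    rcases hcap h hh hl with hc1 | hc1
    · refine hc1.trans (count_StageCore N true _ _ ?_)
      rintro j ⟨t, t0', t1', ht⟩
      exact ⟨t, t0', t1', ht⟩
    · refine hc1.trans (count_StageCore N false _ _ ?_)
      rintro j ⟨t, t0', t1', ht⟩
      refine ⟨t, t0', t1', ?_⟩
      show dist (flip false _) (h t) ≤ r
      rw [← dist_flip_left]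
      exact ht

end Pool.Agent.MP_66a317_pr.Stair

end

section

open MeasureTheory Set Filter
open scoped ENNReal
namespace Pool.Agent.MP_66a317_pr.Fast

open Metric
open scoped NNReal

theorem value_le_Disperse {X : Type} [MeasurableSpace X] (ν : Measure X) [SFinite ν]
    {r r' w : ℝ} (A : ℂ) (hr : r < r') (hw : 0 ≤ w) (D : Set X) (hD : MeasurableSet D)
    (hD0 : ν D ≠ 0) (hDt : ν D ≠ ⊤) (H : X → ℝ → ℂ)
    (hH : ∀ p ∈ D, H p 0 = 0 ∧ ∀ s t : ℝ, 0 ≤ s → 0 ≤ t → dist (H p s) (H p t) ≤ w * |s - t|)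
    (hm : ∀ t, Measurable fun p => H p t) (B : ℝ≥0∞)
    (hB : ∀ σ : ℝ → ℂ, σ 0 = A → (∀ s t, dist (σ s) (σ t) ≤ |s - t|) →
      ν {p | p ∈ D ∧ ∃ q : ℚ, 0 ≤ (q : ℝ) ∧ dist (σ q) (H p q) < r'} ≤ B) :
    value r w A ≤ B / ν D := by
  refine iSup_le fun μ => ?_
  set I := ⨅ h : Traj 0 w, (μ : Measure (Traj A 1)) {σ | ∃ t : ℝ≥0, dist (σ.1 t) (h.1 t) ≤ r}
    with hI
  set E : Set (Traj A 1 × X) :=
    {x | x.2 ∈ D ∧ ∃ q : ℚ, 0 ≤ (q : ℝ) ∧ dist (x.1.1 (q : ℝ).toNNReal) (H x.2 q) < r'} with hE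
  have hEm : MeasurableSet E := by
    refine (measurable_snd hD).inter ?_
    change MeasurableSet {x : Traj A 1 × X |
      ∃ q : ℚ, 0 ≤ (q : ℝ) ∧ dist (x.1.1 (q : ℝ).toNNReal) (H x.2 q) < r'}
    rw [ofPred_exists]
    refine MeasurableSet.iUnion fun q => (MeasurableSet.const _).inter ?_
    refine measurableSet_lt (Measurable.dist ?_ ((hm q).comp measurable_snd)) measurable_const
    exact (measurable_pi_apply _).comp (measurable_subtype_coe.comp measurable_fst)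
  have h1 : ∀ p ∈ D, I ≤ (μ : Measure (Traj A 1)) ((fun σ => (σ, p)) ⁻¹' E) := by
    intro p hp
    obtain ⟨g0, g1⟩ := hH p hp
    let h : Traj 0 w := ⟨fun t => H p t, g0, fun s t => g1 s t s.2 t.2⟩
    refine (iInf_le _ h).trans (measure_mono ?_)
    rintro σ ⟨t, ht⟩
    have hδ : 0 < (r' - r) / (1 + w) := div_pos (by linarith) (by linarith)
    obtain ⟨q, hq1, hq2⟩ := exists_rat_btwn (show (t : ℝ) < t + (r' - r) / (1 + w) by linarith)
    have hq0 : 0 ≤ (q : ℝ) := t.2.trans hq1.le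
    refine ⟨hp, q, hq0, ?_⟩
    have a1 := σ.2.2 (q : ℝ).toNNReal t
    have a2 := g1 t q t.2 hq0
    rw [NNReal.dist_eq, Real.coe_toNNReal _ hq0, abs_of_pos (by linarith), one_mul] at a1
    rw [abs_sub_comm, abs_of_pos (by linarith)] at a2
    have a3 := dist_triangle4 (σ.1 (q : ℝ).toNNReal) (σ.1 t) (H p t) (H p q)
    have a4 : ((q : ℝ) - t) * (1 + w) < r' - r := (lt_div_iff₀ (by linarith)).1 (by linarith)
    change dist (σ.1 t) (H p t) ≤ r at ht
    change dist (σ.1 (q : ℝ).toNNReal) (H p q) < r'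
    linarith
  have h2 : I * ν D ≤ ((μ : Measure (Traj A 1)).prod ν) E := by
    rw [Measure.prod_apply_symm hEm, ← setLIntegral_const]
    refine (setLIntegral_mono' hD h1).trans (setLIntegral_le_lintegral _ _)
  have h3 : ((μ : Measure (Traj A 1)).prod ν) E ≤ B := by
    rw [Measure.prod_apply hEm]
    calc _ ≤ ∫⁻ _, B ∂(μ : Measure (Traj A 1)) := by
          refine lintegral_mono fun σ => ?_
          exact hB (fun t => σ.1 t.toNNReal) (by simpa using σ.2.1) fun s t =>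
            (σ.2.2 _ _).trans (by rw [one_mul]; exact dist_toNNReal_le s t)
      _ = B := by simp
  rw [ENNReal.le_div_iff_mul_le (Or.inl hD0) (Or.inl hDt)]
  exact h2.trans h3

theorem late_Disperse (σ : ℝ → ℂ) (hσ : ∀ s t, dist (σ s) (σ t) ≤ |s - t|) (z : ℂ) {r' T S : ℝ}
    (h0 : 0 ≤ r') (h1 : r' ≤ 1) (hS : 1 ≤ S) :
    volume {p : ℂ | p ∈ ball (0 : ℂ) (S / 2) ∧ ∃ q : ℚ, T + S ≤ (q : ℝ) ∧
      dist (σ q) (z + ((((q : ℝ) - T) / S : ℝ) : ℂ) * p) < r'} ≤ ENNReal.ofReal (9 * S) := by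
  have hc : Continuous σ :=
    (LipschitzWith.of_dist_le_mul (K := 1) fun s t => by
      simpa [Real.dist_eq] using hσ s t).continuous
  have h := expand_tube (fun u => σ (T + u) - z) (fun s t => by
    have := hσ (T + s) (T + t)
    rwa [add_sub_add_left_eq_sub, ← dist_sub_right _ _ z] at this) (w := 1 / 2) h0
    (by norm_num) (show 0 < S by linarith)
  refine le_trans (measure_mono ?_) (h.trans (ENNReal.ofReal_le_ofReal ?_))
  · rintro p ⟨hp, q, hq, hd⟩
    rw [mem_ball_zero_iff] at hp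
    refine ⟨by linarith, ?_⟩
    have ho : IsOpen {u : ℝ | dist (σ (T + u) - z) (((u / S : ℝ) : ℂ) * p) < r'} :=
      isOpen_lt (by fun_prop) continuous_const
    have hm : (q : ℝ) - T ∈ {u : ℝ | dist (σ (T + u) - z) (((u / S : ℝ) : ℂ) * p) < r'} := by
      change dist (σ (T + (q - T)) - z) _ < r'
      rwa [add_sub_cancel, ← dist_add_left z, add_sub_cancel]
    obtain ⟨a, b, hab, hsub⟩ := mem_nhds_iff_exists_Ioo_subset.1 (ho.mem_nhds hm)
    obtain ⟨u, hu1, hu2⟩ := exists_rat_btwn hab.2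
    exact ⟨u, by linarith, hsub ⟨hab.1.trans hu1, hu2⟩⟩
  · nlinarith [Real.pi_le_four, Real.pi_pos, mul_nonneg h0 (sub_nonneg.2 h1),
      mul_nonneg (sub_nonneg.2 h1) (sub_nonneg.2 hS)]

theorem disperse_stmt : DisperseStmt := by
  intro r r' w T S V b1 b2 A I G hr h0 h1 hw hT hS hV hb1 hb2 hI hIV hG hGm hE1 hE2
  have hS0 : 0 < S := by linarith
  have hpi := Real.pi_pos
  have hv := vol_ball (ρ := S / 2) (by positivity) 0
  have hD : ((volume : Measure ℝ).prod (volume : Measure ℂ)) (I ×ˢ ball (0 : ℂ) (S / 2)) =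
      ENNReal.ofReal (V * (Real.pi * (S / 2) ^ 2)) := by
    rw [Measure.prod_prod, hIV, hv, ENNReal.ofReal_mul hV.le]
  have h := value_le_Disperse ((volume : Measure ℝ).prod (volume : Measure ℂ)) A hr
    (show 0 ≤ w by linarith) (I ×ˢ ball (0 : ℂ) (S / 2)) (hI.prod measurableSet_ball)
    (by rw [hD]; exact (ENNReal.ofReal_pos.2 (by positivity)).ne')
    (by rw [hD]; exact ENNReal.ofReal_ne_top)
    (fun x t => G x.1 (min t T) + (((max t T - T) / S : ℝ) : ℂ) * x.2)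
    (fun x hx => ⟨by simp [min_eq_left hT, max_eq_right hT, (hG _ hx.1).1], fun s t hs ht => by
      have a1 := (hG _ hx.1).2 (min s T) (min t T) (le_min hs hT) (le_min ht hT)
      have hp : ‖x.2‖ < S / 2 := mem_ball_zero_iff.1 hx.2
      have a2 : dist ((((max s T - T) / S : ℝ) : ℂ) * x.2) ((((max t T - T) / S : ℝ) : ℂ) * x.2) ≤
          w * |max s T - max t T| := by
        rw [Complex.dist_eq, ← sub_mul, ← Complex.ofReal_sub, norm_mul, Complex.norm_real,
          Real.norm_eq_abs, ← sub_div, abs_div, abs_of_pos hS0, sub_sub_sub_cancel_right]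
        calc _ ≤ |max s T - max t T| / S * (S / 2) := by gcongr
          _ = 1 / 2 * |max s T - max t T| := by field_simp
          _ ≤ _ := by gcongr
      have a3 := abs_min_add_abs_max s t T
      refine (dist_add_add_le _ _ _ _).trans ?_
      rw [← a3, mul_add]
      exact add_le_add a1 a2⟩)
    (fun t => ((hGm _).comp measurable_fst).add (measurable_const.mul measurable_snd))
    (ENNReal.ofReal ((b1 + b2) * (Real.pi * (S / 2) ^ 2) + V * (9 * S)))
    (fun σ hσ0 hσ => by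
      set E1 := {ω | ω ∈ I ∧ ∃ t, 0 ≤ t ∧ t ≤ T ∧ dist (σ t) (G ω t) < r'}
      set E2 := {ω | ω ∈ I ∧ dist (σ T) (G ω T) < r' + 2 * S}
      set L : Set (ℝ × ℂ) := {x | x.1 ∈ I ∧ x.2 ∈ ball (0 : ℂ) (S / 2) ∧ ∃ q : ℚ, T + S ≤ (q : ℝ) ∧
        dist (σ q) (G x.1 T + ((((q : ℝ) - T) / S : ℝ) : ℂ) * x.2) < r'} with hL
      have hLm : MeasurableSet L := by
        refine (measurable_fst hI).inter ((measurable_snd measurableSet_ball).inter ?_)
        change MeasurableSet {x : ℝ × ℂ | ∃ q : ℚ, T + S ≤ (q : ℝ) ∧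
          dist (σ q) (G x.1 T + ((((q : ℝ) - T) / S : ℝ) : ℂ) * x.2) < r'}
        rw [ofPred_exists]
        refine MeasurableSet.iUnion fun q => (MeasurableSet.const _).inter ?_
        exact measurableSet_lt (measurable_const.dist (((hGm _).comp measurable_fst).add
          (measurable_const.mul measurable_snd))) measurable_const
      have b3 : ((volume : Measure ℝ).prod (volume : Measure ℂ)) L ≤ ENNReal.ofReal (V * (9 * S)) := by
        rw [Measure.prod_apply hLm, ENNReal.ofReal_mul hV.le, ← hIV, mul_comm, ← setLIntegral_const,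
          ← lintegral_indicator hI]
        refine lintegral_mono fun ω => ?_
        by_cases hω : ω ∈ I
        · rw [indicator_of_mem hω]
          exact le_trans (measure_mono fun p hp => hp.2) (late_Disperse σ hσ (G ω T) h0 h1 hS)
        · have : Prod.mk ω ⁻¹' L = ∅ := eq_empty_of_forall_notMem fun p hp => hω hp.1
          simp [this]
      have b4 : ((volume : Measure ℝ).prod (volume : Measure ℂ)) ((E1 ∪ E2) ×ˢ ball (0 : ℂ) (S / 2)) ≤
          ENNReal.ofReal ((b1 + b2) * (Real.pi * (S / 2) ^ 2)) := by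
        rw [Measure.prod_prod, hv, ENNReal.ofReal_mul (add_nonneg hb1 hb2),
          ENNReal.ofReal_add hb1 hb2]
        gcongr
        exact (measure_union_le _ _).trans (add_le_add (hE1 σ hσ0 hσ) (hE2 _))
      rw [ENNReal.ofReal_add (by positivity) (by positivity)]
      refine le_trans (measure_mono ?_) ((measure_union_le _ _).trans (add_le_add b4 b3))
      rintro ⟨ω, p⟩ ⟨hx, q, hq0, hq⟩
      have hp : ‖p‖ < S / 2 := mem_ball_zero_iff.1 hx.2
      rcases le_total (q : ℝ) T with c1 | c1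
      · refine Or.inl ⟨Or.inl ⟨hx.1, q, hq0, c1, ?_⟩, hx.2⟩
        simpa [min_eq_left c1, max_eq_right c1] using hq
      simp only [min_eq_right c1, max_eq_left c1] at hq
      rcases le_total (T + S) (q : ℝ) with c2 | c2
      · exact Or.inr ⟨hx.1, hx.2, q, c2, hq⟩
      refine Or.inl ⟨Or.inr ⟨hx.1, ?_⟩, hx.2⟩
      have a1 := hσ T q
      rw [abs_sub_comm, abs_of_nonneg (by linarith)] at a1
      have a2 : dist (G ω T + ((((q : ℝ) - T) / S : ℝ) : ℂ) * p) (G ω T) ≤ S / 2 := by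
        rw [dist_self_add_left, norm_mul, Complex.norm_real, Real.norm_eq_abs,
          abs_of_nonneg (div_nonneg (by linarith) hS0.le)]
        have : ((q : ℝ) - T) / S ≤ 1 := (div_le_one hS0).2 (by linarith)
        calc _ ≤ 1 * (S / 2) := by gcongr
          _ = _ := one_mul _
      have a3 := dist_triangle4 (σ T) (σ q) (G ω T + ((((q : ℝ) - T) / S : ℝ) : ℂ) * p) (G ω T)
      change dist (σ T) (G ω T) < r' + 2 * S
      linarith)
  rw [hD, ← ENNReal.ofReal_div_of_pos (by positivity)] at h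
  refine h.trans (ENNReal.ofReal_le_ofReal ?_)
  have e : ((b1 + b2) * (Real.pi * (S / 2) ^ 2) + V * (9 * S)) / (V * (Real.pi * (S / 2) ^ 2)) =
      (b1 + b2) / V + 36 / Real.pi / S := by
    field_simp
    ring
  rw [e]
  have : 36 / Real.pi ≤ 12 := by
    rw [div_le_iff₀ hpi]; linarith [Real.pi_gt_three]
  gcongr

end Pool.Agent.MP_66a317_pr.Fast

end

section

open MeasureTheory Set Filter
open scoped ENNReal

namespace Pool.Agent.MP_66a317_pr.Stair

open Fast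

theorem meas_stmt : MeasStmt := by
  intro Ω _ H γ w r a ha hH hm hγ
  have e : {x | ∃ u, a ≤ u ∧ dist (γ u) (H x u) < r} =
      {x | ∃ q : ℚ, a ≤ (q : ℝ) ∧ dist (γ q) (H x q) < r} := by
    ext x
    constructor
    · rintro ⟨u, hu, hd⟩
      have hw : 0 < 1 + |w| := by positivity
      have hδ : 0 < (r - dist (γ u) (H x u)) / (1 + |w|) := div_pos (by linarith) hw
      obtain ⟨q, hq1, hq2⟩ :=
        exists_rat_btwn (show u < u + (r - dist (γ u) (H x u)) / (1 + |w|) by linarith)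
      refine ⟨q, by linarith, ?_⟩
      have a1 := hγ q u
      have a2 := hH x u q (by linarith) (by linarith)
      rw [abs_of_pos (by linarith)] at a1
      rw [abs_sub_comm, abs_of_pos (by linarith)] at a2
      have a3 := dist_triangle4 (γ q) (γ u) (H x u) (H x q)
      have a4 : ((q : ℝ) - u) * (1 + |w|) < r - dist (γ u) (H x u) :=
        (lt_div_iff₀ hw).1 (by linarith)
      have a5 : w * ((q : ℝ) - u) ≤ |w| * ((q : ℝ) - u) :=
        mul_le_mul_of_nonneg_right (le_abs_self w) (by linarith)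
      linarith
    · rintro ⟨q, hq, hd⟩
      exact ⟨q, hq, hd⟩
  rw [e, ofPred_exists]
  refine MeasurableSet.iUnion fun q => (MeasurableSet.const _).inter ?_
  exact measurableSet_lt (measurable_const.dist (hm q)) measurable_const

theorem escTop_stmt : EscTopStmt := by
  intro ε δ δ' Φ a q hε hε1 hδ hΦ ha h1 hE
  obtain ⟨Ω, m, μ, H, hμ, hH, hm, h3⟩ := hE
  have key := value_le_Disperse μ (r := 1 - δ) (r' := 1 - δ') (w := 1 - ε) (-1) (by linarith)
    (by linarith) univ MeasurableSet.univ (by simp) (by simp) H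
    (fun x _ => ⟨(hH x).1, (hH x).2.1⟩) hm (ENNReal.ofReal (1 - q)) fun σ h0 hσ => by
      have hf : Front σ (1 - δ') (-δ') (1 / 2) := fun ω u hu => by
        have b := front_UpFanCore h0 hσ (le_refl |ω|) hu
        rw [sq_abs] at b
        linarith
      refine le_trans (measure_mono ?_) (h3 σ hσ hf)
      rintro x ⟨_, t, t0, t2⟩
      refine ⟨t, not_lt.1 fun t3 => ?_, t2⟩
      obtain ⟨ψ, p1, p2, p3⟩ := (hH x).2.2
      rw [p3 t t0 t3.le] at t2
      have b1 := proj_UpFanCore (σ t) ((1 - ε) * t) ψ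
      have b2 := front_UpFanCore h0 hσ (abs_le.2 ⟨p1, p2⟩) t0
      have b3 := mul_lt_mul_of_pos_left t3 hε
      linarith
  simpa using key

end Pool.Agent.MP_66a317_pr.Stair

end

section

open MeasureTheory Set Filter
open scoped ENNReal

namespace Pool.Agent.MP_66a317_pr.Stair

open Fast Metric

/-- a strict capture at a real time gives one at a later rational time -/
theorem rat_EscBase {γ : ℝ → ℂ} (hγ : ∀ s t, dist (γ s) (γ t) ≤ |s - t|) (z p : ℂ) {r T S u : ℝ}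
    (h : dist (γ u) (z + (((u - T) / S : ℝ) : ℂ) * p) < r) :
    ∃ q : ℚ, u ≤ (q : ℝ) ∧ dist (γ q) (z + ((((q : ℝ) - T) / S : ℝ) : ℂ) * p) < r := by
  have hc : Continuous γ :=
    (LipschitzWith.of_dist_le_mul (K := 1) fun s t => by
      simpa [Real.dist_eq] using hγ s t).continuous
  have ho : IsOpen {v : ℝ | dist (γ v) (z + (((v - T) / S : ℝ) : ℂ) * p) < r} :=
    isOpen_lt (by fun_prop) continuous_const
  obtain ⟨a, b, hab, hsub⟩ := mem_nhds_iff_exists_Ioo_subset.1 (ho.mem_nhds h)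
  obtain ⟨q, hq1, hq2⟩ := exists_rat_btwn hab.2
  exact ⟨q, hq1.le, hsub ⟨hab.1.trans hq1, hq2⟩⟩

/-- the captured part of the product space -/
theorem core_EscBase (γ : ℝ → ℂ) (hγ : ∀ s t, dist (γ s) (γ t) ≤ |s - t|) (G : ℝ → ℝ → ℂ)
    (hGm : ∀ t, Measurable fun ω => G ω t) {r a T S V b1 b2 : ℝ} (I : Set ℝ) (h0 : 0 ≤ r)
    (h1 : r ≤ 1) (hS : 1 ≤ S) (hV : 0 < V) (hb1 : 0 ≤ b1) (hb2 : 0 ≤ b2) (hI : MeasurableSet I)
    (hIV : volume I = ENNReal.ofReal V)
    (hE1 : volume {ω | ω ∈ I ∧ ∃ u, a ≤ u ∧ u ≤ T ∧ dist (γ u) (G ω u) < r} ≤ ENNReal.ofReal b1)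
    (hE2 : volume {ω | ω ∈ I ∧ dist (γ T) (G ω T) < r + 2 * S} ≤ ENNReal.ofReal b2) :
    ((volume : Measure ℝ).prod (volume : Measure ℂ))
      {x | x ∈ I ×ˢ ball (0 : ℂ) (S / 2) ∧ ∃ u, a ≤ u ∧
        dist (γ u) (G x.1 (min u T) + (((max u T - T) / S : ℝ) : ℂ) * x.2) < r} ≤
      ENNReal.ofReal ((b1 + b2) * (Real.pi * (S / 2) ^ 2) + V * (9 * S)) := by
  have hS0 : 0 < S := by linarith
  have hpi := Real.pi_pos
  have hv := vol_ball (ρ := S / 2) (by positivity) 0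
  set E1 := {ω | ω ∈ I ∧ ∃ u, a ≤ u ∧ u ≤ T ∧ dist (γ u) (G ω u) < r}
  set E2 := {ω | ω ∈ I ∧ dist (γ T) (G ω T) < r + 2 * S}
  set L : Set (ℝ × ℂ) := {x | x.1 ∈ I ∧ x.2 ∈ ball (0 : ℂ) (S / 2) ∧ ∃ q : ℚ, T + S ≤ (q : ℝ) ∧
    dist (γ q) (G x.1 T + ((((q : ℝ) - T) / S : ℝ) : ℂ) * x.2) < r} with hL
  have hLm : MeasurableSet L := by
    refine (measurable_fst hI).inter ((measurable_snd measurableSet_ball).inter ?_)
    change MeasurableSet {x : ℝ × ℂ | ∃ q : ℚ, T + S ≤ (q : ℝ) ∧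
      dist (γ q) (G x.1 T + ((((q : ℝ) - T) / S : ℝ) : ℂ) * x.2) < r}
    rw [ofPred_exists]
    refine MeasurableSet.iUnion fun q => (MeasurableSet.const _).inter ?_
    exact measurableSet_lt (measurable_const.dist (((hGm _).comp measurable_fst).add
      (measurable_const.mul measurable_snd))) measurable_const
  have b3 : ((volume : Measure ℝ).prod (volume : Measure ℂ)) L ≤ ENNReal.ofReal (V * (9 * S)) := by
    rw [Measure.prod_apply hLm, ENNReal.ofReal_mul hV.le, ← hIV, mul_comm, ← setLIntegral_const,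
      ← lintegral_indicator hI]
    refine lintegral_mono fun ω => ?_
    by_cases hω : ω ∈ I
    · rw [indicator_of_mem hω]
      exact le_trans (measure_mono fun p hp => hp.2) (late_Disperse γ hγ (G ω T) h0 h1 hS)
    · have : Prod.mk ω ⁻¹' L = ∅ := eq_empty_of_forall_notMem fun p hp => hω hp.1
      simp [this]
  have b4 : ((volume : Measure ℝ).prod (volume : Measure ℂ)) ((E1 ∪ E2) ×ˢ ball (0 : ℂ) (S / 2)) ≤
      ENNReal.ofReal ((b1 + b2) * (Real.pi * (S / 2) ^ 2)) := by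
    rw [Measure.prod_prod, hv, ENNReal.ofReal_mul (add_nonneg hb1 hb2),
      ENNReal.ofReal_add hb1 hb2]
    gcongr
    exact (measure_union_le _ _).trans (add_le_add hE1 hE2)
  rw [ENNReal.ofReal_add (by positivity) (by positivity)]
  refine le_trans (measure_mono ?_) ((measure_union_le _ _).trans (add_le_add b4 b3))
  rintro ⟨ω, p⟩ ⟨hx, u, hu0, hu⟩
  have hp : ‖p‖ < S / 2 := mem_ball_zero_iff.1 hx.2
  rcases le_total u T with c1 | c1
  · refine Or.inl ⟨Or.inl ⟨hx.1, u, hu0, c1, ?_⟩, hx.2⟩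
    simpa [min_eq_left c1, max_eq_right c1] using hu
  simp only [min_eq_right c1, max_eq_left c1] at hu
  rcases le_total (T + S) u with c2 | c2
  · obtain ⟨q, hq1, hq2⟩ := rat_EscBase hγ _ _ hu
    exact Or.inr ⟨hx.1, hx.2, q, c2.trans hq1, hq2⟩
  refine Or.inl ⟨Or.inr ⟨hx.1, ?_⟩, hx.2⟩
  have a1 := hγ T u
  rw [abs_sub_comm, abs_of_nonneg (by linarith)] at a1
  have a2 : dist (G ω T + (((u - T) / S : ℝ) : ℂ) * p) (G ω T) ≤ S / 2 := by
    rw [dist_self_add_left, norm_mul, Complex.norm_real, Real.norm_eq_abs,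
      abs_of_nonneg (div_nonneg (by linarith) hS0.le)]
    have : (u - T) / S ≤ 1 := (div_le_one hS0).2 (by linarith)
    calc _ ≤ 1 * (S / 2) := by gcongr
      _ = _ := one_mul _
  have a3 := dist_triangle4 (γ T) (γ u) (G ω T + (((u - T) / S : ℝ) : ℂ) * p) (G ω T)
  change dist (γ T) (G ω T) < r + 2 * S
  linarith

theorem escBase_stmt (hF : FanStmt) (hN : NearStmt) (hM : MeasStmt) : EscBaseStmt := by
  have _ := hM
  intro r ε β τ lo hi a βb lam ζ Ω D S N hr hr1 hε hlh hlo hhi ha hβ hβb hl hζ h2 hD0 h3 h4 hN0 hS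
  have a1 : 0 < 1 / a := by positivity
  have hε2 : ε ≤ 1 / 2 := by linarith
  have hS0 : 0 < S := by linarith
  have hpi := Real.pi_pos
  have hΩ0 : 0 ≤ Ω := (abs_nonneg _).trans hlo
  have hΩ1 : Ω ≤ 1 := by nlinarith
  have hl0 : 0 ≤ lam - 1 := by linarith
  have hT0 : 0 < a * lam ^ N := by positivity
  have haT : a ≤ a * lam ^ N := le_mul_of_one_le_right ha.le (one_le_pow₀ hl)
  have hV : 0 < hi - lo := by linarith
  have hIΩ : ∀ ω ∈ Icc lo hi, |ω| ≤ Ω := fun ω hω =>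
    abs_le.2 ⟨(abs_le.1 hlo).1.trans hω.1, hω.2.trans (abs_le.1 hhi).2⟩
  have hv := vol_ball (ρ := S / 2) (by positivity) 0
  have hDm : MeasurableSet (Icc lo hi ×ˢ ball (0 : ℂ) (S / 2)) :=
    measurableSet_Icc.prod measurableSet_ball
  have hD : ((volume : Measure ℝ).prod (volume : Measure ℂ)) (Icc lo hi ×ˢ ball (0 : ℂ) (S / 2)) =
      ENNReal.ofReal ((hi - lo) * (Real.pi * (S / 2) ^ 2)) := by
    rw [Measure.prod_prod, Real.volume_Icc, hv, ENNReal.ofReal_mul hV.le]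
  set T := a * lam ^ N with hT
  set cp : ℂ → ℂ := fun p => if ‖p‖ < S / 2 then p else 0 with hcp
  have cp1 : ∀ p, ‖cp p‖ ≤ S / 2 := fun p => by
    simp only [hcp]
    split_ifs with h
    · exact h.le
    · rw [norm_zero]; positivity
  have cpm : Measurable cp :=
    Measurable.ite (measurableSet_lt measurable_norm measurable_const) measurable_id
      measurable_const
  refine ⟨ℝ × ℂ, inferInstance, ProbabilityTheory.cond ((volume : Measure ℝ).prod
      (volume : Measure ℂ)) (Icc lo hi ×ˢ ball (0 : ℂ) (S / 2)),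
    fun x u => (((1 - ε) * min u T : ℝ) : ℂ) * cis (max lo (min x.1 hi)) +
      (((max u T - T) / S : ℝ) : ℂ) * cp x.2,
    ProbabilityTheory.cond_isProbabilityMeasure_of_finite
      (by rw [hD]; exact (ENNReal.ofReal_pos.2 (by positivity)).ne')
      (by rw [hD]; exact ENNReal.ofReal_ne_top),
    fun x => ⟨by simp [min_eq_left hT0.le, max_eq_right hT0.le], fun s t _ _ => ?_,
      max lo (min x.1 hi), le_max_left _ _, max_le hlh.le (min_le_right _ _), fun u _ hu => ?_⟩,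
    fun u => ?_, fun γ hγ hfr => ?_⟩
  · have a2 : dist ((((1 - ε) * min s T : ℝ) : ℂ) * cis (max lo (min x.1 hi)))
        ((((1 - ε) * min t T : ℝ) : ℂ) * cis (max lo (min x.1 hi))) ≤
          (1 - ε) * |min s T - min t T| := by
      rw [dist_mul_cis, Complex.dist_eq, ← Complex.ofReal_sub, Complex.norm_real, Real.norm_eq_abs,
        ← mul_sub, abs_mul, abs_of_nonneg (by linarith)]
    have a3 : dist ((((max s T - T) / S : ℝ) : ℂ) * cp x.2)
        ((((max t T - T) / S : ℝ) : ℂ) * cp x.2) ≤ (1 - ε) * |max s T - max t T| := by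
      rw [Complex.dist_eq, ← sub_mul, ← Complex.ofReal_sub, norm_mul, Complex.norm_real,
        Real.norm_eq_abs, ← sub_div, abs_div, abs_of_pos hS0, sub_sub_sub_cancel_right]
      have := cp1 x.2
      calc _ ≤ |max s T - max t T| / S * (S / 2) := by gcongr
        _ = 1 / 2 * |max s T - max t T| := by field_simp
        _ ≤ _ := by gcongr; linarith
    refine (dist_add_add_le _ _ _ _).trans ?_
    rw [← abs_min_add_abs_max s t T, mul_add]
    exact add_le_add a2 a3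
  · have c1 : u ≤ T := hu.trans haT
    simp [min_eq_left c1, max_eq_right c1]
  · exact (measurable_const.mul (continuous_cis.measurable.comp
      (measurable_const.max (measurable_fst.min measurable_const)))).add
      (measurable_const.mul (cpm.comp measurable_snd))
  · have key := hF γ r ε βb a lam ζ Ω D N (Icc lo hi) hγ hr hr1 hε hβ ha hl hζ h2 hD0 h3 h4 hN0 hIΩ
      fun ω hω u hu => by
        have c1 := hfr ω u (by linarith)
        have c2 := hβb ω hω.1 hω.2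
        linarith
    have b1 : 0 < (1 - ε) * T := mul_pos (by linarith) hT0
    have near : volume {ω | ω ∈ Icc lo hi ∧
        dist (γ T) ((((1 - ε) * T : ℝ) : ℂ) * cis ω) < r + 2 * S} ≤
          ENNReal.ofReal (8 * (1 + 2 * S) / T) := by
      refine (measure_mono ?_).trans ((hN 0 (γ T) _ (r + 2 * S) b1).trans
        (ENNReal.ofReal_le_ofReal ?_))
      · rintro ω ⟨hω, h⟩
        exact ⟨(hIΩ ω hω).trans hΩ1, by rwa [zero_add]⟩
      · rw [← div_div, div_le_div_iff_of_pos_right hT0, div_le_iff₀ (by linarith)]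
        nlinarith
    have core := core_EscBase γ hγ (fun ω u => (((1 - ε) * u : ℝ) : ℂ) * cis ω)
      (fun t => Continuous.measurable (by fun_prop)) (Icc lo hi) hr.le hr1 hS hV
      (by positivity) (by positivity) measurableSet_Icc Real.volume_Icc key near
    rw [ProbabilityTheory.cond_apply hDm, hD, ← ENNReal.div_eq_inv_mul]
    refine le_trans (ENNReal.div_le_div_right ((measure_mono ?_).trans core) _) ?_
    · rintro ⟨ω, p⟩ ⟨hx, u, hu0, hu⟩
      refine ⟨hx, u, hu0, ?_⟩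
      have c1 : max lo (min ω hi) = ω := by rw [min_eq_left hx.1.2, max_eq_right hx.1.1]
      have c2 : cp p = p := if_pos (mem_ball_zero_iff.1 hx.2)
      simpa only [c1, c2] using hu
    · rw [← ENNReal.ofReal_div_of_pos (by positivity)]
      refine ENNReal.ofReal_le_ofReal ?_
      generalize (N * (lam - 1) * √(2 * ε) + (2 * βb / a + 2 * ε) / √(2 * ε)) / (1 - ζ) ^ 2 +
        2 * N * D + 8 * (1 + 2 * S) / T = b
      have e : (b * (Real.pi * (S / 2) ^ 2) + (hi - lo) * (9 * S)) /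
          ((hi - lo) * (Real.pi * (S / 2) ^ 2)) = b / (hi - lo) + 36 / Real.pi / S := by
        field_simp
        ring
      rw [e]
      have c1 : 36 / Real.pi ≤ 12 := by
        rw [div_le_iff₀ hpi]; linarith [Real.pi_gt_three]
      have c2 : 36 / Real.pi / S ≤ 12 / S := by gcongr
      linarith

end Pool.Agent.MP_66a317_pr.Stair

end

section

open MeasureTheory Set Filter
open scoped ENNReal

namespace Pool.Agent.MP_66a317_pr.Stair

open Fast

/-- the real inequalities behind one double capture -/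
theorem core_Double {y0 Δ v1 v2 f1 f2 : ℝ} (hy : 0 < y0) (h0 : 0 ≤ v1) (h12 : v1 ≤ v2)
    (h2 : v2 ≤ Δ) (hΔ : 1 ≤ Δ) (hf1 : 0 ≤ f1) (hf12 : f1 ≤ f2)
    (hA : f1 + y0 ^ 2 ≤ (y0 * Real.exp (v1 / 32)) ^ 2 / 24)
    (hB : (y0 * Real.exp (v1 / 32) / 2 + 3 / 16 * (y0 * Real.exp (v2 / 32))) ^ 2 ≤
      2 * (v2 - v1) * (f2 - f1)) :
    min Δ (16 * Real.log ((f1 + y0 ^ 2) / y0 ^ 2)) ≤ v1 ∧
      v2 - 16 * Real.log (57 * Δ) ≤ min Δ (16 * Real.log ((f2 + y0 ^ 2) / y0 ^ 2)) ∧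
      min Δ (16 * Real.log ((f1 + y0 ^ 2) / y0 ^ 2)) + 1 ≤
        min Δ (16 * Real.log ((f2 + y0 ^ 2) / y0 ^ 2)) := by
  have hy2 : 0 < y0 ^ 2 := by positivity
  have hE1 : 0 < Real.exp (v1 / 32) := Real.exp_pos _
  have hE2 : 0 < Real.exp (v2 / 32) := Real.exp_pos _
  have hp1 : 0 < f1 + y0 ^ 2 := by linarith
  have hp2 : 0 < f2 + y0 ^ 2 := by linarith
  have hlog24 : 1 / 16 ≤ Real.log 24 := by
    have := Real.one_sub_inv_le_log_of_pos (x := 24) (by norm_num)
    norm_num at this ⊢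
    linarith
  -- first bound
  have a1 : 16 * Real.log ((f1 + y0 ^ 2) / y0 ^ 2) ≤ v1 - 1 := by
    have e1 : (f1 + y0 ^ 2) / y0 ^ 2 ≤ Real.exp (v1 / 16) / 24 := by
      rw [div_le_iff₀ hy2, exp_sixteen]
      nlinarith
    have e2 := Real.log_le_log (div_pos hp1 hy2) e1
    rw [Real.log_div (Real.exp_pos _).ne' (by norm_num), Real.log_exp] at e2
    linarith
  have hc : 0 ≤ Real.log (57 * Δ) := Real.log_nonneg (by linarith)
  -- second bound
  have a2 : v2 - 16 * Real.log (57 * Δ) ≤ 16 * Real.log ((f2 + y0 ^ 2) / y0 ^ 2) := by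
    have e0 : (3 / 16 * (y0 * Real.exp (v2 / 32))) ^ 2 ≤ 2 * Δ * f2 := by
      have u1 : (3 / 16 * (y0 * Real.exp (v2 / 32))) ^ 2 ≤
          (y0 * Real.exp (v1 / 32) / 2 + 3 / 16 * (y0 * Real.exp (v2 / 32))) ^ 2 := by
        have : 0 ≤ y0 * Real.exp (v1 / 32) / 2 := by positivity
        gcongr
        linarith
      have u2 : 2 * (v2 - v1) * (f2 - f1) ≤ 2 * Δ * f2 := by
        have : (v2 - v1) * (f2 - f1) ≤ Δ * f2 :=
          mul_le_mul (by linarith) (by linarith) (by linarith) (by linarith)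
        linarith
      linarith
    have e1 : Real.exp (v2 / 16) / (57 * Δ) ≤ (f2 + y0 ^ 2) / y0 ^ 2 := by
      rw [div_le_div_iff₀ (by linarith) hy2, exp_sixteen]
      have u3 : 0 ≤ y0 ^ 2 * Δ := by positivity
      have u4 : 0 ≤ Δ * f2 := mul_nonneg (by linarith) (by linarith)
      nlinarith
    have e2 := Real.log_le_log (div_pos (Real.exp_pos _) (by linarith)) e1
    rw [Real.log_div (Real.exp_pos _).ne' (by linarith), Real.log_exp] at e2
    linarith
  -- third bound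
  have a3 : 16 * Real.log ((f1 + y0 ^ 2) / y0 ^ 2) + 1 ≤
      16 * Real.log ((f2 + y0 ^ 2) / y0 ^ 2) := by
    have hY1 : 0 < y0 * Real.exp (v1 / 32) := by positivity
    have hx : (v2 - v1) / 32 + 1 ≤ Real.exp ((v2 - v1) / 32) := Real.add_one_le_exp _
    have hE : Real.exp (v2 / 32) = Real.exp (v1 / 32) * Real.exp ((v2 - v1) / 32) := by
      rw [← Real.exp_add]
      congr 1
      ring
    set Y := y0 * Real.exp (v1 / 32) with hY
    set e := Real.exp ((v2 - v1) / 32) with he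
    have hY2 : y0 * Real.exp (v2 / 32) = Y * e := by rw [hE, hY]; ring
    rw [hY2] at hB
    have u1 : 3 / 8 * Y ^ 2 * e ≤ 2 * (v2 - v1) * (f2 - f1) := by
      nlinarith [sq_nonneg (Y / 2 - 3 / 16 * (Y * e))]
    have u2 : 2 * (v2 - v1) * (f2 - f1) ≤ 64 * e * (f2 - f1) :=
      mul_le_mul_of_nonneg_right (by linarith) (by linarith)
    have he0 : 0 < e := Real.exp_pos _
    have u3 : 3 / 8 * Y ^ 2 ≤ 64 * (f2 - f1) := by
      refine le_of_mul_le_mul_right ?_ he0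
      linarith
    have u4 : (f1 + y0 ^ 2) / y0 ^ 2 * (73 / 64) ≤ (f2 + y0 ^ 2) / y0 ^ 2 := by
      rw [div_mul_eq_mul_div]
      exact div_le_div_of_nonneg_right (by linarith) hy2.le
    have e2 := Real.log_le_log (mul_pos (div_pos hp1 hy2) (by norm_num)) u4
    rw [Real.log_mul (div_pos hp1 hy2).ne' (by norm_num)] at e2
    have := Real.one_sub_inv_le_log_of_pos (x := 73 / 64) (by norm_num)
    norm_num at this
    linarith
  have m1 := min_le_right Δ (16 * Real.log ((f1 + y0 ^ 2) / y0 ^ 2))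
  refine ⟨by linarith, le_min (by linarith) a2, le_min (by linarith) (by linarith)⟩

/-- what one capture says about the searcher -/
theorem side_Double (hM : MidStmt) (hL : LateStmt) {Z : ℝ → ℂ} {r ε βb y0 Δ U t' : ℝ}
    (hZ : ∀ s t, dist (Z s) (Z t) ≤ |s - t|) (hr : 0 < r) (hr1 : r ≤ 1) (hε : 0 ≤ ε)
    (hε1 : ε ≤ 1 / 10) (hβ : 0 ≤ βb) (hy : 0 < y0) (ht : 0 ≤ t') (hΔ : 32 ≤ Real.exp (Δ / 32))
    (hΔ0 : 0 ≤ Δ) (hY : y0 * Real.exp (Δ / 32) / 32 ≤ 1 / 4) (hb : βb + ε * (t' + Δ) ≤ y0 ^ 2 / 2)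
    (hU : ε * U ≤ (y0 * Real.exp (Δ / 32) / 32) ^ 2)
    (hF : ∀ t, 0 ≤ t → (Z t).re ≤ t - r + βb) (h : SideHit Z r ε y0 Δ U t') :
    (∃ v, 0 ≤ v ∧ v ≤ Δ ∧ y0 * Real.exp (v / 32) / 2 ≤ (Z (t' + v)).im ∧
      t' + v - r + βb - (Z (t' + v)).re + y0 ^ 2 ≤ (y0 * Real.exp (v / 32)) ^ 2 / 24) ∨
    3 / 16 * (y0 * Real.exp (Δ / 32)) ≤ (Z (t' + Δ)).im := by
  rcases h with ⟨v, h8, hv, hd⟩ | ⟨v, ψ, hv0, hvU, h1, h2, hd⟩
  · left
    have hv0 : 0 ≤ v := by
      by_contra hneg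
      have : Real.exp (v / 32) ≤ 1 := Real.exp_le_one_iff.2 (by linarith [not_le.1 hneg])
      linarith
    have hb' : βb + ε * (t' + v) ≤ y0 ^ 2 / 2 := by
      have := mul_le_mul_of_nonneg_left (show t' + v ≤ t' + Δ by linarith) hε
      linarith
    exact ⟨v, hv0, hv, hM Z r ε βb y0 t' v hr hr1 hε hε1 hy h8 hb' (hF _ (by linarith)) hd⟩
  · right
    exact hL Z r ε βb y0 t' Δ v ψ hZ hr hr1 hε hε1 hβ hy ht hΔ hY hb (hF _ (by linarith)) hv0
      ((mul_le_mul_of_nonneg_left hvU hε).trans hU) h1 h2 hd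

theorem double_stmt (hM : MidStmt) (hL : LateStmt) (hC : CountStmt) : DoubleStmt := by
  intro Z r ε βb y0 ta Δ U M hZ hr hr1 hε hε1 hβ hy hta hΔ hY hb hU hF
  classical
  have hy2 : 0 < y0 ^ 2 := by positivity
  have hΔ1 : 1 ≤ Δ := by
    by_contra hneg
    have h1 : Real.exp (Δ / 32) ≤ Real.exp 1 := Real.exp_le_exp.2 (by linarith [not_le.1 hneg])
    have h2 := Real.exp_one_lt_d9
    linarith
  set f : ℝ → ℝ := fun t => t - r + βb - (Z t).re with hf
  have hre : ∀ s t, s ≤ t → ‖Z t - Z s‖ ≤ t - s := fun s t hst => by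
    have := hZ t s
    rwa [Complex.dist_eq, abs_of_nonneg (by linarith)] at this
  have hfm : Monotone f := fun s t hst => by
    have h1 := (Complex.re_le_norm (Z t - Z s)).trans (hre s t hst)
    rw [Complex.sub_re] at h1
    simp only [hf]
    linarith
  have hf0 : ∀ t, 0 ≤ t → 0 ≤ f t := fun t ht => by
    have := hF t ht
    simp only [hf]
    linarith
  set F : ℝ → ℝ := fun t => min Δ (16 * Real.log ((f (max t 0) + y0 ^ 2) / y0 ^ 2)) with hFdef
  have hFm : Monotone F := fun s t hst => by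
    have h1 := hf0 (max s 0) (le_max_right _ _)
    have h2 := hfm (max_le_max_right 0 hst)
    refine min_le_min_left _ (mul_le_mul_of_nonneg_left ?_ (by norm_num))
    exact Real.log_le_log (div_pos (by linarith) hy2)
      (div_le_div_of_nonneg_right (by linarith) hy2.le)
  have hFb : ∀ t, 0 ≤ F t ∧ F t ≤ Δ := fun t => by
    have h1 := hf0 (max t 0) (le_max_right _ _)
    refine ⟨le_min (by linarith) (mul_nonneg (by norm_num) (Real.log_nonneg ?_)), min_le_left _ _⟩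
    rw [one_le_div hy2]
    linarith
  have hc : 0 ≤ 16 * Real.log (57 * Δ) :=
    mul_nonneg (by norm_num) (Real.log_nonneg (by linarith))
  -- one pair of times
  have key : ∀ t' v1 v2 : ℝ, 0 ≤ t' → 0 ≤ v1 → v1 ≤ v2 → v2 ≤ Δ →
      f (t' + v1) + y0 ^ 2 ≤ (y0 * Real.exp (v1 / 32)) ^ 2 / 24 →
      y0 * Real.exp (v1 / 32) / 2 + 3 / 16 * (y0 * Real.exp (v2 / 32)) ≤
        |(Z (t' + v2)).im - (Z (t' + v1)).im| →
      ∃ a b, a ≤ b ∧ t' ≤ a - F a ∧ b - F b ≤ t' + 16 * Real.log (57 * Δ) ∧ F a + 1 ≤ F b := by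
    intro t' v1 v2 ht h0 h12 h2 hA hB
    have hz := im_sq_le (hre (t' + v1) (t' + v2) (by linarith))
    rw [Complex.sub_im, Complex.sub_re] at hz
    have hB' : (y0 * Real.exp (v1 / 32) / 2 + 3 / 16 * (y0 * Real.exp (v2 / 32))) ^ 2 ≤
        2 * (v2 - v1) * (f (t' + v2) - f (t' + v1)) := by
      have u1 : (y0 * Real.exp (v1 / 32) / 2 + 3 / 16 * (y0 * Real.exp (v2 / 32))) ^ 2 ≤
          |(Z (t' + v2)).im - (Z (t' + v1)).im| ^ 2 := by
        gcongr
      rw [sq_abs] at u1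
      refine u1.trans (hz.trans (le_of_eq ?_))
      simp only [hf]
      ring
    obtain ⟨c1, c2, c3⟩ := core_Double hy h0 h12 h2 hΔ1 (hf0 _ (by linarith))
      (hfm (show t' + v1 ≤ t' + v2 by linarith)) hA hB'
    have ea : F (t' + v1) = min Δ (16 * Real.log ((f (t' + v1) + y0 ^ 2) / y0 ^ 2)) := by
      simp only [hFdef]
      rw [max_eq_left (show 0 ≤ t' + v1 by linarith)]
    have eb : F (t' + v2) = min Δ (16 * Real.log ((f (t' + v2) + y0 ^ 2) / y0 ^ 2)) := by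
      simp only [hFdef]
      rw [max_eq_left (show 0 ≤ t' + v2 by linarith)]
    refine ⟨t' + v1, t' + v2, by linarith, ?_, ?_, ?_⟩
    · rw [ea]; linarith
    · rw [eb]; linarith
    · rw [ea, eb]; exact c3
  set T : Set (Fin M) := {j : Fin M | SideHit Z r ε y0 Δ U (ta + (j : ℕ)) ∧
      SideHit (fun t => (starRingEnd ℂ) (Z t)) r ε y0 Δ U (ta + (j : ℕ))} with hT
  have hcard : T.ncard = (T.toFinset.image Fin.val).card := by
    rw [Finset.card_image_of_injective _ Fin.val_injective, Set.ncard_eq_toFinset_card']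
  rw [hcard]
  refine hC F Δ _ ta _ hFm hFb hc fun j hj => ?_
  obtain ⟨i, hi, rfl⟩ := Finset.mem_image.1 hj
  obtain ⟨h1, h2⟩ := Set.mem_toFinset.1 hi
  have hi0 : (0 : ℝ) ≤ ((i : ℕ) : ℝ) := Nat.cast_nonneg _
  have hiM : ((i : ℕ) : ℝ) ≤ M := Nat.cast_le.2 i.2.le
  have ht : 0 ≤ ta + (i : ℕ) := by linarith
  have hb' : βb + ε * (ta + (i : ℕ) + Δ) ≤ y0 ^ 2 / 2 := by
    have := mul_le_mul_of_nonneg_left (show ta + (i : ℕ) + Δ ≤ ta + M + Δ by linarith) hε
    linarith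
  have hZ' : ∀ s t, dist ((starRingEnd ℂ) (Z s)) ((starRingEnd ℂ) (Z t)) ≤ |s - t| := fun s t => by
    simpa using hZ s t
  have s1 := side_Double hM hL hZ hr hr1 hε hε1 hβ hy ht hΔ (by linarith) hY hb' hU hF h1
  have s2 := side_Double hM hL (Z := fun t => (starRingEnd ℂ) (Z t)) hZ' hr hr1 hε hε1 hβ hy ht hΔ
    (by linarith) hY hb' hU (fun t ht => by simpa using hF t ht) h2
  simp only [Complex.conj_im, Complex.conj_re] at s2
  have hpos : ∀ v : ℝ, 0 < y0 * Real.exp (v / 32) := fun v => by positivity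
  rcases s1 with ⟨v, v0, vΔ, i1, g1⟩ | l1 <;> rcases s2 with ⟨v', v0', vΔ', i2, g2⟩ | l2
  · rcases le_total v v' with hv | hv
    · refine key _ v v' ht v0 hv vΔ' g1 (le_trans ?_ (neg_le_abs _))
      linarith [hpos v']
    · refine key _ v' v ht v0' hv vΔ g2 (le_trans ?_ (le_abs_self _))
      linarith [hpos v]
  · refine key _ v Δ ht v0 vΔ le_rfl g1 (le_trans ?_ (neg_le_abs _))
    linarith
  · refine key _ v' Δ ht v0' vΔ' le_rfl g2 (le_trans ?_ (le_abs_self _))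
    linarith
  · linarith [hpos Δ]

end Pool.Agent.MP_66a317_pr.Stair

end

section

open MeasureTheory Set Filter
open scoped ENNReal

namespace Pool.Agent.MP_66a317_pr.Stair

open Fast

theorem flip_re_EscStep (b : Bool) (z : ℂ) : (flip b z).re = z.re := by
  cases b <;> simp

theorem flip_abs_im_EscStep (b : Bool) (z : ℂ) : |(flip b z).im| = |z.im| := by
  cases b <;> simp

theorem dist_turn_EscStep (z W : ℂ) (ω : ℝ) (b : Bool) :
    dist z (cis ω * flip b W) = dist (flip b (z * cis (-ω))) W := by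
  rw [← dist_flip_left, ← dist_mul_cis z (cis ω * flip b W) (-ω)]
  congr 1
  rw [mul_comm (cis ω), mul_assoc, cis_mul_neg, mul_one]

theorem lip_turn_EscStep {γ : ℝ → ℂ} (hγ : ∀ s t, dist (γ s) (γ t) ≤ |s - t|) (ω : ℝ) (b : Bool)
    (s t : ℝ) : dist (flip b (γ s * cis (-ω))) (flip b (γ t * cis (-ω))) ≤ |s - t| := by
  rw [dist_flip, dist_mul_cis]
  exact hγ s t

/-- a capture of the step path happens on one of its five pieces -/
theorem key_EscStep (γ g : ℝ → ℂ) (r ε y0 Δ t' ω U u ψ : ℝ) (b : Bool)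
    (hg0 : g 0 = 0) (hψ1 : y0 * Real.exp (Δ / 32) / 32 ≤ ψ)
    (hψ2 : ψ ≤ 2 * (y0 * Real.exp (Δ / 32) / 32))
    (hg : ∀ v, 0 ≤ v → v ≤ U → g v = (((1 - ε) * v : ℝ) : ℂ) * cis ψ) (hu : t' ≤ u)
    (hd : dist (γ u) (stepPath ε y0 Δ t' ω b g u) < r) :
    (∃ v, 0 ≤ v ∧ v ≤ Δ ∧ Real.exp (v / 32) ≤ 8 ∧
      dist (flip b (γ (t' + v) * cis (-ω))) ((((1 - ε) * t' : ℝ) : ℂ) + acc ε y0 v) < r) ∨
    SideHit (fun t => flip b (γ t * cis (-ω))) r ε y0 Δ U t' ∨
    ∃ v, U ≤ v ∧ dist (flip b (γ (t' + Δ + v) * cis (-ω)) -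
      ((((1 - ε) * t' : ℝ) : ℂ) + acc ε y0 Δ)) (g v) < r := by
  rw [stepPath, dist_turn_EscStep, min_eq_right hu, max_eq_left (sub_nonneg.2 hu)] at hd
  rcases le_total (u - t') Δ with h1 | h1
  · rw [min_eq_left h1, max_eq_right (by linarith), hg0, add_zero] at hd
    have e : t' + (u - t') = u := by ring
    rcases le_total (Real.exp ((u - t') / 32)) 8 with h2 | h2
    · left
      refine ⟨u - t', sub_nonneg.2 hu, h1, h2, ?_⟩
      rwa [e]
    · right
      left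
      left
      refine ⟨u - t', h2, h1, ?_⟩
      show dist (flip b (γ (t' + (u - t')) * cis (-ω))) _ < r
      rwa [e]
  · rw [min_eq_right h1, max_eq_left (by linarith)] at hd
    have e : t' + Δ + (u - t' - Δ) = u := by ring
    rcases le_total (u - t' - Δ) U with h2 | h2
    · right
      left
      right
      refine ⟨u - t' - Δ, ψ, by linarith, h2, hψ1, hψ2, ?_⟩
      show dist (flip b (γ (t' + Δ + (u - t' - Δ)) * cis (-ω))) _ < r
      rwa [e, ← hg _ (by linarith) h2]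
    · right
      right
      refine ⟨u - t' - Δ, h2, ?_⟩
      rw [e, Complex.dist_eq, sub_sub]
      rwa [Complex.dist_eq] at hd

theorem escStep_stmt (hF : FanStmt) (hM : MeasStmt) (hP : StepPathStmt) (hE : EarlyStmt)
    (hD : DoubleStmt) (hFr : FrontStmt) (hN : NearDirStmt) (hX : MixStmt) : EscStepStmt := by
  intro r ε β τ lo hi a βb lam ζ Ω D ta y0 Δ U β' τ' q' N M hr0 hr1 hε0 hε1 hτ hlohi hlo hhi ha
    hβb hfront hlam hζ hζa hD0 hD2 hΩD hN0 hM0 hata hta htaM hy0 hexp hΨ hβy hU hεU hβ' hτ' hq0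
    hq1 hlow
  obtain ⟨Ω', m', μ', H', hμ', h1', h2', h3'⟩ := hlow
  obtain ⟨μ, hμ, hmix⟩ := hX Ω' μ' lo hi M hlohi hM0
  have hΔ1 : 1 ≤ Δ := by
    by_contra hc
    have h1 : Real.exp (Δ / 32) ≤ Real.exp 1 := Real.exp_le_exp.2 (by linarith)
    have h2 := Real.exp_one_lt_d9
    linarith
  have hΔ : 0 ≤ Δ := by linarith
  have hy4 : y0 ≤ 1 / 4 := by nlinarith
  have hΩ0 : 0 ≤ Ω := (abs_nonneg _).trans hlo
  have hΩ2 : Ω ≤ 1 / 2 := by nlinarith
  have habs : ∀ ω, lo ≤ ω → ω ≤ hi → |ω| ≤ Ω := fun ω h1 h2 =>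
    abs_le.2 ⟨(abs_le.1 hlo).1.trans h1, h2.trans (abs_le.1 hhi).2⟩
  have hj0 : ∀ j : Fin M, ta ≤ ta + ((j : ℕ) : ℝ) := fun j =>
    le_add_of_nonneg_right (Nat.cast_nonneg _)
  have hjM : ∀ j : Fin M, ta + ((j : ℕ) : ℝ) ≤ ta + M := fun j => by
    have : ((j : ℕ) : ℝ) ≤ M := Nat.cast_le.2 j.2.le
    linarith
  have hpath := fun (p : ℝ × (Fin M × Bool) × Ω') =>
    hP.1 ε y0 Δ (ta + (p.2.1.1 : ℕ)) (max lo (min p.1 hi)) p.2.1.2 (H' p.2.2) hε1 hy0.le hΔ
      (by linarith [hj0 p.2.1.1]) hΨ (h1' p.2.2).1 (h1' p.2.2).2.1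
  have hmeas := fun u => hP.2 Ω' H' ε y0 Δ ta lo hi u M h2'
  refine ⟨ℝ × (Fin M × Bool) × Ω', inferInstance, μ, fun p u =>
    stepPath ε y0 Δ (ta + (p.2.1.1 : ℕ)) (max lo (min p.1 hi)) p.2.1.2 (H' p.2.2) u, hμ,
    fun p => ⟨(hpath p).1, (hpath p).2.1, max lo (min p.1 hi), le_max_left _ _,
      max_le hlohi.le (min_le_right _ _), fun u _ hu =>
        (hpath p).2.2 u (hu.trans (hata.trans (hj0 _)))⟩, hmeas, fun γ hγ hfr => ?_⟩
  have hfr' : ∀ ω, lo ≤ ω → ω ≤ hi → ∀ u, 0 ≤ u → (γ u * cis (-ω)).re ≤ u - r + βb :=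
    fun ω h1 h2 u hu => by
      have h3 := hfr ω u hu
      have h4 := hfront ω h1 h2
      linarith
  have hζ' : 0 < 1 - ζ := by linarith
  have hsq : 0 ≤ √(2 * ε) := Real.sqrt_nonneg _
  have hlam' : 0 ≤ lam - 1 := by linarith
  have hta0 : 0 < ta := by linarith
  refine hmix _ {ω | ω ∈ Icc lo hi ∧ ∃ u, a ≤ u ∧ u ≤ a * lam ^ N ∧
      dist (γ u) ((((1 - ε) * u : ℝ) : ℂ) * cis ω) < r}
    (fun j => {ω : ℝ | |ω| ≤ 1 / 2 ∧ |(γ (ta + (j : ℕ)) * cis (-ω)).im| ≤ 32 * y0 ∧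
      (ta + (j : ℕ)) / 2 ≤ (γ (ta + (j : ℕ)) * cis (-ω)).re})
    (fun ω => {j : Fin M | SideHit (fun t => γ t * cis (-ω)) r ε y0 Δ U (ta + (j : ℕ)) ∧
      SideHit (fun t => (starRingEnd ℂ) (γ t * cis (-ω))) r ε y0 Δ U (ta + (j : ℕ))})
    q' ((N * (lam - 1) * √(2 * ε) + (2 * βb / a + 2 * ε) / √(2 * ε)) / (1 - ζ) ^ 2 + 2 * N * D)
    (256 * y0 / ta) (Δ * (2 + 16 * Real.log (57 * Δ)))
    (hM _ _ γ (1 - ε) r a ha.le (fun p => (hpath p).2.1) hmeas hγ) hq0 hq1 (by positivity)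
    (by positivity) ?_ ?_ ?_ ?_ ?_
  · have : 0 ≤ Real.log (57 * Δ) := Real.log_nonneg (by linarith)
    positivity
  · exact hF γ r ε βb a lam ζ Ω D N (Icc lo hi) hγ hr0 hr1 hε0 hβb ha hlam hζ hζa hD0 hD2 hΩD hN0
      (fun ω hω => habs ω hω.1 hω.2) (fun ω hω u hu => hfr' ω hω.1 hω.2 u (ha.le.trans hu))
  · intro j
    have hj := hj0 j
    refine (hN (γ (ta + (j : ℕ))) (32 * y0) ((ta + (j : ℕ)) / 2) (by linarith)).trans
      (ENNReal.ofReal_le_ofReal ?_)
    have e : 4 * (32 * y0) / ((ta + ((j : ℕ) : ℝ)) / 2) = 256 * y0 / (ta + ((j : ℕ) : ℝ)) := by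
      field_simp
      ring
    rw [e]
    exact div_le_div_of_nonneg_left (by positivity) hta0 hj
  · intro ω h1 h2
    refine hD (fun t => γ t * cis (-ω)) r ε βb y0 ta Δ U M (fun s t => ?_) hr0 hr1 hε0.le hε1 hβb
      hy0 hta0.le hexp hΨ hβy hεU (hfr' ω h1 h2)
    rw [dist_mul_cis]
    exact hγ s t
  · intro ω h1 h2 j hA hB hS
    have hb : ∃ b : Bool,
        ¬ SideHit (fun t => flip b (γ t * cis (-ω))) r ε y0 Δ U (ta + (j : ℕ)) := by
      by_contra hc
      push Not at hc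
      exact hS ⟨hc true, hc false⟩
    obtain ⟨b, hb⟩ := hb
    have hj := hj0 j
    have hj' := hjM j
    have hε' : ε * (ta + ((j : ℕ) : ℝ) + Δ) ≤ ε * (ta + M + Δ) :=
      mul_le_mul_of_nonneg_left (by linarith) hε0.le
    refine ⟨b, le_trans (measure_mono ?_) (h3' _ (fun s t => ?_)
      (hFr γ r ε β τ Ω ω y0 (ta + (j : ℕ)) Δ β' τ' b hε0.le hε1 hτ (habs ω h1 h2) hy0.le
        (by linarith) hΔ hΨ (by linarith) (by linarith) hfr))⟩
    · rintro x ⟨u, hau, hd⟩
      have eω : max lo (min ω hi) = ω := by rw [min_eq_left h2, max_eq_right h1]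
      have hd' : dist (γ u) (stepPath ε y0 Δ (ta + (j : ℕ)) ω b (H' x) u) < r := by
        have h := hd
        simp only [eω] at h
        exact h
      rcases le_total u (ta + (j : ℕ)) with hu | hu
      · exfalso
        have h := (hpath (ω, (j, b), x)).2.2 u hu
        simp only [eω] at h
        rw [h] at hd'
        exact hA ⟨⟨h1, h2⟩, u, hau, by linarith, hd'⟩
      · obtain ⟨ψ, hψ1, hψ2, hψ⟩ := (h1' x).2.2
        rcases key_EscStep γ (H' x) r ε y0 Δ (ta + (j : ℕ)) ω U u ψ b (h1' x).1 hψ1 hψ2 hψ hu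
          hd' with ⟨v, hv0, hvΔ, hv8, hv⟩ | h | h
        · exfalso
          have hεv : ε * (ta + ((j : ℕ) : ℝ) + v) ≤ ε * (ta + M + Δ) :=
            mul_le_mul_of_nonneg_left (by linarith) hε0.le
          have h := hE (fun t => flip b (γ t * cis (-ω))) r ε βb y0 (ta + (j : ℕ)) v
            (lip_turn_EscStep hγ ω b) hr0 hr1 hε0.le hε1 hβb hy0 hy4 (by linarith) hv0 hv8
            (by linarith) (fun t ht => by
              rw [flip_re_EscStep]
              exact hfr' ω h1 h2 t ht) hv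
          rw [flip_re_EscStep, flip_abs_im_EscStep] at h
          exact hB ⟨(habs ω h1 h2).trans hΩ2, h.1, h.2⟩
        · exact absurd h hb
        · exact h
    · rw [dist_sub_right]
      have h := lip_turn_EscStep hγ ω b (ta + (j : ℕ) + Δ + s) (ta + (j : ℕ) + Δ + t)
      rwa [add_sub_add_left_eq_sub] at h

end Pool.Agent.MP_66a317_pr.Stair

end

section

namespace Pool.Agent.MP_66a317_pr.Stair

open Fast

theorem stageAsym_all : StageAsymStmt :=
  stageAsym_stmt (stageCore_stmt master_stmt path_stmt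
    (cap2_stmt zoneCore_stmt arcCount_stmt hit2_stmt))

theorem lowLevel_all : LowLevelStmt :=
  lowLevel_stmt (lowBase_stmt stageAsym_all) (lowStep_stmt stageAsym_all reach_stmt compose_stmt)
    lev_stmt bridge2_stmt

theorem escStep_all : EscStepStmt :=
  escStep_stmt (fan_stmt fanLoc_stmt) meas_stmt stepPath_stmt early_stmt
    (double_stmt mid_stmt late_stmt count_stmt) front_stmt nearDir_stmt mix_stmt

theorem upLevel_all : UpLevelStmt :=
  upLevel_stmt (upBase_stmt (escBase_stmt (fan_stmt fanLoc_stmt) near_stmt meas_stmt))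
    (upStep_stmt escStep_all) lev_stmt escTop_stmt

theorem stair_all : StairStmt := stair_stmt scale_stmt upLevel_all lowLevel_all lev_stmt

end Pool.Agent.MP_66a317_pr.Stair

end
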