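import Pool.Agent.Mg.F66a317.G5afe50

section

open MeasureTheory Metric Set
open scoped NNReal ENNReal

namespace Pool.Agent.MP_66a317_pr

/-- triangle wave of period `2P` and height `P` -/
noncomputable def tri (P t : ℝ) : ℝ := infDist t (range fun m : ℤ => 2 * P * m)

theorem tri_lip (P s t : ℝ) : |tri P s - tri P t| ≤ |s - t| := by
  have h := (lipschitz_infDist_pt (range fun m : ℤ => 2 * P * m)).dist_le_mul s t
  simpa [Real.dist_eq, tri] using h

theorem tri_cont (P : ℝ) : Continuous (tri P) := continuous_infDist_pt _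

theorem tri_nonneg (P t : ℝ) : 0 ≤ tri P t := infDist_nonneg

theorem tri_le_abs (P t : ℝ) (m : ℤ) : tri P t ≤ |t - 2 * P * m| := by
  rw [← Real.dist_eq]
  exact infDist_le_dist_of_mem ⟨m, rfl⟩

theorem tri_zero (P : ℝ) : tri P 0 = 0 :=
  le_antisymm (by simpa using tri_le_abs P 0 0) (tri_nonneg _ _)

theorem tri_le {P : ℝ} (hP : 0 < P) (t : ℝ) : tri P t ≤ P := by
  refine (tri_le_abs P t (round (t / (2 * P)))).trans ?_
  have h := abs_sub_round (t / (2 * P))
  have e : t - 2 * P * round (t / (2 * P)) = 2 * P * (t / (2 * P) - round (t / (2 * P))) := by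
    field_simp
  rw [e, abs_mul, abs_of_pos (by positivity)]
  nlinarith

theorem le_tri {P t x : ℝ} (hP : 0 ≤ P) (j : ℤ) (h1 : 2 * P * j + x ≤ t)
    (h2 : t + x ≤ 2 * P * (j + 1)) : x ≤ tri P t := by
  refine (le_infDist (range_nonempty _)).2 ?_
  rintro _ ⟨m, rfl⟩
  rw [Real.dist_eq]
  rcases le_or_gt m j with h | h
  · have : (m : ℝ) ≤ j := by exact_mod_cast h
    exact le_abs.2 (Or.inl (by nlinarith))
  · have : (j : ℝ) + 1 ≤ m := by exact_mod_cast h
    exact le_abs.2 (Or.inr (by nlinarith))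

theorem tri_step {P : ℝ} (hP : 0 < P) (k : ℕ) : P ≤ |tri P ((k + 1) * P) - tri P (k * P)| := by
  obtain ⟨m, rfl | rfl⟩ := Nat.even_or_odd' k
  · have h1 : tri P (((2 * m : ℕ) : ℝ) * P) ≤ 0 := by
      refine (tri_le_abs P _ m).trans (le_of_eq ?_)
      rw [abs_eq_zero]
      push_cast
      ring
    have h2 : P ≤ tri P ((((2 * m : ℕ) : ℝ) + 1) * P) :=
      le_tri hP.le m (by push_cast; linarith) (by push_cast; linarith)
    exact le_abs.2 (Or.inl (by linarith))
  · have h1 : tri P ((((2 * m + 1 : ℕ) : ℝ) + 1) * P) ≤ 0 := by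
      refine (tri_le_abs P _ (m + 1)).trans (le_of_eq ?_)
      rw [abs_eq_zero]
      push_cast
      ring
    have h2 : P ≤ tri P (((2 * m + 1 : ℕ) : ℝ) * P) :=
      le_tri hP.le m (by push_cast; linarith) (by push_cast; linarith)
    exact le_abs.2 (Or.inr (by linarith))

theorem tri_lane {P : ℝ} (hP : 0 < P) (k : ℕ) {a b : ℝ} (ha : a ∈ Icc (k * P) ((k + 1) * P))
    (hb : b ∈ Icc (k * P) ((k + 1) * P)) : |b - a| ≤ |tri P b - tri P a| := by
  wlog hab : a ≤ b generalizing a b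
  · rw [abs_sub_comm, abs_sub_comm (tri P b)]
    exact this hb ha (le_of_not_ge hab)
  have h0 := tri_step hP k
  have h1 := tri_lip P ((k + 1) * P) b
  have h2 := tri_lip P a (k * P)
  rw [abs_of_nonneg (sub_nonneg.2 hb.2)] at h1
  rw [abs_of_nonneg (sub_nonneg.2 ha.1)] at h2
  rw [abs_of_nonneg (sub_nonneg.2 hab)]
  have h3 := abs_sub_le (tri P ((k + 1) * P)) (tri P b) (tri P (k * P))
  have h4 := abs_sub_le (tri P b) (tri P a) (tri P (k * P))
  linarith

/-- horizontal thickening of an arc -/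
def strip (f : ℝ → ℂ) (r α β : ℝ) : Set ℂ :=
  (fun x : ℝ × ℝ => f x.1 + (x.2 : ℂ)) '' (Icc α β ×ˢ Icc (-r) r)

theorem strip_meas {f : ℝ → ℂ} (hf : Continuous f) (r α β : ℝ) : MeasurableSet (strip f r α β) :=
  ((isCompact_Icc.prod isCompact_Icc).image (by fun_prop)).measurableSet

theorem strip_vol {f : ℝ → ℂ} (hf : Continuous f) {r α β : ℝ} (hr : 0 ≤ r) (h : α ≤ β) :
    ENNReal.ofReal (2 * r * |(f β).im - (f α).im|) ≤ volume (strip f r α β) := by
  rw [vol_eq_slices _ (strip_meas hf r α β)]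
  have key : ∀ y : ℝ, (uIcc (f α).im (f β).im).indicator (fun _ => ENNReal.ofReal (2 * r)) y ≤
      volume {x : ℝ | (⟨x, y⟩ : ℂ) ∈ strip f r α β} := by
    intro y
    by_cases hy : y ∈ uIcc (f α).im (f β).im
    · rw [indicator_of_mem hy]
      have hc : ContinuousOn (fun s => (f s).im) (uIcc α β) := by fun_prop
      obtain ⟨s, hs, hsy⟩ := intermediate_value_uIcc hc hy
      rw [uIcc_of_le h] at hs
      rw [← Real.volume_closedBall (f s).re r]
      refine measure_mono fun x hx => ⟨(s, x - (f s).re), ⟨hs, ?_⟩, ?_⟩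
      · rw [mem_closedBall, Real.dist_eq] at hx
        exact abs_le.1 hx
      · apply Complex.ext
        · simp
        · simpa using hsy
    · rw [indicator_of_notMem hy]
      exact zero_le
  refine le_trans (le_of_eq ?_) (lintegral_mono key)
  rw [lintegral_indicator measurableSet_uIcc, setLIntegral_const, Real.volume_interval,
    ← ENNReal.ofReal_mul (by positivity)]

/-- centre of the search pattern: goes out to `c j` and back during the `j`-th window -/
noncomputable def base (Δ τ : ℝ) (c : ℕ → ℂ) (s : ℝ) : ℂ :=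
  ((min 1 (tri (Δ / 2) s / τ) : ℝ) : ℂ) * c ⌊s / Δ⌋₊

theorem base_lip {Δ τ ρ : ℝ} (hΔ : 0 < Δ) (hτ : 0 < τ) (hρ : 0 ≤ ρ) (c : ℕ → ℂ)
    (hc : ∀ j, ‖c j‖ ≤ ρ) {s t : ℝ} (hs : 0 ≤ s) (ht : 0 ≤ t) :
    ‖base Δ τ c s - base Δ τ c t‖ ≤ ρ / τ * |s - t| := by
  wlog hst : t ≤ s generalizing s t
  · rw [norm_sub_rev, abs_sub_comm]
    exact this ht hs (le_of_not_ge hst)
  unfold base
  have hm : ⌊t / Δ⌋₊ ≤ ⌊s / Δ⌋₊ := Nat.floor_le_floor (by gcongr)
  rcases hm.eq_or_lt with h | h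
  · rw [h, ← sub_mul, ← Complex.ofReal_sub, norm_mul, Complex.norm_real, Real.norm_eq_abs]
    have h1 : |min 1 (tri (Δ / 2) s / τ) - min 1 (tri (Δ / 2) t / τ)| ≤ |s - t| / τ := by
      refine (abs_min_sub_min_le_max _ _ _ _).trans (max_le (by simp; positivity) ?_)
      rw [← sub_div, abs_div, abs_of_pos hτ]
      exact div_le_div_of_nonneg_right (tri_lip _ _ _) hτ.le
    calc _ ≤ |s - t| / τ * ρ := by gcongr; exact hc _
      _ = _ := by ring
  · have a1 : (⌊s / Δ⌋₊ : ℝ) * Δ ≤ s := by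
      rw [← le_div_iff₀ hΔ]
      exact Nat.floor_le (by positivity)
    have a2 : t ≤ (⌊s / Δ⌋₊ : ℝ) * Δ := by
      rw [← div_le_iff₀ hΔ]
      have := Nat.lt_floor_add_one (t / Δ)
      have h' : (⌊t / Δ⌋₊ : ℝ) + 1 ≤ ⌊s / Δ⌋₊ := by exact_mod_cast h
      linarith
    have b1 := tri_le_abs (Δ / 2) s (⌊s / Δ⌋₊ : ℕ)
    have b2 := tri_le_abs (Δ / 2) t (⌊s / Δ⌋₊ : ℕ)
    rw [Int.cast_natCast] at b1 b2
    rw [abs_of_nonneg (by linarith)] at b1
    rw [abs_of_nonpos (by linarith)] at b2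
    have n1 : ∀ (u : ℝ) (j : ℕ), ‖((min 1 (tri (Δ / 2) u / τ) : ℝ) : ℂ) * c j‖ ≤
        tri (Δ / 2) u / τ * ρ := by
      intro u j
      have := tri_nonneg (Δ / 2) u
      rw [norm_mul, Complex.norm_real, Real.norm_eq_abs,
        abs_of_nonneg (le_min zero_le_one (by positivity))]
      gcongr
      · exact min_le_right _ _
      · exact hc _
    refine (norm_sub_le _ _).trans ((add_le_add (n1 _ _) (n1 _ _)).trans ?_)
    rw [abs_of_nonneg (by linarith)]
    calc _ = ρ / τ * (tri (Δ / 2) s + tri (Δ / 2) t) := by ring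
      _ ≤ _ := by gcongr; linarith

theorem base_mid {Δ τ : ℝ} (hΔ : 0 < Δ) (hτ : 0 < τ) (c : ℕ → ℂ) (j : ℕ) {s : ℝ}
    (h1 : j * Δ + τ ≤ s) (h2 : s + τ ≤ (j + 1) * Δ) : base Δ τ c s = c j := by
  unfold base
  have a1 : τ ≤ tri (Δ / 2) s :=
    le_tri (by positivity) (j : ℕ) (by rw [Int.cast_natCast]; linarith)
      (by rw [Int.cast_natCast]; linarith)
  have a2 : ⌊s / Δ⌋₊ = j := by
    have : (0 : ℝ) ≤ j * Δ := by positivity
    rw [Nat.floor_eq_iff (div_nonneg (by linarith) hΔ.le), le_div_iff₀ hΔ, div_lt_iff₀ hΔ]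
    constructor <;> linarith
  rw [min_eq_left ((one_le_div hτ).2 a1), a2]
  simp

/-- zigzag pattern -/
noncomputable def zig (Δ P η a : ℝ) (s : ℝ) : ℂ :=
  ((η * tri Δ s : ℝ) : ℂ) + ((a * tri P s : ℝ) : ℂ) * Complex.I

theorem zig_cont (Δ P η a : ℝ) : Continuous (zig Δ P η a) := by
  unfold zig
  have := tri_cont Δ
  have := tri_cont P
  fun_prop

theorem zig_lip (Δ P : ℝ) {η a : ℝ} (hη : 0 ≤ η) (ha : 0 ≤ a) (s t : ℝ) :
    ‖zig Δ P η a s - zig Δ P η a t‖ ≤ (η + a) * |s - t| := by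
  have e : zig Δ P η a s - zig Δ P η a t = ((η * (tri Δ s - tri Δ t) : ℝ) : ℂ) +
      ((a * (tri P s - tri P t) : ℝ) : ℂ) * Complex.I := by
    unfold zig
    push_cast
    ring
  rw [e]
  refine (norm_add_le _ _).trans ?_
  rw [norm_mul, Complex.norm_I, mul_one, Complex.norm_real, Complex.norm_real, Real.norm_eq_abs,
    Real.norm_eq_abs, abs_mul, abs_mul, abs_of_nonneg hη, abs_of_nonneg ha, add_mul]
  exact add_le_add (mul_le_mul_of_nonneg_left (tri_lip _ _ _) hη)
    (mul_le_mul_of_nonneg_left (tri_lip _ _ _) ha)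

theorem zig_norm {Δ P η a : ℝ} (hΔ : 0 < Δ) (hP : 0 < P) (hη : 0 ≤ η) (ha : 0 ≤ a) (s : ℝ) :
    ‖zig Δ P η a s‖ ≤ η * Δ + a * P := by
  unfold zig
  refine (norm_add_le _ _).trans ?_
  rw [norm_mul, Complex.norm_I, mul_one, Complex.norm_real, Complex.norm_real, Real.norm_eq_abs,
    Real.norm_eq_abs, abs_mul, abs_mul, abs_of_nonneg hη, abs_of_nonneg ha,
    abs_of_nonneg (tri_nonneg _ _), abs_of_nonneg (tri_nonneg _ _)]
  gcongr
  · exact tri_le hΔ s
  · exact tri_le hP s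

/-- go straight to the origin, then follow `G` -/
noncomputable def goThen (A : ℂ) (G : ℝ → ℂ) (t : ℝ) : ℂ :=
  ((1 - min t ‖A‖ / ‖A‖ : ℝ) : ℂ) * A + G (max (t - ‖A‖) 0)

theorem goThen_zero (A : ℂ) (G : ℝ → ℂ) (hG : G 0 = 0) : goThen A G 0 = A := by
  unfold goThen
  rw [min_eq_left (norm_nonneg A), max_eq_right (by simp), hG]
  simp

theorem goThen_late {A : ℂ} (hA : A ≠ 0) (G : ℝ → ℂ) {s : ℝ} (hs : 0 ≤ s) :
    goThen A G (‖A‖ + s) = G s := by
  unfold goThen
  rw [min_eq_right (by linarith), div_self (norm_ne_zero_iff.2 hA), add_sub_cancel_left,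
    max_eq_left hs]
  simp

theorem minmax_le (s t R : ℝ) :
    |min t R - min s R| + |max (s - R) 0 - max (t - R) 0| ≤ |s - t| := by
  wlog h : s ≤ t generalizing s t
  · rw [abs_sub_comm (min t R), abs_sub_comm (max (s - R) 0), abs_sub_comm s]
    exact this t s (le_of_not_ge h)
  have e : ∀ x : ℝ, min x R + max (x - R) 0 = x := fun x => by
    rcases le_total x R with h | h
    · rw [min_eq_left h, max_eq_right (by linarith), add_zero]
    · rw [min_eq_right h, max_eq_left (by linarith)]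
      ring
  have h1 : min s R ≤ min t R := min_le_min_right _ h
  have h2 : max (s - R) 0 ≤ max (t - R) 0 := max_le_max_right _ (by linarith)
  rw [abs_of_nonneg (by linarith), abs_of_nonpos (by linarith), abs_of_nonpos (by linarith)]
  linarith [e s, e t]

theorem goThen_lip {A : ℂ} (hA : A ≠ 0) (G : ℝ → ℂ)
    (hG : ∀ s t, 0 ≤ s → 0 ≤ t → ‖G s - G t‖ ≤ |s - t|) (s t : ℝ) :
    ‖goThen A G s - goThen A G t‖ ≤ |s - t| := by
  have hR : 0 < ‖A‖ := norm_pos_iff.2 hA
  have e : goThen A G s - goThen A G t = (((min t ‖A‖ - min s ‖A‖) / ‖A‖ : ℝ) : ℂ) * A +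
      (G (max (s - ‖A‖) 0) - G (max (t - ‖A‖) 0)) := by
    unfold goThen
    push_cast
    ring
  rw [e]
  refine (norm_add_le _ _).trans ?_
  rw [norm_mul, Complex.norm_real, Real.norm_eq_abs, abs_div, abs_of_pos hR,
    div_mul_cancel₀ _ hR.ne']
  refine (add_le_add le_rfl (hG _ _ (le_max_right _ _) (le_max_right _ _))).trans ?_
  exact minmax_le s t _

end Pool.Agent.MP_66a317_pr

end

section

open MeasureTheory Metric Set
open scoped NNReal ENNReal

namespace Pool.Agent.MP_66a317_pr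

/-- independent uniform points: chance that some point falls in its target set -/
theorem hit_prob (N : ℕ) (ρ : Fin N → ℝ) (hρ : ∀ j, 0 < ρ j) (E : Fin N → Set ℂ)
    (hE : ∀ j, MeasurableSet (E j)) (hsub : ∀ j, E j ⊆ ball 0 (ρ j)) (V : ℝ) (hV0 : 0 ≤ V)
    (hV : ∀ j, ENNReal.ofReal V ≤ volume (E j)) :
    ENNReal.ofReal (1 - Real.exp (-∑ j, V / (Real.pi * ρ j ^ 2))) ≤
      (Measure.pi fun j => ProbabilityTheory.cond volume (ball (0 : ℂ) (ρ j)))
        {c | ∃ j, c j ∈ E j} := by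
  have hpi := Real.pi_pos
  have hP : ∀ j, IsProbabilityMeasure (ProbabilityTheory.cond volume (ball (0 : ℂ) (ρ j))) :=
    fun j => ProbabilityTheory.cond_isProbabilityMeasure_of_finite
      (measure_ball_pos _ _ (hρ j)).ne' measure_ball_lt_top.ne
  have e : {c : Fin N → ℂ | ∃ j, c j ∈ E j} = (univ.pi fun j => (E j)ᶜ)ᶜ := by
    ext c
    simp
  rw [e, prob_compl_eq_one_sub (MeasurableSet.univ_pi fun j => (hE j).compl), Measure.pi_pi,
    ENNReal.ofReal_sub _ (Real.exp_pos _).le, ENNReal.ofReal_one]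
  refine tsub_le_tsub_left ?_ _
  rw [← Finset.sum_neg_distrib, Real.exp_sum,
    ENNReal.ofReal_prod_of_nonneg fun _ _ => (Real.exp_pos _).le]
  refine Finset.prod_le_prod' fun j _ => ?_
  have h0 : 0 < Real.pi * ρ j ^ 2 := mul_pos hpi (pow_pos (hρ j) 2)
  rw [prob_compl_eq_one_sub (hE j), ProbabilityTheory.cond_apply measurableSet_ball,
    inter_eq_self_of_subset_right (hsub j), vol_ball (hρ j).le]
  have h1 : ENNReal.ofReal (V / (Real.pi * ρ j ^ 2)) ≤
      (ENNReal.ofReal (Real.pi * ρ j ^ 2))⁻¹ * volume (E j) := by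
    rw [ENNReal.ofReal_div_of_pos h0, ENNReal.div_eq_inv_mul]
    exact mul_le_mul_right (hV j) _
  refine (tsub_le_tsub_left h1 _).trans ?_
  rw [← ENNReal.ofReal_one, ← ENNReal.ofReal_sub _ (div_nonneg hV0 h0.le)]
  exact ENNReal.ofReal_le_ofReal (Real.one_sub_le_exp_neg _)

theorem window_vol {f : ℝ → ℂ} {w : ℝ} (hf : ∀ s t, ‖f s - f t‖ ≤ w * |s - t|)
    {r P η a g : ℝ} (l m j : ℕ) (hr : 0 < r) (hw : 0 ≤ w) (hP : 0 < P) (hg : r < (η - w) * g)
    (hg0 : 0 ≤ g) (hgP : 2 * g ≤ P) (hwa : w ≤ a) (hlm : 0 < l + 2 * m) :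
    ENNReal.ofReal (l * (2 * r * ((a - w) * (P - 2 * g)))) ≤
      volume (⋃ i ∈ Finset.range l, strip (fun s => f s - zig ((l + 2 * m : ℕ) * P) P η a s) r
        ((j * (l + 2 * m) + m + i : ℕ) * P + g) (((j * (l + 2 * m) + m + i : ℕ) + 1) * P - g)) := by
  set Δ : ℝ := (l + 2 * m : ℕ) * P with hΔ
  have hΔ0 : 0 < Δ := mul_pos (by exact_mod_cast hlm) hP
  have hfc : Continuous f := by
    refine (LipschitzWith.of_dist_le_mul (K := ⟨w, hw⟩) fun s t => ?_).continuous
    rw [Complex.dist_eq, Real.dist_eq]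
    exact hf s t
  have hF : Continuous fun s => f s - zig Δ P η a s := hfc.sub (zig_cont _ _ _ _)
  have hηw : 0 < η - w := by
    by_contra hn
    nlinarith
  have hwin : ∀ i < l, ∀ s ∈ Icc (((j * (l + 2 * m) + m + i : ℕ) : ℝ) * P + g)
      (((j * (l + 2 * m) + m + i : ℕ) + 1) * P - g), s ∈ Icc (j * Δ) ((j + 1) * Δ) := by
    intro i hi s hs
    have h1 : (i : ℝ) + 1 ≤ l := by exact_mod_cast hi
    have h2 : (0 : ℝ) ≤ m * P := by positivity
    have h3 : (0 : ℝ) ≤ i * P := by positivity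
    have h4 : ((i : ℝ) + 1) * P ≤ l * P := by gcongr
    rw [hΔ]
    obtain ⟨s1, s2⟩ := hs
    push_cast at s1 s2 ⊢
    constructor <;> nlinarith
  rw [measure_biUnion_finset ?_ fun i _ => strip_meas hF _ _ _]
  · rw [ENNReal.ofReal_mul (Nat.cast_nonneg l), ENNReal.ofReal_natCast]
    have : (l : ℝ≥0∞) * ENNReal.ofReal (2 * r * ((a - w) * (P - 2 * g))) =
        ∑ _i ∈ Finset.range l, ENNReal.ofReal (2 * r * ((a - w) * (P - 2 * g))) := by simp
    rw [this]
    refine Finset.sum_le_sum fun i _ => le_trans (ENNReal.ofReal_le_ofReal ?_)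
      (strip_vol hF hr.le (by linarith))
    set k : ℕ := j * (l + 2 * m) + m + i
    have h1 := tri_lane hP k (a := k * P + g) (b := (k + 1) * P - g) ⟨by linarith, by linarith⟩
      ⟨by linarith, by linarith⟩
    have h2 := hf ((k + 1) * P - g) (k * P + g)
    have e : ((k : ℝ) + 1) * P - g - (k * P + g) = P - 2 * g := by ring
    rw [e, abs_of_nonneg (by linarith)] at h1 h2
    have h3 := (Complex.abs_im_le_norm _).trans h2
    have h4 : a * (P - 2 * g) ≤ |a * (tri P ((k + 1) * P - g) - tri P (k * P + g))| := by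
      rw [abs_mul, abs_of_nonneg (by linarith)]
      exact mul_le_mul_of_nonneg_left h1 (by linarith)
    have e2 : (f ((k + 1) * P - g) - zig Δ P η a ((k + 1) * P - g)).im -
        (f (k * P + g) - zig Δ P η a (k * P + g)).im =
        (f ((k + 1) * P - g) - f (k * P + g)).im -
          a * (tri P ((k + 1) * P - g) - tri P (k * P + g)) := by
      simp [zig]
      ring
    rw [e2]
    have h5 := abs_sub_abs_le_abs_sub (a * (tri P ((k + 1) * P - g) - tri P (k * P + g)))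
      (f ((k + 1) * P - g) - f (k * P + g)).im
    rw [abs_sub_comm] at h5
    refine mul_le_mul_of_nonneg_left ?_ (by positivity)
    rw [abs_sub_comm]
    rw [abs_sub_comm] at h5
    nlinarith
  · intro i hi i' hi' hne
    rw [Function.onFun, Set.disjoint_left]
    rintro _ ⟨⟨s, u⟩, ⟨hs, hu⟩, rfl⟩ ⟨⟨s', u'⟩, ⟨hs', hu'⟩, he⟩
    have w1 := hwin i (Finset.mem_range.1 hi) s hs
    have w2 := hwin i' (Finset.mem_range.1 hi') s' hs'
    have h1 := tri_lane hΔ0 j w1 w2
    have h2 := (Complex.abs_re_le_norm _).trans (hf s' s)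
    have h3 : 2 * g ≤ |s' - s| := by
      obtain ⟨a1, a2⟩ := hs
      obtain ⟨b1, b2⟩ := hs'
      push_cast at a1 a2 b1 b2
      rcases lt_or_gt_of_ne hne with h | h
      · have : (i : ℝ) + 1 ≤ i' := by exact_mod_cast h
        have : ((i : ℝ) + 1) * P ≤ i' * P := by gcongr
        exact le_abs.2 (Or.inl (by linarith))
      · have : (i' : ℝ) + 1 ≤ i := by exact_mod_cast h
        have : ((i' : ℝ) + 1) * P ≤ i * P := by gcongr
        exact le_abs.2 (Or.inr (by linarith))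
    have h4 := congrArg Complex.re he
    simp only [zig, Complex.add_re, Complex.sub_re, Complex.ofReal_re, Complex.mul_re,
      Complex.I_re, Complex.I_im, Complex.ofReal_im, mul_zero, mul_one, sub_zero, add_zero] at h4
    have e : η * (tri Δ s' - tri Δ s) = (f s' - f s).re + (u' - u) := by
      rw [Complex.sub_re]
      linarith
    have h5 : η * |s' - s| ≤ |(f s' - f s).re| + |u' - u| := by
      calc _ ≤ η * |tri Δ s' - tri Δ s| := mul_le_mul_of_nonneg_left h1 (by linarith)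
        _ = |η * (tri Δ s' - tri Δ s)| := by rw [abs_mul, abs_of_nonneg (a := η) (by linarith)]
        _ ≤ _ := by rw [e]; exact abs_add_le _ _
    have h6 : |u' - u| ≤ 2 * r := abs_le.2 ⟨by linarith [hu.2, hu'.1], by linarith [hu.1, hu'.2]⟩
    have h7 : (η - w) * (2 * g) ≤ (η - w) * |s' - s| := mul_le_mul_of_nonneg_left h3 hηw.le
    linarith

theorem value_ge {A : ℂ} (hA : A ≠ 0) {r w P η a g ρm : ℝ} (l m N : ℕ) (ρ : ℕ → ℝ) (hr : 0 < r)
    (hw : 0 ≤ w) (hP : 0 < P) (hm : 0 < m) (hg : r < (η - w) * g) (hg0 : 0 ≤ g) (hgP : 2 * g ≤ P)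
    (hwa : w ≤ a) (hρm : 0 ≤ ρm) (hsp : ρm / (m * P) + η + a ≤ 1)
    (hρ : ∀ j < N, w * (‖A‖ + (j + 1) * ((l + 2 * m : ℕ) * P)) + η * ((l + 2 * m : ℕ) * P) +
      a * P + r < ρ j ∧ ρ j ≤ ρm) :
    ENNReal.ofReal (1 - Real.exp (-∑ j ∈ Finset.range N,
      l * (2 * r * ((a - w) * (P - 2 * g))) / (Real.pi * ρ j ^ 2))) ≤ value r w A := by
  set Δ : ℝ := (l + 2 * m : ℕ) * P with hΔ
  have hlm : 0 < l + 2 * m := by omega
  have hΔ0 : 0 < Δ := mul_pos (by exact_mod_cast hlm) hP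
  have hτ : (0 : ℝ) < m * P := mul_pos (by exact_mod_cast hm) hP
  have hηw : 0 < η - w := by
    by_contra hn
    nlinarith
  have hη : 0 ≤ η := by linarith
  have ha : 0 ≤ a := by linarith
  have hρ0 : ∀ j : Fin N, 0 < ρ j := fun j =>
    lt_of_le_of_lt (by positivity) (hρ j j.2).1
  let cc : (Fin N → ℂ) → ℕ → ℂ := fun c j =>
    if h : j < N then (if ‖c ⟨j, h⟩‖ ≤ ρm then c ⟨j, h⟩ else 0) else 0
  have hcc : ∀ c j, ‖cc c j‖ ≤ ρm := by
    intro c j
    simp only [cc]
    split_ifs with h1 h2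
    · exact h2
    · simpa using hρm
    · simpa using hρm
  have hccm : ∀ j, Measurable fun c => cc c j := by
    intro j
    simp only [cc]
    split_ifs with h1
    · exact Measurable.ite (measurableSet_le (by fun_prop) measurable_const) (by fun_prop)
        measurable_const
    · exact measurable_const
  let G : (Fin N → ℂ) → ℝ → ℂ := fun c s => base Δ (m * P) (cc c) s + zig Δ P η a s
  have hG0 : ∀ c, G c 0 = 0 := fun c => by simp [G, base, zig, tri_zero]
  have hG : ∀ c s t, 0 ≤ s → 0 ≤ t → ‖G c s - G c t‖ ≤ |s - t| := by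
    intro c s t hs ht
    have h1 := base_lip hΔ0 hτ hρm (cc c) (hcc c) hs ht
    have h2 := zig_lip Δ P hη ha s t
    have e : G c s - G c t = (base Δ (m * P) (cc c) s - base Δ (m * P) (cc c) t) +
        (zig Δ P η a s - zig Δ P η a t) := by
      simp only [G]
      ring
    rw [e]
    refine (norm_add_le _ _).trans ?_
    have := abs_nonneg (s - t)
    nlinarith
  let S : (Fin N → ℂ) → Traj A 1 := fun c =>
    ⟨fun t => goThen A (G c) t, goThen_zero A _ (hG0 c), fun s t => by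
      rw [one_mul, Complex.dist_eq, NNReal.dist_eq]
      exact goThen_lip hA _ (hG c) s t⟩
  have hS : Measurable S := by
    refine Measurable.subtype_mk (measurable_pi_lambda _ fun t => ?_)
    simp only [goThen, G, base]
    exact measurable_const.add ((measurable_const.mul (hccm _)).add measurable_const)
  have hprob : ∀ j : Fin N,
      IsProbabilityMeasure (ProbabilityTheory.cond volume (ball (0 : ℂ) (ρ j))) :=
    fun j => ProbabilityTheory.cond_isProbabilityMeasure_of_finite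
      (measure_ball_pos _ _ (hρ0 j)).ne' measure_ball_lt_top.ne
  let ν : Measure (Fin N → ℂ) :=
    Measure.pi fun j => ProbabilityTheory.cond volume (ball (0 : ℂ) (ρ j))
  have hν : IsProbabilityMeasure (ν.map S) := Measure.isProbabilityMeasure_map hS.aemeasurable
  refine le_trans ?_ (le_iSup _ (⟨ν.map S, hν⟩ : ProbabilityMeasure (Traj A 1)))
  refine le_iInf fun h => ?_
  refine le_trans ?_ (Measure.le_map_apply hS.aemeasurable _)
  let f : ℝ → ℂ := fun s => h.1 (‖A‖ + s).toNNReal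
  have hdist : ∀ s t : ℝ, dist s.toNNReal t.toNNReal ≤ |s - t| := fun s t => by
    rw [NNReal.dist_eq, Real.coe_toNNReal', Real.coe_toNNReal']
    exact abs_max_sub_max_le_abs s t 0
  have hf : ∀ s t, ‖f s - f t‖ ≤ w * |s - t| := by
    intro s t
    rw [← Complex.dist_eq]
    refine (h.2.2 _ _).trans (mul_le_mul_of_nonneg_left ((hdist _ _).trans ?_) hw)
    rw [add_sub_add_left_eq_sub]
  have hfn : ∀ s, 0 ≤ s → ‖f s‖ ≤ w * (‖A‖ + s) := by
    intro s hs
    have h1 := h.2.2 (‖A‖ + s).toNNReal 0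
    rw [h.2.1, dist_zero_right, NNReal.dist_eq, Real.coe_toNNReal _ (by positivity),
      NNReal.coe_zero, sub_zero, abs_of_nonneg (by positivity)] at h1
    exact h1
  have hfc : Continuous f := by
    refine (LipschitzWith.of_dist_le_mul (K := ⟨w, hw⟩) fun s t => ?_).continuous
    rw [Complex.dist_eq, Real.dist_eq]
    exact hf s t
  have hF : Continuous fun s => f s - zig Δ P η a s := hfc.sub (zig_cont _ _ _ _)
  let E : Fin N → Set ℂ := fun j => ⋃ i ∈ Finset.range l, strip (fun s => f s - zig Δ P η a s) r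
    ((j * (l + 2 * m) + m + i : ℕ) * P + g) (((j * (l + 2 * m) + m + i : ℕ) + 1) * P - g)
  have hmem : ∀ (j : Fin N), ∀ z ∈ E j, ∃ s u : ℝ, (j : ℕ) * Δ + m * P ≤ s ∧
      s + m * P ≤ ((j : ℕ) + 1) * Δ ∧ |u| ≤ r ∧ z = f s - zig Δ P η a s + u := by
    intro j z hz
    simp only [E, mem_iUnion] at hz
    obtain ⟨i, hi, ⟨s, u⟩, ⟨⟨s1, s2⟩, hu⟩, rfl⟩ := hz
    have h1 : (i : ℝ) + 1 ≤ l := by exact_mod_cast Finset.mem_range.1 hi
    have h3 : (0 : ℝ) ≤ i * P := by positivity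
    have h4 : ((i : ℝ) + 1) * P ≤ l * P := by gcongr
    refine ⟨s, u, ?_, ?_, abs_le.2 hu, rfl⟩
    · rw [hΔ]
      push_cast at s1 ⊢
      linarith
    · rw [hΔ]
      push_cast at s2 ⊢
      linarith
  have hsub : ∀ j, E j ⊆ ball 0 (ρ j) := by
    intro j z hz
    obtain ⟨s, u, s1, s2, hu, rfl⟩ := hmem j z hz
    have s0 : 0 ≤ s := le_trans (by positivity) s1
    rw [mem_ball_zero_iff]
    refine lt_of_le_of_lt ?_ (hρ j j.2).1
    have b1 := hfn s s0
    have b2 := zig_norm hΔ0 hP hη ha s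
    have b3 : w * (‖A‖ + s) ≤ w * (‖A‖ + ((j : ℕ) + 1) * Δ) :=
      mul_le_mul_of_nonneg_left (by linarith) hw
    have b4 := norm_add_le (f s - zig Δ P η a s) u
    have b5 := norm_sub_le (f s) (zig Δ P η a s)
    rw [Complex.norm_real, Real.norm_eq_abs] at b4
    linarith
  have hV0 : (0 : ℝ) ≤ l * (2 * r * ((a - w) * (P - 2 * g))) :=
    mul_nonneg (Nat.cast_nonneg l) (mul_nonneg (by positivity)
      (mul_nonneg (by linarith) (by linarith)))
  have hit := hit_prob N (fun j => ρ j) hρ0 E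
    (fun j => Finset.measurableSet_biUnion _ fun i _ => strip_meas hF _ _ _) hsub _ hV0
    (fun j => window_vol hf l m j hr hw hP hg hg0 hgP hwa hlm)
  rw [Finset.sum_range]
  refine hit.trans (measure_mono ?_)
  rintro c ⟨j, hj⟩
  obtain ⟨s, u, s1, s2, hu, hz⟩ := hmem j _ hj
  have s0 : 0 ≤ s := le_trans (by positivity) s1
  have hcj : ‖c j‖ ≤ ρm := (mem_ball_zero_iff.1 (hsub j hj)).le.trans (hρ j j.2).2
  refine ⟨(‖A‖ + s).toNNReal, ?_⟩
  change dist (goThen A (G c) ((‖A‖ + s).toNNReal : ℝ)) (f s) ≤ r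
  rw [Real.coe_toNNReal _ (by positivity), goThen_late hA _ s0]
  simp only [G]
  rw [base_mid hΔ0 hτ _ j s1 s2]
  have e : cc c j = c j := by simp [cc, hcj]
  rw [e, hz, Complex.dist_eq]
  have e2 : f s - zig Δ P η a s + u + zig Δ P η a s - f s = u := by ring
  rw [e2, Complex.norm_real, Real.norm_eq_abs]
  exact hu

end Pool.Agent.MP_66a317_pr

end
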